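import Mathlib

/-!
# Particle-hole duality: the finite algebra

Nodes `ι`, one body numbers `u`, node differences `d i j`, symmetric pair numbers `a i j`.
`wt u d a S = ∏ s ∈ S, u s / ∏ j ≠ s, d s j * ∏ pairs of S, a s t`.

* `PP_insert`: the product over the pairs of a set;
* **`wt_compl`**: `wt S = wt univ * (the same form for the complement with the hole numbers)`.
-/

set_option autoImplicit false

noncomputable section

open Finset

namespace Pool.Agent.PHD

variable {ι K : Type*} [LinearOrder ι] [Field K]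

/-- product over the pairs of `S` -/
def PP (a : ι → ι → K) (S : Finset ι) : K :=
  ∏ p ∈ (S ×ˢ S).filter (fun p => p.1 < p.2), a p.1 p.2

theorem PP_empty (a : ι → ι → K) : PP a ∅ = 1 := by simp [PP]

/-- product over the pairs of a set with one more element -/
theorem PP_insert {a : ι → ι → K} (ha : ∀ i j, a i j = a j i) {S : Finset ι} {s : ι} (h : s ∉ S) :
    PP a (insert s S) = (∏ t ∈ S, a s t) * PP a S := by
  unfold PP
  have e : ((insert s S) ×ˢ (insert s S)).filter (fun p => p.1 < p.2) =
      ((S ×ˢ S).filter (fun p => p.1 < p.2)) ∪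
        (((S.filter fun t => s < t).image fun t => (s, t)) ∪
          ((S.filter fun t => t < s).image fun t => (t, s))) := by
    ext ⟨x, y⟩
    simp only [mem_filter, mem_product, mem_insert, mem_union, mem_image, Prod.mk.injEq]
    constructor
    · rintro ⟨⟨h1 | h1, h2 | h2⟩, h3⟩
      · subst h1; subst h2; exact absurd h3 (lt_irrefl _)
      · subst h1
        exact Or.inr (Or.inl ⟨y, ⟨h2, h3⟩, rfl, rfl⟩)
      · subst h2
        exact Or.inr (Or.inr ⟨x, ⟨h1, h3⟩, rfl, rfl⟩)
      · exact Or.inl ⟨⟨h1, h2⟩, h3⟩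
    · rintro (⟨⟨h1, h2⟩, h3⟩ | ⟨t, ⟨h1, h2⟩, h3, h4⟩ | ⟨t, ⟨h1, h2⟩, h3, h4⟩)
      · exact ⟨⟨Or.inr h1, Or.inr h2⟩, h3⟩
      · subst h3; subst h4
        exact ⟨⟨Or.inl rfl, Or.inr h1⟩, h2⟩
      · subst h3; subst h4
        exact ⟨⟨Or.inr h1, Or.inl rfl⟩, h2⟩
  have d1 : Disjoint ((S ×ˢ S).filter (fun p : ι × ι => p.1 < p.2))
      (((S.filter fun t => s < t).image fun t => (s, t)) ∪
          ((S.filter fun t => t < s).image fun t => (t, s))) := by
    rw [Finset.disjoint_left]
    rintro ⟨x, y⟩ h1 h2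
    simp only [mem_filter, mem_product, mem_union, mem_image, Prod.mk.injEq] at h1 h2
    rcases h2 with ⟨t, _, h3, _⟩ | ⟨t, _, _, h3⟩
    · subst h3; exact h h1.1.1
    · subst h3; exact h h1.1.2
  have d2 : Disjoint ((S.filter fun t => s < t).image fun t => (s, t))
      ((S.filter fun t => t < s).image fun t => (t, s)) := by
    rw [Finset.disjoint_left]
    rintro ⟨x, y⟩ h1 h2
    simp only [mem_filter, mem_image, Prod.mk.injEq] at h1 h2
    obtain ⟨t, ⟨h3, h4⟩, h5, h6⟩ := h1
    obtain ⟨t', ⟨h7, h8⟩, h9, h10⟩ := h2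
    subst h5
    subst h9
    exact lt_irrefl _ h8
  rw [e, prod_union d1, prod_union d2, prod_image (fun x _ y _ h => by simpa using h),
    prod_image (fun x _ y _ h => by simpa using h), mul_comm]
  congr 1
  have e1 : ∏ x ∈ S.filter (fun t => t < s), a x s = ∏ x ∈ S.filter (fun t => ¬ s < t), a s x := by
    refine prod_congr ?_ fun x _ => ha x s
    ext x
    simp only [mem_filter, not_lt]
    constructor
    · rintro ⟨h1, h2⟩
      exact ⟨h1, h2.le⟩
    · rintro ⟨h1, h2⟩
      refine ⟨h1, lt_of_le_of_ne h2 ?_⟩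
      rintro rfl
      exact h h1
  rw [e1, prod_filter_mul_prod_filter_not]

/-- the pairs only see the values -/
theorem PP_congr {a b : ι → ι → K} {S : Finset ι} (h : ∀ i ∈ S, ∀ j ∈ S, i ≠ j → a i j = b i j) :
    PP a S = PP b S := by
  unfold PP
  refine prod_congr rfl fun p hp => ?_
  simp only [mem_filter, mem_product] at hp
  exact h _ hp.1.1 _ hp.1.2 hp.2.ne

theorem PP_mul (a b : ι → ι → K) (S : Finset ι) :
    PP (fun i j => a i j * b i j) S = PP a S * PP b S := by
  unfold PP
  rw [prod_mul_distrib]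

variable [Fintype ι]

/-- weight of a set of occupied nodes -/
def wt (u : ι → K) (d a : ι → ι → K) (S : Finset ι) : K :=
  (∏ s ∈ S, u s / ∏ j ∈ univ.erase s, d s j) * PP a S

theorem wt_empty (u : ι → K) (d a : ι → ι → K) : wt u d a ∅ = 1 := by simp [wt, PP_empty]

theorem wt_insert {u : ι → K} {d a : ι → ι → K} (ha : ∀ i j, a i j = a j i) {S : Finset ι} {s : ι}
    (h : s ∉ S) : wt u d a (insert s S) =
      (u s / ∏ j ∈ univ.erase s, d s j) * (∏ t ∈ S, a s t) * wt u d a S := by
  unfold wt
  rw [prod_insert h, PP_insert ha h]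
  ring

/-- the hole numbers -/
def hN (u : ι → K) (d a : ι → ι → K) (t : ι) : K :=
  (∏ j ∈ univ.erase t, d t j) / (u t * ∏ j ∈ univ.erase t, a t j)

/-- weight of a set of holes -/
def wh (u : ι → K) (d a : ι → ι → K) (T : Finset ι) : K := (∏ t ∈ T, hN u d a t) * PP a T

theorem wh_insert {u : ι → K} {d a : ι → ι → K} (ha : ∀ i j, a i j = a j i) {S : Finset ι} {s : ι}
    (h : s ∉ S) : wh u d a (insert s S) = hN u d a s * (∏ t ∈ S, a s t) * wh u d a S := by
  unfold wh
  rw [prod_insert h, PP_insert ha h]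
  ring

/-- **particle-hole duality**, the finite algebra -/
theorem wt_compl {u : ι → K} {d a : ι → ι → K} (ha : ∀ i j, a i j = a j i) (hu : ∀ i, u i ≠ 0)
    (hd : ∀ i j, i ≠ j → d i j ≠ 0) (h0 : ∀ i j, i ≠ j → a i j ≠ 0) (S : Finset ι) :
    wt u d a Sᶜ = wt u d a univ * wh u d a S := by
  induction S using Finset.induction_on with
  | empty => simp [wh, PP_empty]
  | insert s S h ih =>
    have e1 : Sᶜ = insert s (insert s S)ᶜ := by
      ext x
      simp only [mem_compl, mem_insert, not_or]
      constructor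
      · intro hx
        by_cases e : x = s
        · exact Or.inl e
        · exact Or.inr ⟨e, hx⟩
      · rintro (rfl | hx)
        · exact h
        · exact hx.2
    have e2 : s ∉ (insert s S)ᶜ := by simp
    rw [e1, wt_insert ha e2] at ih
    rw [wh_insert ha h]
    have e3 : univ.erase s = S ∪ (insert s S)ᶜ := by
      ext x
      simp only [mem_erase, mem_univ, and_true, mem_union, mem_compl, mem_insert, not_or]
      constructor
      · intro hx
        by_cases e : x ∈ S
        · exact Or.inl e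
        · exact Or.inr ⟨hx, e⟩
      · rintro (hx | hx)
        · rintro rfl
          exact h hx
        · exact hx.1
    have e4 : Disjoint S (insert s S)ᶜ := by
      rw [Finset.disjoint_left]
      intro x h1 h2
      simp only [mem_compl, mem_insert, not_or] at h2
      exact h2.2 h1
    have e5 : ∏ j ∈ univ.erase s, a s j = (∏ t ∈ S, a s t) * ∏ t ∈ (insert s S)ᶜ, a s t := by
      rw [e3, prod_union e4]
    have n1 : ∏ j ∈ univ.erase s, d s j ≠ 0 :=
      prod_ne_zero_iff.2 fun j hj => hd _ _ (ne_of_mem_erase hj).symm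
    have n2 : ∏ t ∈ S, a s t ≠ 0 := prod_ne_zero_iff.2 fun j hj => h0 _ _ (by
      rintro rfl
      exact h hj)
    have n3 : ∏ t ∈ (insert s S)ᶜ, a s t ≠ 0 := prod_ne_zero_iff.2 fun j hj => h0 _ _ (by
      rintro rfl
      exact e2 hj)
    have n4 := hu s
    unfold hN
    rw [e5]
    have key : wt u d a (insert s S)ᶜ = wt u d a univ * wh u d a S /
        ((u s / ∏ j ∈ univ.erase s, d s j) * (∏ t ∈ (insert s S)ᶜ, a s t)) := by
      rw [← ih, eq_div_iff (mul_ne_zero (div_ne_zero n4 n1) n3)]
      ring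
    rw [key]
    field_simp

end Pool.Agent.PHD

end
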