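import Pool.Agent.PHD.Two

/-!
# Capture of simple nodes

The particles have the nodes `c i` and the simple nodes `d j`; on the small contour only the `c i` are
inside.  `F' = F / ∏ j, (· - d j)` on the small contour.

* `sum_inPN`, `wS_union`; **`JJ_capt`**: one species; `JJ_move`: no `d`;
* **`JJ2_capt`**: in the field of the other species.
-/

set_option autoImplicit false
set_option linter.unusedVariables false
set_option linter.unusedSectionVars false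
set_option linter.style.haveILetI false

noncomputable section

open Finset MeasureTheory Filter Topology

namespace Pool.Agent.PHD

section fin

variable {ι ν : Type*} [LinearOrder ι] [Fintype ι] [LinearOrder ν] [Fintype ν]

theorem disj_PN (D : Finset ν) (T : Finset ι) : Disjoint (inP D : Finset (ι ⊕ₗ ν)) (inN T) := by
  rw [Finset.disjoint_left]
  intro x h1 h2
  obtain ⟨j, _, hj⟩ := mem_inP.1 h1
  obtain ⟨i, _, hi⟩ := mem_inN.1 h2
  rw [← hi] at hj
  simp at hj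

theorem union_PN (V : Finset (ι ⊕ₗ ν)) : inP (univ.filter fun j => (toLex (Sum.inr j) : ι ⊕ₗ ν) ∈ V) ∪
    inN (univ.filter fun i => (toLex (Sum.inl i) : ι ⊕ₗ ν) ∈ V) = V := by
  ext x
  rw [mem_union, mem_inP, mem_inN]
  constructor
  · rintro (⟨j, h1, h2⟩ | ⟨i, h1, h2⟩)
    · rw [← h2]
      exact (mem_filter.1 h1).2
    · rw [← h2]
      exact (mem_filter.1 h1).2
  · intro hx
    obtain ⟨y, rfl⟩ := toLex.surjective x
    rcases y with i | j
    · exact Or.inr ⟨i, mem_filter.2 ⟨mem_univ _, hx⟩, rfl⟩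
    · exact Or.inl ⟨j, mem_filter.2 ⟨mem_univ _, hx⟩, rfl⟩

theorem filt_P (D : Finset ν) (T : Finset ι) :
    (univ.filter fun j => (toLex (Sum.inr j) : ι ⊕ₗ ν) ∈ inP D ∪ inN T) = D := by
  ext j
  simp only [mem_filter, mem_univ, true_and, mem_union, mem_inP, mem_inN]
  constructor
  · rintro (⟨j', h1, h2⟩ | ⟨i, h1, h2⟩)
    · have : j' = j := by simpa using h2
      exact this ▸ h1
    · simp at h2
  · intro h
    exact Or.inl ⟨j, h, rfl⟩

theorem filt_N (D : Finset ν) (T : Finset ι) :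
    (univ.filter fun i => (toLex (Sum.inl i) : ι ⊕ₗ ν) ∈ inP D ∪ inN T) = T := by
  ext j
  simp only [mem_filter, mem_univ, true_and, mem_union, mem_inP, mem_inN]
  constructor
  · rintro (⟨j', h1, h2⟩ | ⟨i, h1, h2⟩)
    · simp at h2
    · have : i = j := by simpa using h2
      exact this ▸ h1
  · intro h
    exact Or.inr ⟨j, h, rfl⟩

theorem card_PN (D : Finset ν) (T : Finset ι) :
    (inP D ∪ inN T : Finset (ι ⊕ₗ ν)).card = D.card + T.card := by
  rw [card_union_of_disjoint (disj_PN D T)]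
  unfold inP inN
  rw [card_map, card_map]

/-- sets of nodes of `ι ⊕ₗ ν` are pairs -/
theorem sum_inPN (k : ℕ) (g : Finset (ι ⊕ₗ ν) → ℂ) :
    ∑ V ∈ powersetCard k (univ : Finset (ι ⊕ₗ ν)), g V =
      ∑ D ∈ (univ : Finset ν).powerset, if D.card ≤ k then
        ∑ T ∈ powersetCard (k - D.card) (univ : Finset ι), g (inP D ∪ inN T) else 0 := by
  rw [← sum_filter, sum_sigma']
  symm
  refine sum_nbij' (fun x => inP x.1 ∪ inN x.2)
    (fun V => ⟨univ.filter fun j => toLex (Sum.inr j) ∈ V,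
      univ.filter fun i => toLex (Sum.inl i) ∈ V⟩) ?_ ?_ ?_ ?_ (fun _ _ => rfl)
  · rintro ⟨D, T⟩ hx
    simp only [mem_sigma, mem_filter, mem_powersetCard, subset_univ, true_and] at hx ⊢
    rw [card_PN]
    omega
  · intro V hV
    simp only [mem_sigma, mem_filter, mem_powersetCard, subset_univ, true_and, mem_powerset] at hV ⊢
    have := card_PN (univ.filter fun j => (toLex (Sum.inr j) : ι ⊕ₗ ν) ∈ V)
      (univ.filter fun i => (toLex (Sum.inl i) : ι ⊕ₗ ν) ∈ V)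
    rw [union_PN] at this
    omega
  · rintro ⟨D, T⟩ _
    simp only [filt_P, filt_N]
  · intro V _
    exact union_PN V

/-- a set of simple nodes and a set of nodes -/
theorem wS_union {G G' q : ℂ → ℂ} (hq : ∀ z, q (-z) = q z) (c : ι → ℂ) (d : ν → ℂ)
    (he : ∀ i, G (c i) / ∏ j, (c i - d j) = G' (c i)) (D : Finset ν) (T : Finset ι) :
    wS G q (nd c d) (inP D ∪ inN T) =
      wG G q c d D * wS (fun z => G' z * ∏ j ∈ D, q (z - d j)) q c T := by
  have hu := wt_union (u := fun i => G (nd c d i)) (d := fun i j => nd c d i - nd c d j)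
    (a := fun i j => q (nd c d i - nd c d j)) (fun i j => by rw [← hq, neg_sub]) (disj_PN D T)
  have e1 : wS G q (nd c d) (inP D ∪ inN T) = _ := hu
  have e2 : (∏ t ∈ inN T, ∏ s ∈ inP D, q (nd c d t - nd c d s)) =
      ∏ t ∈ T, ∏ s ∈ D, q (c t - d s) := by
    unfold inN inP
    rw [prod_map]
    refine prod_congr rfl fun t _ => ?_
    rw [prod_map]
    rfl
  rw [e1, e2, wS_mul, ← wS_inP hq, ← wS_inN hq c d T he]
  rfl

end fin

section one

variable {Ξ Ξ' : Type*} [MeasurableSpace Ξ] [MeasurableSpace Ξ'] {ι ν : Type*}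
  [LinearOrder ι] [Fintype ι] [LinearOrder ν] [Fintype ν]
  {μ : Measure Ξ} {γ κ : Ξ → ℂ} {U S Ω V : Set ℂ} {φ w : ℂ → ℝ}
  {μ' : Measure Ξ'} {γ' κ' : Ξ' → ℂ} {U' S' Ω' V' : Set ℂ} {w' : ℂ → ℝ}

theorem Pq.mono {q : ℂ → ℂ} (hq : Pq q U S V φ) (sU : U' ⊆ U) (sS : S' ⊆ S) : Pq q U' S' V φ where
  oV := hq.oV
  dif z hz ζ hζ := hq.dif z (sU hz) ζ (sU hζ)
  an := hq.an
  even := hq.even
  bd := by
    obtain ⟨C, h1, h2⟩ := hq.bd
    exact ⟨C, h1, fun z hz ζ hζ => h2 z (sS hz) ζ (sS hζ)⟩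

/-- one more analytic family factor `∏ q (z - d j)`, the `d j` in the big region -/
theorem Fa.mul_qs {q : ℂ → ℂ} (hq : Pq q U S V φ) (hφ : ∀ z, 1 ≤ φ z) (sU : U' ⊆ U) (sS : S' ⊆ S)
    {k : ℕ} {F : (ι → ℂ) → ℂ → ℂ} (hF : Fa U' S' Ω' φ w' k F) {d : ν → ℂ} (hd : ∀ j, d j ∈ S)
    (hd' : ∀ j, d j ∈ U) (hw : ∀ z, 0 ≤ w' z) (D : Finset ν) (hD : D.card < k) :
    Fa U' S' Ω' φ w' (k - D.card) fun c z => F c z * ∏ j ∈ D, q (z - d j) := by
  have p : ∀ z, 0 ≤ φ z := fun z => zero_le_one.trans (hφ z)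
  have an : ∀ j, DifferentiableOn ℂ (fun z => q (z - d j)) U' := fun j =>
    hq.an.comp (by fun_prop) fun z hz => hq.dif z (sU hz) _ (hd' j)
  refine ⟨fun c hc => (hF.an c hc).mul (DifferentiableOn.fun_finsetProd fun j _ => an j), ?_, ?_⟩
  · refine hF.ct.mul (continuousOn_finsetProd _ fun j _ => ?_)
    exact (an j).continuousOn.comp (f := fun p : (ι → ℂ) × ℂ => p.2)
      continuous_snd.continuousOn fun p hp => hp.2
  · intro c0 hc0
    obtain ⟨C, h1, h2⟩ := hF.bd c0 hc0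
    obtain ⟨B, b0, hB⟩ := hq.bd
    have a5 : 0 ≤ ∏ j ∈ D, (B * φ (d j)) := prod_nonneg fun j _ => mul_nonneg b0 (p _)
    refine ⟨C * ∏ j ∈ D, (B * φ (d j)), mul_nonneg h1 a5, ?_⟩
    filter_upwards [h2] with c hc z hz
    have a1 : ∏ j ∈ D, ‖q (z - d j)‖ ≤ ∏ j ∈ D, ((B * φ (d j)) * φ z) :=
      prod_le_prod (fun _ _ => norm_nonneg _) fun j _ => (hB z (sS hz) _ (hd j)).trans
        (le_of_eq (by ring))
    rw [prod_mul_distrib, prod_const] at a1
    have a2 := hc z hz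
    have a3 : φ z ^ D.card * φ z ^ (k - D.card - 1) ≤ φ z ^ (k - 1) := by
      rw [← pow_add]
      exact pow_le_pow_right₀ (hφ z) (by omega)
    have a4 := p z
    rw [norm_mul, norm_prod]
    calc ‖F c z‖ * (∏ j ∈ D, ‖q (z - d j)‖) * φ z ^ (k - D.card - 1)
        ≤ ‖F c z‖ * ((∏ j ∈ D, (B * φ (d j))) * φ z ^ D.card) * φ z ^ (k - D.card - 1) := by gcongr
      _ = (‖F c z‖ * (φ z ^ D.card * φ z ^ (k - D.card - 1))) * ∏ j ∈ D, (B * φ (d j)) := by ring
      _ ≤ (‖F c z‖ * φ z ^ (k - 1)) * ∏ j ∈ D, (B * φ (d j)) := by gcongr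
      _ ≤ (C * w' z) * ∏ j ∈ D, (B * φ (d j)) := by gcongr
      _ = C * (∏ j ∈ D, (B * φ (d j))) * w' z := by ring

/-- **capture of simple nodes, one species** -/
theorem JJ_capt (h : Cg μ γ κ U S Ω φ w) (h' : Cg μ' γ' κ' U' S' Ω' φ w') (sU : U' ⊆ U)
    (sS : S' ⊆ S) {q : ℂ → ℂ} (hq : Pq q U S V φ) (q0 : q 0 = 0) {k : ℕ}
    {F F' : (ι → ℂ) → ℂ → ℂ} (hF : Fa U S Ω φ w k F) (hF' : Fa U' S' Ω' φ w' k F')
    {d : ν → ℂ} (hd : Function.Injective d) (hdΩ : ∀ j, d j ∈ Ω)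
    (he : ∀ c : ι → ℂ, (∀ i, c i ∈ Ω) → (∀ i, c i ∈ Ω') → Function.Injective c →
      (∀ i j, c i ≠ d j) → ∀ i, F c (c i) / ∏ j, (c i - d j) = F' c (c i))
    {c : ι → ℂ} (hc : ∀ i, c i ∈ Ω) (hc' : ∀ i, c i ∈ Ω') (hcd : ∀ i j, c i ≠ d j) :
    JJ μ γ κ (F c) q (Sum.elim c d) k / k.factorial =
      ∑ D ∈ (univ : Finset ν).powerset, if D.card ≤ k then wG (F c) q c d D *
        (JJ μ' γ' κ' (fun z => F' c z * ∏ j ∈ D, q (z - d j)) q c (k - D.card) /
          (k - D.card).factorial) else 0 := by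
  haveI := h.sf
  haveI := h'.sf
  have hq' : Pq q U' S' V φ := hq.mono sU sS
  have dS : ∀ j, d j ∈ S := fun j => h.sub (hdΩ j)
  have dU : ∀ j, d j ∈ U := fun j => h.sub' (dS j)
  set A : Set (ι → ℂ) := ({c : ι → ℂ | ∀ i, c i ∈ Ω} ∩ {c : ι → ℂ | ∀ i, c i ∈ Ω'}) ∩
    {c : ι → ℂ | ∀ i j, c i ≠ d j} with hA
  have oA : IsOpen A := by
    refine (h.oA.inter h'.oA).inter ?_
    have : {c : ι → ℂ | ∀ i j, c i ≠ d j} = ⋂ i, ⋂ j, {c : ι → ℂ | c i ≠ d j} := by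
      ext c
      simp
    rw [this]
    refine isOpen_iInter_of_finite fun i => isOpen_iInter_of_finite fun j => ?_
    exact isOpen_ne_fun (continuous_apply i) continuous_const
  have FD : ∀ D : Finset ν, D.card < k →
      Fa U' S' Ω' φ w' (k - D.card) fun c z => F' c z * ∏ j ∈ D, q (z - d j) := fun D hD =>
    hF'.mul_qs hq h.φ1 sU sS dS dU h'.w0 D hD
  have cL : ContinuousOn (fun c : ι → ℂ => JJ μ γ κ (F c) q (Sum.elim c d) k / k.factorial) A := by
    intro c0 hc0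
    refine ContinuousAt.continuousWithinAt (ContinuousAt.div_const ?_ _)
    refine h.JJ_tends hq (n := fun c => Sum.elim c d) (F := fun c => F c) ?_ ?_ k ?_ ?_ ?_
    · refine continuousAt_pi.2 fun x => ?_
      rcases x with i | j
      · exact (continuous_apply i).continuousAt
      · exact continuousAt_const
    · rintro (i | j)
      · exact hc0.1.1 i
      · exact hdΩ j
    · filter_upwards [h.oA.mem_nhds hc0.1.1] with c hc
      exact (hF.an c hc).continuousOn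
    · intro z hz
      have h2 : ContinuousOn (fun c : ι → ℂ => F c z) {c | ∀ i, c i ∈ Ω} :=
        hF.ct.comp (f := fun c : ι → ℂ => (c, z)) (by fun_prop) fun c hc => ⟨hc, h.sub' hz⟩
      exact h2.continuousAt (h.oA.mem_nhds hc0.1.1)
    · exact hF.bd c0 hc0.1.1
  have cR : ContinuousOn (fun c : ι → ℂ => ∑ D ∈ (univ : Finset ν).powerset, if D.card ≤ k then
      wG (F c) q c d D * (JJ μ' γ' κ' (fun z => F' c z * ∏ j ∈ D, q (z - d j)) q c (k - D.card) /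
          (k - D.card).factorial) else 0) A := by
    refine continuousOn_finsetSum _ fun D _ => ?_
    split_ifs with hD
    · refine ContinuousOn.mul ?_ (ContinuousOn.div_const ?_ _)
      · unfold wG
        refine ContinuousOn.mul (continuousOn_finsetProd _ fun j _ => ?_) continuousOn_const
        refine ContinuousOn.div ?_ (by fun_prop) ?_
        · exact hF.ct.comp (f := fun c : ι → ℂ => (c, d j)) (by fun_prop)
            fun c hc => ⟨hc.1.1, dU j⟩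
        · intro c hc
          refine mul_ne_zero (prod_ne_zero_iff.2 fun i _ => sub_ne_zero.2 (hc.2 i j).symm)
            (prod_ne_zero_iff.2 fun j' hj' => sub_ne_zero.2 fun e => ?_)
          exact (ne_of_mem_erase hj') (hd e).symm
      · rcases Nat.lt_or_ge D.card k with h1 | h1
        · exact (h'.JJ_cont hq' _ (FD D h1).ct (FD D h1).bd).mono fun c hc => hc.1.2
        · have : k - D.card = 0 := by omega
          rw [this]
          simp only [JJ_nil]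
          exact continuousOn_const
    · exact continuousOn_const
  refine Ctr.ext_inj (F := fun c => JJ μ γ κ (F c) q (Sum.elim c d) k / k.factorial)
    (G := fun c => ∑ D ∈ (univ : Finset ν).powerset, if D.card ≤ k then
      wG (F c) q c d D * (JJ μ' γ' κ' (fun z => F' c z * ∏ j ∈ D, q (z - d j)) q c (k - D.card) /
          (k - D.card).factorial) else 0) (A := A) oA cL cR ?_ ⟨⟨hc, hc'⟩, hcd⟩
  rintro c ⟨⟨h1, h2⟩, h3⟩ hi
  have f1 : ∀ n : ℕ, (n.factorial : ℂ) ≠ 0 := fun n => by exact_mod_cast n.factorial_ne_zero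
  set n : ι ⊕ₗ ν → ℂ := nd c d with hn
  have ni : Function.Injective n := by
    intro x y hxy
    obtain ⟨x, rfl⟩ := toLex.surjective x
    obtain ⟨y, rfl⟩ := toLex.surjective y
    rcases x with i | j <;> rcases y with i' | j'
    · have : c i = c i' := hxy
      rw [hi this]
    · exact absurd hxy (h3 i j')
    · exact absurd hxy.symm (h3 i' j)
    · have : d j = d j' := hxy
      rw [hd this]
  have nΩ : ∀ x, n x ∈ Ω := by
    intro x
    obtain ⟨x, rfl⟩ := toLex.surjective x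
    rcases x with i | j
    · exact h1 i
    · exact hdΩ j
  have e : JJ μ γ κ (F c) q (Sum.elim c d) k = JJ μ γ κ (F c) q n k :=
    (JJ_equiv (ofLex : ι ⊕ₗ ν ≃ ι ⊕ ν) μ γ κ (F c) q (Sum.elim c d) k).symm
  rw [e, h.JJ_eq ni nΩ hq q0 k (hF.adm h1), mul_div_cancel_left₀ _ (f1 k), sum_inPN]
  refine sum_congr rfl fun D _ => ?_
  split_ifs with hD
  · have e2 : JJ μ' γ' κ' (fun z => F' c z * ∏ j ∈ D, q (z - d j)) q c (k - D.card) /
        (k - D.card).factorial = ∑ T ∈ powersetCard (k - D.card) (univ : Finset ι),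
          wS (fun z => F' c z * ∏ j ∈ D, q (z - d j)) q c T := by
      rcases Nat.lt_or_ge D.card k with h4 | h4
      · rw [h'.JJ_eq hi h2 hq' q0 _ ((FD D h4).adm h2), mul_div_cancel_left₀ _ (f1 _)]
      · have : k - D.card = 0 := by omega
        rw [this, JJ_nil, powersetCard_zero, sum_singleton]
        simp [wS, wt_empty]
    rw [e2, mul_sum]
    exact sum_congr rfl fun T _ => wS_union hq.even c d (he c h1 h2 hi h3) D T
  · rfl

/-- change of the contour -/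
theorem JJ_move (h : Cg μ γ κ U S Ω φ w) (h' : Cg μ' γ' κ' U' S' Ω' φ w') (sU : U' ⊆ U)
    (sS : S' ⊆ S) {q : ℂ → ℂ} (hq : Pq q U S V φ) (q0 : q 0 = 0) {k : ℕ}
    {F F' : (ι → ℂ) → ℂ → ℂ} (hF : Fa U S Ω φ w k F) (hF' : Fa U' S' Ω' φ w' k F')
    (he : ∀ c : ι → ℂ, (∀ i, c i ∈ Ω) → (∀ i, c i ∈ Ω') → Function.Injective c →
      ∀ i, F c (c i) = F' c (c i)) {c : ι → ℂ} (hc : ∀ i, c i ∈ Ω) (hc' : ∀ i, c i ∈ Ω') :
    JJ μ γ κ (F c) q c k = JJ μ' γ' κ' (F' c) q c k :=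
  JJ_any h h' hq (hq.mono sU sS) q0 hF hF' he hc hc'

end one

/-! ### two species -/

section two

variable {Ξ Ξ' Ξ₂ : Type*} [MeasurableSpace Ξ] [MeasurableSpace Ξ'] [MeasurableSpace Ξ₂]
  {ι ν ι₂ : Type*} [LinearOrder ι] [Fintype ι] [LinearOrder ν] [Fintype ν] [Fintype ι₂]
  {μ : Measure Ξ} {γ κ : Ξ → ℂ} {U S Ω V : Set ℂ} {φ w : ℂ → ℝ}
  {μ' : Measure Ξ'} {γ' κ' : Ξ' → ℂ} {U' S' Ω' V' : Set ℂ} {w' : ℂ → ℝ}
  {μ₂ : Measure Ξ₂} {γ₂ κ₂ : Ξ₂ → ℂ} {U₂ S₂ Ω₂ V₂ : Set ℂ} {φ₂ w₂ : ℂ → ℝ}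
  {q g : ℂ → ℂ} {Vg : Set ℂ} {ψ ψ₂ : ℂ → ℝ}

theorem Xf.mono (hg : Xf g U U₂ S S₂ Vg ψ ψ₂) (sU : U' ⊆ U) (sS : S' ⊆ S) :
    Xf g U' U₂ S' S₂ Vg ψ ψ₂ where
  oV := hg.oV
  dif z hz ζ hζ := hg.dif z (sU hz) ζ hζ
  an := hg.an
  ne := hg.ne
  ψ1 := hg.ψ1
  ψ2 := hg.ψ2
  bd := by
    obtain ⟨B, h1, h2⟩ := hg.bd
    exact ⟨B, h1, fun z hz ζ hζ => h2 z (sS hz) ζ hζ⟩

/-- **capture of simple nodes in the field of the other species** -/
theorem JJ2_capt (h : Cg μ γ κ U S Ω φ w) (h' : Cg μ' γ' κ' U' S' Ω' φ w')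
    (h₂ : Cg μ₂ γ₂ κ₂ U₂ S₂ Ω₂ φ₂ w₂) (sU : U' ⊆ U) (sS : S' ⊆ S) (hq : Pq q U S V φ)
    (q0 : q 0 = 0) (hg : Xf g U U₂ S S₂ Vg ψ ψ₂) {k l : ℕ} {F F' : (ι → ℂ) → ℂ → ℂ}
    (hF : Fg U S Ω φ w k (fun z => ψ z ^ l) F) (hF' : Fg U' S' Ω' φ w' k (fun z => ψ z ^ l) F')
    {d : ν → ℂ} (hd : Function.Injective d) (hdΩ : ∀ j, d j ∈ Ω)
    (he : ∀ c : ι → ℂ, (∀ i, c i ∈ Ω) → (∀ i, c i ∈ Ω') → Function.Injective c →
      (∀ i j, c i ≠ d j) → ∀ i, F c (c i) / ∏ j, (c i - d j) = F' c (c i))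
    {c : ι → ℂ} (hc : ∀ i, c i ∈ Ω) (hc' : ∀ i, c i ∈ Ω') (hcd : ∀ i j, c i ≠ d j)
    {c₂ : ι₂ → ℂ} {f₂ : ℂ → ℂ}
    (i1 : Integrable (fun p : (Fin k → Ξ) × (Fin l → Ξ₂) =>
      I2 γ κ γ₂ κ₂ (F c) f₂ q g (Sum.elim c d) c₂ p)
      ((Measure.pi fun _ => μ).prod (Measure.pi fun _ => μ₂)))
    (i2 : ∀ D : Finset ν, D.card ≤ k → Integrable (fun p : (Fin (k - D.card) → Ξ') ×
      (Fin l → Ξ₂) => I2 γ' κ' γ₂ κ₂ (fun z => F' c z * ∏ j ∈ D, q (z - d j))
        (fun z => f₂ z * ∏ j ∈ D, g (d j - z)) q g c c₂ p)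
      ((Measure.pi fun _ => μ').prod (Measure.pi fun _ => μ₂))) :
    JJ2 μ γ κ μ₂ γ₂ κ₂ (F c) f₂ q g (Sum.elim c d) c₂ k l / k.factorial =
      ∑ D ∈ (univ : Finset ν).powerset, if D.card ≤ k then wG (F c) q c d D *
        (JJ2 μ' γ' κ' μ₂ γ₂ κ₂ (fun z => F' c z * ∏ j ∈ D, q (z - d j))
          (fun z => f₂ z * ∏ j ∈ D, g (d j - z)) q g c c₂ (k - D.card) l /
            (k - D.card).factorial) else 0 := by
  haveI := h.sf
  haveI := h'.sf
  haveI := h₂.sf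
  have hyS : ∀ (y : Fin l → Ξ₂) b, γ₂ (y b) ∈ S₂ := fun y b => h₂.mem _
  have hyU : ∀ (y : Fin l → Ξ₂) b, γ₂ (y b) ∈ U₂ := fun y b => h₂.sub' (h₂.mem _)
  have pφ : ∀ z, 0 ≤ φ z := fun z => zero_le_one.trans (h.φ1 z)
  have hg' : Xf g U' U₂ S' S₂ Vg ψ ψ₂ := hg.mono sU sS
  have FA : ∀ y : Fin l → Ξ₂, Fa U S Ω φ w k fun c z => F c z * fY γ₂ g y z := fun y =>
    hF.mul h.sub' pφ (hg.fY_an (hyU y)) (hg.fY_bd (hyS y))
  have GA : ∀ y : Fin l → Ξ₂, Fa U' S' Ω' φ w' k fun c z => F' c z * fY γ₂ g y z := fun y =>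
    hF'.mul h'.sub' pφ (hg'.fY_an (hyU y)) (hg'.fY_bd (hyS y))
  have key : ∀ y : Fin l → Ξ₂,
      JJ μ γ κ (fun z => F c z * fY γ₂ g y z) q (Sum.elim c d) k / k.factorial =
      ∑ D ∈ (univ : Finset ν).powerset, if D.card ≤ k then
        wG (fun z => F c z * fY γ₂ g y z) q c d D *
        (JJ μ' γ' κ' (fun z => (F' c z * fY γ₂ g y z) * ∏ j ∈ D, q (z - d j)) q c (k - D.card) /
          (k - D.card).factorial) else 0 := by
    intro y
    refine JJ_capt h h' sU sS hq q0 (F := fun c z => F c z * fY γ₂ g y z)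
      (F' := fun c z => F' c z * fY γ₂ g y z) (FA y) (GA y) hd hdΩ ?_ hc hc' hcd
    intro c h1 h2 h3 h4 i
    rw [← he c h1 h2 h3 h4 i]
    ring
  have eR : ∀ y : Fin l → Ξ₂, oP γ₂ κ₂ f₂ q c₂ y *
      JJ μ γ κ (fun z => F c z * fY γ₂ g y z) q (Sum.elim c d) k =
      (k.factorial : ℂ) * ∑ D ∈ (univ : Finset ν).powerset, if D.card ≤ k then
        (wG (F c) q c d D / (k - D.card).factorial *
          (oP γ₂ κ₂ (fun z => f₂ z * ∏ j ∈ D, g (d j - z)) q c₂ y *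
            JJ μ' γ' κ' (fun z => (F' c z * ∏ j ∈ D, q (z - d j)) * fY γ₂ g y z) q c
              (k - D.card))) else 0 := by
    intro y
    have f1 : (k.factorial : ℂ) ≠ 0 := by exact_mod_cast k.factorial_ne_zero
    have e1 := key y
    rw [div_eq_iff f1] at e1
    rw [e1, sum_mul, mul_sum, mul_sum]
    refine sum_congr rfl fun D _ => ?_
    split_ifs with hD
    · have e3 : wG (fun z => F c z * fY γ₂ g y z) q c d D =
          wG (F c) q c d D * ∏ j ∈ D, fY γ₂ g y (d j) := by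
        unfold wG
        have : ∀ j, F c (d j) * fY γ₂ g y (d j) /
            ((∏ i, (d j - c i)) * ∏ j' ∈ univ.erase j, (d j - d j')) =
            F c (d j) / ((∏ i, (d j - c i)) * ∏ j' ∈ univ.erase j, (d j - d j')) *
              fY γ₂ g y (d j) := fun j => by ring
        simp only [this]
        rw [prod_mul_distrib]
        ring
      have e4 : (fun z => (F' c z * fY γ₂ g y z) * ∏ j ∈ D, q (z - d j)) =
          fun z => (F' c z * ∏ j ∈ D, q (z - d j)) * fY γ₂ g y z := by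
        funext z
        ring
      have e5 : ∏ b, ∏ j ∈ D, g (d j - γ₂ (y b)) = ∏ j ∈ D, fY γ₂ g y (d j) := by
        rw [Finset.prod_comm]
        rfl
      rw [e3, e4, oP_mul γ₂ κ₂ f₂ (fun z => ∏ j ∈ D, g (d j - z)), e5]
      ring
    · ring
  rw [JJ2_fubI i1]
  simp only [eR]
  have f1 : (k.factorial : ℂ) ≠ 0 := by exact_mod_cast k.factorial_ne_zero
  rw [integral_const_mul, integral_finsetSum, mul_div_cancel_left₀ _ f1]
  · refine sum_congr rfl fun D _ => ?_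
    split_ifs with hD
    · rw [integral_const_mul, ← JJ2_fubI (i2 D hD)]
      ring
    · simp
  · intro D _
    split_ifs with hD
    · exact (intI_fub (i2 D hD)).const_mul _
    · exact integrable_zero _ _ _

end two

end Pool.Agent.PHD

end
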