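import Pool.Agent.PHD.Hol
import Pool.Agent.PHK.Lines

/-!
# The holes on two full lines: instances in the literal form of `PHK.lines_cg`

`x false < x true`: the two lines; `a < x false`, `x true < b`: the open neighbourhood, `b - a ≤ l`.
-/

set_option autoImplicit false

noncomputable section

open Finset MeasureTheory Filter Topology

namespace Pool.Agent.PHD

open NUP1 (l)

/-- `‖F z‖ * φ z ^ m ≤ C w z` with equal functions -/
theorem Fa.congr {ι : Type*} {U S Ω : Set ℂ} {φ φ' w w' : ℂ → ℝ} {k : ℕ} {F : (ι → ℂ) → ℂ → ℂ}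
    (h : Fa U S Ω φ w k F) (h1 : ∀ z, φ z = φ' z) (h2 : ∀ z, w z = w' z) : Fa U S Ω φ' w' k F := by
  rwa [show φ' = φ from (funext h1).symm, show w' = w from (funext h2).symm]

/-- differences of two strips -/
theorem sub_Vl {a b x y : ℝ} (h1 : b - x ≤ l) (h2 : y - a ≤ l) :
    ∀ z ∈ NUP1.OS a b, ∀ w ∈ NUP1.OS x y, z - w ∈ Vl := by
  rintro z ⟨h3, h4⟩ w ⟨h5, h6⟩
  show |(z - w).re| < l
  rw [Complex.sub_re, abs_lt]
  constructor <;> linarith

theorem sub_dl {x y : ℝ} : ∀ z ∈ NUP1.CS x y, ∀ w ∈ NUP1.CS x y, |(z - w).re| ≤ y - x := by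
  rintro z ⟨h3, h4⟩ w ⟨h5, h6⟩
  rw [Complex.sub_re, abs_le]
  constructor <;> linarith

/-- **`Rf` on the strip** -/
theorem rf_lines {a b : ℝ} (hab : b - a ≤ l) : Rf NUP1.q qr (NUP1.OS a b) Vl :=
  rf_q (sub_Vl (by linarith) (by linarith))

/-- **`Pq` on the strip**, literal form -/
theorem pq_lines {a b x y : ℝ} (hab : b - a ≤ l) (hxy : y - x < l) :
    Pq NUP1.q (NUP1.OS a b) (NUP1.CS x y) Vl fun z => Real.exp (2 * |z.im|) :=
  pq_q (sub_Vl (by linarith) (by linarith)) hxy sub_dl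

/-- **the holes on two full lines**, literal form -/
theorem fa_lines {ι : Type*} [Fintype ι] (hN : Even (Fintype.card ι)) {a b x y : ℝ} (ha : a < x) (hb : y < b)
    (hxy : x ≤ y) (hab : b - a ≤ l) {g δ : ℝ} {m : ℕ}
    (hδ : δ + g + 2 * ((m - 1 : ℕ) : ℝ) < 2 * Fintype.card ι + 6) {G : (ι → ℂ) → ℂ → ℂ}
    (hG : Gf (NUP1.OS a b) (NUP1.CS x y) (NUP1.OS x y) g G) :
    Fa (NUP1.OS a b) (NUP1.CS x y) (NUP1.OS x y) (fun z => Real.exp (2 * |z.im|))
      (fun z => Real.exp (-(δ * |z.im|))) m (hol G qr) := by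
  refine Fa.congr (fa_hole hN (show NUP1.CS x y ⊆ NUP1.OS a b from
    fun z hz => ⟨ha.trans_le hz.1, hz.2.trans_lt hb⟩) (NUP1.isOpen_OS _ _)
    (sub_Vl (by linarith) (by linarith)) (d := y - x) (by linarith) (by linarith)
    (fun z hz w hw => sub_dl z hz w ⟨hw.1.le, hw.2.le⟩) hδ hG) (fun _ => rfl) fun z => ?_
  unfold wl
  rw [neg_mul]

/-- the integrand of `m` holes on the lines is integrable -/
theorem int_holes {ι : Type*} [Fintype ι] (hN : Even (Fintype.card ι)) {a b : ℝ} {x : Bool → ℝ}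
    (hx : x false < x true) (ha : a < x false) (hb : x true < b) (hab : b - a ≤ l) {g δ : ℝ} (hδ0 : 0 < δ) {m : ℕ}
    (hδ : δ + g + 2 * ((m - 1 : ℕ) : ℝ) < 2 * Fintype.card ι + 6) {G : (ι → ℂ) → ℂ → ℂ}
    (hG : Gf (NUP1.OS a b) (NUP1.CS (x false) (x true)) (NUP1.OS (x false) (x true)) g G) {c : ι → ℂ}
    (hc : ∀ i, c i ∈ NUP1.OS (x false) (x true)) :
    Integrable (fun y : Fin m → Bool × ℝ => (∏ i, one (PHK.lG x) PHK.lK (hol G qr c) c (y i)) *
      QP NUP1.q fun i => PHK.lG x (y i)) (Measure.pi fun _ => PHK.lM) := by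
  have hl : l < Real.pi := by
    rw [l_eq]
    linarith [Real.pi_pos]
  have h := PHK.lines_cg hx (by linarith) ha hb (p := 2) (by norm_num) hδ0
  exact h.int_JJ hc (pq_lines hab (by linarith)) m ((fa_lines hN ha hb hx.le hab hδ hG).adm hc)

end Pool.Agent.PHD

end
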