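import Pool.Agent.PHD.Sea
import Pool.Agent.PHD.HolL
import Pool.Agent.PHK.RectCtr
import Pool.Agent.NUP1.Bounds

/-!
# Particle-hole duality for two species: rectangles and full lines, literal form

Particles of both species on the boundary of the rectangle `[x, y] × [-R, R]`, holes on the two full
lines `Re = xl false`, `Re = xl true`, with `xl false ≤ x`, `y ≤ xl true`, inside the open strip
`OS a b`, `b - a ≤ l`; pair functions `NUP1.q`, `NUP1.Bd.qg`.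

* `gp_qg`, `q_exp`; **`sea_lines`**, `int_sea_lines`.
-/

set_option autoImplicit false
set_option linter.unusedVariables false
set_option linter.unusedSectionVars false

noncomputable section

open Finset MeasureTheory Filter Topology

namespace Pool.Agent.PHD

open NUP1 (l)

theorem qg_even (z : ℂ) : NUP1.Bd.qg (-z) = NUP1.Bd.qg z := by
  unfold NUP1.Bd.qg
  rw [Complex.cos_neg, show -z + 3 * (l : ℂ) = -(z - 3 * l) by ring,
    show -z - 3 * (l : ℂ) = -(z + 3 * l) by ring, Complex.sin_neg, Complex.sin_neg]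
  ring

theorem qg_sin {z : ℂ} (hz : z ∈ Vl) : Real.sin l ≤ |Real.sin (z.re + 3 * l)| ∧
    Real.sin l ≤ |Real.sin (z.re - 3 * l)| := by
  have hz' : |z.re| < l := hz
  obtain ⟨a, b⟩ := abs_lt.1 hz'
  have hl := l_eq
  have hpi := Real.pi_pos
  constructor
  · exact (sin_mono (x := l) (y := z.re + 3 * l) (by linarith) (by linarith) (by linarith)).trans
      (le_abs_self _)
  · have h1 := sin_mono (x := l) (y := 3 * l - z.re) (by linarith) (by linarith) (by linarith)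
    rw [show z.re - 3 * l = -(3 * l - z.re) by ring, Real.sin_neg, abs_neg]
    exact h1.trans (le_abs_self _)

theorem qg_cos {z : ℂ} (hz : z ∈ Vl) : Real.sin l * (Real.exp |z.im| / 2) ≤ ‖Complex.cos z‖ := by
  have hz' : |z.re| < l := hz
  obtain ⟨a, b⟩ := abs_lt.1 hz'
  have hl := l_eq
  have hpi := Real.pi_pos
  have h1 := sin_low (z + Real.pi / 2)
  have e1 : Complex.sin (z + Real.pi / 2) = Complex.cos z := Complex.sin_add_pi_div_two z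
  have e2 : (z + Real.pi / 2 : ℂ).im = z.im := by
    have : ((Real.pi : ℂ) / 2).im = 0 := by
      rw [show ((Real.pi : ℂ) / 2) = ((Real.pi / 2 : ℝ) : ℂ) by push_cast; ring]
      exact Complex.ofReal_im _
    rw [Complex.add_im, this, add_zero]
  have e3 : (z + Real.pi / 2 : ℂ).re = z.re + Real.pi / 2 := by
    have : ((Real.pi : ℂ) / 2).re = Real.pi / 2 := by
      rw [show ((Real.pi : ℂ) / 2) = ((Real.pi / 2 : ℝ) : ℂ) by push_cast; ring]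
      exact Complex.ofReal_re _
    rw [Complex.add_re, this]
  rw [e1, e2, e3] at h1
  refine le_trans (mul_le_mul_of_nonneg_right ?_ (by positivity)) h1
  rw [Real.sin_add_pi_div_two, ← Real.cos_abs]
  refine le_trans ?_ (le_abs_self _)
  have h2 : Real.sin l = Real.cos (Real.pi / 2 - l) := (Real.cos_pi_div_two_sub l).symm
  rw [h2]
  exact Real.cos_le_cos_of_nonneg_of_le_pi (abs_nonneg _) (by linarith) (by linarith)

theorem s0 : 0 < Real.sin l :=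
  Real.sin_pos_of_pos_of_lt_pi l_pos' (by rw [l_eq]; linarith [Real.pi_pos])

theorem im3 (z : ℂ) : (z + 3 * (l : ℂ)).im = z.im ∧ (z - 3 * (l : ℂ)).im = z.im ∧
    (z + 3 * (l : ℂ)).re = z.re + 3 * l ∧ (z - 3 * (l : ℂ)).re = z.re - 3 * l := by
  refine ⟨by simp, by simp, by simp, by simp⟩

theorem qg_low3 {z : ℂ} (hz : z ∈ Vl) :
    Real.sin l * (Real.exp |z.im| / 2) ≤ ‖Complex.sin (z + 3 * l)‖ ∧
    Real.sin l * (Real.exp |z.im| / 2) ≤ ‖Complex.sin (z - 3 * l)‖ := by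
  obtain ⟨i1, i2, r1, r2⟩ := im3 z
  obtain ⟨h1, h2⟩ := qg_sin hz
  have l1 := sin_low (z + 3 * l)
  have l2 := sin_low (z - 3 * l)
  rw [i1, r1] at l1
  rw [i2, r2] at l2
  exact ⟨(mul_le_mul_of_nonneg_right h1 (by positivity)).trans l1,
    (mul_le_mul_of_nonneg_right h2 (by positivity)).trans l2⟩

theorem qg_ne {z : ℂ} (hz : z ∈ Vl) : NUP1.Bd.qg z ≠ 0 := by
  have := s0
  obtain ⟨h1, h2⟩ := qg_low3 hz
  have h3 := qg_cos hz
  have p : 0 < Real.sin l * (Real.exp |z.im| / 2) := by positivity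
  unfold NUP1.Bd.qg
  exact div_ne_zero (pow_ne_zero _ (norm_pos_iff.1 (p.trans_le h3)))
    (mul_ne_zero (pow_ne_zero _ (norm_pos_iff.1 (p.trans_le h1)))
      (pow_ne_zero _ (norm_pos_iff.1 (p.trans_le h2))))

theorem qg_an : DifferentiableOn ℂ NUP1.Bd.qg Vl := by
  have := s0
  unfold NUP1.Bd.qg
  refine DifferentiableOn.div (by fun_prop) (by fun_prop) fun z hz => ?_
  obtain ⟨h1, h2⟩ := qg_low3 hz
  have p : 0 < Real.sin l * (Real.exp |z.im| / 2) := by positivity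
  exact mul_ne_zero (pow_ne_zero _ (norm_pos_iff.1 (p.trans_le h1)))
      (pow_ne_zero _ (norm_pos_iff.1 (p.trans_le h2)))

theorem qg_up : ∃ B : ℝ, 0 ≤ B ∧ ∀ z ∈ Vl, ‖NUP1.Bd.qg z‖ ≤ B * Real.exp (-(2 * |z.im|)) := by
  have hs := s0
  set s := Real.sin l with hs'
  refine ⟨16 / s ^ 4, by positivity, fun z hz => ?_⟩
  obtain ⟨h1, h2⟩ := qg_low3 hz
  rw [← hs'] at h1 h2
  have h3 : ‖Complex.cos z‖ ≤ Real.exp |z.im| := by
    have e1 : Complex.sin (z + Real.pi / 2) = Complex.cos z := Complex.sin_add_pi_div_two z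
    have h4 := sin_up (z + Real.pi / 2)
    have e2 : (z + Real.pi / 2 : ℂ).im = z.im := by
      have : ((Real.pi : ℂ) / 2).im = 0 := by
        rw [show ((Real.pi : ℂ) / 2) = ((Real.pi / 2 : ℝ) : ℂ) by push_cast; ring]
        exact Complex.ofReal_im _
      rw [Complex.add_im, this, add_zero]
    rwa [e1, e2] at h4
  set E := Real.exp |z.im| with hE
  have E0 : 0 < E := Real.exp_pos _
  have hEE : Real.exp (-(2 * |z.im|)) = (E ^ 2)⁻¹ := by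
    rw [Real.exp_neg, hE, ← Real.exp_nat_mul]
    norm_num
  unfold NUP1.Bd.qg
  rw [norm_div, norm_mul, norm_pow, norm_pow, norm_pow, hEE]
  calc ‖Complex.cos z‖ ^ 2 / (‖Complex.sin (z + 3 * l)‖ ^ 2 * ‖Complex.sin (z - 3 * l)‖ ^ 2)
      ≤ E ^ 2 / ((s * (E / 2)) ^ 2 * (s * (E / 2)) ^ 2) := by gcongr
    _ = 16 / s ^ 4 * (E ^ 2)⁻¹ := by field_simp; ring

theorem qg_lo : ∃ B : ℝ, 0 ≤ B ∧ ∀ z ∈ Vl, ‖(NUP1.Bd.qg z)⁻¹‖ ≤ B * Real.exp (2 * |z.im|) := by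
  have hs := s0
  set s := Real.sin l with hs'
  refine ⟨4 / s ^ 2, by positivity, fun z hz => ?_⟩
  obtain ⟨i1, i2, _, _⟩ := im3 z
  have h1 := sin_up (z + 3 * l)
  have h2 := sin_up (z - 3 * l)
  rw [i1] at h1
  rw [i2] at h2
  have h3 := qg_cos hz
  rw [← hs'] at h3
  set E := Real.exp |z.im| with hE
  have E0 : 0 < E := Real.exp_pos _
  have hEE : Real.exp (2 * |z.im|) = E ^ 2 := by
    rw [hE, ← Real.exp_nat_mul]
    norm_num
  have p : 0 < ‖Complex.cos z‖ := lt_of_lt_of_le (by positivity) h3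
  unfold NUP1.Bd.qg
  rw [norm_inv, norm_div, norm_mul, norm_pow, norm_pow, norm_pow, hEE, inv_div]
  calc ‖Complex.sin (z + 3 * l)‖ ^ 2 * ‖Complex.sin (z - 3 * l)‖ ^ 2 / ‖Complex.cos z‖ ^ 2
      ≤ E ^ 2 * E ^ 2 / (s * (E / 2)) ^ 2 := by gcongr
    _ = 4 / s ^ 2 * E ^ 2 := by field_simp; ring

/-- **the cross pair function on the strips** -/
theorem gp_qg {𝒰 𝒮 : Set ℂ} (h : ∀ z ∈ 𝒰, ∀ w ∈ 𝒰, z - w ∈ Vl) (hS : 𝒮 ⊆ 𝒰) :
    Gp NUP1.Bd.qg 𝒰 𝒮 Vl where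
  oV := isOpen_Vl
  dif := h
  an := qg_an
  even := qg_even
  ne z hz := qg_ne hz
  up := by
    obtain ⟨B, b0, hB⟩ := qg_up
    exact ⟨B, b0, fun z hz ζ hζ => hB _ (h z (hS hz) ζ (hS hζ))⟩
  lo := by
    obtain ⟨B, b0, hB⟩ := qg_lo
    exact ⟨B, b0, fun z hz ζ hζ => hB _ (h z (hS hz) ζ (hS hζ))⟩

/-- the own pair function on the strips -/
theorem q_exp {x y : ℝ} (h : y - x < l) : ∃ B : ℝ, 0 ≤ B ∧ ∀ z ∈ NUP1.CS x y, ∀ ζ ∈ NUP1.CS x y,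
    ‖NUP1.q (z - ζ)‖ ≤ B * Real.exp (2 * |(z - ζ).im|) := by
  obtain ⟨B, b0, hB⟩ := q_up h
  exact ⟨B, b0, fun z hz ζ hζ => hB _ (sub_dl z hz ζ hζ)⟩

section lines

variable {ι ν ι₂ ν₂ : Type*} [LinearOrder ι] [Fintype ι] [LinearOrder ν] [Fintype ν]
  [LinearOrder ι₂] [Fintype ι₂] [LinearOrder ν₂] [Fintype ν₂]
  {a b x y R δ : ℝ} {xl : Bool → ℝ}

/-- **particle-hole duality for two species, rectangles and full lines** -/
theorem sea_lines (ha : a < xl false) (hx : xl false ≤ x) (hxy : x < y) (hy : y ≤ xl true)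
    (hb : xl true < b) (hab : b - a ≤ l) (hR : 0 < R) (hδ : 0 < δ)
    {k m k₂ m₂ : ℕ} (hk : k + m = Fintype.card ι) (hk₂ : k₂ + m₂ = Fintype.card ι₂)
    {F G : (ι → ℂ) → ℂ → ℂ} {F₂ G₂ : (ι₂ → ℂ) → ℂ → ℂ} {α α₂ : ℝ}
    (hα : δ + 2 * m + 2 * k₂ ≤ α) (hα₂ : δ + 2 * m₂ + 2 * k ≤ α₂)
    (hF : Fa (NUP1.OS a b) (PHK.rK x y R) (PHK.rI x y R) (fun _ => 1) (fun _ => 1) k F)
    (hG : Gf (NUP1.OS a b) (NUP1.CS (xl false) (xl true)) (NUP1.OS (xl false) (xl true)) (-α) G)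
    (hF₂ : Fa (NUP1.OS a b) (PHK.rK x y R) (PHK.rI x y R) (fun _ => 1) (fun _ => 1) k₂ F₂)
    (hG₂ : Gf (NUP1.OS a b) (NUP1.CS (xl false) (xl true)) (NUP1.OS (xl false) (xl true)) (-α₂) G₂)
    (h0 : ∀ c : ι → ℂ, (∀ i, c i ∈ PHK.rI x y R) → ∀ i, F c (c i) ≠ 0)
    (h0₂ : ∀ c : ι₂ → ℂ, (∀ i, c i ∈ PHK.rI x y R) → ∀ i, F₂ c (c i) ≠ 0)
    {d : ν → ℂ} (hd : Function.Injective d) (hdΩ : ∀ j, d j ∈ NUP1.OS (xl false) (xl true))
    {d₂ : ν₂ → ℂ} (hd₂ : Function.Injective d₂) (hdΩ₂ : ∀ j, d₂ j ∈ NUP1.OS (xl false) (xl true))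
    (he : ∀ c : ι → ℂ, (∀ i, c i ∈ PHK.rI x y R) → Function.Injective c →
      (∀ i j, c i ≠ d j) → ∀ i, G c (c i) / ∏ j, (c i - d j) = fH (F c) qr c (c i))
    (he₂ : ∀ c : ι₂ → ℂ, (∀ i, c i ∈ PHK.rI x y R) → Function.Injective c →
      (∀ i j, c i ≠ d₂ j) → ∀ i, G₂ c (c i) / ∏ j, (c i - d₂ j) = fH (F₂ c) qr c (c i))
    {c : ι → ℂ} (hc : ∀ i, c i ∈ PHK.rI x y R) (hcd : ∀ i j, c i ≠ d j)
    {c₂ : ι₂ → ℂ} (hc₂ : ∀ i, c₂ i ∈ PHK.rI x y R) (hcd₂ : ∀ i j, c₂ i ≠ d₂ j) :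
    JJ2 PHK.rM (NUP1S.rP x y R) (fun t => -NUP1S.rO x y R t) PHK.rM (NUP1S.rP x y R)
        (fun t => -NUP1S.rO x y R t) (F c) (F₂ c₂) NUP1.q NUP1.Bd.qg c c₂ k k₂ /
          (k.factorial * k₂.factorial) =
      WW (F c) qr c * WW (F₂ c₂) qr c₂ * (∏ i, ∏ i', NUP1.Bd.qg (c i - c₂ i')) *
        ∑ D ∈ (univ : Finset ν).powerset, ∑ D₂ ∈ (univ : Finset ν₂).powerset,
          if D.card ≤ m ∧ D₂.card ≤ m₂ then (-1 : ℂ) ^ (D.card + D₂.card) *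
            (wG (gN (G c) NUP1.Bd.qg c₂) NUP1.q c d D *
              wG (gN (G₂ c₂) NUP1.Bd.qg c) NUP1.q c₂ d₂ D₂ *
              ∏ j ∈ D, ∏ j' ∈ D₂, NUP1.Bd.qg (d j - d₂ j')) *
            (JJ2 PHK.lM (PHK.lG xl) PHK.lK PHK.lM (PHK.lG xl) PHK.lK
              (hX (G c) NUP1.q NUP1.Bd.qg d D c₂ d₂ D₂) (hX (G₂ c₂) NUP1.q NUP1.Bd.qg d₂ D₂ c d D)
              NUP1.q NUP1.Bd.qg (Sum.elim c d) (Sum.elim c₂ d₂) (m - D.card) (m₂ - D₂.card) /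
              ((m - D.card).factorial * (m₂ - D₂.card).factorial)) else 0 := by
  have hl : l < Real.pi := by
    rw [l_eq]
    linarith [Real.pi_pos]
  have hxl : xl false < xl true := by linarith
  have sub1 : PHK.rK x y R ⊆ NUP1.OS a b := fun z hz =>
    ⟨by linarith [hz.1], by linarith [hz.2.1]⟩
  have sub2 : PHK.rK x y R ⊆ NUP1.CS (xl false) (xl true) := fun z hz =>
    ⟨by linarith [hz.1], by linarith [hz.2.1]⟩
  have sub3 : NUP1.CS (xl false) (xl true) ⊆ NUP1.OS a b := fun z hz =>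
    ⟨ha.trans_le hz.1, hz.2.trans_lt hb⟩
  have sub4 : ∀ z ∈ PHK.rI x y R, z ∈ NUP1.OS (xl false) (xl true) := fun z hz =>
    ⟨by linarith [hz.1], by linarith [hz.2.1]⟩
  have hA := PHK.rect_cg (R := R) hxy (by linarith) hR (NUP1.isOpen_OS a b) sub1
  have hA' := PHK.lines_cg hxl (by linarith) ha hb (p := 2) (by norm_num) hδ
  have hr : Rf NUP1.q qr (NUP1.OS a b) Vl := rf_lines hab
  have hqA := PHK.pq_cpt (S := PHK.rK x y R) PHK.isCompact_rK sub1 hr.pf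
  have hqA' := pq_lines hab (show xl true - xl false < l by linarith)
  exact JJ2_sea hA hA' hA hA' hqA hqA' hqA hqA' hr hr
    (gp_qg (𝒰 := NUP1.OS a b) (𝒮 := NUP1.CS (xl false) (xl true))
      (sub_Vl (by linarith) (by linarith)) sub3)
    subset_rfl subset_rfl subset_rfl subset_rfl sub2 subset_rfl sub2 subset_rfl
    (q_exp (by linarith)) (fun z hz => hz.2.2) hk hk₂ hα hα₂ hF hG hF₂ hG₂ h0 h0₂ hd hdΩ hd₂ hdΩ₂
    (fun c h1 _ h3 h4 => he c h1 h3 h4) (fun c h1 _ h3 h4 => he₂ c h1 h3 h4)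
    hc (fun i => sub4 _ (hc i)) hcd hc₂ (fun i => sub4 _ (hc₂ i)) hcd₂

/-- the integrand of the holes is integrable -/
theorem int_sea_lines (ha : a < xl false) (hxl : xl false < xl true) (hb : xl true < b)
    (hab : b - a ≤ l) (hδ : 0 < δ)
    {k m k₂ m₂ : ℕ} (hk : k + m = Fintype.card ι) (hk₂ : k₂ + m₂ = Fintype.card ι₂)
    {G G₂ : ℂ → ℂ} {α α₂ : ℝ} (hα : δ + 2 * m + 2 * k₂ ≤ α) (hα₂ : δ + 2 * m₂ + 2 * k ≤ α₂)
    (cG : ContinuousOn G (NUP1.OS a b))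
    (bG : ∃ B : ℝ, 0 ≤ B ∧ ∀ z ∈ NUP1.CS (xl false) (xl true), ‖G z‖ ≤ B * Real.exp (-α * |z.im|))
    (cG₂ : ContinuousOn G₂ (NUP1.OS a b))
    (bG₂ : ∃ B : ℝ, 0 ≤ B ∧ ∀ z ∈ NUP1.CS (xl false) (xl true),
      ‖G₂ z‖ ≤ B * Real.exp (-α₂ * |z.im|))
    {d : ν → ℂ} (hdΩ : ∀ j, d j ∈ NUP1.OS (xl false) (xl true))
    {d₂ : ν₂ → ℂ} (hdΩ₂ : ∀ j, d₂ j ∈ NUP1.OS (xl false) (xl true))
    {c : ι → ℂ} (hc : ∀ i, c i ∈ NUP1.OS (xl false) (xl true))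
    {c₂ : ι₂ → ℂ} (hc₂ : ∀ i, c₂ i ∈ NUP1.OS (xl false) (xl true))
    {D : Finset ν} (hD : D.card ≤ m) {D₂ : Finset ν₂} (hD₂ : D₂.card ≤ m₂) :
    Integrable (fun p : (Fin (m - D.card) → Bool × ℝ) × (Fin (m₂ - D₂.card) → Bool × ℝ) =>
      I2 (PHK.lG xl) PHK.lK (PHK.lG xl) PHK.lK (hX G NUP1.q NUP1.Bd.qg d D c₂ d₂ D₂)
        (hX G₂ NUP1.q NUP1.Bd.qg d₂ D₂ c d D) NUP1.q NUP1.Bd.qg (Sum.elim c d) (Sum.elim c₂ d₂) p)
      ((Measure.pi fun _ => PHK.lM).prod (Measure.pi fun _ => PHK.lM)) := by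
  have hl : l < Real.pi := by
    rw [l_eq]
    linarith [Real.pi_pos]
  have sub3 : NUP1.CS (xl false) (xl true) ⊆ NUP1.OS a b := fun z hz =>
    ⟨ha.trans_le hz.1, hz.2.trans_lt hb⟩
  have hA' := PHK.lines_cg hxl (by linarith) ha hb (p := 2) (by norm_num) hδ
  have hqA' := pq_lines hab (show xl true - xl false < l by linarith)
  exact int_sea hA' hA' hqA' hqA'
    (gp_qg (𝒰 := NUP1.OS a b) (𝒮 := NUP1.CS (xl false) (xl true))
      (sub_Vl (by linarith) (by linarith)) sub3)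
    subset_rfl subset_rfl subset_rfl subset_rfl (q_exp (by linarith)) hk hk₂ hα hα₂ cG bG cG₂ bG₂
    hdΩ hdΩ₂ hc hc₂ hD hD₂

end lines

end Pool.Agent.PHD

end
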