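import Pool.Agent.PHD.Capt
import Pool.Agent.PHD.SeaL

/-!
# Capture of simple nodes on rectangles

The rectangle `[x, y₂] × [-R, R]` shrinks to `[x, y] × [-R, R]` over the simple nodes `d j`.

* `int_rr`: two species on rectangles are integrable;
* **`capt_rect`**; **`capt_one`**: one simple node `w`; **`move_rect`**: none.
-/

set_option autoImplicit false
set_option linter.unusedVariables false
set_option linter.unusedSectionVars false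

noncomputable section

open Finset MeasureTheory Filter Topology

namespace Pool.Agent.PHD

open NUP1 (l)
open NUP1S (rP rO)

/-- the weight of the rectangle -/
def kR (x y R : ℝ) (t : ℝ) : ℂ := -rO x y R t

section rr

variable {ι ν ι₂ : Type*} [Fintype ι] [Fintype ν] [Fintype ι₂]
  {x y y₂ R x₃ y₃ R₃ : ℝ} {U U' U₂ : Set ℂ}

theorem rect_cgR (hxy : x < y) (hw : y - x < Real.pi) (hR : 0 < R) {U : Set ℂ} (oU : IsOpen U)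
    (hU : PHK.rK x y R ⊆ U) :
    Cg PHK.rM (rP x y R) (kR x y R) U (PHK.rK x y R) (PHK.rI x y R) (fun _ => 1) (fun _ => 1) :=
  PHK.rect_cg hxy hw hR oU hU

theorem pq_rect (hU : PHK.rK x y R ⊆ U) (dif : ∀ z ∈ U, ∀ w ∈ U, z - w ∈ Vl) :
    Pq NUP1.q U (PHK.rK x y R) Vl (fun _ => 1) :=
  PHK.pq_cpt PHK.isCompact_rK hU (rf_q dif).pf

/-- the cross pair function on two rectangles -/
theorem xf_rect (hU : PHK.rK x y R ⊆ U) (hU₂ : PHK.rK x₃ y₃ R₃ ⊆ U₂)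
    (dif : ∀ z ∈ U, ∀ w ∈ U₂, z - w ∈ Vl) :
    Xf NUP1.Bd.qg U U₂ (PHK.rK x y R) (PHK.rK x₃ y₃ R₃) Vl (fun _ => 1) fun _ => 1 where
  oV := isOpen_Vl
  dif := dif
  an := qg_an
  ne z hz := qg_ne hz
  ψ1 _ := zero_le_one
  ψ2 _ := zero_le_one
  bd := by
    obtain ⟨B, b0, hB⟩ := qg_up
    refine ⟨B, b0, fun z hz ζ hζ => (hB _ (dif z (hU hz) ζ (hU₂ hζ))).trans ?_⟩
    refine mul_le_mul_of_nonneg_left ?_ b0
    rw [one_mul]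
    exact Real.exp_le_one_iff.2 (by have := abs_nonneg (z - ζ).im; linarith)

theorem bj_rect (hxy : x < y) (hw : y - x < Real.pi) (hR : 0 < R) (oU : IsOpen U)
    (hU : PHK.rK x y R ⊆ U) (dif : ∀ z ∈ U, ∀ w ∈ U, z - w ∈ Vl) {f : ℂ → ℂ}
    (hf : ContinuousOn f U) {c : ι → ℂ} (hc : ∀ i, c i ∈ PHK.rI x y R) (k n : ℕ) :
    BJ (rP x y R) (kR x y R) f NUP1.q c k (fun _ => 1) (fun _ => 1) n := by
  refine (rect_cgR hxy hw hR oU hU).BJ_of hc (pq_rect hU dif) (fun _ => zero_le_one) ?_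
  obtain ⟨C, hC⟩ := (PHK.isCompact_rK (x := x) (y := y) (R := R)).exists_bound_of_continuousOn
    (hf.mono hU)
  exact ⟨|C|, abs_nonneg _, fun z hz => by
    simpa using (hC z hz).trans (le_abs_self C)⟩

/-- **two species on rectangles are integrable** -/
theorem int_rr (hxy : x < y) (hw : y - x < Real.pi) (hR : 0 < R) (oU : IsOpen U)
    (hU : PHK.rK x y R ⊆ U) (dif : ∀ z ∈ U, ∀ w ∈ U, z - w ∈ Vl)
    (hxy₃ : x₃ < y₃) (hw₃ : y₃ - x₃ < Real.pi) (hR₃ : 0 < R₃) (oU₂ : IsOpen U₂)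
    (hU₂ : PHK.rK x₃ y₃ R₃ ⊆ U₂) (dif₂ : ∀ z ∈ U₂, ∀ w ∈ U₂, z - w ∈ Vl)
    (dif₃ : ∀ z ∈ U, ∀ w ∈ U₂, z - w ∈ Vl) {f f₂ : ℂ → ℂ} (hf : ContinuousOn f U)
    (hf₂ : ContinuousOn f₂ U₂) {c : ι → ℂ} {c₂ : ι₂ → ℂ} (hc : ∀ i, c i ∈ PHK.rI x y R)
    (hc₂ : ∀ i, c₂ i ∈ PHK.rI x₃ y₃ R₃) (k n : ℕ) :
    Integrable (fun p : (Fin k → ℝ) × (Fin n → ℝ) => I2 (rP x y R) (kR x y R) (rP x₃ y₃ R₃)
      (kR x₃ y₃ R₃) f f₂ NUP1.q NUP1.Bd.qg c c₂ p)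
      ((Measure.pi fun _ => PHK.rM).prod (Measure.pi fun _ => PHK.rM)) :=
  int_JJ2 (rect_cgR hxy hw hR oU hU) (rect_cgR hxy₃ hw₃ hR₃ oU₂ hU₂) (pq_rect hU dif)
    (pq_rect hU₂ dif₂) (xf_rect hU hU₂ dif₃) hf hf₂ (bj_rect hxy hw hR oU hU dif hf hc k n)
    (bj_rect hxy₃ hw₃ hR₃ oU₂ hU₂ dif₂ hf₂ hc₂ n k)

end rr

section capt

variable {ι ν ι₂ : Type*} [LinearOrder ι] [Fintype ι] [LinearOrder ν] [Fintype ν] [Fintype ι₂]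
  {x y y₂ R x₃ y₃ R₃ : ℝ} {U U' U₂ : Set ℂ}

/-- **capture of simple nodes on rectangles** -/
theorem capt_rect (hxy : x < y) (hyy : y < y₂) (hw : y₂ - x < Real.pi) (hR : 0 < R)
    (oU : IsOpen U) (hU : PHK.rK x y₂ R ⊆ U) (dif : ∀ z ∈ U, ∀ w ∈ U, z - w ∈ Vl)
    (oU' : IsOpen U') (hU' : PHK.rK x y R ⊆ U') (sU : U' ⊆ U)
    (hxy₃ : x₃ < y₃) (hw₃ : y₃ - x₃ < Real.pi) (hR₃ : 0 < R₃) (oU₂ : IsOpen U₂)
    (hU₂ : PHK.rK x₃ y₃ R₃ ⊆ U₂) (dif₂ : ∀ z ∈ U₂, ∀ w ∈ U₂, z - w ∈ Vl)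
    (dif₃ : ∀ z ∈ U, ∀ w ∈ U₂, z - w ∈ Vl) {F f₂ : ℂ → ℂ} (hF : DifferentiableOn ℂ F U)
    (hf₂ : ContinuousOn f₂ U₂) {d : ν → ℂ} (hd : Function.Injective d)
    (hdΩ : ∀ j, d j ∈ PHK.rI x y₂ R) (hdU : ∀ j, d j ∉ U')
    {c : ι → ℂ} (hc : ∀ i, c i ∈ PHK.rI x y R) {c₂ : ι₂ → ℂ} (hc₂ : ∀ i, c₂ i ∈ PHK.rI x₃ y₃ R₃)
    (k n : ℕ) :
    JJ2 PHK.rM (rP x y₂ R) (kR x y₂ R) PHK.rM (rP x₃ y₃ R₃) (kR x₃ y₃ R₃) F f₂ NUP1.q NUP1.Bd.qg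
        (Sum.elim c d) c₂ k n / k.factorial =
      ∑ D ∈ (univ : Finset ν).powerset, if D.card ≤ k then wG F NUP1.q c d D *
        (JJ2 PHK.rM (rP x y R) (kR x y R) PHK.rM (rP x₃ y₃ R₃) (kR x₃ y₃ R₃)
          (fun z => F z / (∏ j, (z - d j)) * ∏ j ∈ D, NUP1.q (z - d j))
          (fun z => f₂ z * ∏ j ∈ D, NUP1.Bd.qg (d j - z)) NUP1.q NUP1.Bd.qg c c₂ (k - D.card) n /
            (k - D.card).factorial) else 0 := by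
  have sK : PHK.rK x y R ⊆ PHK.rK x y₂ R := fun z hz => ⟨hz.1, hz.2.1.trans hyy.le, hz.2.2⟩
  have sI : ∀ z ∈ PHK.rI x y R, z ∈ PHK.rI x y₂ R := fun z hz =>
    ⟨hz.1, hz.2.1.trans hyy, hz.2.2⟩
  have hh := rect_cgR (hxy.trans hyy) hw hR oU hU
  have hh' := rect_cgR (R := R) hxy (by linarith) hR oU' hU'
  have hh₂ := rect_cgR hxy₃ hw₃ hR₃ oU₂ hU₂
  have dU : ∀ j, d j ∈ U := fun j => hU (PHK.rI_sub (hdΩ j))
  have dif' : ∀ z ∈ U', ∀ w ∈ U', z - w ∈ Vl := fun z hz w hw => dif z (sU hz) w (sU hw)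
  have ne : ∀ z ∈ U', ∏ j, (z - d j) ≠ 0 := fun z hz =>
    prod_ne_zero_iff.2 fun j _ => sub_ne_zero.2 fun e => hdU j (e ▸ hz)
  have aF' : DifferentiableOn ℂ (fun z => F z / ∏ j, (z - d j)) U' :=
    (hF.mono sU).div (by fun_prop) ne
  have cst : ∀ {f : ℂ → ℂ} {W : Set ℂ} {Ω : Set ℂ}, DifferentiableOn ℂ f W →
      ContinuousOn (fun p : (ι → ℂ) × ℂ => f p.2) ({c : ι → ℂ | ∀ i, c i ∈ Ω} ×ˢ W) :=
    fun hf => hf.continuousOn.comp continuousOn_snd fun p hp => hp.2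
  have F1 : Fa U (PHK.rK x y₂ R) (PHK.rI x y₂ R) (fun _ => 1) (fun _ => 1) k
      fun (_ : ι → ℂ) => F :=
    PHK.fa_cpt PHK.isCompact_rK hU PHK.isOpen_rI (fun _ _ => hF) (cst hF) k
  have F2 : Fa U' (PHK.rK x y R) (PHK.rI x y R) (fun _ => 1) (fun _ => 1) k
      fun (_ : ι → ℂ) z => F z / ∏ j, (z - d j) :=
    PHK.fa_cpt PHK.isCompact_rK hU' PHK.isOpen_rI (fun _ _ => aF') (cst aF') k
  have g1 : Fg U (PHK.rK x y₂ R) (PHK.rI x y₂ R) (fun _ => 1) (fun _ => 1) k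
      (fun z => (1 : ℝ) ^ n) fun (_ : ι → ℂ) => F :=
    ⟨F1.an, F1.ct, fun c0 hc0 => by simpa using F1.bd c0 hc0⟩
  have g2 : Fg U' (PHK.rK x y R) (PHK.rI x y R) (fun _ => 1) (fun _ => 1) k
      (fun z => (1 : ℝ) ^ n) fun (_ : ι → ℂ) z => F z / ∏ j, (z - d j) :=
    ⟨F2.an, F2.ct, fun c0 hc0 => by simpa using F2.bd c0 hc0⟩
  refine JJ2_capt hh hh' hh₂ sU sK (pq_rect hU dif) (rf_q dif).q0 (xf_rect hU hU₂ dif₃) g1 g2 hd hdΩ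
    (fun _ _ _ _ _ _ => rfl) (fun i => sI _ (hc i)) hc
    (fun i j e => hdU j (e ▸ hU' (PHK.rI_sub (hc i)))) ?_ ?_
  · refine int_rr (hxy.trans hyy) hw hR oU hU dif hxy₃ hw₃ hR₃ oU₂ hU₂ dif₂ dif₃ hF.continuousOn hf₂
      ?_ hc₂ k n
    rintro (i | j)
    · exact sI _ (hc i)
    · exact hdΩ j
  · intro D _
    refine int_rr hxy (by linarith) hR oU' hU' dif' hxy₃ hw₃ hR₃ oU₂ hU₂ dif₂
      (fun z hz w hw => dif₃ z (sU hz) w hw) ?_ ?_ hc hc₂ _ n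
    · refine aF'.continuousOn.mul (continuousOn_finsetProd _ fun j _ => ?_)
      exact (rf_q dif).pf.an.continuousOn.comp (f := fun z => z - d j) (by fun_prop)
        fun z hz => dif z (sU hz) _ (dU j)
    · refine hf₂.mul (continuousOn_finsetProd _ fun j _ => ?_)
      exact qg_an.continuousOn.comp (f := fun z => d j - z) (by fun_prop)
        fun z hz => dif₃ _ (dU j) z hz

/-- **capture of one simple node** -/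
theorem capt_one (hxy : x < y) (hyy : y < y₂) (hw : y₂ - x < Real.pi) (hR : 0 < R)
    (oU : IsOpen U) (hU : PHK.rK x y₂ R ⊆ U) (dif : ∀ z ∈ U, ∀ w ∈ U, z - w ∈ Vl)
    (oU' : IsOpen U') (hU' : PHK.rK x y R ⊆ U') (sU : U' ⊆ U)
    (hxy₃ : x₃ < y₃) (hw₃ : y₃ - x₃ < Real.pi) (hR₃ : 0 < R₃) (oU₂ : IsOpen U₂)
    (hU₂ : PHK.rK x₃ y₃ R₃ ⊆ U₂) (dif₂ : ∀ z ∈ U₂, ∀ w ∈ U₂, z - w ∈ Vl)
    (dif₃ : ∀ z ∈ U, ∀ w ∈ U₂, z - w ∈ Vl) {F f₂ : ℂ → ℂ} (hF : DifferentiableOn ℂ F U)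
    (hf₂ : ContinuousOn f₂ U₂) {w : ℂ} (hwΩ : w ∈ PHK.rI x y₂ R) (hwU : w ∉ U')
    {c : ι → ℂ} (hc : ∀ i, c i ∈ PHK.rI x y R) {c₂ : ι₂ → ℂ} (hc₂ : ∀ i, c₂ i ∈ PHK.rI x₃ y₃ R₃)
    (k n : ℕ) :
    JJ2 PHK.rM (rP x y₂ R) (kR x y₂ R) PHK.rM (rP x₃ y₃ R₃) (kR x₃ y₃ R₃) F f₂ NUP1.q NUP1.Bd.qg
        (Sum.elim c fun _ : Unit => w) c₂ k n / k.factorial =
      JJ2 PHK.rM (rP x y R) (kR x y R) PHK.rM (rP x₃ y₃ R₃) (kR x₃ y₃ R₃)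
        (fun z => F z / (z - w)) f₂ NUP1.q NUP1.Bd.qg c c₂ k n / k.factorial +
      if 1 ≤ k then F w / (∏ i, (w - c i)) *
        (JJ2 PHK.rM (rP x y R) (kR x y R) PHK.rM (rP x₃ y₃ R₃) (kR x₃ y₃ R₃)
          (fun z => F z / (z - w) * NUP1.q (z - w)) (fun z => f₂ z * NUP1.Bd.qg (w - z))
          NUP1.q NUP1.Bd.qg c c₂ (k - 1) n / (k - 1).factorial) else 0 := by
  rw [capt_rect (ν := Unit) hxy hyy hw hR oU hU dif oU' hU' sU hxy₃ hw₃ hR₃ oU₂ hU₂ dif₂ dif₃ hF hf₂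
    (d := fun _ => w) (fun _ _ _ => rfl) (fun _ => hwΩ) (fun _ => hwU) hc hc₂ k n]
  have e : (univ : Finset Unit).powerset = {∅, {()}} := by decide
  rw [e, sum_pair (by decide)]
  have e1 : ∀ G : ℂ → ℂ, wG G NUP1.q c (fun _ : Unit => w) ∅ = 1 := fun G => by
    simp [wG, PP_empty]
  have e2 : wG F NUP1.q c (fun _ : Unit => w) {()} = F w / ∏ i, (w - c i) := by
    unfold wG
    have h1 : PP (fun _ _ : Unit => NUP1.q (w - w)) {()} = 1 := by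
      unfold PP
      refine prod_eq_one fun p hp => ?_
      exact absurd (mem_filter.1 hp).2 (lt_irrefl ())
    rw [prod_singleton, h1]
    simp
  simp only [card_empty, zero_le, if_true, prod_empty, mul_one, Nat.sub_zero, card_singleton,
    prod_singleton, univ_unique, PUnit.default_eq_unit, e1, e2, one_mul]

/-- **change of the rectangle**, no simple node -/
theorem move_rect (hxy : x < y) (hyy : y ≤ y₂) (hw : y₂ - x < Real.pi) (hR : 0 < R)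
    (oU : IsOpen U) (hU : PHK.rK x y₂ R ⊆ U) (dif : ∀ z ∈ U, ∀ w ∈ U, z - w ∈ Vl)
    (hxy₃ : x₃ < y₃) (hw₃ : y₃ - x₃ < Real.pi) (hR₃ : 0 < R₃) (oU₂ : IsOpen U₂)
    (hU₂ : PHK.rK x₃ y₃ R₃ ⊆ U₂) (dif₂ : ∀ z ∈ U₂, ∀ w ∈ U₂, z - w ∈ Vl)
    (dif₃ : ∀ z ∈ U, ∀ w ∈ U₂, z - w ∈ Vl) {F f₂ : ℂ → ℂ} (hF : DifferentiableOn ℂ F U)
    (hf₂ : ContinuousOn f₂ U₂)
    {c : ι → ℂ} (hc : ∀ i, c i ∈ PHK.rI x y R) {c₂ : ι₂ → ℂ} (hc₂ : ∀ i, c₂ i ∈ PHK.rI x₃ y₃ R₃)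
    (k n : ℕ) :
    JJ2 PHK.rM (rP x y₂ R) (kR x y₂ R) PHK.rM (rP x₃ y₃ R₃) (kR x₃ y₃ R₃) F f₂ NUP1.q NUP1.Bd.qg
        c c₂ k n =
      JJ2 PHK.rM (rP x y R) (kR x y R) PHK.rM (rP x₃ y₃ R₃) (kR x₃ y₃ R₃) F f₂ NUP1.q NUP1.Bd.qg
        c c₂ k n := by
  have sK : PHK.rK x y R ⊆ PHK.rK x y₂ R := fun z hz => ⟨hz.1, hz.2.1.trans hyy, hz.2.2⟩
  have sI : ∀ z ∈ PHK.rI x y R, z ∈ PHK.rI x y₂ R := fun z hz =>
    ⟨hz.1, hz.2.1.trans_le hyy, hz.2.2⟩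
  have hh := rect_cgR (hxy.trans_le hyy) hw hR oU hU
  have hh' := rect_cgR (R := R) hxy (by linarith) hR oU (sK.trans hU)
  have hh₂ := rect_cgR hxy₃ hw₃ hR₃ oU₂ hU₂
  have := hh.sf
  have := hh₂.sf
  have cst : ∀ {f : ℂ → ℂ} {Ω : Set ℂ}, DifferentiableOn ℂ f U →
      ContinuousOn (fun p : (ι → ℂ) × ℂ => f p.2) ({c : ι → ℂ | ∀ i, c i ∈ Ω} ×ˢ U) :=
    fun hf => hf.continuousOn.comp continuousOn_snd fun p hp => hp.2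
  rw [JJ2_fubI (int_rr (hxy.trans_le hyy) hw hR oU hU dif hxy₃ hw₃ hR₃ oU₂ hU₂ dif₂ dif₃
      hF.continuousOn hf₂ (fun i => sI _ (hc i)) hc₂ k n),
    JJ2_fubI (int_rr hxy (by linarith) hR oU (sK.trans hU) dif hxy₃ hw₃ hR₃ oU₂ hU₂ dif₂ dif₃
      hF.continuousOn hf₂ hc hc₂ k n)]
  refine integral_congr_ae (Eventually.of_forall fun t => ?_)
  simp only
  congr 1
  have aF : DifferentiableOn ℂ (fun z => F z * fY (rP x₃ y₃ R₃) NUP1.Bd.qg t z) U := by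
    refine hF.mul ((xf_rect hU hU₂ dif₃).fY_an fun b => ?_)
    exact hU₂ (hh₂.mem _)
  exact JJ_move hh hh' subset_rfl sK (pq_rect hU dif) (rf_q dif).q0
    (F := fun (_ : ι → ℂ) z => F z * fY (rP x₃ y₃ R₃) NUP1.Bd.qg t z)
    (F' := fun (_ : ι → ℂ) z => F z * fY (rP x₃ y₃ R₃) NUP1.Bd.qg t z)
    (PHK.fa_cpt PHK.isCompact_rK hU PHK.isOpen_rI (fun _ _ => aF) (cst aF) k)
    (PHK.fa_cpt PHK.isCompact_rK (sK.trans hU) PHK.isOpen_rI (fun _ _ => aF) (cst aF) k)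
    (fun _ _ _ _ _ => rfl) (fun i => sI _ (hc i)) hc

end capt

end Pool.Agent.PHD

end
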