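import Pool.Agent.PHD.Sub

/-!
# Particle-hole duality: coinciding nodes

* `WW f r c`: the weight of all nodes, `wS_univ`: `wS univ = WW` for distinct nodes;
* **`Ctr.JJ_dual`**: the duality for distinct nodes;
* `Ctr.JJ_cont`: the integral is continuous in the nodes;
* **`Ctr.JJ_conf`**: `JJ k f / k! = WW * JJ (N - k) fH / (N - k)!` for ALL nodes in `Ω`;
  `Ctr.JJ_zero'`;
* **`Ctr.JJ_chi`**: `f` may be changed by a multiple of `∏ (z - c j)`.
-/

set_option autoImplicit false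

noncomputable section

open Finset MeasureTheory Filter Topology

namespace Pool.Agent.PHD

variable {Ξ : Type*} [MeasurableSpace Ξ]

section ord

variable {ι : Type*} [LinearOrder ι] [Fintype ι]

/-- product over the ordered pairs = product over the pairs -/
theorem prod_erase_pairs {K : Type*} [Field K] (D : ι → ι → K) :
    ∏ s, ∏ j ∈ univ.erase s, D s j = PP (fun i j => D i j * D j i) univ := by
  unfold PP
  rw [prod_mul_distrib]
  have e1 : ∏ s, ∏ j ∈ univ.erase s, D s j =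
      ∏ p ∈ ((univ : Finset ι) ×ˢ univ).filter (fun p => p.1 ≠ p.2), D p.1 p.2 := by
    rw [prod_filter, prod_product]
    refine prod_congr rfl fun s _ => ?_
    rw [← prod_filter]
    refine prod_congr ?_ fun _ _ => rfl
    ext j
    simp [ne_comm]
  have e2 : ((univ : Finset ι) ×ˢ univ).filter (fun p => p.1 ≠ p.2) =
      (((univ : Finset ι) ×ˢ univ).filter fun p => p.1 < p.2) ∪
        (((univ : Finset ι) ×ˢ univ).filter fun p => p.2 < p.1) := by
    ext ⟨i, j⟩
    simp [lt_or_lt_iff_ne]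
  have d : Disjoint (((univ : Finset ι) ×ˢ univ).filter fun p => p.1 < p.2)
      (((univ : Finset ι) ×ˢ univ).filter fun p => p.2 < p.1) := by
    rw [Finset.disjoint_left]
    rintro ⟨i, j⟩ h1 h2
    simp only [mem_filter] at h1 h2
    exact lt_asymm h1.2 h2.2
  rw [e1, e2, prod_union d]
  congr 1
  refine prod_nbij' (fun p => (p.2, p.1)) (fun p => (p.2, p.1)) ?_ ?_ ?_ ?_ ?_ <;>
    rintro ⟨i, j⟩ h <;> simp_all

/-- weight of all nodes, without poles -/
def WW (f r : ℂ → ℂ) (c : ι → ℂ) : ℂ :=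
  (∏ i, f (c i)) * PP (fun i j => -r (c i - c j)) univ

theorem wS_univ {f q r : ℂ → ℂ} {U V : Set ℂ} (hr : Rf q r U V) {c : ι → ℂ}
    (hc : Function.Injective c) : wS f q c univ = WW f r c := by
  unfold wS wt WW
  rw [prod_div_distrib, prod_erase_pairs, div_mul_eq_mul_div, mul_div_assoc]
  congr 1
  unfold PP
  rw [← prod_div_distrib]
  refine prod_congr rfl fun p hp => ?_
  have hne : c p.1 - c p.2 ≠ 0 := sub_ne_zero.2 fun e => (mem_filter.1 hp).2.ne (hc e)
  have hne' : c p.2 - c p.1 ≠ 0 := sub_ne_zero.2 fun e => (mem_filter.1 hp).2.ne (hc e).symm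
  simp only
  rw [hr.eq, div_eq_iff (mul_ne_zero hne hne')]
  ring

end ord

namespace Ctr

variable {μ : Measure Ξ} {γ κ : Ξ → ℂ} {U Ω : Set ℂ} (h : Ctr μ γ κ U Ω)
include h

theorem an_fH {ι : Type*} [Fintype ι] {c : ι → ℂ} (hΩ : ∀ i, c i ∈ Ω) {f q r : ℂ → ℂ} {V : Set ℂ}
    (hr : Rf q r U V) (hf : DifferentiableOn ℂ f U) (h0 : ∀ z ∈ U, f z ≠ 0) :
    DifferentiableOn ℂ (fH f r c) U := by
  unfold fH
  refine (differentiableOn_const _).div (hf.mul (DifferentiableOn.fun_finsetProd fun j _ =>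
    hr.an.comp (by fun_prop) fun z hz => hr.dif z hz _ (h.sub (hΩ j)))) fun z hz => ?_
  exact mul_ne_zero (h0 z hz) (prod_ne_zero_iff.2 fun j _ => hr.ne0 _ (hr.dif z hz _ (h.sub (hΩ j))))

/-- **particle-hole duality**, distinct nodes -/
theorem JJ_dual {ι : Type*} [LinearOrder ι] [Fintype ι] {c : ι → ℂ} (hc : Function.Injective c)
    (hΩ : ∀ i, c i ∈ Ω) {f q r : ℂ → ℂ} {V : Set ℂ} (hr : Rf q r U V)
    (hf : DifferentiableOn ℂ f U) (h0 : ∀ z ∈ U, f z ≠ 0) {k m : ℕ} (hk : k + m = Fintype.card ι) :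
    JJ μ γ κ f q c k / k.factorial = WW f r c * (JJ μ γ κ (fH f r c) q c m / m.factorial) := by
  rw [h.JJ_eq hc hΩ hr.pf hr.q0 k hf, h.JJ_eq hc hΩ hr.pf hr.q0 m (h.an_fH hΩ hr hf h0)]
  have f1 : (k.factorial : ℂ) ≠ 0 := by exact_mod_cast k.factorial_ne_zero
  have f2 : (m.factorial : ℂ) ≠ 0 := by exact_mod_cast m.factorial_ne_zero
  rw [mul_div_cancel_left₀ _ f1, mul_div_cancel_left₀ _ f2, mul_sum, ← wS_univ hr hc]
  refine sum_nbij' (fun S => Sᶜ) (fun T => Tᶜ) ?_ ?_ ?_ ?_ ?_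
  · intro S hS
    simp only [mem_powersetCard, subset_univ, true_and] at hS ⊢
    rw [card_compl, hS]
    omega
  · intro S hS
    simp only [mem_powersetCard, subset_univ, true_and] at hS ⊢
    rw [card_compl, hS]
    omega
  · intro S _
    exact compl_compl S
  · intro S _
    exact compl_compl S
  · intro S _
    have := wS_dual hr hc (fun i => h.sub (hΩ i)) h0 Sᶜ
    rwa [compl_compl] at this

/-- **continuity in the nodes** -/
theorem JJ_cont {ι : Type*} [Fintype ι] {q : ℂ → ℂ} {V : Set ℂ} (hq : Pf q U V)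
    {F : (ι → ℂ) → ℂ → ℂ}
    (hF : ContinuousOn (fun p : (ι → ℂ) × ℂ => F p.1 p.2) ({c | ∀ i, c i ∈ Ω} ×ˢ U)) (k : ℕ) :
    ContinuousOn (fun c => JJ μ γ κ (F c) q c k) {c | ∀ i, c i ∈ Ω} := by
  haveI := h.fin
  set A : Set (ι → ℂ) := {c | ∀ i, c i ∈ Ω} with hA
  have oA : IsOpen A := by
    have : A = Set.pi Set.univ fun _ => Ω := by
      ext c
      simp [hA]
    rw [this]
    exact isOpen_set_pi Set.finite_univ fun _ _ => h.oΩ
  obtain ⟨G, g1, g2, g3, g4⟩ := h.cpt
  obtain ⟨C0, hC0⟩ := h.bκ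
  obtain ⟨C', p', hC'⟩ := h.bd_QP hq k
  have hsec : ∀ c ∈ A, ContinuousOn (F c) U := fun c hc =>
    hF.comp (f := fun z => (c, z)) (by fun_prop) fun z hz => ⟨hc, hz⟩
  intro c0 hc0
  obtain ⟨K, k1, k2, k3⟩ := exists_compact_subset oA hc0
  have hcK : ContinuousOn (fun p : (ι → ℂ) × ℂ => F p.1 p.2 / ∏ i, (p.2 - p.1 i)) (K ×ˢ G) := by
    refine (hF.mono (Set.prod_mono k3 g2)).div (by fun_prop) ?_
    rintro ⟨c, z⟩ ⟨hc, hz⟩
    refine prod_ne_zero_iff.2 fun i _ e => ?_
    rw [sub_eq_zero] at e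
    exact Set.disjoint_left.1 g3 hz (e ▸ (k3 hc) i)
  obtain ⟨C1, hC1⟩ := (k1.prod g1).exists_bound_of_continuousOn hcK
  have key : ContinuousOn (fun c => JJ μ γ κ (F c) q c k) K := by
    unfold JJ
    refine continuousOn_of_dominated (bound := fun _ => (∏ _a : Fin k, |C0| * |C1|) * C') ?_ ?_
      (integrable_const _) ?_
    · intro c hc
      refine Measurable.aestronglyMeasurable ?_
      refine (Finset.measurable_prod _ fun a _ => ?_).mul (h.meas_QP hq)
      have : Measurable (one γ κ (F c) c) := by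
        unfold one
        refine h.mκ.mul ((meas_cont h.oU (hsec c (k3 hc)) h.mγ h.mem).div ?_)
        exact Finset.measurable_prod _ fun i _ => h.mγ.sub_const _
      exact this.comp (measurable_pi_apply a)
    · intro c hc
      refine Eventually.of_forall fun x => ?_
      rw [norm_mul, norm_prod]
      refine mul_le_mul (prod_le_prod (fun _ _ => norm_nonneg _) fun a _ => ?_) (hC' x)
        (norm_nonneg _) (by positivity)
      unfold one
      rw [norm_mul]
      exact mul_le_mul ((hC0 _).trans (le_abs_self _))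
        ((hC1 (c, γ (x a)) ⟨hc, g4 _⟩).trans (le_abs_self _)) (norm_nonneg _) (abs_nonneg _)
    · refine Eventually.of_forall fun x => ?_
      refine (continuousOn_finsetProd _ fun a _ => ?_).mul continuousOn_const
      unfold one
      refine continuousOn_const.mul ?_
      exact hcK.comp (f := fun c => (c, γ (x a))) (by fun_prop) fun c hc => ⟨hc, g4 _⟩
  exact (key.continuousAt (mem_interior_iff_mem_nhds.1 k2)).continuousWithinAt

omit h in
/-- distinct nodes are dense -/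
theorem ext_inj {ι : Type*} [Finite ι] {A : Set (ι → ℂ)} (oA : IsOpen A) {F G : (ι → ℂ) → ℂ}
    (hF : ContinuousOn F A) (hG : ContinuousOn G A)
    (he : ∀ c ∈ A, Function.Injective c → F c = G c) {c : ι → ℂ} (hc : c ∈ A) : F c = G c := by
  classical
  haveI := Fintype.ofFinite ι
  set d : ι → ℂ := fun i => ((Fintype.equivFin ι i : ℕ) : ℂ) with hd
  have hdi : Function.Injective d := by
    intro i j e
    simp only [hd, Nat.cast_inj] at e
    exact (Fintype.equivFin ι).injective (Fin.ext e)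
  set p : ℂ → ι → ℂ := fun ε => c + ε • d with hp
  have pc : Continuous p := by fun_prop
  have p0 : p 0 = c := by simp [hp]
  have t0 : Tendsto p (𝓝[≠] 0) (𝓝 c) := by
    have := pc.tendsto 0
    rw [p0] at this
    exact this.mono_left nhdsWithin_le_nhds
  have e1 : ∀ᶠ ε in 𝓝[≠] (0 : ℂ), p ε ∈ A := t0.eventually (oA.mem_nhds hc)
  have e2 : ∀ᶠ ε in 𝓝[≠] (0 : ℂ), Function.Injective (p ε) := by
    have : ∀ i j : ι, ∀ᶠ ε in 𝓝[≠] (0 : ℂ), i ≠ j → p ε i ≠ p ε j := by
      intro i j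
      by_cases hij : i = j
      · exact Eventually.of_forall fun _ hn => absurd hij hn
      have hdij : d i - d j ≠ 0 := sub_ne_zero.2 fun e => hij (hdi e)
      by_cases hcc : c i = c j
      · filter_upwards [self_mem_nhdsWithin] with ε hε _ e
        simp only [hp, Pi.add_apply, Pi.smul_apply, smul_eq_mul, hcc, add_right_inj] at e
        exact hij (hdi (mul_left_cancel₀ hε e))
      · have h1 : ∀ᶠ ε in 𝓝 (0 : ℂ), p ε i ≠ p ε j := by
          have hcont : Continuous fun ε => p ε i - p ε j := by fun_prop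
          have h2 : (fun ε => p ε i - p ε j) 0 ≠ 0 := by
            simp only [p0]
            exact sub_ne_zero.2 hcc
          filter_upwards [hcont.continuousAt.eventually_ne h2] with ε hε
          exact sub_ne_zero.1 hε
        filter_upwards [h1.filter_mono nhdsWithin_le_nhds] with ε hε _
        exact hε
    have h3 : ∀ᶠ ε in 𝓝[≠] (0 : ℂ), ∀ i j : ι, i ≠ j → p ε i ≠ p ε j :=
      eventually_all.2 fun i => eventually_all.2 fun j => this i j
    filter_upwards [h3] with ε hε i j e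
    by_contra hn
    exact hε i j hn e
  have l1 : Tendsto (fun ε => F (p ε)) (𝓝[≠] 0) (𝓝 (F c)) :=
    ((hF.continuousAt (oA.mem_nhds hc)).tendsto).comp t0
  have l2 : Tendsto (fun ε => G (p ε)) (𝓝[≠] 0) (𝓝 (G c)) :=
    ((hG.continuousAt (oA.mem_nhds hc)).tendsto).comp t0
  have l3 : (fun ε => F (p ε)) =ᶠ[𝓝[≠] 0] fun ε => G (p ε) := by
    filter_upwards [e1, e2] with ε h1 h2
    exact he _ h1 h2
  exact tendsto_nhds_unique (l1.congr' l3) l2

theorem oA {ι : Type*} [Finite ι] : IsOpen {c : ι → ℂ | ∀ i, c i ∈ Ω} := by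
  have : {c : ι → ℂ | ∀ i, c i ∈ Ω} = Set.pi Set.univ fun _ => Ω := by
    ext c
    simp
  rw [this]
  exact isOpen_set_pi Set.finite_univ fun _ _ => h.oΩ

/-- **particle-hole duality**, all nodes -/
theorem JJ_conf {ι : Type*} [LinearOrder ι] [Fintype ι] {c : ι → ℂ}
    (hΩ : ∀ i, c i ∈ Ω) {f q r : ℂ → ℂ} {V : Set ℂ} (hr : Rf q r U V)
    (hf : DifferentiableOn ℂ f U) (h0 : ∀ z ∈ U, f z ≠ 0) {k m : ℕ} (hk : k + m = Fintype.card ι) :
    JJ μ γ κ f q c k / k.factorial = WW f r c * (JJ μ γ κ (fH f r c) q c m / m.factorial) := by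
  have c1 : ContinuousOn (fun c : ι → ℂ => JJ μ γ κ f q c k) {c | ∀ i, c i ∈ Ω} :=
    h.JJ_cont hr.pf (F := fun _ => f) (hf.continuousOn.comp (by fun_prop) fun p hp => hp.2) k
  have c2 : ContinuousOn (fun c : ι → ℂ => JJ μ γ κ (fH f r c) q c m) {c | ∀ i, c i ∈ Ω} := by
    refine h.JJ_cont hr.pf (F := fun c => fH f r c) ?_ m
    unfold fH
    have c3 : ContinuousOn (fun p : (ι → ℂ) × ℂ => f p.2) ({c | ∀ i, c i ∈ Ω} ×ˢ U) :=
      hf.continuousOn.comp (by fun_prop) fun p hp => hp.2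
    have c4 : ∀ j, ContinuousOn (fun p : (ι → ℂ) × ℂ => r (p.2 - p.1 j)) ({c | ∀ i, c i ∈ Ω} ×ˢ U) :=
      fun j => hr.an.continuousOn.comp (by fun_prop) fun p hp =>
        hr.dif _ hp.2 _ (h.sub (hp.1 j))
    refine continuousOn_const.div (c3.mul (continuousOn_finsetProd _ fun j _ => c4 j)) ?_
    rintro ⟨c, z⟩ ⟨hc, hz⟩
    exact mul_ne_zero (h0 z hz)
      (prod_ne_zero_iff.2 fun j _ => hr.ne0 _ (hr.dif z hz _ (h.sub (hc j))))
  have c5 : ContinuousOn (fun c : ι → ℂ => WW f r c) {c | ∀ i, c i ∈ Ω} := by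
    unfold WW PP
    refine (continuousOn_finsetProd _ fun i _ => hf.continuousOn.comp
      (t := U) (f := fun c : ι → ℂ => c i) (s := {c | ∀ i, c i ∈ Ω}) (by fun_prop)
      fun c hc => h.sub (hc i)).mul (continuousOn_finsetProd _ fun p _ => ?_)
    exact (hr.an.continuousOn.comp (f := fun c : ι → ℂ => c p.1 - c p.2)
      (s := {c | ∀ i, c i ∈ Ω}) (by fun_prop)
      fun c hc => hr.dif _ (h.sub (hc p.1)) _ (h.sub (hc p.2))).neg
  exact ext_inj h.oA (c1.div_const _) (c5.mul (c2.div_const _))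
    (fun c hc hi => h.JJ_dual hi hc hr hf h0 hk) hΩ

/-- more particles than nodes -/
theorem JJ_zero' {ι : Type*} [LinearOrder ι] [Fintype ι] {c : ι → ℂ}
    (hΩ : ∀ i, c i ∈ Ω) {f q : ℂ → ℂ} {V : Set ℂ} (hq : Pf q U V) (q0 : q 0 = 0) {k : ℕ}
    (hf : DifferentiableOn ℂ f U) (hk : Fintype.card ι < k) : JJ μ γ κ f q c k = 0 :=
  ext_inj (G := fun _ => 0) h.oA
    (h.JJ_cont hq (F := fun _ => f) (hf.continuousOn.comp (by fun_prop) fun p hp => hp.2) k)
    continuousOn_const (fun c hc hi => h.JJ_zero hi hc hq q0 hf hk) hΩ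

/-- **the integral only sees `f` modulo `∏ (z - c j)`** -/
theorem JJ_chi {ι : Type*} [LinearOrder ι] [Fintype ι] {c : ι → ℂ}
    (hΩ : ∀ i, c i ∈ Ω) {f g q : ℂ → ℂ} {V : Set ℂ} (hq : Pf q U V) (q0 : q 0 = 0)
    (hf : DifferentiableOn ℂ f U) (hg : DifferentiableOn ℂ g U) (k : ℕ) :
    JJ μ γ κ (fun z => f z + (∏ j, (z - c j)) * g z) q c k = JJ μ γ κ f q c k := by
  refine ext_inj (F := fun c => JJ μ γ κ (fun z => f z + (∏ j, (z - c j)) * g z) q c k)
    (G := fun c => JJ μ γ κ f q c k) h.oA ?_ ?_ ?_ hΩ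
  · refine h.JJ_cont hq (F := fun c z => f z + (∏ j, (z - c j)) * g z) ?_ k
    have c1 : ContinuousOn (fun p : (ι → ℂ) × ℂ => f p.2) ({c | ∀ i, c i ∈ Ω} ×ˢ U) :=
      hf.continuousOn.comp (by fun_prop) fun p hp => hp.2
    have c2 : ContinuousOn (fun p : (ι → ℂ) × ℂ => g p.2) ({c | ∀ i, c i ∈ Ω} ×ˢ U) :=
      hg.continuousOn.comp (by fun_prop) fun p hp => hp.2
    exact c1.add (ContinuousOn.mul (by fun_prop) c2)
  · exact h.JJ_cont hq (F := fun _ => f) (hf.continuousOn.comp (by fun_prop) fun p hp => hp.2) k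
  · intro c hc hi
    have hF : DifferentiableOn ℂ (fun z => f z + (∏ j, (z - c j)) * g z) U :=
      hf.add (DifferentiableOn.mul (by fun_prop) hg)
    rw [h.JJ_eq hi hc hq q0 k hF, h.JJ_eq hi hc hq q0 k hf]
    congr 1
    refine sum_congr rfl fun S _ => ?_
    unfold wS wt
    congr 1
    refine prod_congr rfl fun s _ => ?_
    have : ∏ j, (c s - c j) = 0 := prod_eq_zero (mem_univ s) (sub_self _)
    simp only [this, zero_mul, add_zero]

end Ctr

end Pool.Agent.PHD

end
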