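import Pool.Agent.PHD.Sea

/-!
# Products over doubled nodes

`db b : κ ×ₗ Bool → ℂ`: every node listed twice.

* `prod_db`, `prod_db2`; `PP_univ`, **`PP_db`**; **`WW_db`**; `fH_db`, `one_db`, `gN_db`, `wG_db`.
-/

set_option autoImplicit false
set_option linter.unusedSectionVars false

noncomputable section

open Finset

namespace Pool.Agent.PHD

variable {κ : Type*}

/-- every node twice -/
def db (b : κ → ℂ) (x : κ ×ₗ Bool) : ℂ := b (ofLex x).1

theorem db_mem {b : κ → ℂ} {S : Set ℂ} (h : ∀ i, b i ∈ S) (x : κ ×ₗ Bool) : db b x ∈ S := h _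

theorem card_db [Fintype κ] : Fintype.card (κ ×ₗ Bool) = 2 * Fintype.card κ := by
  have : Fintype.card (κ ×ₗ Bool) = Fintype.card (κ × Bool) := Fintype.card_congr ofLex
  rw [this, Fintype.card_prod, Fintype.card_bool, mul_comm]

theorem even_db [Fintype κ] : Even (Fintype.card (κ ×ₗ Bool)) := by
  rw [card_db]
  exact even_two_mul _

theorem prod_lex [Fintype κ] {M : Type*} [CommMonoid M] (f : κ → Bool → M) :
    ∏ x : κ ×ₗ Bool, f (ofLex x).1 (ofLex x).2 = ∏ i, ∏ s, f i s := by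
  rw [← Fintype.prod_prod_type']
  exact Fintype.prod_equiv ofLex _ _ fun _ => rfl

theorem prod_db [Fintype κ] (b : κ → ℂ) (f : ℂ → ℂ) : ∏ x, f (db b x) = ∏ i, f (b i) ^ 2 := by
  have := prod_lex (κ := κ) (fun i _ => f (b i))
  simp only [db]
  rw [this]
  refine prod_congr rfl fun i _ => ?_
  rw [Fintype.prod_bool, pow_two]

/-- the cross factor of the nodes of two species -/
theorem prod_db2 [Fintype κ] {κ' : Type*} [Fintype κ'] (b : κ → ℂ) (b' : κ' → ℂ) (g : ℂ → ℂ) :
    ∏ x, ∏ y, g (db b x - db b' y) = ∏ i, ∏ j, g (b i - b' j) ^ 4 := by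
  have h1 : ∀ z, ∏ y, g (z - db b' y) = ∏ j, g (z - b' j) ^ 2 := fun z =>
    prod_db b' fun w => g (z - w)
  simp only [h1]
  rw [prod_db b fun z => ∏ j, g (z - b' j) ^ 2]
  refine prod_congr rfl fun i _ => ?_
  rw [← prod_pow]
  exact prod_congr rfl fun j _ => by ring

theorem PP_univ {ι K : Type*} [LinearOrder ι] [Fintype ι] [Field K] (a : ι → ι → K) :
    PP a univ = ∏ i, ∏ j, if i < j then a i j else 1 := by
  unfold PP
  rw [prod_filter, univ_product_univ, Fintype.prod_prod_type]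

/-- **the pairs of doubled nodes** -/
theorem PP_db [LinearOrder κ] [Fintype κ] (A : κ → κ → ℂ) :
    PP (fun x y : κ ×ₗ Bool => A (ofLex x).1 (ofLex y).1) univ =
      (∏ i, A i i) * PP (fun i j => A i j ^ 4) univ := by
  classical
  rw [PP_univ, PP_univ]
  have h1 : ∀ x y : κ ×ₗ Bool, x < y ↔ (ofLex x).1 < (ofLex y).1 ∨
      (ofLex x).1 = (ofLex y).1 ∧ (ofLex x).2 < (ofLex y).2 := fun x y => Prod.Lex.lt_iff
  simp only [h1]
  have h2 : ∀ (i : κ) (s : Bool), ∏ y : κ ×ₗ Bool, (if i < (ofLex y).1 ∨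
      i = (ofLex y).1 ∧ s < (ofLex y).2 then A i (ofLex y).1 else 1) =
      ∏ j, ∏ t : Bool, if i < j ∨ i = j ∧ s < t then A i j else 1 := fun i s =>
    prod_lex fun j t => if i < j ∨ i = j ∧ s < t then A i j else 1
  simp only [h2]
  rw [prod_lex fun i s => ∏ j, ∏ t : Bool, if i < j ∨ i = j ∧ s < t then A i j else 1,
    ← prod_mul_distrib]
  refine prod_congr rfl fun i _ => ?_
  rw [Finset.prod_comm]
  have h3 : ∀ j, (∏ s : Bool, ∏ t : Bool, if i < j ∨ i = j ∧ s < t then A i j else 1) =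
      (if i = j then A i j else 1) * if i < j then A i j ^ 4 else 1 := by
    intro j
    simp only [Fintype.prod_bool]
    rcases lt_trichotomy i j with h | h | h
    · simp only [h, h.ne, true_or, if_true, if_false]
      ring
    · subst h
      simp
    · simp [h.not_gt, h.ne']
  simp only [h3]
  rw [prod_mul_distrib, Finset.prod_ite_eq univ i, if_pos (mem_univ i)]

/-- **the weight of doubled nodes** -/
theorem WW_db [LinearOrder κ] [Fintype κ] (f r : ℂ → ℂ) (b : κ → ℂ) :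
    WW f r (db b) = (∏ i, (f (b i) ^ 2 * -r 0)) * PP (fun i j => r (b i - b j) ^ 4) univ := by
  unfold WW
  rw [prod_db b f, prod_mul_distrib, mul_assoc]
  congr 1
  have := PP_db fun i j => -r (b i - b j)
  simp only [sub_self] at this
  refine this.trans ?_
  congr 2
  funext i j
  ring

theorem fH_db [Fintype κ] (f r : ℂ → ℂ) (b : κ → ℂ) (z : ℂ) :
    fH f r (db b) z = r 0 / (f z * ∏ i, r (z - b i) ^ 2) := by
  unfold fH
  rw [prod_db b fun w => r (z - w)]

theorem den_db [Fintype κ] (b : κ → ℂ) (z : ℂ) : ∏ x, (z - db b x) = ∏ i, (z - b i) ^ 2 :=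
  prod_db b fun w => z - w

theorem gN_db [Fintype κ] (G g : ℂ → ℂ) (b : κ → ℂ) (z : ℂ) :
    gN G g (db b) z = G z * (∏ i, g (b i - z) ^ 2)⁻¹ := by
  unfold gN
  rw [prod_db b fun w => (g (w - z))⁻¹, ← prod_inv_distrib]
  congr 1
  exact prod_congr rfl fun i _ => by rw [inv_pow]

theorem wG_db [Fintype κ] {ν : Type*} [LinearOrder ν] [Fintype ν] (G q : ℂ → ℂ) (b : κ → ℂ)
    (d : ν → ℂ) (D : Finset ν) : wG G q (db b) d D =
      (∏ j ∈ D, G (d j) / ((∏ i, (d j - b i) ^ 2) * ∏ j' ∈ univ.erase j, (d j - d j'))) *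
        PP (fun j j' => q (d j - d j')) D := by
  unfold wG
  simp only [den_db]

end Pool.Agent.PHD

end
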