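import Pool.Agent.PHD.Two
import Pool.Agent.NUP1.Energy

/-!
# The joint bound of two species on unbounded contours (neutral energy)

`q` grows like `exp (2 |Im|)` inside a species, `g` decays like `exp (-2 |Im|)` between the species.
Product bounds in each variable are not enough; the energy inequality is.

* `energy_le`: `∑ c_i c_j |t_i - t_j| ≤ 2 (∑ c_i) ∑ c_i |t_i|`; `energy_le2` (charges `1`, `-1`);
* `QP_exp`, `xP_exp`, **`pair_le`**: all the pair factors of two species;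
* **`int_neu`**: the integrand of two species is integrable.
-/

set_option autoImplicit false
set_option linter.unusedVariables false
set_option linter.unusedSectionVars false
set_option linter.style.haveILetI false

noncomputable section

open Finset MeasureTheory Filter Topology

namespace Pool.Agent.PHD

/-- **energy inequality**, any total charge -/
theorem energy_le {ι : Type*} [Fintype ι] (c t : ι → ℝ) :
    ∑ i, ∑ j, c i * c j * |t i - t j| ≤ 2 * (∑ i, c i) * ∑ i, c i * |t i| := by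
  classical
  set M := ∑ i, c i with hM
  have h := NUP1.Bd.energy_nonpos (Finset.univ : Finset (Option ι))
    (fun o => o.elim (-M) c) (fun o => o.elim 0 t) (by
      rw [Fintype.sum_option]
      simp only [Option.elim_none, Option.elim_some]
      rw [← hM]
      ring)
  simp only [Fintype.sum_option, Option.elim_none, Option.elim_some, abs_zero, mul_zero,
    zero_sub, abs_neg, sub_zero, zero_add, sum_add_distrib] at h
  have e1 : ∑ i, -M * c i * |t i| = -M * ∑ i, c i * |t i| := by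
    rw [mul_sum]
    exact sum_congr rfl fun i _ => by ring
  have e2 : ∑ i, c i * -M * |t i| = -M * ∑ i, c i * |t i| := by
    rw [mul_sum]
    exact sum_congr rfl fun i _ => by ring
  rw [e1, e2] at h
  linarith

/-- two species -/
theorem energy_le2 {k l : ℕ} (t : Fin k → ℝ) (t' : Fin l → ℝ) :
    (∑ a, ∑ b, |t a - t b|) + (∑ a, ∑ b, |t' a - t' b|) - 2 * ∑ a, ∑ b, |t a - t' b| ≤
      2 * ((k : ℝ) - l) * ((∑ a, |t a|) - ∑ b, |t' b|) := by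
  have h := energy_le (ι := Fin k ⊕ Fin l) (Sum.elim (fun _ => 1) fun _ => -1) (Sum.elim t t')
  simp only [Fintype.sum_sum_type, Sum.elim_inl, Sum.elim_inr, sum_add_distrib, sum_const, card_univ,
    Fintype.card_fin, nsmul_eq_mul, mul_one, one_mul, mul_neg, neg_mul, sum_neg_distrib] at h
  have e1 : ∑ a : Fin l, ∑ b : Fin k, |t' a - t b| = ∑ a, ∑ b, |t a - t' b| := by
    rw [Finset.sum_comm]
    exact sum_congr rfl fun a _ => sum_congr rfl fun b _ => abs_sub_comm _ _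
  rw [e1] at h
  linarith

/-- the pairs of a symmetric function without diagonal -/
theorem sum_Ioi {k : ℕ} (f : Fin k → Fin k → ℝ) (hs : ∀ a b, f a b = f b a) (h0 : ∀ a, f a a = 0) :
    ∑ a, ∑ b ∈ Ioi a, 2 * f a b = ∑ a, ∑ b, f a b := by
  have e1 : ∀ a : Fin k, ∑ b, f a b = (∑ b ∈ Ioi a, f a b) + ∑ b ∈ Iio a, f a b := by
    intro a
    have hd : Disjoint (Ioi a) (Iio a) := by
      rw [Finset.disjoint_left]
      intro b h1 h2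
      exact lt_asymm (mem_Ioi.1 h1) (mem_Iio.1 h2)
    rw [← sum_union hd]
    symm
    refine sum_subset (subset_univ _) fun b _ hb => ?_
    have : b = a := by
      rw [mem_union, mem_Ioi, mem_Iio, not_or, not_lt, not_lt] at hb
      exact le_antisymm hb.1 hb.2
    rw [this, h0]
  simp only [e1, sum_add_distrib]
  have e2 : ∑ a : Fin k, ∑ b ∈ Iio a, f a b = ∑ a : Fin k, ∑ b ∈ Ioi a, f a b := by
    rw [Finset.sum_comm' (t' := univ) (s' := fun b => Ioi b) (by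
      intro a b
      simp)]
    exact sum_congr rfl fun a _ => sum_congr rfl fun b _ => hs _ _
  rw [e2, ← sum_add_distrib]
  refine sum_congr rfl fun a _ => ?_
  rw [← sum_add_distrib]
  exact sum_congr rfl fun b _ => by ring

/-- the pair factor of one species -/
theorem QP_exp {k : ℕ} {q : ℂ → ℂ} {v : Fin k → ℂ} {B : ℝ} (hB : 0 ≤ B)
    (hq : ∀ a b, ‖q (v a - v b)‖ ≤ B * Real.exp (2 * |(v a - v b).im|)) :
    ‖QP q v‖ ≤ (∏ a : Fin k, ∏ _b ∈ Ioi a, B) *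
      Real.exp (∑ a, ∑ b, |(v a).im - (v b).im|) := by
  unfold QP
  rw [norm_prod]
  simp only [norm_prod]
  calc ∏ a, ∏ b ∈ Ioi a, ‖q (v a - v b)‖
      ≤ ∏ a : Fin k, ∏ b ∈ Ioi a, (B * Real.exp (2 * |(v a).im - (v b).im|)) := by
        refine prod_le_prod (fun _ _ => prod_nonneg fun _ _ => norm_nonneg _) fun a _ =>
          prod_le_prod (fun _ _ => norm_nonneg _) fun b _ => ?_
        have := hq a b
        rwa [Complex.sub_im] at this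
    _ = _ := by
        simp only [prod_mul_distrib, ← Real.exp_sum]
        rw [sum_Ioi (fun a b => |(v a).im - (v b).im|) (fun a b => abs_sub_comm _ _)
          fun a => by rw [sub_self, abs_zero]]

/-- the cross factor -/
theorem xP_exp {Ξ Ξ₂ : Type*} {γ : Ξ → ℂ} {γ₂ : Ξ₂ → ℂ} {g : ℂ → ℂ} {k l : ℕ} {x : Fin k → Ξ}
    {y : Fin l → Ξ₂} {B : ℝ} (hB : 0 ≤ B)
    (hg : ∀ a b, ‖g (γ (x a) - γ₂ (y b))‖ ≤ B * Real.exp (-(2 * |(γ (x a) - γ₂ (y b)).im|))) :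
    ‖xP γ γ₂ g x y‖ ≤ (∏ _a : Fin k, ∏ _b : Fin l, B) *
      Real.exp (-(2 * ∑ a, ∑ b, |(γ (x a)).im - (γ₂ (y b)).im|)) := by
  unfold xP
  rw [norm_prod]
  simp only [norm_prod]
  calc ∏ a, ∏ b, ‖g (γ (x a) - γ₂ (y b))‖
      ≤ ∏ a : Fin k, ∏ b : Fin l, (B * Real.exp (-(2 * |(γ (x a)).im - (γ₂ (y b)).im|))) := by
        refine prod_le_prod (fun _ _ => prod_nonneg fun _ _ => norm_nonneg _) fun a _ =>
          prod_le_prod (fun _ _ => norm_nonneg _) fun b _ => ?_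
        have := hg a b
        rwa [Complex.sub_im] at this
    _ = _ := by
        simp only [prod_mul_distrib, ← Real.exp_sum]
        congr 2
        rw [mul_sum, ← sum_neg_distrib]
        refine sum_congr rfl fun a _ => ?_
        rw [mul_sum, ← sum_neg_distrib]

/-- **all the pair factors of two species**: one exponential per object -/
theorem pair_le {Ξ Ξ₂ : Type*} {γ : Ξ → ℂ} {γ₂ : Ξ₂ → ℂ} {q g : ℂ → ℂ} {S S₂ : Set ℂ}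
    (hS : ∀ x, γ x ∈ S) (hS₂ : ∀ y, γ₂ y ∈ S₂)
    (q1 : ∃ B : ℝ, 0 ≤ B ∧ ∀ z ∈ S, ∀ ζ ∈ S, ‖q (z - ζ)‖ ≤ B * Real.exp (2 * |(z - ζ).im|))
    (q2 : ∃ B : ℝ, 0 ≤ B ∧ ∀ z ∈ S₂, ∀ ζ ∈ S₂, ‖q (z - ζ)‖ ≤ B * Real.exp (2 * |(z - ζ).im|))
    (g1 : ∃ B : ℝ, 0 ≤ B ∧ ∀ z ∈ S, ∀ ζ ∈ S₂, ‖g (z - ζ)‖ ≤ B * Real.exp (-(2 * |(z - ζ).im|)))
    (k l : ℕ) : ∃ B : ℝ, 0 ≤ B ∧ ∀ (x : Fin k → Ξ) (y : Fin l → Ξ₂),
      ‖QP q fun a => γ (x a)‖ * ‖QP q fun b => γ₂ (y b)‖ * ‖xP γ γ₂ g x y‖ ≤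
        B * ((∏ a, Real.exp (2 * ((k : ℝ) - l) * |(γ (x a)).im|)) *
          ∏ b, Real.exp (-(2 * ((k : ℝ) - l)) * |(γ₂ (y b)).im|)) := by
  obtain ⟨B1, p1, h1⟩ := q1
  obtain ⟨B2, p2, h2⟩ := q2
  obtain ⟨B3, p3, h3⟩ := g1
  refine ⟨(∏ a : Fin k, ∏ _b ∈ Ioi a, B1) * (∏ a : Fin l, ∏ _b ∈ Ioi a, B2) *
    ∏ _a : Fin k, ∏ _b : Fin l, B3, by positivity, fun x y => ?_⟩
  have a1 := QP_exp (v := fun a => γ (x a)) p1 fun a b => h1 _ (hS _) _ (hS _)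
  have a2 := QP_exp (v := fun b => γ₂ (y b)) p2 fun a b => h2 _ (hS₂ _) _ (hS₂ _)
  have a3 := xP_exp (x := x) (y := y) (γ := γ) (γ₂ := γ₂) p3 fun a b => h3 _ (hS _) _ (hS₂ _)
  have e := energy_le2 (fun a => (γ (x a)).im) fun b => (γ₂ (y b)).im
  calc ‖QP q fun a => γ (x a)‖ * ‖QP q fun b => γ₂ (y b)‖ * ‖xP γ γ₂ g x y‖
      ≤ ((∏ a : Fin k, ∏ _b ∈ Ioi a, B1) * Real.exp (∑ a, ∑ b, |(γ (x a)).im - (γ (x b)).im|)) *
        ((∏ a : Fin l, ∏ _b ∈ Ioi a, B2) * Real.exp (∑ a, ∑ b, |(γ₂ (y a)).im - (γ₂ (y b)).im|)) *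
        ((∏ _a : Fin k, ∏ _b : Fin l, B3) *
          Real.exp (-(2 * ∑ a, ∑ b, |(γ (x a)).im - (γ₂ (y b)).im|))) := by gcongr
    _ = (∏ a : Fin k, ∏ _b ∈ Ioi a, B1) * (∏ a : Fin l, ∏ _b ∈ Ioi a, B2) *
        (∏ _a : Fin k, ∏ _b : Fin l, B3) *
        Real.exp ((∑ a, ∑ b, |(γ (x a)).im - (γ (x b)).im|) +
          (∑ a, ∑ b, |(γ₂ (y a)).im - (γ₂ (y b)).im|) -
          2 * ∑ a, ∑ b, |(γ (x a)).im - (γ₂ (y b)).im|) := by
        rw [sub_eq_add_neg, Real.exp_add, Real.exp_add]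
        ring
    _ ≤ (∏ a : Fin k, ∏ _b ∈ Ioi a, B1) * (∏ a : Fin l, ∏ _b ∈ Ioi a, B2) *
        (∏ _a : Fin k, ∏ _b : Fin l, B3) *
        Real.exp (2 * ((k : ℝ) - l) * ((∑ a, |(γ (x a)).im|) - ∑ b, |(γ₂ (y b)).im|)) := by
        gcongr
    _ = _ := by
        rw [← Real.exp_sum, ← Real.exp_sum, ← Real.exp_add, ← mul_sum, ← mul_sum]
        congr 2
        ring

section neu

variable {Ξ Ξ₂ : Type*} [MeasurableSpace Ξ] [MeasurableSpace Ξ₂]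
  {μ : Measure Ξ} {γ κ : Ξ → ℂ} {U S Ω V : Set ℂ} {φ w : ℂ → ℝ}
  {μ₂ : Measure Ξ₂} {γ₂ κ₂ : Ξ₂ → ℂ} {U₂ S₂ Ω₂ V₂ : Set ℂ} {φ₂ w₂ : ℂ → ℝ}
  {ι ι₂ : Type*} [Fintype ι] [Fintype ι₂] {c : ι → ℂ} {c₂ : ι₂ → ℂ} {f f₂ q g : ℂ → ℂ}

/-- one body bound with an extra exponential -/
theorem Cg.bd_exp (h : Cg μ γ κ U S Ω φ w) (hΩ : ∀ i, c i ∈ Ω) {s : ℝ}
    (hf : ∃ C : ℝ, 0 ≤ C ∧ ∀ z ∈ S, ‖f z‖ * Real.exp (s * |z.im|) ≤ C * w z) :
    ∃ C : ℝ, 0 ≤ C ∧ ∀ x, ‖one γ κ f c x‖ * Real.exp (s * |(γ x).im|) ≤ C * w (γ x) := by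
  obtain ⟨C, h2, h3⟩ := hf
  obtain ⟨C0, h0⟩ := h.bκ
  obtain ⟨D, h4, h5⟩ := h.off_all hΩ
  refine ⟨|C0| * C * D, by positivity, fun x => ?_⟩
  have a2 := h3 _ (h.mem x)
  have a3 := (h0 x).trans (le_abs_self C0)
  have a4 := h5 x
  have a5 := h.w0 (γ x)
  unfold one
  rw [norm_mul, norm_div, div_eq_mul_inv]
  calc ‖κ x‖ * (‖f (γ x)‖ * ‖∏ i, (γ x - c i)‖⁻¹) * Real.exp (s * |(γ x).im|)
      = ‖κ x‖ * (‖f (γ x)‖ * Real.exp (s * |(γ x).im|)) * ‖∏ i, (γ x - c i)‖⁻¹ := by ring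
    _ ≤ |C0| * (C * w (γ x)) * D := by gcongr
    _ = |C0| * C * D * w (γ x) := by ring

/-- **two species on unbounded contours are integrable** -/
theorem int_neu (h : Cg μ γ κ U S Ω φ w) (h₂ : Cg μ₂ γ₂ κ₂ U₂ S₂ Ω₂ φ₂ w₂)
    (hq : Pq q U S V φ) (hq₂ : Pq q U₂ S₂ V₂ φ₂) {Vg : Set ℂ} {ψ ψ₂ : ℂ → ℝ}
    (hg : Xf g U U₂ S S₂ Vg ψ ψ₂)
    (q1 : ∃ B : ℝ, 0 ≤ B ∧ ∀ z ∈ S, ∀ ζ ∈ S, ‖q (z - ζ)‖ ≤ B * Real.exp (2 * |(z - ζ).im|))
    (q2 : ∃ B : ℝ, 0 ≤ B ∧ ∀ z ∈ S₂, ∀ ζ ∈ S₂, ‖q (z - ζ)‖ ≤ B * Real.exp (2 * |(z - ζ).im|))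
    (g1 : ∃ B : ℝ, 0 ≤ B ∧ ∀ z ∈ S, ∀ ζ ∈ S₂, ‖g (z - ζ)‖ ≤ B * Real.exp (-(2 * |(z - ζ).im|)))
    {k l : ℕ} (hf : ContinuousOn f U) (hf₂ : ContinuousOn f₂ U₂)
    (hΩ : ∀ i, c i ∈ Ω) (hΩ₂ : ∀ i, c₂ i ∈ Ω₂)
    (b1 : ∃ C : ℝ, 0 ≤ C ∧ ∀ z ∈ S, ‖f z‖ * Real.exp (2 * ((k : ℝ) - l) * |z.im|) ≤ C * w z)
    (b2 : ∃ C : ℝ, 0 ≤ C ∧ ∀ z ∈ S₂,
      ‖f₂ z‖ * Real.exp (-(2 * ((k : ℝ) - l)) * |z.im|) ≤ C * w₂ z) :
    Integrable (fun p : (Fin k → Ξ) × (Fin l → Ξ₂) => I2 γ κ γ₂ κ₂ f f₂ q g c c₂ p)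
      ((Measure.pi fun _ => μ).prod (Measure.pi fun _ => μ₂)) := by
  haveI := h.sf
  haveI := h₂.sf
  obtain ⟨C, c0, hC⟩ := h.bd_exp hΩ b1
  obtain ⟨D, d0, hD⟩ := h₂.bd_exp hΩ₂ b2
  obtain ⟨B, b0, hB⟩ := pair_le h.mem h₂.mem q1 q2 g1 k l
  have i1 : Integrable (fun p : (Fin k → Ξ) × (Fin l → Ξ₂) =>
      (∏ a, w (γ (p.1 a))) * ∏ b, w₂ (γ₂ (p.2 b)))
      ((Measure.pi fun _ => μ).prod (Measure.pi fun _ => μ₂)) :=
    (Integrable.fintype_prod (f := fun _ x => w (γ x)) fun _ => h.iw).mul_prod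
      (Integrable.fintype_prod (f := fun _ x => w₂ (γ₂ x)) fun _ => h₂.iw)
  refine (i1.const_mul (B * C ^ k * D ^ l)).mono' ?_ (Eventually.of_forall fun p => ?_)
  · exact ((((h.meas_oP hq hf k).comp measurable_fst).mul
      ((h₂.meas_oP hq₂ hf₂ l).comp measurable_snd)).mul (meas_xP h h₂ hg k l)).aestronglyMeasurable
  · have a1 := hB p.1 p.2
    unfold I2 oP
    rw [norm_mul, norm_mul, norm_mul, norm_mul, norm_prod, norm_prod]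
    have e1 : 0 ≤ ∏ a, ‖one γ κ f c (p.1 a)‖ := prod_nonneg fun _ _ => norm_nonneg _
    have e2 : 0 ≤ ∏ a, ‖one γ₂ κ₂ f₂ c₂ (p.2 a)‖ := prod_nonneg fun _ _ => norm_nonneg _
    calc (∏ a, ‖one γ κ f c (p.1 a)‖) * ‖QP q fun a => γ (p.1 a)‖ *
          ((∏ a, ‖one γ₂ κ₂ f₂ c₂ (p.2 a)‖) * ‖QP q fun a => γ₂ (p.2 a)‖) * ‖xP γ γ₂ g p.1 p.2‖
        = ((∏ a, ‖one γ κ f c (p.1 a)‖) * ∏ a, ‖one γ₂ κ₂ f₂ c₂ (p.2 a)‖) *
          (‖QP q fun a => γ (p.1 a)‖ * ‖QP q fun a => γ₂ (p.2 a)‖ * ‖xP γ γ₂ g p.1 p.2‖) := by ring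
      _ ≤ ((∏ a, ‖one γ κ f c (p.1 a)‖) * ∏ a, ‖one γ₂ κ₂ f₂ c₂ (p.2 a)‖) *
          (B * ((∏ a, Real.exp (2 * ((k : ℝ) - l) * |(γ (p.1 a)).im|)) *
            ∏ b, Real.exp (-(2 * ((k : ℝ) - l)) * |(γ₂ (p.2 b)).im|))) := by gcongr
      _ = B * ((∏ a, (‖one γ κ f c (p.1 a)‖ * Real.exp (2 * ((k : ℝ) - l) * |(γ (p.1 a)).im|))) *
          ∏ b, (‖one γ₂ κ₂ f₂ c₂ (p.2 b)‖ *
            Real.exp (-(2 * ((k : ℝ) - l)) * |(γ₂ (p.2 b)).im|))) := by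
          rw [prod_mul_distrib, prod_mul_distrib]
          ring
      _ ≤ B * ((∏ a, (C * w (γ (p.1 a)))) * ∏ b, (D * w₂ (γ₂ (p.2 b)))) := by
          refine mul_le_mul_of_nonneg_left (mul_le_mul (prod_le_prod (fun a _ => by positivity)
            fun a _ => hC _) (prod_le_prod (fun a _ => by positivity) fun a _ => hD _)
            (prod_nonneg fun a _ => by positivity) (prod_nonneg fun a _ => ?_)) b0
          exact mul_nonneg c0 (h.w0 _)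
      _ = B * C ^ k * D ^ l * ((∏ a, w (γ (p.1 a))) * ∏ b, w₂ (γ₂ (p.2 b))) := by
          rw [prod_mul_distrib, prod_mul_distrib, prod_const, prod_const, card_univ, card_univ,
            Fintype.card_fin, Fintype.card_fin]
          ring

end neu

end Pool.Agent.PHD

end
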