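import Pool.Agent.PHD.Conf

/-!
# Particle-hole duality: general contours (unbounded lines), two contours

`Adm U S φ w m F`: `F` analytic on `U`, `‖F z‖ * φ z ^ m ≤ C * w z` on the closed region `S`.
`Cg`: a contour in `S` with the residue formula for `Adm 0`; `Pq`: pair function,
`‖q (z - ζ)‖ ≤ C * φ z * φ ζ` on `S`.  The integral of `k` particles needs `Adm (k - 1)`.

* `Cg.int_JJ`, `Cg.JJ_succ`; **`Cg.JJ_eq`**;
* `Cg.JJ_cont`;
* **`JJ_any`**: two contours, two one body functions with the same values at the nodes;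
* **`JJ_pH`**: particles on one contour = holes on the other contour.
-/

set_option autoImplicit false
set_option linter.unusedVariables false

noncomputable section

open Finset MeasureTheory Filter Topology

namespace Pool.Agent.PHD

variable {Ξ : Type*} [MeasurableSpace Ξ]

/-- admissible one body functions of a system of `m + 1` particles -/
def Adm (U S : Set ℂ) (φ w : ℂ → ℝ) (m : ℕ) (F : ℂ → ℂ) : Prop :=
  DifferentiableOn ℂ F U ∧ ∃ C : ℝ, 0 ≤ C ∧ ∀ z ∈ S, ‖F z‖ * φ z ^ m ≤ C * w z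

/-- a contour -/
structure Cg (μ : Measure Ξ) (γ κ : Ξ → ℂ) (U S Ω : Set ℂ) (φ w : ℂ → ℝ) : Prop where
  sf : SigmaFinite μ
  mγ : Measurable γ
  mκ : Measurable κ
  bκ : ∃ C : ℝ, ∀ x, ‖κ x‖ ≤ C
  oU : IsOpen U
  oΩ : IsOpen Ω
  sub : Ω ⊆ S
  sub' : S ⊆ U
  mem : ∀ x, γ x ∈ S
  φ1 : ∀ z, 1 ≤ φ z
  w0 : ∀ z, 0 ≤ w z
  iw : Integrable (fun x => w (γ x)) μ
  off : ∀ c ∈ Ω, ∃ ε : ℝ, 0 < ε ∧ ∀ x, ε ≤ ‖γ x - c‖
  rs : ∀ (n : ℕ) (c : Fin n → ℂ), Function.Injective c → (∀ i, c i ∈ Ω) → ∀ F : ℂ → ℂ,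
    Adm U S φ w 0 F → ∫ x, κ x * (F (γ x) / ∏ i, (γ x - c i)) ∂μ =
      ∑ i, F (c i) / ∏ j ∈ univ.erase i, (c i - c j)

/-- a pair function -/
structure Pq (q : ℂ → ℂ) (U S V : Set ℂ) (φ : ℂ → ℝ) : Prop where
  oV : IsOpen V
  dif : ∀ z ∈ U, ∀ w ∈ U, z - w ∈ V
  an : DifferentiableOn ℂ q V
  even : ∀ z, q (-z) = q z
  bd : ∃ C : ℝ, 0 ≤ C ∧ ∀ z ∈ S, ∀ ζ ∈ S, ‖q (z - ζ)‖ ≤ C * (φ z * φ ζ)

theorem Adm.mul_q {U S V : Set ℂ} {φ w : ℂ → ℝ} {m : ℕ} {F q : ℂ → ℂ}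
    (h : Adm U S φ w (m + 1) F) (hq : Pq q U S V φ) (hφ : ∀ z, 1 ≤ φ z) {ζ : ℂ}
    (hζ : ζ ∈ S) (hζ' : ζ ∈ U) : Adm U S φ w m fun z => F z * q (ζ - z) := by
  obtain ⟨h1, C, h2, h3⟩ := h
  obtain ⟨D, h4, h5⟩ := hq.bd
  refine ⟨h1.mul (hq.an.comp (by fun_prop) fun z hz => hq.dif ζ hζ' z hz), C * (D * φ ζ),
    by have := hφ ζ; positivity, fun z hz => ?_⟩
  have a1 := hφ z
  have a2 := hφ ζ
  have a3 := h5 ζ hζ z hz
  have a4 := h3 z hz
  have a5 : 0 ≤ φ z ^ m := by positivity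
  rw [norm_mul]
  calc ‖F z‖ * ‖q (ζ - z)‖ * φ z ^ m ≤ ‖F z‖ * (D * (φ ζ * φ z)) * φ z ^ m := by gcongr
    _ = (‖F z‖ * φ z ^ (m + 1)) * (D * φ ζ) := by ring
    _ ≤ (C * w z) * (D * φ ζ) := by gcongr
    _ = C * (D * φ ζ) * w z := by ring

theorem Adm.mono {U S : Set ℂ} {φ w : ℂ → ℝ} {m k : ℕ} {F : ℂ → ℂ} (h : Adm U S φ w m F)
    (hφ : ∀ z, 1 ≤ φ z) (hk : k ≤ m) : Adm U S φ w k F := by
  obtain ⟨h1, C, h2, h3⟩ := h
  refine ⟨h1, C, h2, fun z hz => le_trans ?_ (h3 z hz)⟩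
  exact mul_le_mul_of_nonneg_left (pow_le_pow_right₀ (hφ z) hk) (norm_nonneg _)

namespace Cg

variable {μ : Measure Ξ} {γ κ : Ξ → ℂ} {U S Ω V : Set ℂ} {φ w : ℂ → ℝ}
  (h : Cg μ γ κ U S Ω φ w)
include h

theorem ne_node {c : ℂ} (hc : c ∈ Ω) (x : Ξ) : γ x - c ≠ 0 := by
  obtain ⟨ε, h1, h2⟩ := h.off c hc
  exact norm_pos_iff.1 (h1.trans_le (h2 x))

/-- the residue formula for any index type -/
theorem rs' {ι : Type*} [Fintype ι] [DecidableEq ι] {c : ι → ℂ} (hc : Function.Injective c)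
    (hΩ : ∀ i, c i ∈ Ω) {F : ℂ → ℂ} (hF : Adm U S φ w 0 F) :
    ∫ x, κ x * (F (γ x) / ∏ i, (γ x - c i)) ∂μ =
      ∑ i, F (c i) / ∏ j ∈ univ.erase i, (c i - c j) := by
  set e := (Fintype.equivFin ι).symm with he
  have h1 := h.rs (Fintype.card ι) (c ∘ e) (hc.comp e.injective) (fun i => hΩ _) F hF
  have e1 : ∀ x, ∏ i, (γ x - (c ∘ e) i) = ∏ i, (γ x - c i) := fun x =>
    Fintype.prod_equiv e _ _ fun i => rfl
  simp only [e1] at h1
  rw [h1]
  refine Fintype.sum_equiv e _ _ fun i => ?_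
  congr 1
  refine prod_bij' (fun j _ => e j) (fun j _ => e.symm j) ?_ ?_ ?_ ?_ ?_
  · intro j hj
    simpa using hj
  · intro j hj
    simp only [mem_erase, ne_eq, mem_univ, and_true] at hj ⊢
    rintro rfl
    exact hj (e.apply_symm_apply j).symm
  · intro j _
    exact e.symm_apply_apply j
  · intro j _
    exact e.apply_symm_apply j
  · intro j _
    rfl

/-- uniform distance of the contour from the nodes -/
theorem off_all {ι : Type*} [Fintype ι] {c : ι → ℂ} (hΩ : ∀ i, c i ∈ Ω) :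
    ∃ D : ℝ, 0 ≤ D ∧ ∀ x, ‖∏ i, (γ x - c i)‖⁻¹ ≤ D := by
  choose ε h1 h2 using fun i => h.off (c i) (hΩ i)
  refine ⟨∏ i, (ε i)⁻¹, prod_nonneg fun i _ => inv_nonneg.2 (h1 i).le, fun x => ?_⟩
  rw [norm_prod, ← prod_inv_distrib]
  exact prod_le_prod (fun i _ => inv_nonneg.2 (norm_nonneg _)) fun i _ =>
    inv_anti₀ (h1 i) (h2 i x)

theorem meas_one {ι : Type*} [Fintype ι] {c : ι → ℂ} {f : ℂ → ℂ}
    (hf : ContinuousOn f U) : Measurable (one γ κ f c) := by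
  unfold one
  refine h.mκ.mul ((Ctr.meas_cont h.oU hf h.mγ fun x => h.sub' (h.mem x)).div ?_)
  exact Finset.measurable_prod _ fun i _ => h.mγ.sub_const _

theorem bd_one {ι : Type*} [Fintype ι] {c : ι → ℂ} (hΩ : ∀ i, c i ∈ Ω) {f : ℂ → ℂ} {m : ℕ}
    (hf : Adm U S φ w m f) :
    ∃ C : ℝ, 0 ≤ C ∧ ∀ x, ‖one γ κ f c x‖ * φ (γ x) ^ m ≤ C * w (γ x) := by
  obtain ⟨_, C, h2, h3⟩ := hf
  obtain ⟨C0, h0⟩ := h.bκ
  obtain ⟨D, h4, h5⟩ := h.off_all hΩ
  refine ⟨|C0| * C * D, by positivity, fun x => ?_⟩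
  have a1 : 0 ≤ φ (γ x) ^ m := by
    have := h.φ1 (γ x)
    positivity
  have a2 := h3 _ (h.mem x)
  have a3 := (h0 x).trans (le_abs_self C0)
  have a4 := h5 x
  have a5 := h.w0 (γ x)
  unfold one
  rw [norm_mul, norm_div, div_eq_mul_inv]
  calc ‖κ x‖ * (‖f (γ x)‖ * ‖∏ i, (γ x - c i)‖⁻¹) * φ (γ x) ^ m
      = ‖κ x‖ * (‖f (γ x)‖ * φ (γ x) ^ m) * ‖∏ i, (γ x - c i)‖⁻¹ := by ring
    _ ≤ |C0| * (C * w (γ x)) * D := by gcongr
    _ = |C0| * C * D * w (γ x) := by ring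

theorem meas_q {q : ℂ → ℂ} (hq : Pq q U S V φ) {α : Type*} [MeasurableSpace α]
    {a b : α → Ξ} (ha : Measurable a) (hb : Measurable b) :
    Measurable fun x => q (γ (a x) - γ (b x)) :=
  Ctr.meas_cont hq.oV hq.an.continuousOn ((h.mγ.comp ha).sub (h.mγ.comp hb))
    fun x => hq.dif _ (h.sub' (h.mem _)) _ (h.sub' (h.mem _))

theorem meas_QP {q : ℂ → ℂ} (hq : Pq q U S V φ) {k : ℕ} :
    Measurable fun x : Fin k → Ξ => QP q fun a => γ (x a) := by
  unfold QP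
  exact Finset.measurable_prod _ fun a _ => Finset.measurable_prod _ fun b _ =>
    h.meas_q hq (measurable_pi_apply a) (measurable_pi_apply b)

theorem bd_QP {q : ℂ → ℂ} (hq : Pq q U S V φ) (k : ℕ) :
    ∃ C : ℝ, 0 ≤ C ∧ ∀ x : Fin k → Ξ, ‖QP q fun a => γ (x a)‖ ≤ C * ∏ a, φ (γ (x a)) ^ (k - 1) := by
  obtain ⟨D, d0, hD⟩ := hq.bd
  induction k with
  | zero => exact ⟨1, zero_le_one, fun x => by simp [QP]⟩
  | succ k ih =>
    obtain ⟨C, c0, hC⟩ := ih
    refine ⟨D ^ k * C, by positivity, fun x => ?_⟩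
    rw [QP_succ, norm_mul, norm_prod, Fin.prod_univ_succ, Nat.add_sub_cancel]
    have a1 : ∏ b : Fin k, ‖q (γ (x 0) - γ (x b.succ))‖ ≤
        ∏ b : Fin k, (D * (φ (γ (x 0)) * φ (γ (x b.succ)))) :=
      prod_le_prod (fun _ _ => norm_nonneg _) fun b _ => hD _ (h.mem _) _ (h.mem _)
    have a2 := hC fun b => x b.succ
    have p : ∀ z, 0 ≤ φ z := fun z => zero_le_one.trans (h.φ1 z)
    have a3 : (∏ b : Fin k, φ (γ (x b.succ))) * ∏ b : Fin k, φ (γ (x b.succ)) ^ (k - 1) =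
        ∏ b : Fin k, φ (γ (x b.succ)) ^ k := by
      rw [← prod_mul_distrib]
      refine prod_congr rfl fun b _ => ?_
      have : 0 < k := b.pos
      rw [← pow_succ', Nat.sub_add_cancel this]
    calc (∏ b : Fin k, ‖q (γ (x 0) - γ (x b.succ))‖) * ‖QP q fun b => γ (x b.succ)‖
        ≤ (∏ b : Fin k, (D * (φ (γ (x 0)) * φ (γ (x b.succ))))) *
          (C * ∏ b : Fin k, φ (γ (x b.succ)) ^ (k - 1)) :=
          mul_le_mul a1 a2 (norm_nonneg _) (prod_nonneg fun b _ => by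
            have := p (γ (x 0))
            have := p (γ (x b.succ))
            positivity)
      _ = D ^ k * C * (φ (γ (x 0)) ^ k * ((∏ b : Fin k, φ (γ (x b.succ))) *
          ∏ b : Fin k, φ (γ (x b.succ)) ^ (k - 1))) := by
          rw [prod_mul_distrib, prod_mul_distrib, prod_const, prod_const, card_univ,
            Fintype.card_fin]
          ring
      _ = _ := by rw [a3]

/-- bound of the integrand of `k` particles -/
theorem bd_JJ {ι : Type*} [Fintype ι] {c : ι → ℂ} (hΩ : ∀ i, c i ∈ Ω) {f q : ℂ → ℂ}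
    (hq : Pq q U S V φ) (k : ℕ) (hf : Adm U S φ w (k - 1) f) :
    ∃ C : ℝ, 0 ≤ C ∧ ∀ x : Fin k → Ξ,
      ‖(∏ a, one γ κ f c (x a)) * QP q fun a => γ (x a)‖ ≤ C * ∏ a, w (γ (x a)) := by
  obtain ⟨C, h0, h1⟩ := h.bd_one hΩ hf
  obtain ⟨C', h0', h1'⟩ := h.bd_QP hq k
  refine ⟨C ^ k * C', by positivity, fun x => ?_⟩
  rw [norm_mul, norm_prod]
  calc (∏ a, ‖one γ κ f c (x a)‖) * ‖QP q fun a => γ (x a)‖
      ≤ (∏ a, ‖one γ κ f c (x a)‖) * (C' * ∏ a, φ (γ (x a)) ^ (k - 1)) := by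
        gcongr
        exact h1' x
    _ = C' * ∏ a, (‖one γ κ f c (x a)‖ * φ (γ (x a)) ^ (k - 1)) := by
        rw [prod_mul_distrib]
        ring
    _ ≤ C' * ∏ a, (C * w (γ (x a))) := by
        refine mul_le_mul_of_nonneg_left (prod_le_prod (fun a _ => ?_) fun a _ => h1 _) h0'
        have := h.φ1 (γ (x a))
        positivity
    _ = C ^ k * C' * ∏ a, w (γ (x a)) := by
        rw [prod_mul_distrib, prod_const, card_univ, Fintype.card_fin]
        ring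

/-- the integrand of `k` particles is integrable -/
theorem int_JJ {ι : Type*} [Fintype ι] {c : ι → ℂ} (hΩ : ∀ i, c i ∈ Ω) {f q : ℂ → ℂ}
    (hq : Pq q U S V φ) (k : ℕ) (hf : Adm U S φ w (k - 1) f) :
    Integrable (fun x : Fin k → Ξ => (∏ a, one γ κ f c (x a)) * QP q fun a => γ (x a))
      (Measure.pi fun _ => μ) := by
  haveI := h.sf
  obtain ⟨C, h0, h1⟩ := h.bd_JJ hΩ hq k hf
  have i1 : Integrable (fun x : Fin k → Ξ => ∏ a, w (γ (x a))) (Measure.pi fun _ => μ) :=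
    Integrable.fintype_prod (f := fun _ x => w (γ x)) fun _ => h.iw
  refine (i1.const_mul C).mono' ?_ (Eventually.of_forall h1)
  exact ((Finset.measurable_prod _ fun a _ =>
    (h.meas_one hf.1.continuousOn).comp (measurable_pi_apply a)).mul
    (h.meas_QP hq)).aestronglyMeasurable

/-- **one particle on the nodes** -/
theorem JJ_succ {ι : Type*} [Fintype ι] [DecidableEq ι] {c : ι → ℂ} (hc : Function.Injective c)
    (hΩ : ∀ i, c i ∈ Ω) {f q : ℂ → ℂ} (hq : Pq q U S V φ) (k : ℕ) (hf : Adm U S φ w k f) :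
    JJ μ γ κ f q c (k + 1) = ∑ i, (f (c i) / ∏ j ∈ univ.erase i, (c i - c j)) *
      JJ μ γ κ (fun z => f z * q (c i - z)) q c k := by
  haveI := h.sf
  have hS : ∀ i, c i ∈ S := fun i => h.sub (hΩ i)
  set g : Ξ × (Fin k → Ξ) → ℂ := fun y => (one γ κ f c y.1 * ∏ b, q (γ y.1 - γ (y.2 b))) *
    ((∏ a, one γ κ f c (y.2 a)) * QP q fun a => γ (y.2 a)) with hg
  have e1 : JJ μ γ κ f q c (k + 1) = ∫ y, g y ∂(μ.prod (Measure.pi fun _ : Fin k => μ)) := by
    have := (measurePreserving_piFinSuccAbove (fun _ : Fin (k + 1) => μ) 0).integral_comp' g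
    rw [← this]
    unfold JJ
    refine integral_congr_ae (Filter.Eventually.of_forall fun x => ?_)
    simp only [hg]
    rw [Fin.prod_univ_succ, QP_succ]
    have e : MeasurableEquiv.piFinSuccAbove (fun _ : Fin (k + 1) => Ξ) 0 x =
        (x 0, fun b => x b.succ) := rfl
    rw [e]
    ring
  obtain ⟨D, d0, hD⟩ := hq.bd
  have p : ∀ z, 0 ≤ φ z := fun z => zero_le_one.trans (h.φ1 z)
  have hi : Integrable g (μ.prod (Measure.pi fun _ : Fin k => μ)) := by
    obtain ⟨C1, p1, h1⟩ := h.bd_one hΩ hf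
    obtain ⟨C3, p3, h3⟩ := h.bd_QP hq k
    have i1 : Integrable (fun y : Ξ × (Fin k → Ξ) => w (γ y.1) * ∏ a, w (γ (y.2 a)))
        (μ.prod (Measure.pi fun _ : Fin k => μ)) :=
      h.iw.mul_prod (Integrable.fintype_prod (f := fun _ x => w (γ x)) fun _ => h.iw)
    refine (i1.const_mul (C1 * D ^ k * (C1 ^ k * C3))).mono' ?_ (Eventually.of_forall fun y => ?_)
    · refine Measurable.aestronglyMeasurable ?_
      refine ((((h.meas_one hf.1.continuousOn).comp measurable_fst).mul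
        (Finset.measurable_prod _ fun b _ => ?_)).mul
        ((Finset.measurable_prod _ fun a _ => ?_).mul ?_))
      · exact h.meas_q hq measurable_fst ((measurable_pi_apply b).comp measurable_snd)
      · exact (h.meas_one hf.1.continuousOn).comp ((measurable_pi_apply a).comp measurable_snd)
      · exact (h.meas_QP hq).comp measurable_snd
    · simp only [hg]
      rw [norm_mul, norm_mul, norm_mul, norm_prod, norm_prod]
      have b1 : ∏ b : Fin k, ‖q (γ y.1 - γ (y.2 b))‖ ≤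
          ∏ b : Fin k, (D * (φ (γ y.1) * φ (γ (y.2 b)))) :=
        prod_le_prod (fun _ _ => norm_nonneg _) fun b _ => hD _ (h.mem _) _ (h.mem _)
      have b2 : ∏ b : Fin k, (D * (φ (γ y.1) * φ (γ (y.2 b)))) =
          D ^ k * φ (γ y.1) ^ k * ∏ b, φ (γ (y.2 b)) := by
        rw [prod_mul_distrib, prod_mul_distrib, prod_const, prod_const, card_univ,
          Fintype.card_fin]
        ring
      have b3 : (∏ b : Fin k, φ (γ (y.2 b))) * ∏ b : Fin k, φ (γ (y.2 b)) ^ (k - 1) =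
          ∏ b : Fin k, φ (γ (y.2 b)) ^ k := by
        rw [← prod_mul_distrib]
        refine prod_congr rfl fun b _ => ?_
        have : 0 < k := b.pos
        rw [← pow_succ', Nat.sub_add_cancel this]
      have b4 : ∏ a, (‖one γ κ f c (y.2 a)‖ * φ (γ (y.2 a)) ^ k) ≤ ∏ a, (C1 * w (γ (y.2 a))) :=
        prod_le_prod (fun a _ => by
          have := p (γ (y.2 a))
          positivity) fun a _ => h1 _
      have q1 : 0 ≤ ∏ a, ‖one γ κ f c (y.2 a)‖ := prod_nonneg fun _ _ => norm_nonneg _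
      have q2 : 0 ≤ ∏ b : Fin k, φ (γ (y.2 b)) := prod_nonneg fun _ _ => p _
      have q3 : 0 ≤ ∏ b : Fin k, φ (γ (y.2 b)) ^ (k - 1) :=
        prod_nonneg fun _ _ => pow_nonneg (p _) _
      have q4 := p (γ y.1)
      have q5 : 0 ≤ ∏ a, w (γ (y.2 a)) := prod_nonneg fun _ _ => h.w0 _
      have q6 := h.w0 (γ y.1)
      calc ‖one γ κ f c y.1‖ * (∏ b, ‖q (γ y.1 - γ (y.2 b))‖) *
          ((∏ a, ‖one γ κ f c (y.2 a)‖) * ‖QP q fun a => γ (y.2 a)‖)
          ≤ ‖one γ κ f c y.1‖ * (D ^ k * φ (γ y.1) ^ k * ∏ b, φ (γ (y.2 b))) *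
          ((∏ a, ‖one γ κ f c (y.2 a)‖) * (C3 * ∏ b, φ (γ (y.2 b)) ^ (k - 1))) := by
            refine mul_le_mul (mul_le_mul_of_nonneg_left (b1.trans b2.le) (norm_nonneg _))
              (mul_le_mul_of_nonneg_left (h3 _) q1) (by positivity) (by positivity)
        _ = (‖one γ κ f c y.1‖ * φ (γ y.1) ^ k) * D ^ k * C3 *
            ((∏ a, ‖one γ κ f c (y.2 a)‖) * ((∏ b, φ (γ (y.2 b))) *
              ∏ b, φ (γ (y.2 b)) ^ (k - 1))) := by ring
        _ = (‖one γ κ f c y.1‖ * φ (γ y.1) ^ k) * D ^ k * C3 *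
            ∏ a, (‖one γ κ f c (y.2 a)‖ * φ (γ (y.2 a)) ^ k) := by
            rw [b3, prod_mul_distrib]
        _ ≤ (C1 * w (γ y.1)) * D ^ k * C3 * ∏ a, (C1 * w (γ (y.2 a))) := by
            refine mul_le_mul ?_ b4 (prod_nonneg fun a _ => by
              have := p (γ (y.2 a))
              positivity) (by positivity)
            exact mul_le_mul_of_nonneg_right (mul_le_mul_of_nonneg_right (h1 y.1)
              (by positivity)) p3
        _ = C1 * D ^ k * (C1 ^ k * C3) * (w (γ y.1) * ∏ a, w (γ (y.2 a))) := by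
            rw [prod_mul_distrib, prod_const, card_univ, Fintype.card_fin]
            ring
  have hsucc : ∀ (m : ℕ) (F : ℂ → ℂ), Adm U S φ w m F → ∀ (s : Finset (Fin k)) (y : Fin k → Ξ),
      s.card ≤ m → Adm U S φ w (m - s.card) fun z => F z * ∏ b ∈ s, q (γ (y b) - z) := by
    intro m F hF s y
    induction s using Finset.induction_on with
    | empty => intro _; simpa using hF
    | insert b s hb ih =>
      intro hs
      rw [card_insert_of_notMem hb] at hs ⊢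
      have i1 := ih (by omega)
      have e : m - s.card = (m - (s.card + 1)) + 1 := by omega
      rw [e] at i1
      have := i1.mul_q hq h.φ1 (h.mem (y b)) (h.sub' (h.mem (y b)))
      have e0 : (fun z => F z * ∏ b ∈ insert b s, q (γ (y b) - z)) =
          fun z => (F z * ∏ b ∈ s, q (γ (y b) - z)) * q (γ (y b) - z) := by
        funext z
        rw [prod_insert hb]
        ring
      rw [e0]
      exact this
  have e2 : ∀ y : Fin k → Ξ, ∫ x, g (x, y) ∂μ = ∑ i, (f (c i) / ∏ j ∈ univ.erase i, (c i - c j)) *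
      ((∏ a, one γ κ (fun z => f z * q (c i - z)) c (y a)) * QP q fun a => γ (y a)) := by
    intro y
    have hF := hsucc k f hf univ y (by rw [card_univ, Fintype.card_fin])
    rw [card_univ, Fintype.card_fin, Nat.sub_self] at hF
    have key := h.rs' hc hΩ hF
    have e3 : ∀ x, g (x, y) = (κ x * ((f (γ x) * ∏ b, q (γ (y b) - γ x)) / ∏ i, (γ x - c i))) *
        ((∏ a, one γ κ f c (y a)) * QP q fun a => γ (y a)) := by
      intro x
      simp only [hg]
      have : ∀ b, q (γ x - γ (y b)) = q (γ (y b) - γ x) := fun b => by rw [← hq.even, neg_sub]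
      simp only [this]
      unfold one
      ring
    simp only [e3]
    rw [integral_mul_const, key, sum_mul]
    refine sum_congr rfl fun i _ => ?_
    have e4 : ∏ a, one γ κ (fun z => f z * q (c i - z)) c (y a) =
        (∏ b, q (γ (y b) - c i)) * ∏ a, one γ κ f c (y a) := by
      rw [← prod_mul_distrib]
      refine prod_congr rfl fun a _ => ?_
      unfold one
      rw [show q (γ (y a) - c i) = q (c i - γ (y a)) by rw [← hq.even, neg_sub]]
      ring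
    rw [e4]
    ring
  rw [e1, integral_prod_symm _ hi]
  simp only [e2]
  rcases Nat.eq_zero_or_pos k with hk | hk
  · subst hk
    rw [integral_finset_sum]
    · refine sum_congr rfl fun i _ => ?_
      rw [integral_const_mul]
      rfl
    · intro i _
      have : (fun a : Fin 0 → Ξ => (f (c i) / ∏ j ∈ univ.erase i, (c i - c j)) *
          ((∏ a_1, one γ κ (fun z => f z * q (c i - z)) c (a a_1)) * QP q fun a_1 => γ (a a_1))) =
          fun _ => (f (c i) / ∏ j ∈ univ.erase i, (c i - c j)) * (1 * 1) := by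
        funext a
        simp [QP]
      rw [this, Measure.pi_of_empty]
      exact integrable_const _
  · rw [integral_finset_sum]
    · refine sum_congr rfl fun i _ => ?_
      rw [integral_const_mul]
      rfl
    · intro i _
      have e : k = (k - 1) + 1 := by omega
      have hf' : Adm U S φ w ((k - 1) + 1) f := by rwa [← e]
      exact (h.int_JJ hΩ hq k (hf'.mul_q hq h.φ1 (hS i) (h.sub' (hS i)))).const_mul _

/-- **the integral of `k` particles = sum over the sets of `k` nodes** -/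
theorem JJ_eq {ι : Type*} [LinearOrder ι] [Fintype ι] {c : ι → ℂ} (hc : Function.Injective c)
    (hΩ : ∀ i, c i ∈ Ω) {q : ℂ → ℂ} (hq : Pq q U S V φ) (q0 : q 0 = 0) (k : ℕ) :
    ∀ {f : ℂ → ℂ}, Adm U S φ w (k - 1) f →
      JJ μ γ κ f q c k = (k.factorial : ℂ) * ∑ S ∈ powersetCard k (univ : Finset ι), wS f q c S := by
  haveI := h.sf
  have base : ∀ f : ℂ → ℂ, JJ μ γ κ f q c 0 =
      ((0 : ℕ).factorial : ℂ) * ∑ S ∈ powersetCard 0 (univ : Finset ι), wS f q c S := by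
    intro f
    unfold JJ
    simp only [univ_eq_empty, prod_empty, one_mul, QP, integral_const,
      Nat.factorial_zero, Nat.cast_one, powersetCard_zero, sum_singleton]
    rw [Measure.pi_of_empty]
    simp [wS, wt_empty, Measure.real]
  induction k with
  | zero =>
    intro f _
    exact base f
  | succ k ih =>
    intro f hf
    rw [Nat.add_sub_cancel] at hf
    have hS : ∀ i, c i ∈ S := fun i => h.sub (hΩ i)
    rw [h.JJ_succ hc hΩ hq k hf]
    have e1 : ∀ i, (f (c i) / ∏ j ∈ univ.erase i, (c i - c j)) *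
        JJ μ γ κ (fun z => f z * q (c i - z)) q c k =
        ∑ S ∈ powersetCard k (univ : Finset ι), (k.factorial : ℂ) *
          if i ∈ S then 0 else wS f q c (insert i S) := by
      intro i
      have e2 : JJ μ γ κ (fun z => f z * q (c i - z)) q c k = (k.factorial : ℂ) *
          ∑ S ∈ powersetCard k (univ : Finset ι), wS (fun z => f z * q (c i - z)) q c S := by
        rcases Nat.eq_zero_or_pos k with hk | hk
        · subst hk
          exact base _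
        · have e : k = (k - 1) + 1 := by omega
          have hf' : Adm U S φ w ((k - 1) + 1) f := by rwa [← e]
          exact ih (hf'.mul_q hq h.φ1 (hS i) (h.sub' (hS i)))
      rw [e2, mul_sum, mul_sum]
      refine sum_congr rfl fun S _ => ?_
      rw [wS_mul]
      split_ifs with hi
      · have : ∏ s ∈ S, q (c i - c s) = 0 := prod_eq_zero hi (by rw [sub_self, q0])
        rw [this]
        ring
      · unfold wS
        rw [wt_insert (fun i j => by rw [← hq.even, neg_sub]) hi]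
        ring
    simp only [e1, ← mul_sum]
    rw [sum_insert_card k (wS f q c), Nat.factorial_succ, nsmul_eq_mul]
    push_cast
    ring

theorem oA {ι : Type*} [Finite ι] : IsOpen {c : ι → ℂ | ∀ i, c i ∈ Ω} := by
  have : {c : ι → ℂ | ∀ i, c i ∈ Ω} = Set.pi Set.univ fun _ => Ω := by
    ext c
    simp
  rw [this]
  exact isOpen_set_pi Set.finite_univ fun _ _ => h.oΩ

/-- the distance from the nodes, locally uniform -/
theorem off_loc {ι : Type*} [Finite ι] {c0 : ι → ℂ} (hΩ : ∀ i, c0 i ∈ Ω) :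
    ∃ ε : ℝ, 0 < ε ∧ ∀ᶠ c in 𝓝 c0, ∀ i x, ε ≤ ‖γ x - c i‖ := by
  haveI := Fintype.ofFinite ι
  rcases isEmpty_or_nonempty ι with e | e
  · exact ⟨1, one_pos, Eventually.of_forall fun c i => (e.false i).elim⟩
  choose ε h1 h2 using fun i => h.off (c0 i) (hΩ i)
  set δ : ℝ := univ.inf' univ_nonempty ε with hδ
  have p : 0 < δ := (Finset.lt_inf'_iff _).2 fun i _ => h1 i
  have hle : ∀ i, δ ≤ ε i := fun i => Finset.inf'_le _ (mem_univ i)
  refine ⟨δ / 2, by positivity, ?_⟩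
  filter_upwards [Metric.ball_mem_nhds c0 (half_pos p)] with c hc i x
  have h3 : ‖c i - c0 i‖ ≤ δ / 2 := by
    have := (dist_le_pi_dist c c0 i).trans (Metric.mem_ball.1 hc).le
    rwa [dist_eq_norm] at this
  have h4 := h2 i x
  have h5 : ‖γ x - c0 i‖ ≤ ‖γ x - c i‖ + ‖c i - c0 i‖ := norm_sub_le_norm_sub_add_norm_sub _ _ _
  have := hle i
  linarith

/-- **continuity in the nodes** -/
theorem JJ_cont {ι : Type*} [Fintype ι] {q : ℂ → ℂ} (hq : Pq q U S V φ)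
    {F : (ι → ℂ) → ℂ → ℂ} (k : ℕ)
    (hF : ContinuousOn (fun p : (ι → ℂ) × ℂ => F p.1 p.2) ({c | ∀ i, c i ∈ Ω} ×ˢ U))
    (hb : ∀ c0 : ι → ℂ, (∀ i, c0 i ∈ Ω) → ∃ C : ℝ, 0 ≤ C ∧ ∀ᶠ c in 𝓝 c0, ∀ z ∈ S,
      ‖F c z‖ * φ z ^ (k - 1) ≤ C * w z) :
    ContinuousOn (fun c => JJ μ γ κ (F c) q c k) {c | ∀ i, c i ∈ Ω} := by
  haveI := h.sf
  obtain ⟨C0, hC0⟩ := h.bκ
  obtain ⟨C', p', hC'⟩ := h.bd_QP hq k
  have hsec : ∀ c : ι → ℂ, (∀ i, c i ∈ Ω) → ContinuousOn (F c) U := fun c hc =>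
    hF.comp (f := fun z => (c, z)) (by fun_prop) fun z hz => ⟨hc, hz⟩
  intro c0 hc0
  refine ContinuousAt.continuousWithinAt ?_
  obtain ⟨C1, p1, e1⟩ := hb c0 hc0
  obtain ⟨ε, pε, e2⟩ := h.off_loc hc0
  have e3 : ∀ᶠ c in 𝓝 c0, ∀ i, c i ∈ Ω := h.oA.mem_nhds hc0
  have p : ∀ z, 0 ≤ φ z := fun z => zero_le_one.trans (h.φ1 z)
  have i1 : Integrable (fun x : Fin k → Ξ => ∏ a, w (γ (x a))) (Measure.pi fun _ => μ) :=
    Integrable.fintype_prod (f := fun _ x => w (γ x)) fun _ => h.iw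
  unfold JJ
  refine tendsto_integral_filter_of_dominated_convergence
    (fun x => (|C0| * C1 * ∏ _i : ι, ε⁻¹) ^ k * C' * ∏ a, w (γ (x a))) ?_ ?_
    (i1.const_mul _) ?_
  · filter_upwards [e3] with c hc
    refine Measurable.aestronglyMeasurable ?_
    exact (Finset.measurable_prod _ fun a _ =>
      (h.meas_one (hsec c hc)).comp (measurable_pi_apply a)).mul (h.meas_QP hq)
  · filter_upwards [e1, e2] with c h1 h2
    refine Eventually.of_forall fun x => ?_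
    have b1 : ∀ a, ‖one γ κ (F c) c (x a)‖ * φ (γ (x a)) ^ (k - 1) ≤
        (|C0| * C1 * ∏ _i : ι, ε⁻¹) * w (γ (x a)) := by
      intro a
      unfold one
      rw [norm_mul, norm_div, div_eq_mul_inv, norm_prod, ← prod_inv_distrib]
      have a1 := (hC0 (x a)).trans (le_abs_self C0)
      have a2 := h1 _ (h.mem (x a))
      have a3 : ∏ i, ‖γ (x a) - c i‖⁻¹ ≤ ∏ _i : ι, ε⁻¹ :=
        prod_le_prod (fun i _ => inv_nonneg.2 (norm_nonneg _)) fun i _ =>
          inv_anti₀ pε (h2 i (x a))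
      have a4 := h.w0 (γ (x a))
      have a5 : 0 ≤ φ (γ (x a)) ^ (k - 1) := pow_nonneg (p _) _
      have a6 : 0 ≤ ∏ i, ‖γ (x a) - c i‖⁻¹ := prod_nonneg fun _ _ => inv_nonneg.2 (norm_nonneg _)
      calc ‖κ (x a)‖ * (‖F c (γ (x a))‖ * ∏ i, ‖γ (x a) - c i‖⁻¹) * φ (γ (x a)) ^ (k - 1)
          = ‖κ (x a)‖ * (‖F c (γ (x a))‖ * φ (γ (x a)) ^ (k - 1)) *
            ∏ i, ‖γ (x a) - c i‖⁻¹ := by ring
        _ ≤ |C0| * (C1 * w (γ (x a))) * ∏ _i : ι, ε⁻¹ := by gcongr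
        _ = (|C0| * C1 * ∏ _i : ι, ε⁻¹) * w (γ (x a)) := by ring
    rw [norm_mul, norm_prod]
    have q0 : 0 ≤ |C0| * C1 * ∏ _i : ι, ε⁻¹ := by positivity
    calc (∏ a, ‖one γ κ (F c) c (x a)‖) * ‖QP q fun a => γ (x a)‖
        ≤ (∏ a, ‖one γ κ (F c) c (x a)‖) * (C' * ∏ a, φ (γ (x a)) ^ (k - 1)) := by
          gcongr
          exact hC' x
      _ = C' * ∏ a, (‖one γ κ (F c) c (x a)‖ * φ (γ (x a)) ^ (k - 1)) := by
          rw [prod_mul_distrib]
          ring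
      _ ≤ C' * ∏ a, ((|C0| * C1 * ∏ _i : ι, ε⁻¹) * w (γ (x a))) := by
          refine mul_le_mul_of_nonneg_left (prod_le_prod (fun a _ => ?_) fun a _ => b1 a) p'
          have := p (γ (x a))
          positivity
      _ = (|C0| * C1 * ∏ _i : ι, ε⁻¹) ^ k * C' * ∏ a, w (γ (x a)) := by
          rw [prod_mul_distrib, prod_const, card_univ, Fintype.card_fin]
          ring
  · refine Eventually.of_forall fun x => ?_
    refine Tendsto.mul (tendsto_finset_prod _ fun a _ => ?_) tendsto_const_nhds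
    unfold one
    refine tendsto_const_nhds.mul (Tendsto.div ?_ ?_ ?_)
    · have h1 : ContinuousAt (fun c : ι → ℂ => F c (γ (x a))) c0 := by
        have h2 : ContinuousOn (fun c : ι → ℂ => F c (γ (x a))) {c | ∀ i, c i ∈ Ω} :=
          hF.comp (f := fun c : ι → ℂ => (c, γ (x a))) (by fun_prop)
            fun c hc => ⟨hc, h.sub' (h.mem _)⟩
        exact h2.continuousAt (h.oA.mem_nhds hc0)
      exact h1
    · have : Continuous fun c : ι → ℂ => ∏ i, (γ (x a) - c i) := by fun_prop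
      exact this.tendsto c0
    · exact prod_ne_zero_iff.2 fun i _ => h.ne_node (hc0 i) _

end Cg

/-! ### two contours -/

/-- a family of one body functions of `k` particles, depending on the nodes -/
structure Fa {ι : Type*} (U S Ω : Set ℂ) (φ w : ℂ → ℝ) (k : ℕ) (F : (ι → ℂ) → ℂ → ℂ) : Prop where
  an : ∀ c : ι → ℂ, (∀ i, c i ∈ Ω) → DifferentiableOn ℂ (F c) U
  ct : ContinuousOn (fun p : (ι → ℂ) × ℂ => F p.1 p.2) ({c | ∀ i, c i ∈ Ω} ×ˢ U)
  bd : ∀ c0 : ι → ℂ, (∀ i, c0 i ∈ Ω) → ∃ C : ℝ, 0 ≤ C ∧ ∀ᶠ c in 𝓝 c0, ∀ z ∈ S,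
      ‖F c z‖ * φ z ^ (k - 1) ≤ C * w z

theorem Fa.adm {ι : Type*} {U S Ω : Set ℂ} {φ w : ℂ → ℝ} {k : ℕ} {F : (ι → ℂ) → ℂ → ℂ}
    (h : Fa U S Ω φ w k F) {c : ι → ℂ} (hc : ∀ i, c i ∈ Ω) : Adm U S φ w (k - 1) (F c) := by
  obtain ⟨C, h0, h1⟩ := h.bd c hc
  exact ⟨h.an c hc, C, h0, h1.self_of_nhds⟩

section two

variable {Ξ' : Type*} [MeasurableSpace Ξ'] {ι : Type*} [LinearOrder ι] [Fintype ι]
  {μ : Measure Ξ} {γ κ : Ξ → ℂ} {U S Ω V : Set ℂ} {φ w : ℂ → ℝ}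
  {μ' : Measure Ξ'} {γ' κ' : Ξ' → ℂ} {U' S' Ω' V' : Set ℂ} {φ' w' : ℂ → ℝ}

/-- **two contours**: the integral only sees the values at the nodes (in the limit of distinct
nodes) -/
theorem JJ_any (h : Cg μ γ κ U S Ω φ w) (h' : Cg μ' γ' κ' U' S' Ω' φ' w') {q : ℂ → ℂ}
    (hq : Pq q U S V φ) (hq' : Pq q U' S' V' φ') (q0 : q 0 = 0) {k : ℕ}
    {F F' : (ι → ℂ) → ℂ → ℂ} (hF : Fa U S Ω φ w k F) (hF' : Fa U' S' Ω' φ' w' k F')
    (he : ∀ c : ι → ℂ, (∀ i, c i ∈ Ω) → (∀ i, c i ∈ Ω') → Function.Injective c →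
      ∀ i, F c (c i) = F' c (c i)) {c : ι → ℂ} (hc : ∀ i, c i ∈ Ω) (hc' : ∀ i, c i ∈ Ω') :
    JJ μ γ κ (F c) q c k = JJ μ' γ' κ' (F' c) q c k := by
  refine Ctr.ext_inj (F := fun c => JJ μ γ κ (F c) q c k)
    (G := fun c => JJ μ' γ' κ' (F' c) q c k)
    (A := {c : ι → ℂ | ∀ i, c i ∈ Ω} ∩ {c : ι → ℂ | ∀ i, c i ∈ Ω'}) (h.oA.inter h'.oA)
    ((h.JJ_cont hq k hF.ct hF.bd).mono Set.inter_subset_left)
    ((h'.JJ_cont hq' k hF'.ct hF'.bd).mono Set.inter_subset_right) ?_ ⟨hc, hc'⟩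
  rintro c ⟨h1, h2⟩ hi
  rw [h.JJ_eq hi h1 hq q0 k (hF.adm h1), h'.JJ_eq hi h2 hq' q0 k (hF'.adm h2)]
  congr 1
  refine sum_congr rfl fun S _ => ?_
  unfold wS wt
  congr 1
  refine prod_congr rfl fun s _ => ?_
  simp only
  rw [he c h1 h2 hi s]

/-- more particles than nodes -/
theorem Cg.JJ_zero (h : Cg μ γ κ U S Ω φ w) {q : ℂ → ℂ} (hq : Pq q U S V φ) (q0 : q 0 = 0)
    {k : ℕ} {F : (ι → ℂ) → ℂ → ℂ} (hF : Fa U S Ω φ w k F) {c : ι → ℂ} (hc : ∀ i, c i ∈ Ω)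
    (hk : Fintype.card ι < k) : JJ μ γ κ (F c) q c k = 0 := by
  refine Ctr.ext_inj (F := fun c => JJ μ γ κ (F c) q c k) (G := fun _ => 0) h.oA
    (h.JJ_cont hq k hF.ct hF.bd) continuousOn_const ?_ hc
  intro c h1 hi
  rw [h.JJ_eq hi h1 hq q0 k (hF.adm h1), powersetCard_eq_empty.2 (by rwa [card_univ]), sum_empty,
    mul_zero]

/-- **particles on one contour = holes on the other contour**, all nodes.  `F` is the one body
function of the particles, `F'` of the holes: `F' c = fH (F c) r c` at the nodes (distinct nodes) -/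
theorem JJ_pH (h : Cg μ γ κ U S Ω φ w) (h' : Cg μ' γ' κ' U' S' Ω' φ' w') {q r : ℂ → ℂ}
    (hq : Pq q U S V φ) (hq' : Pq q U' S' V' φ') (hr : Rf q r U V) {k m : ℕ}
    (hk : k + m = Fintype.card ι)
    {F F' : (ι → ℂ) → ℂ → ℂ} (hF : Fa U S Ω φ w k F) (hF' : Fa U' S' Ω' φ' w' m F')
    (h0 : ∀ c : ι → ℂ, (∀ i, c i ∈ Ω) → ∀ i, F c (c i) ≠ 0)
    (he : ∀ c : ι → ℂ, (∀ i, c i ∈ Ω) → (∀ i, c i ∈ Ω') → Function.Injective c →
      ∀ i, F' c (c i) = fH (F c) r c (c i)) {c : ι → ℂ} (hc : ∀ i, c i ∈ Ω)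
    (hc' : ∀ i, c i ∈ Ω') :
    JJ μ γ κ (F c) q c k / k.factorial =
      WW (F c) r c * (JJ μ' γ' κ' (F' c) q c m / m.factorial) := by
  have c5 : ContinuousOn (fun c : ι → ℂ => WW (F c) r c) {c | ∀ i, c i ∈ Ω} := by
    unfold WW PP
    refine (continuousOn_finsetProd _ fun i _ => ?_).mul (continuousOn_finsetProd _ fun p _ => ?_)
    · exact hF.ct.comp (f := fun c : ι → ℂ => (c, c i)) (by fun_prop)
        fun c hc => ⟨hc, h.sub' (h.sub (hc i))⟩
    · exact (hr.an.continuousOn.comp (f := fun c : ι → ℂ => c p.1 - c p.2)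
        (s := {c | ∀ i, c i ∈ Ω}) (by fun_prop)
        fun c hc => hr.dif _ (h.sub' (h.sub (hc p.1))) _ (h.sub' (h.sub (hc p.2)))).neg
  refine Ctr.ext_inj (F := fun c => JJ μ γ κ (F c) q c k / k.factorial)
    (G := fun c => WW (F c) r c * (JJ μ' γ' κ' (F' c) q c m / m.factorial))
    (A := {c : ι → ℂ | ∀ i, c i ∈ Ω} ∩ {c : ι → ℂ | ∀ i, c i ∈ Ω'}) (h.oA.inter h'.oA)
    (((h.JJ_cont hq k hF.ct hF.bd).div_const _).mono Set.inter_subset_left)
    ((c5.mono Set.inter_subset_left).mul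
      (((h'.JJ_cont hq' m hF'.ct hF'.bd).div_const _).mono Set.inter_subset_right)) ?_ ⟨hc, hc'⟩
  rintro c ⟨h1, h2⟩ hi
  have f1 : (k.factorial : ℂ) ≠ 0 := by exact_mod_cast k.factorial_ne_zero
  have f2 : (m.factorial : ℂ) ≠ 0 := by exact_mod_cast m.factorial_ne_zero
  rw [h.JJ_eq hi h1 hq hr.q0 k (hF.adm h1), h'.JJ_eq hi h2 hq' hr.q0 m (hF'.adm h2),
    mul_div_cancel_left₀ _ f1, mul_div_cancel_left₀ _ f2, mul_sum, ← wS_univ hr hi]
  refine sum_nbij' (fun S => Sᶜ) (fun T => Tᶜ) ?_ ?_ (fun S _ => compl_compl S)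
    (fun S _ => compl_compl S) ?_
  · intro S hS
    simp only [mem_powersetCard, subset_univ, true_and] at hS ⊢
    rw [card_compl, hS]
    omega
  · intro S hS
    simp only [mem_powersetCard, subset_univ, true_and] at hS ⊢
    rw [card_compl, hS]
    omega
  · intro T _
    have e1 : wS (F' c) q c Tᶜ = wS (fH (F c) r c) q c Tᶜ := by
      unfold wS wt
      congr 1
      refine prod_congr rfl fun s _ => ?_
      simp only
      rw [he c h1 h2 hi s]
    rw [e1]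
    have := wS_dual' hr hi (fun i => h.sub' (h.sub (h1 i))) (h0 c h1) Tᶜ
    rwa [compl_compl] at this

end two

end Pool.Agent.PHD

end
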