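import Pool.Agent.PHD.Gen

/-!
# Particle-hole duality: holes with more poles inside the contour (glued kinds)

The holes have simple poles at `d j` besides the nodes `c i` (strings of the other family, legs);
their contour encloses `c` and `d`.  The sum over the sets of nodes `c` = the sum over the sets `D` of
poles `d` with the sign `(-1) ^ |D|`: the poles of `D` carry one hole each (`wS G q n D`), the other
holes run over the contour in their field.

* `wt_union`; `incl_excl`; `JJ_tends`;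
* **`JJ_pG`**: particles on one contour = holes on the other contour + glued holes.
-/

set_option autoImplicit false
set_option linter.unusedVariables false

noncomputable section

open Finset MeasureTheory Filter Topology

namespace Pool.Agent.PHD

/-! ### finite algebra -/

theorem wt_union {ι K : Type*} [LinearOrder ι] [Fintype ι] [Field K] {u : ι → K}
    {d a : ι → ι → K} (ha : ∀ i j, a i j = a j i) {D T : Finset ι} (h : Disjoint D T) :
    wt u d a (D ∪ T) = wt u d a D * ((∏ t ∈ T, ∏ s ∈ D, a t s) * wt u d a T) := by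
  induction D using Finset.induction_on with
  | empty => simp [wt_empty]
  | insert s D hs ih =>
    rw [disjoint_insert_left] at h
    have h1 : s ∉ D ∪ T := by
      rw [mem_union, not_or]
      exact ⟨hs, h.1⟩
    rw [insert_union, wt_insert ha h1, wt_insert ha hs, ih h.2, prod_union h.2]
    have e : ∏ t ∈ T, ∏ x ∈ insert s D, a t x = (∏ t ∈ T, a s t) * ∏ t ∈ T, ∏ x ∈ D, a t x := by
      rw [← prod_mul_distrib]
      refine prod_congr rfl fun t _ => ?_
      rw [prod_insert hs, ha t s]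
    rw [e]
    ring

/-- inclusion and exclusion -/
theorem incl_excl {ι : Type*} [DecidableEq ι] [Fintype ι] (P : Finset ι) (m : ℕ)
    (g : Finset ι → ℂ) : (∑ D ∈ P.powerset, if D.card ≤ m then (-1 : ℂ) ^ D.card *
      ∑ T ∈ powersetCard (m - D.card) (univ : Finset ι), (if Disjoint D T then g (D ∪ T) else 0)
      else 0) = ∑ V ∈ powersetCard m (univ : Finset ι), if Disjoint P V then g V else 0 := by
  have e1 : ∀ D ∈ P.powerset, (if D.card ≤ m then (-1 : ℂ) ^ D.card *
      ∑ T ∈ powersetCard (m - D.card) (univ : Finset ι), (if Disjoint D T then g (D ∪ T) else 0)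
      else 0) = ∑ V ∈ powersetCard m (univ : Finset ι),
        if D ⊆ V then (-1 : ℂ) ^ D.card * g V else 0 := by
    intro D _
    split_ifs with hD
    · rw [mul_sum]
      have a1 : ∑ T ∈ powersetCard (m - D.card) (univ : Finset ι),
          (-1 : ℂ) ^ D.card * (if Disjoint D T then g (D ∪ T) else 0) =
          ∑ T ∈ (powersetCard (m - D.card) (univ : Finset ι)).filter (fun T => Disjoint D T),
            (-1 : ℂ) ^ D.card * g (D ∪ T) := by
        rw [sum_filter]
        refine sum_congr rfl fun T _ => ?_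
        split_ifs <;> simp
      have a2 : (∑ V ∈ powersetCard m (univ : Finset ι),
          if D ⊆ V then (-1 : ℂ) ^ D.card * g V else 0) =
          ∑ V ∈ (powersetCard m (univ : Finset ι)).filter (fun V => D ⊆ V),
            (-1 : ℂ) ^ D.card * g V := by
        rw [sum_filter]
      rw [a1, a2]
      refine sum_nbij' (fun T => D ∪ T) (fun V => V \ D) ?_ ?_ ?_ ?_ ?_
      · intro T hT
        simp only [mem_filter, mem_powersetCard, subset_univ, true_and] at hT ⊢
        refine ⟨?_, subset_union_left⟩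
        rw [card_union_of_disjoint hT.2, hT.1]
        omega
      · intro V hV
        simp only [mem_filter, mem_powersetCard, subset_univ, true_and] at hV ⊢
        refine ⟨?_, disjoint_sdiff⟩
        rw [card_sdiff_of_subset hV.2, hV.1]
      · intro T hT
        simp only [mem_filter] at hT
        rw [union_sdiff_left]
        exact sdiff_eq_self_of_disjoint hT.2.symm
      · intro V hV
        simp only [mem_filter] at hV
        exact union_sdiff_of_subset hV.2
      · intro T _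
        rfl
    · symm
      refine sum_eq_zero fun V hV => ?_
      rw [if_neg]
      intro hs
      have := card_le_card hs
      rw [(mem_powersetCard.1 hV).2] at this
      exact hD this
  rw [sum_congr rfl e1, sum_comm]
  refine sum_congr rfl fun V _ => ?_
  have e2 : (∑ D ∈ P.powerset, if D ⊆ V then (-1 : ℂ) ^ D.card * g V else 0) =
      (∑ D ∈ (P ∩ V).powerset, (-1 : ℂ) ^ D.card) * g V := by
    rw [← sum_filter, sum_mul]
    refine sum_congr ?_ fun _ _ => rfl
    ext D
    simp only [mem_filter, mem_powerset, subset_inter_iff]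
  have e3 : (∑ D ∈ (P ∩ V).powerset, (-1 : ℂ) ^ D.card) = if P ∩ V = ∅ then 1 else 0 := by
    have := Finset.sum_powerset_neg_one_pow_card (x := P ∩ V)
    have h2 := congrArg (Int.cast : ℤ → ℂ) this
    push_cast at h2
    rw [h2]
  rw [e2, e3]
  by_cases hd : Disjoint P V
  · rw [if_pos hd, if_pos (disjoint_iff_inter_eq_empty.1 hd), one_mul]
  · rw [if_neg hd, if_neg (fun he => hd (disjoint_iff_inter_eq_empty.2 he)), zero_mul]

variable {Ξ : Type*} [MeasurableSpace Ξ]

/-- the nodes may be numbered in any way -/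
theorem JJ_equiv {ι ι' : Type*} [Fintype ι] [Fintype ι'] (e : ι' ≃ ι) (μ : Measure Ξ) (γ κ : Ξ → ℂ)
    (f q : ℂ → ℂ) (c : ι → ℂ) (k : ℕ) :
    JJ μ γ κ f q (fun i => c (e i)) k = JJ μ γ κ f q c k := by
  unfold JJ one
  have : ∀ z : ℂ, ∏ i, (z - c (e i)) = ∏ i, (z - c i) := fun z =>
    Fintype.prod_equiv e _ _ fun i => rfl
  simp only [this]

namespace Cg

variable {μ : Measure Ξ} {γ κ : Ξ → ℂ} {U S Ω V : Set ℂ} {φ w : ℂ → ℝ}
  (h : Cg μ γ κ U S Ω φ w)
include h

/-- a smaller set of nodes -/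
theorem shrink {Ω' : Set ℂ} (ho : IsOpen Ω') (hs : Ω' ⊆ Ω) : Cg μ γ κ U S Ω' φ w :=
  { h with
    oΩ := ho
    sub := hs.trans h.sub
    off := fun c hc => h.off c (hs hc)
    rs := fun n c hi hc F hF => h.rs n c hi (fun i => hs (hc i)) F hF }

/-- **continuity** in any parameter -/
theorem JJ_tends {ι : Type*} [Fintype ι] {q : ℂ → ℂ} (hq : Pq q U S V φ)
    {X : Type*} [TopologicalSpace X] [FirstCountableTopology X] {x0 : X} {n : X → ι → ℂ}
    (hn : ContinuousAt n x0) (hΩ : ∀ i, n x0 i ∈ Ω) {F : X → ℂ → ℂ} (k : ℕ)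
    (hm : ∀ᶠ x in 𝓝 x0, ContinuousOn (F x) U) (hc : ∀ z ∈ S, ContinuousAt (fun x => F x z) x0)
    (hb : ∃ C : ℝ, 0 ≤ C ∧ ∀ᶠ x in 𝓝 x0, ∀ z ∈ S, ‖F x z‖ * φ z ^ (k - 1) ≤ C * w z) :
    ContinuousAt (fun x => JJ μ γ κ (F x) q (n x) k) x0 := by
  haveI := h.sf
  obtain ⟨C0, hC0⟩ := h.bκ
  obtain ⟨C', p', hC'⟩ := h.bd_QP hq k
  obtain ⟨C1, p1, e1⟩ := hb
  obtain ⟨ε, pε, e2'⟩ := h.off_loc hΩ
  have e2 : ∀ᶠ x in 𝓝 x0, ∀ i y, ε ≤ ‖γ y - n x i‖ := hn.eventually e2'
  have p : ∀ z, 0 ≤ φ z := fun z => zero_le_one.trans (h.φ1 z)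
  have i1 : Integrable (fun x : Fin k → Ξ => ∏ a, w (γ (x a))) (Measure.pi fun _ => μ) :=
    Integrable.fintype_prod (f := fun _ x => w (γ x)) fun _ => h.iw
  unfold JJ
  refine tendsto_integral_filter_of_dominated_convergence
    (fun x => (|C0| * C1 * ∏ _i : ι, ε⁻¹) ^ k * C' * ∏ a, w (γ (x a))) ?_ ?_
    (i1.const_mul _) ?_
  · filter_upwards [hm] with c hc
    refine Measurable.aestronglyMeasurable ?_
    exact (Finset.measurable_prod _ fun a _ =>
      (h.meas_one hc).comp (measurable_pi_apply a)).mul (h.meas_QP hq)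
  · filter_upwards [e1, e2] with c h1 h2
    refine Eventually.of_forall fun x => ?_
    have b1 : ∀ a, ‖one γ κ (F c) (n c) (x a)‖ * φ (γ (x a)) ^ (k - 1) ≤
        (|C0| * C1 * ∏ _i : ι, ε⁻¹) * w (γ (x a)) := by
      intro a
      unfold one
      rw [norm_mul, norm_div, div_eq_mul_inv, norm_prod, ← prod_inv_distrib]
      have a1 := (hC0 (x a)).trans (le_abs_self C0)
      have a2 := h1 _ (h.mem (x a))
      have a3 : ∏ i, ‖γ (x a) - n c i‖⁻¹ ≤ ∏ _i : ι, ε⁻¹ :=
        prod_le_prod (fun i _ => inv_nonneg.2 (norm_nonneg _)) fun i _ =>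
          inv_anti₀ pε (h2 i (x a))
      have a4 := h.w0 (γ (x a))
      have a5 : 0 ≤ φ (γ (x a)) ^ (k - 1) := pow_nonneg (p _) _
      have a6 : 0 ≤ ∏ i, ‖γ (x a) - n c i‖⁻¹ := prod_nonneg fun _ _ => inv_nonneg.2 (norm_nonneg _)
      calc ‖κ (x a)‖ * (‖F c (γ (x a))‖ * ∏ i, ‖γ (x a) - n c i‖⁻¹) * φ (γ (x a)) ^ (k - 1)
          = ‖κ (x a)‖ * (‖F c (γ (x a))‖ * φ (γ (x a)) ^ (k - 1)) *
            ∏ i, ‖γ (x a) - n c i‖⁻¹ := by ring
        _ ≤ |C0| * (C1 * w (γ (x a))) * ∏ _i : ι, ε⁻¹ := by gcongr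
        _ = (|C0| * C1 * ∏ _i : ι, ε⁻¹) * w (γ (x a)) := by ring
    rw [norm_mul, norm_prod]
    have q0 : 0 ≤ |C0| * C1 * ∏ _i : ι, ε⁻¹ := by positivity
    calc (∏ a, ‖one γ κ (F c) (n c) (x a)‖) * ‖QP q fun a => γ (x a)‖
        ≤ (∏ a, ‖one γ κ (F c) (n c) (x a)‖) * (C' * ∏ a, φ (γ (x a)) ^ (k - 1)) := by
          gcongr
          exact hC' x
      _ = C' * ∏ a, (‖one γ κ (F c) (n c) (x a)‖ * φ (γ (x a)) ^ (k - 1)) := by
          rw [prod_mul_distrib]
          ring
      _ ≤ C' * ∏ a, ((|C0| * C1 * ∏ _i : ι, ε⁻¹) * w (γ (x a))) := by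
          refine mul_le_mul_of_nonneg_left (prod_le_prod (fun a _ => ?_) fun a _ => b1 a) p'
          have := p (γ (x a))
          positivity
      _ = (|C0| * C1 * ∏ _i : ι, ε⁻¹) ^ k * C' * ∏ a, w (γ (x a)) := by
          rw [prod_mul_distrib, prod_const, card_univ, Fintype.card_fin]
          ring
  · refine Eventually.of_forall fun x => ?_
    refine Tendsto.mul (tendsto_finset_prod _ fun a _ => ?_) tendsto_const_nhds
    unfold one
    refine tendsto_const_nhds.mul (Tendsto.div (hc _ (h.mem _)) ?_ ?_)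
    · refine tendsto_finset_prod _ fun i _ => ?_
      have : ContinuousAt (fun c => n c i) x0 := (continuous_apply i).continuousAt.comp hn
      exact tendsto_const_nhds.sub this
    · exact prod_ne_zero_iff.2 fun i _ => h.ne_node (hΩ i) _

end Cg

/-! ### the formula at distinct nodes -/

section glue

variable {ι ν : Type*} [LinearOrder ι] [Fintype ι] [LinearOrder ν] [Fintype ν]

/-- the nodes and the poles -/
def nd (c : ι → ℂ) (d : ν → ℂ) (x : ι ⊕ₗ ν) : ℂ := Sum.elim c d (ofLex x)

/-- the poles of `D` -/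
def inP (D : Finset ν) : Finset (ι ⊕ₗ ν) := D.map ⟨fun j => toLex (Sum.inr j), fun _ _ h => by
  simpa using h⟩

/-- the nodes of `T` -/
def inN (T : Finset ι) : Finset (ι ⊕ₗ ν) := T.map ⟨fun j => toLex (Sum.inl j), fun _ _ h => by
  simpa using h⟩

omit [Fintype ι] [Fintype ν] in
theorem mem_inP {D : Finset ν} {x : ι ⊕ₗ ν} : x ∈ inP D ↔ ∃ j ∈ D, toLex (Sum.inr j) = x := by
  unfold inP
  rw [Finset.mem_map]
  rfl

omit [Fintype ι] [Fintype ν] in
theorem mem_inN {D : Finset ι} {x : ι ⊕ₗ ν} : x ∈ inN D ↔ ∃ j ∈ D, toLex (Sum.inl j) = x := by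
  unfold inN
  rw [Finset.mem_map]
  rfl

/-- weight of the glued holes: one hole at each pole of `D` -/
def wG (G q : ℂ → ℂ) (c : ι → ℂ) (d : ν → ℂ) (D : Finset ν) : ℂ :=
  (∏ j ∈ D, G (d j) / ((∏ i, (d j - c i)) * ∏ j' ∈ univ.erase j, (d j - d j'))) *
    PP (fun j j' => q (d j - d j')) D

theorem prod_erase_inr (g : ι ⊕ₗ ν → ℂ) (j : ν) :
    ∏ x ∈ univ.erase (toLex (Sum.inr j) : ι ⊕ₗ ν), g x =
      (∏ i, g (toLex (Sum.inl i))) * ∏ j' ∈ univ.erase j, g (toLex (Sum.inr j')) := by
  have e : univ.erase (toLex (Sum.inr j) : ι ⊕ₗ ν) = inN univ ∪ inP (univ.erase j) := by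
    ext x
    obtain ⟨y, rfl⟩ := toLex.surjective x
    rcases y with i | j'
    · simp [mem_inN, mem_inP]
    · simp [mem_inN, mem_inP]
  have hd : Disjoint (inN (univ : Finset ι) : Finset (ι ⊕ₗ ν)) (inP (univ.erase j)) := by
    rw [Finset.disjoint_left]
    intro x h1 h2
    obtain ⟨i, _, hi⟩ := mem_inN.1 h1
    obtain ⟨j', _, hj⟩ := mem_inP.1 h2
    rw [← hi] at hj
    simp at hj
  rw [e, prod_union hd]
  unfold inN inP
  rw [prod_map, prod_map]
  rfl

theorem prod_erase_inl (g : ι ⊕ₗ ν → ℂ) (i : ι) :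
    ∏ x ∈ univ.erase (toLex (Sum.inl i) : ι ⊕ₗ ν), g x =
      (∏ i' ∈ univ.erase i, g (toLex (Sum.inl i'))) * ∏ j, g (toLex (Sum.inr j)) := by
  have e : univ.erase (toLex (Sum.inl i) : ι ⊕ₗ ν) = inN (univ.erase i) ∪ inP univ := by
    ext x
    obtain ⟨y, rfl⟩ := toLex.surjective x
    rcases y with i' | j'
    · simp [mem_inN, mem_inP]
    · simp [mem_inN, mem_inP]
  have hd : Disjoint (inN (univ.erase i) : Finset (ι ⊕ₗ ν)) (inP univ) := by
    rw [Finset.disjoint_left]
    intro x h1 h2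
    obtain ⟨i, _, hi⟩ := mem_inN.1 h1
    obtain ⟨j', _, hj⟩ := mem_inP.1 h2
    rw [← hi] at hj
    simp at hj
  rw [e, prod_union hd]
  unfold inN inP
  rw [prod_map, prod_map]
  rfl

omit [Fintype ι] [Fintype ν] in
theorem PP_inP {K : Type*} [Field K] {a : ι ⊕ₗ ν → ι ⊕ₗ ν → K} (ha : ∀ x y, a x y = a y x)
    (D : Finset ν) :
    PP a (inP D) = PP (fun j j' => a (toLex (Sum.inr j)) (toLex (Sum.inr j'))) D := by
  induction D using Finset.induction_on with
  | empty => simp [inP, PP_empty]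
  | insert j D hj ih =>
    have h1 : (toLex (Sum.inr j) : ι ⊕ₗ ν) ∉ inP D := by
      intro h
      obtain ⟨j', h2, h3⟩ := mem_inP.1 h
      have : j' = j := by simpa using h3
      exact hj (this ▸ h2)
    refine (congrArg (PP a) ?_).trans ((PP_insert ha h1).trans ?_)
    · ext x
      rw [Finset.mem_insert, mem_inP, mem_inP]
      constructor
      · rintro ⟨i, h2, h3⟩
        rcases Finset.mem_insert.1 h2 with h4 | h4
        · exact Or.inl (by rw [← h3, h4])
        · exact Or.inr ⟨i, h4, h3⟩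
      · rintro (h2 | ⟨i, h2, h3⟩)
        · exact ⟨j, Finset.mem_insert_self _ _, h2.symm⟩
        · exact ⟨i, Finset.mem_insert_of_mem h2, h3⟩
    · rw [PP_insert (fun _ _ => ha _ _) hj, ih]
      congr 1
      unfold inP
      rw [prod_map]
      rfl

omit [Fintype ι] [Fintype ν] in
theorem PP_inN {K : Type*} [Field K] {a : ι ⊕ₗ ν → ι ⊕ₗ ν → K} (ha : ∀ x y, a x y = a y x)
    (D : Finset ι) :
    PP a (inN D) = PP (fun j j' => a (toLex (Sum.inl j)) (toLex (Sum.inl j'))) D := by
  induction D using Finset.induction_on with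
  | empty => simp [inN, PP_empty]
  | insert j D hj ih =>
    have h1 : (toLex (Sum.inl j) : ι ⊕ₗ ν) ∉ inN D := by
      intro h
      obtain ⟨j', h2, h3⟩ := mem_inN.1 h
      have : j' = j := by simpa using h3
      exact hj (this ▸ h2)
    refine (congrArg (PP a) ?_).trans ((PP_insert ha h1).trans ?_)
    · ext x
      rw [Finset.mem_insert, mem_inN, mem_inN]
      constructor
      · rintro ⟨i, h2, h3⟩
        rcases Finset.mem_insert.1 h2 with h4 | h4
        · exact Or.inl (by rw [← h3, h4])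
        · exact Or.inr ⟨i, h4, h3⟩
      · rintro (h2 | ⟨i, h2, h3⟩)
        · exact ⟨j, Finset.mem_insert_self _ _, h2.symm⟩
        · exact ⟨i, Finset.mem_insert_of_mem h2, h3⟩
    · rw [PP_insert (fun _ _ => ha _ _) hj, ih]
      congr 1
      unfold inN
      rw [prod_map]
      rfl

/-- the glued holes -/
theorem wS_inP {G q : ℂ → ℂ} (hq : ∀ z, q (-z) = q z) (c : ι → ℂ) (d : ν → ℂ) (D : Finset ν) :
    wS G q (nd c d) (inP D) = wG G q c d D := by
  unfold wS wt wG
  rw [PP_inP (fun x y => by rw [← hq, neg_sub])]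
  congr 1
  unfold inP
  rw [prod_map]
  refine prod_congr rfl fun j _ => ?_
  show G (d j) / ∏ x ∈ univ.erase (toLex (Sum.inr j) : ι ⊕ₗ ν), (d j - nd c d x) = _
  rw [prod_erase_inr]
  rfl

/-- holes at the nodes -/
theorem wS_inN {G G' q : ℂ → ℂ} (hq : ∀ z, q (-z) = q z) (c : ι → ℂ) (d : ν → ℂ) (T : Finset ι)
    (he : ∀ i, G (c i) / ∏ j, (c i - d j) = G' (c i)) :
    wS G q (nd c d) (inN T) = wS G' q c T := by
  unfold wS wt
  rw [PP_inN (fun x y => by rw [← hq, neg_sub])]
  congr 1
  unfold inN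
  rw [prod_map]
  refine prod_congr rfl fun i _ => ?_
  show G (c i) / ∏ x ∈ univ.erase (toLex (Sum.inl i) : ι ⊕ₗ ν), (c i - nd c d x) = _
  rw [prod_erase_inl]
  show G (c i) / ((∏ i' ∈ univ.erase i, (c i - c i')) * ∏ j, (c i - d j)) =
    G' (c i) / ∏ j ∈ univ.erase i, (c i - c j)
  rw [← he i, div_div, mul_comm]

omit [LinearOrder ι] [LinearOrder ν] in
/-- sets of nodes without poles -/
theorem sum_inN {M : Type*} [AddCommMonoid M] [LinearOrder ι] [LinearOrder ν] (m : ℕ)
    (g : Finset (ι ⊕ₗ ν) → M) :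
    (∑ V ∈ powersetCard m (univ : Finset (ι ⊕ₗ ν)), if Disjoint (inP univ) V then g V else 0) =
      ∑ T ∈ powersetCard m (univ : Finset ι), g (inN T) := by
  rw [← sum_filter]
  symm
  refine sum_nbij' (fun T => inN T) (fun V => univ.filter fun i => toLex (Sum.inl i) ∈ V)
    ?_ ?_ ?_ ?_ (fun _ _ => rfl)
  · intro T hT
    simp only [mem_filter, mem_powersetCard, subset_univ, true_and] at hT ⊢
    refine ⟨by rw [inN, card_map, hT], ?_⟩
    rw [Finset.disjoint_left]
    intro x h1 h2
    obtain ⟨j, _, hj⟩ := mem_inP.1 h1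
    obtain ⟨i, _, hi⟩ := mem_inN.1 h2
    rw [← hi] at hj
    simp at hj
  · intro V hV
    simp only [mem_filter, mem_powersetCard, subset_univ, true_and] at hV ⊢
    have e : inN (univ.filter fun i => (toLex (Sum.inl i) : ι ⊕ₗ ν) ∈ V) = V := by
      ext x
      rw [mem_inN]
      constructor
      · rintro ⟨i, h1, h2⟩
        rw [← h2]
        exact (mem_filter.1 h1).2
      · intro hx
        obtain ⟨y, rfl⟩ := toLex.surjective x
        rcases y with i | j
        · exact ⟨i, mem_filter.2 ⟨mem_univ _, hx⟩, rfl⟩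
        · exact absurd hx (Finset.disjoint_left.1 hV.2 (mem_inP.2 ⟨j, mem_univ _, rfl⟩))
    rw [← hV.1]
    conv_rhs => rw [← e]
    rw [inN, card_map]
  · intro T _
    ext i
    simp only [mem_filter, mem_univ, true_and, mem_inN]
    constructor
    · rintro ⟨j, h1, h2⟩
      have : j = i := by simpa using h2
      exact this ▸ h1
    · intro hi
      exact ⟨i, hi, rfl⟩
  · intro V hV
    simp only [mem_filter, mem_powersetCard, subset_univ, true_and] at hV
    ext x
    rw [mem_inN]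
    constructor
    · rintro ⟨i, h1, h2⟩
      rw [← h2]
      exact (mem_filter.1 h1).2
    · intro hx
      obtain ⟨y, rfl⟩ := toLex.surjective x
      rcases y with i | j
      · exact ⟨i, mem_filter.2 ⟨mem_univ _, hx⟩, rfl⟩
      · exact absurd hx (Finset.disjoint_left.1 hV.2 (mem_inP.2 ⟨j, mem_univ _, rfl⟩))

/-- sets of poles -/
theorem sum_inP {M : Type*} [AddCommMonoid M] (g : Finset (ι ⊕ₗ ν) → M) :
    (∑ D ∈ (inP (univ : Finset ν) : Finset (ι ⊕ₗ ν)).powerset, g D) =
      ∑ D ∈ (univ : Finset ν).powerset, g (inP D) := by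
  symm
  refine sum_nbij' (fun T => inP T) (fun V => univ.filter fun i => toLex (Sum.inr i) ∈ V)
    ?_ ?_ ?_ ?_ (fun _ _ => rfl)
  · intro T _
    rw [mem_powerset]
    intro x hx
    obtain ⟨j, _, hj⟩ := mem_inP.1 hx
    exact mem_inP.2 ⟨j, mem_univ _, hj⟩
  · intro V _
    rw [mem_powerset]
    exact subset_univ _
  · intro T _
    ext i
    simp only [mem_filter, mem_univ, true_and, mem_inP]
    constructor
    · rintro ⟨j, h1, h2⟩
      have : j = i := by simpa using h2
      exact this ▸ h1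
    · intro hi
      exact ⟨i, hi, rfl⟩
  · intro V hV
    rw [mem_powerset] at hV
    ext x
    rw [mem_inP]
    constructor
    · rintro ⟨i, h1, h2⟩
      rw [← h2]
      exact (mem_filter.1 h1).2
    · intro hx
      obtain ⟨j, _, hj⟩ := mem_inP.1 (hV hx)
      exact ⟨j, mem_filter.2 ⟨mem_univ _, by rw [hj]; exact hx⟩, hj⟩

end glue

theorem JJ_nil {ι : Type*} [Fintype ι] (μ : Measure Ξ) [SigmaFinite μ] (γ κ : Ξ → ℂ)
    (f q : ℂ → ℂ) (c : ι → ℂ) : JJ μ γ κ f q c 0 = 1 := by
  unfold JJ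
  simp only [univ_eq_empty, prod_empty, one_mul, QP, integral_const]
  rw [Measure.pi_of_empty]
  simp [Measure.real]

section two

variable {Ξ' : Type*} [MeasurableSpace Ξ'] {ι ν : Type*} [LinearOrder ι] [Fintype ι]
  [LinearOrder ν] [Fintype ν]
  {μ : Measure Ξ} {γ κ : Ξ → ℂ} {U S Ω V : Set ℂ} {φ w : ℂ → ℝ}
  {μ' : Measure Ξ'} {γ' κ' : Ξ' → ℂ} {U' S' Ω' V' : Set ℂ} {φ' w' : ℂ → ℝ}

/-- one body function of the free holes in the field of the glued ones -/
def fG (G q : ℂ → ℂ) (d : ν → ℂ) (D : Finset ν) (z : ℂ) : ℂ := G z * ∏ j ∈ D, q (z - d j)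

/-- the sum over the glued holes -/
def SG (μ' : Measure Ξ') (γ' κ' : Ξ' → ℂ) (G q : ℂ → ℂ) (c : ι → ℂ) (d : ν → ℂ) (m : ℕ) : ℂ :=
  ∑ D ∈ (univ : Finset ν).powerset, if D.card ≤ m then (-1 : ℂ) ^ D.card * (wG G q c d D *
    (JJ μ' γ' κ' (fG G q d D) q (Sum.elim c d) (m - D.card) / (m - D.card).factorial)) else 0

omit [LinearOrder ν] [Fintype ν] in
theorem fG_adm {G q : ℂ → ℂ} {m : ℕ} (hq : Pq q U S V φ) (hφ : ∀ z, 1 ≤ φ z)
    {d : ν → ℂ} (hd : ∀ j, d j ∈ S) (hd' : ∀ j, d j ∈ U) (D : Finset ν)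
    (hG : Adm U S φ w m G) (hD : D.card ≤ m) : Adm U S φ w (m - D.card) (fG G q d D) := by
  classical
  induction D using Finset.induction_on with
  | empty =>
    have : fG G q d ∅ = G := by
      funext z
      simp [fG]
    rw [this]
    simpa using hG
  | insert j D hj ih =>
    rw [card_insert_of_notMem hj] at hD ⊢
    have i1 := ih (by omega)
    have e : m - D.card = (m - (D.card + 1)) + 1 := by omega
    rw [e] at i1
    have := i1.mul_q hq hφ (hd j) (hd' j)
    have e0 : fG G q d (insert j D) = fun z => fG G q d D z * q (d j - z) := by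
      funext z
      unfold fG
      rw [prod_insert hj, show q (d j - z) = q (z - d j) by rw [← hq.even, neg_sub]]
      ring
    rw [e0]
    exact this

/-- distinct nodes and poles: the sum over the glued holes = the sum over the sets of nodes -/
theorem SG_eq (h' : Cg μ' γ' κ' U' S' Ω' φ' w') {q : ℂ → ℂ} (hq' : Pq q U' S' V' φ') (q0 : q 0 = 0)
    {m : ℕ} {G : ℂ → ℂ} (hG : Adm U' S' φ' w' (m - 1) G) {c : ι → ℂ} {d : ν → ℂ}
    (hi : Function.Injective c) (hd : Function.Injective d) (hcd : ∀ i j, c i ≠ d j)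
    (hc : ∀ i, c i ∈ Ω') (hdΩ : ∀ j, d j ∈ Ω') {G' : ℂ → ℂ}
    (he : ∀ i, G (c i) / ∏ j, (c i - d j) = G' (c i)) :
    SG μ' γ' κ' G q c d m = ∑ T ∈ powersetCard m (univ : Finset ι), wS G' q c T := by
  haveI := h'.sf
  set n : ι ⊕ₗ ν → ℂ := nd c d with hn
  have ni : Function.Injective n := by
    intro x y hxy
    obtain ⟨x, rfl⟩ := toLex.surjective x
    obtain ⟨y, rfl⟩ := toLex.surjective y
    rcases x with i | j <;> rcases y with i' | j'
    · have : c i = c i' := hxy
      rw [hi this]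
    · exact absurd hxy (hcd i j')
    · exact absurd hxy.symm (hcd i' j)
    · have : d j = d j' := hxy
      rw [hd this]
  have nΩ : ∀ x, n x ∈ Ω' := by
    intro x
    obtain ⟨x, rfl⟩ := toLex.surjective x
    rcases x with i | j
    · exact hc i
    · exact hdΩ j
  have hJ : ∀ D : Finset ν, D.card ≤ m → JJ μ' γ' κ' (fG G q d D) q (Sum.elim c d) (m - D.card) =
      ((m - D.card).factorial : ℂ) *
        ∑ T ∈ powersetCard (m - D.card) (univ : Finset (ι ⊕ₗ ν)), wS (fG G q d D) q n T := by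
    intro D hD
    rcases Nat.eq_zero_or_pos (m - D.card) with h0 | h0
    · rw [h0, JJ_nil, powersetCard_zero, sum_singleton]
      simp [wS, wt_empty]
    · have e : JJ μ' γ' κ' (fG G q d D) q (Sum.elim c d) (m - D.card) =
          JJ μ' γ' κ' (fG G q d D) q n (m - D.card) :=
        (JJ_equiv (ofLex : ι ⊕ₗ ν ≃ ι ⊕ ν) μ' γ' κ' (fG G q d D) q (Sum.elim c d)
          (m - D.card)).symm
      rw [e]
      refine h'.JJ_eq ni nΩ hq' q0 _ ?_
      have := fG_adm hq' h'.φ1 (fun j => h'.sub (hdΩ j)) (fun j => h'.sub' (h'.sub (hdΩ j))) D hG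
        (by omega)
      have e2 : m - 1 - D.card = m - D.card - 1 := by omega
      rwa [e2] at this
  have hT : ∀ (D : Finset ν) (T : Finset (ι ⊕ₗ ν)), wG G q c d D * wS (fG G q d D) q n T =
      if Disjoint (inP D) T then wS G q n (inP D ∪ T) else 0 := by
    intro D T
    have e1 : wS (fG G q d D) q n T = (∏ s ∈ T, ∏ j ∈ D, q (n s - d j)) * wS G q n T :=
      wS_mul G (fun z => ∏ j ∈ D, q (z - d j)) q n T
    have e2 : ∀ s, ∏ j ∈ D, q (n s - d j) = ∏ x ∈ inP D, q (n s - n x) := by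
      intro s
      unfold inP
      rw [prod_map]
      rfl
    rw [e1, ← wS_inP hq'.even]
    split_ifs with hdis
    · have hu := wt_union (u := fun i => G (n i)) (d := fun i j => n i - n j)
        (a := fun i j => q (n i - n j)) (fun i j => by rw [← hq'.even, neg_sub]) hdis
      unfold wS
      simp only [e2]
      refine hu.symm.trans ?_
      congr 1
    · obtain ⟨x, hx1, hx2⟩ := Finset.not_disjoint_iff.1 hdis
      have : ∏ s ∈ T, ∏ j ∈ D, q (n s - d j) = 0 := by
        refine prod_eq_zero hx2 ?_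
        rw [e2]
        exact prod_eq_zero hx1 (by rw [sub_self, q0])
      rw [this]
      ring
  have key := incl_excl (inP (univ : Finset ν)) m (wS G q n)
  rw [sum_inP, sum_inN] at key
  have e3 : ∑ T ∈ powersetCard m (univ : Finset ι), wS G q n (inN T) =
      ∑ T ∈ powersetCard m (univ : Finset ι), wS G' q c T :=
    sum_congr rfl fun T _ => wS_inN hq'.even c d T he
  rw [← e3, ← key]
  unfold SG
  refine sum_congr rfl fun D _ => ?_
  have e4 : (inP D : Finset (ι ⊕ₗ ν)).card = D.card := by rw [inP, card_map]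
  rw [e4]
  split_ifs with hD
  · have f1 : ((m - D.card).factorial : ℂ) ≠ 0 := by exact_mod_cast (m - D.card).factorial_ne_zero
    rw [hJ D hD, mul_div_cancel_left₀ _ f1, mul_sum, mul_sum, mul_sum]
    refine sum_congr rfl fun T _ => ?_
    rw [hT]
  · rfl

/-- **particles on one contour = holes on the other contour + glued holes at the poles `d`** -/
theorem JJ_pG (h : Cg μ γ κ U S Ω φ w) (h' : Cg μ' γ' κ' U' S' Ω' φ' w') {q r : ℂ → ℂ}
    (hq : Pq q U S V φ) (hq' : Pq q U' S' V' φ') (hr : Rf q r U V) {k m : ℕ}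
    (hk : k + m = Fintype.card ι)
    {F G : (ι → ℂ) → ℂ → ℂ} (hF : Fa U S Ω φ w k F) (hG : Fa U' S' Ω' φ' w' m G)
    (h0 : ∀ c : ι → ℂ, (∀ i, c i ∈ Ω) → ∀ i, F c (c i) ≠ 0)
    {d : ν → ℂ} (hd : Function.Injective d) (hdΩ : ∀ j, d j ∈ Ω')
    (he : ∀ c : ι → ℂ, (∀ i, c i ∈ Ω) → (∀ i, c i ∈ Ω') → Function.Injective c →
      (∀ i j, c i ≠ d j) → ∀ i, G c (c i) / ∏ j, (c i - d j) = fH (F c) r c (c i))
    {c : ι → ℂ} (hc : ∀ i, c i ∈ Ω) (hc' : ∀ i, c i ∈ Ω') (hcd : ∀ i j, c i ≠ d j) :
    JJ μ γ κ (F c) q c k / k.factorial = WW (F c) r c * SG μ' γ' κ' (G c) q c d m := by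
  haveI := h'.sf
  have c5 : ContinuousOn (fun c : ι → ℂ => WW (F c) r c) {c | ∀ i, c i ∈ Ω} := by
    unfold WW PP
    refine (continuousOn_finsetProd _ fun i _ => ?_).mul (continuousOn_finsetProd _ fun p _ => ?_)
    · exact hF.ct.comp (f := fun c : ι → ℂ => (c, c i)) (by fun_prop)
        fun c hc => ⟨hc, h.sub' (h.sub (hc i))⟩
    · exact (hr.an.continuousOn.comp (f := fun c : ι → ℂ => c p.1 - c p.2)
        (s := {c | ∀ i, c i ∈ Ω}) (by fun_prop)
        fun c hc => hr.dif _ (h.sub' (h.sub (hc p.1))) _ (h.sub' (h.sub (hc p.2)))).neg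
  set A : Set (ι → ℂ) := ({c : ι → ℂ | ∀ i, c i ∈ Ω} ∩ {c : ι → ℂ | ∀ i, c i ∈ Ω'}) ∩
    {c : ι → ℂ | ∀ i j, c i ≠ d j} with hA
  have oA : IsOpen A := by
    refine (h.oA.inter h'.oA).inter ?_
    have : {c : ι → ℂ | ∀ i j, c i ≠ d j} = ⋂ i, ⋂ j, {c : ι → ℂ | c i ≠ d j} := by
      ext c
      simp
    rw [this]
    refine isOpen_iInter_of_finite fun i => isOpen_iInter_of_finite fun j => ?_
    exact isOpen_ne_fun (continuous_apply i) continuous_const
  have c6 : ContinuousOn (fun c : ι → ℂ => SG μ' γ' κ' (G c) q c d m) A := by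
    unfold SG
    refine continuousOn_finset_sum _ fun D _ => ?_
    split_ifs with hD
    · refine continuousOn_const.mul (ContinuousOn.mul ?_ (ContinuousOn.div_const ?_ _))
      · unfold wG
        refine ContinuousOn.mul (continuousOn_finsetProd _ fun j _ => ?_) continuousOn_const
        refine ContinuousOn.div ?_ (by fun_prop) ?_
        · exact hG.ct.comp (f := fun c : ι → ℂ => (c, d j)) (by fun_prop)
            fun c hc => ⟨hc.1.2, h'.sub' (h'.sub (hdΩ j))⟩
        · intro c hc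
          refine mul_ne_zero (prod_ne_zero_iff.2 fun i _ => sub_ne_zero.2 (hc.2 i j).symm)
            (prod_ne_zero_iff.2 fun j' hj' => sub_ne_zero.2 fun e => ?_)
          exact (ne_of_mem_erase hj') (hd e).symm
      · rcases Nat.eq_zero_or_pos (m - D.card) with h1 | h1
        · rw [h1]
          simp only [JJ_nil]
          exact continuousOn_const
        · intro c0 hc0
          refine ContinuousAt.continuousWithinAt ?_
          have hS : ∀ j, d j ∈ S' := fun j => h'.sub (hdΩ j)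
          have hU : ∀ j, d j ∈ U' := fun j => h'.sub' (hS j)
          refine h'.JJ_tends hq' (n := fun c => Sum.elim c d) (F := fun c => fG (G c) q d D)
            ?_ ?_ (m - D.card) ?_ ?_ ?_
          · refine continuousAt_pi.2 fun x => ?_
            rcases x with i | j
            · exact (continuous_apply i).continuousAt
            · exact continuousAt_const
          · intro x
            rcases x with i | j
            · exact hc0.1.2 i
            · exact hdΩ j
          · filter_upwards [h'.oA.mem_nhds hc0.1.2] with c hc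
            unfold fG
            refine (hG.an c hc).continuousOn.mul (continuousOn_finsetProd _ fun j _ => ?_)
            exact hq'.an.continuousOn.comp (by fun_prop) fun z hz => hq'.dif z hz _ (hU j)
          · intro z hz
            unfold fG
            refine ContinuousAt.mul ?_ continuousAt_const
            have h2 : ContinuousOn (fun c : ι → ℂ => G c z) {c | ∀ i, c i ∈ Ω'} :=
              hG.ct.comp (f := fun c : ι → ℂ => (c, z)) (by fun_prop)
                fun c hc => ⟨hc, h'.sub' hz⟩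
            exact h2.continuousAt (h'.oA.mem_nhds hc0.1.2)
          · obtain ⟨C, p0, hC⟩ := hG.bd c0 hc0.1.2
            obtain ⟨B, b0, hB⟩ := hq'.bd
            have p : ∀ z, 0 ≤ φ' z := fun z => zero_le_one.trans (h'.φ1 z)
            refine ⟨C * ∏ j ∈ D, (B * φ' (d j)), ?_, ?_⟩
            · exact mul_nonneg p0 (prod_nonneg fun j _ => mul_nonneg b0 (p _))
            filter_upwards [hC] with c hc z hz
            have a1 : ∏ j ∈ D, ‖q (z - d j)‖ ≤ ∏ j ∈ D, ((B * φ' (d j)) * φ' z) :=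
              prod_le_prod (fun _ _ => norm_nonneg _) fun j _ => (hB z hz _ (hS j)).trans
                (le_of_eq (by ring))
            rw [prod_mul_distrib, prod_const] at a1
            have a2 := hc z hz
            have a3 : φ' z ^ D.card * φ' z ^ (m - D.card - 1) = φ' z ^ (m - 1) := by
              rw [← pow_add]
              congr 1
              omega
            have a4 := p z
            have a5 : 0 ≤ ∏ j ∈ D, (B * φ' (d j)) := prod_nonneg fun j _ => mul_nonneg b0 (p _)
            unfold fG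
            rw [norm_mul, norm_prod]
            calc ‖G c z‖ * (∏ j ∈ D, ‖q (z - d j)‖) * φ' z ^ (m - D.card - 1)
                ≤ ‖G c z‖ * ((∏ j ∈ D, (B * φ' (d j))) * φ' z ^ D.card) *
                  φ' z ^ (m - D.card - 1) := by gcongr
              _ = (‖G c z‖ * (φ' z ^ D.card * φ' z ^ (m - D.card - 1))) *
                  ∏ j ∈ D, (B * φ' (d j)) := by ring
              _ ≤ (C * w' z) * ∏ j ∈ D, (B * φ' (d j)) := by
                  rw [a3]
                  gcongr
              _ = C * (∏ j ∈ D, (B * φ' (d j))) * w' z := by ring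
    · exact continuousOn_const
  refine Ctr.ext_inj (F := fun c => JJ μ γ κ (F c) q c k / k.factorial)
    (G := fun c => WW (F c) r c * SG μ' γ' κ' (G c) q c d m) (A := A) oA
    (((h.JJ_cont hq k hF.ct hF.bd).div_const _).mono fun c hc => hc.1.1)
    ((c5.mono fun c hc => hc.1.1).mul c6) ?_ ⟨⟨hc, hc'⟩, hcd⟩
  rintro c ⟨⟨h1, h2⟩, h3⟩ hi
  have f1 : (k.factorial : ℂ) ≠ 0 := by exact_mod_cast k.factorial_ne_zero
  rw [h.JJ_eq hi h1 hq hr.q0 k (hF.adm h1), mul_div_cancel_left₀ _ f1, ← wS_univ hr hi,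
    SG_eq h' hq' hr.q0 (hG.adm h2) hi hd h3 h2 hdΩ (he c h1 h2 hi h3), mul_sum]
  refine sum_nbij' (fun S => Sᶜ) (fun T => Tᶜ) ?_ ?_ (fun S _ => compl_compl S)
    (fun S _ => compl_compl S) ?_
  · intro S hS
    simp only [mem_powersetCard, subset_univ, true_and] at hS ⊢
    rw [card_compl, hS]
    omega
  · intro S hS
    simp only [mem_powersetCard, subset_univ, true_and] at hS ⊢
    rw [card_compl, hS]
    omega
  · intro T _
    have := wS_dual' hr hi (fun i => h.sub' (h.sub (h1 i))) (h0 c h1) Tᶜ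
    rwa [compl_compl] at this

end two

end Pool.Agent.PHD

end
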