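import Pool.Agent.PHD.Gen
import Pool.Agent.PHK.Loc
import Pool.Agent.NUP1.Defs

/-!
# Particle-hole duality: the concrete pair function, the localiser, the holes are admissible

* `qr`: `NUP1.q z = z ^ 2 * qr z`; `rf_q`, `pq_q`: `Rf`, `Pq` on vertical strips;
  `qr_low`: `c exp (2 |Im z|) / (1 + |Im z|) ^ 2 ≤ ‖qr z‖`;
* `lcn c z = 1 - ∏ j, I * tan (3 (z - c j))`: value `1` at the nodes, `lcn_bd`: `≤ C exp (- 6 |Im z|)`
  (even number of nodes), `lcn_two`: `PHK.loc` when every node is listed twice;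
* `Gf`: the inverse one body function of the particles; `hol G r c z`: the one body function of the
  holes; **`fa_hole`**: `Fa` of the holes, `hol_node`.
-/

set_option autoImplicit false

noncomputable section

open Finset MeasureTheory Filter Topology

namespace Pool.Agent.PHD

open NUP1 (l)

/-! ### sines -/

theorem l_eq : NUP1.l = Real.pi / 8 := rfl

theorem lK : NUMF.l = NUP1.l := rfl

theorem sin_ne {w : ℂ} (h0 : 0 < w.re) (h1 : w.re < Real.pi) : Complex.sin w ≠ 0 := by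
  intro h
  have h2 := congrArg Complex.re h
  rw [PHK.sin_re, Complex.zero_re] at h2
  exact (mul_pos (Real.sin_pos_of_pos_of_lt_pi h0 h1) (Real.cosh_pos _)).ne' h2

theorem sin_ne' {w : ℂ} (h0 : w.re < 0) (h1 : -Real.pi < w.re) : Complex.sin w ≠ 0 := by
  have h := sin_ne (w := -w) (by rw [Complex.neg_re]; linarith) (by rw [Complex.neg_re]; linarith)
  rw [Complex.sin_neg] at h
  exact neg_ne_zero.1 h

theorem exp_le_cosh2 (y : ℝ) : Real.exp |y| / 2 ≤ Real.cosh y := by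
  rw [← Real.cosh_abs, Real.cosh_eq]
  have := Real.exp_pos (-|y|)
  linarith

theorem cosh_le_exp (y : ℝ) : Real.cosh y ≤ Real.exp |y| := by
  rw [← Real.cosh_abs, Real.cosh_eq]
  have : Real.exp (-|y|) ≤ Real.exp |y| := Real.exp_le_exp.2 (by linarith [abs_nonneg y])
  linarith

/-- upper bound of the sine -/
theorem sin_up (w : ℂ) : ‖Complex.sin w‖ ≤ Real.exp |w.im| := by
  have h1 : ‖Complex.sin w‖ ^ 2 ≤ Real.cosh w.im ^ 2 := by
    rw [PHK.norm_sin_sq, Real.cosh_two_mul, Real.cos_two_mul]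
    have h2 := Real.cosh_sq w.im
    have h3 := sq_nonneg (Real.cos w.re)
    have h4 : Real.sinh w.im ^ 2 = Real.cosh w.im ^ 2 - 1 := by linarith
    rw [h4]
    linarith
  exact (abs_le_of_sq_le_sq' h1 (Real.cosh_pos _).le).2.trans (cosh_le_exp _)

/-- lower bound of the sine -/
theorem sin_low (w : ℂ) : |Real.sin w.re| * (Real.exp |w.im| / 2) ≤ ‖Complex.sin w‖ := by
  have h1 : |(Complex.sin w).re| ≤ ‖Complex.sin w‖ := Complex.abs_re_le_norm _
  rw [PHK.sin_re, abs_mul, abs_of_pos (Real.cosh_pos _)] at h1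
  exact (mul_le_mul_of_nonneg_left (exp_le_cosh2 _) (abs_nonneg _)).trans h1

/-! ### the pair function -/

/-- `sin z / z` -/
def sc (z : ℂ) : ℂ := dslope Complex.sin 0 z

theorem sin_sc (z : ℂ) : Complex.sin z = z * sc z := by
  have h := sub_smul_dslope Complex.sin 0 z
  simp only [sub_zero, Complex.sin_zero, smul_eq_mul] at h
  exact h.symm

theorem sc_zero : sc 0 = 1 := by
  unfold sc
  rw [dslope_same, (Complex.hasDerivAt_sin 0).deriv, Complex.cos_zero]

theorem sc_neg (z : ℂ) : sc (-z) = sc z := by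
  by_cases h : z = 0
  · rw [h, neg_zero]
  · have h1 := sin_sc (-z)
    rw [Complex.sin_neg, sin_sc z] at h1
    have h2 : -z * sc z = -z * sc (-z) := by
      rw [← h1]
      ring
    exact (mul_left_cancel₀ (neg_ne_zero.2 h) h2).symm

theorem sc_ne {z : ℂ} (h : |z.re| < Real.pi) : sc z ≠ 0 := by
  intro h0
  have h1 := sin_sc z
  rw [h0, mul_zero] at h1
  obtain ⟨a, b⟩ := abs_lt.1 h
  rcases lt_trichotomy z.re 0 with h2 | h2 | h2
  · exact sin_ne' h2 a h1
  · have h3 : Real.sinh z.im = 0 := by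
      have h4 := congrArg Complex.im h1
      rw [PHK.sin_im, h2, Real.cos_zero, one_mul, Complex.zero_im] at h4
      exact h4
    have h5 : z = 0 := Complex.ext h2 (Real.sinh_eq_zero.1 h3)
    rw [h5, sc_zero] at h0
    exact one_ne_zero h0
  · exact sin_ne h2 b h1

theorem sc_diff : Differentiable ℂ sc := by
  have h : DifferentiableOn ℂ sc Set.univ :=
    (Complex.differentiableOn_dslope Filter.univ_mem).2 Complex.differentiable_sin.differentiableOn
  exact differentiableOn_univ.1 h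

/-- the pair function without its double zero -/
def qr (z : ℂ) : ℂ :=
  -(sc z ^ 2 * Complex.sin (z + 2 * l) * Complex.sin (z - 2 * l)) / (Complex.sin (z + l) * Complex.sin (z - l))

theorem q_qr (z : ℂ) : NUP1.q z = z ^ 2 * qr z := by
  unfold NUP1.q qr
  rw [sin_sc z]
  ring

theorem qr_neg (z : ℂ) : qr (-z) = qr z := by
  unfold qr
  rw [sc_neg, show -z + 2 * (l : ℂ) = -(z - 2 * l) by ring, show -z - 2 * (l : ℂ) = -(z + 2 * l) by ring,
    show -z + (l : ℂ) = -(z - l) by ring, show -z - (l : ℂ) = -(z + l) by ring]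
  simp only [Complex.sin_neg]
  congr 1 <;> ring

/-- the strip `|Re z| < l` -/
def Vl : Set ℂ := {z | |z.re| < l}

theorem isOpen_Vl : IsOpen Vl := isOpen_lt (continuous_abs.comp Complex.continuous_re) continuous_const

theorem l_pos' : 0 < l := by
  unfold NUP1.l
  positivity

theorem pl_ne {z : ℂ} (h : z ∈ Vl) : Complex.sin (z + l) ≠ 0 ∧ Complex.sin (z - l) ≠ 0 ∧
    Complex.sin (z + 2 * l) ≠ 0 ∧ Complex.sin (z - 2 * l) ≠ 0 := by
  have h' : |z.re| < l := h
  obtain ⟨a, b⟩ := abs_lt.1 h'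
  have hl := l_eq
  have hpi := Real.pi_pos
  have e2 : ((2 : ℂ) * (l : ℂ)).re = 2 * l := by simp
  refine ⟨sin_ne ?_ ?_, sin_ne' ?_ ?_, sin_ne ?_ ?_, sin_ne' ?_ ?_⟩ <;>
    simp only [Complex.add_re, Complex.sub_re, Complex.ofReal_re, e2] <;> linarith

theorem qr_ne {z : ℂ} (h : z ∈ Vl) : qr z ≠ 0 := by
  obtain ⟨h1, h2, h3, h4⟩ := pl_ne h
  have h5 : sc z ≠ 0 := sc_ne (lt_trans (h : |z.re| < l) (by rw [l_eq]; linarith [Real.pi_pos]))
  unfold qr
  exact div_ne_zero (neg_ne_zero.2 (mul_ne_zero (mul_ne_zero (pow_ne_zero 2 h5) h3) h4)) (mul_ne_zero h1 h2)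

theorem qr_diff : DifferentiableOn ℂ qr Vl := by
  unfold qr
  refine DifferentiableOn.div ?_ ?_ fun z hz => mul_ne_zero (pl_ne hz).1 (pl_ne hz).2.1
  · have h1 : Differentiable ℂ fun z => sc z ^ 2 := sc_diff.pow 2
    have h2 : Differentiable ℂ fun z : ℂ => Complex.sin (z + 2 * l) := by fun_prop
    have h3 : Differentiable ℂ fun z : ℂ => Complex.sin (z - 2 * l) := by fun_prop
    exact ((h1.mul h2).mul h3).neg.differentiableOn
  · have h2 : Differentiable ℂ fun z : ℂ => Complex.sin (z + l) := by fun_prop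
    have h3 : Differentiable ℂ fun z : ℂ => Complex.sin (z - l) := by fun_prop
    exact (h2.mul h3).differentiableOn

/-- **the pair function on a strip** -/
theorem rf_q {U : Set ℂ} (hU : ∀ z ∈ U, ∀ w ∈ U, z - w ∈ Vl) : Rf NUP1.q qr U Vl where
  oV := isOpen_Vl
  dif := hU
  an := qr_diff
  even := qr_neg
  eq := q_qr
  ne0 := fun _ hz => qr_ne hz

/-- the growth of one particle -/
def ph (z : ℂ) : ℝ := Real.exp (2 * |z.im|)

theorem ph_one (z : ℂ) : 1 ≤ ph z := Real.one_le_exp (by positivity)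

theorem sin_mono {x y : ℝ} (h0 : 0 ≤ x) (h1 : x ≤ y) (h2 : y ≤ Real.pi / 2) : Real.sin x ≤ Real.sin y :=
  Real.sin_le_sin_of_le_of_le_pi_div_two (by linarith [Real.pi_pos]) h2 h1

/-- upper bound of the pair function -/
theorem q_up {d : ℝ} (hd : d < l) : ∃ C : ℝ, 0 ≤ C ∧ ∀ z : ℂ, |z.re| ≤ d → ‖NUP1.q z‖ ≤ C * Real.exp (2 * |z.im|) := by
  have hpi := Real.pi_pos
  have hl := l_eq
  set s := Real.sin (l - d) with hs
  rcases lt_or_ge d 0 with hd0 | hd0
  · exact ⟨0, le_rfl, fun z hz => absurd (hz.trans_lt hd0) (not_lt.2 (abs_nonneg _))⟩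
  have s0 : 0 < s := Real.sin_pos_of_pos_of_lt_pi (by linarith) (by linarith)
  refine ⟨4 / s ^ 2, by positivity, fun z hz => ?_⟩
  obtain ⟨a, b⟩ := abs_le.1 hz
  have e2 : ((2 : ℂ) * (l : ℂ)).im = 0 := by simp
  have i1 : (z + (l : ℂ)).im = z.im := by simp
  have i2 : (z - (l : ℂ)).im = z.im := by simp
  have i3 : (z + 2 * (l : ℂ)).im = z.im := by simp
  have i4 : (z - 2 * (l : ℂ)).im = z.im := by simp
  have r1 : (z + (l : ℂ)).re = z.re + l := by simp
  have r2 : (z - (l : ℂ)).re = z.re - l := by simp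
  have u0 := sin_up z
  have u3 := sin_up (z + 2 * l)
  have u4 := sin_up (z - 2 * l)
  rw [i3] at u3
  rw [i4] at u4
  have l1 := sin_low (z + l)
  have l2 := sin_low (z - l)
  rw [i1, r1] at l1
  rw [i2, r2] at l2
  have m1 : s ≤ |Real.sin (z.re + l)| := by
    have h1 := sin_mono (x := l - d) (y := z.re + l) (by linarith) (by linarith) (by linarith)
    exact h1.trans (le_abs_self _)
  have m2 : s ≤ |Real.sin (z.re - l)| := by
    have h1 := sin_mono (x := l - d) (y := l - z.re) (by linarith) (by linarith) (by linarith)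
    rw [show z.re - l = -(l - z.re) by ring, Real.sin_neg, abs_neg]
    exact h1.trans (le_abs_self _)
  set E := Real.exp |z.im| with hE
  have E0 : 0 < E := Real.exp_pos _
  have l1' : s * (E / 2) ≤ ‖Complex.sin (z + l)‖ := (mul_le_mul_of_nonneg_right m1 (by positivity)).trans l1
  have l2' : s * (E / 2) ≤ ‖Complex.sin (z - l)‖ := (mul_le_mul_of_nonneg_right m2 (by positivity)).trans l2
  have hEE : Real.exp (2 * |z.im|) = E ^ 2 := by
    rw [hE, ← Real.exp_nat_mul]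
    norm_num
  unfold NUP1.q
  rw [norm_div, norm_neg, norm_mul, norm_mul, norm_pow, norm_mul, hEE]
  calc ‖Complex.sin z‖ ^ 2 * ‖Complex.sin (z + 2 * l)‖ * ‖Complex.sin (z - 2 * l)‖ /
        (‖Complex.sin (z + l)‖ * ‖Complex.sin (z - l)‖)
      ≤ E ^ 2 * E * E / ((s * (E / 2)) * (s * (E / 2))) := by gcongr
    _ = 4 / s ^ 2 * E ^ 2 := by field_simp; ring

/-- **the pair function, `Pq`** -/
theorem pq_q {U S : Set ℂ} (hU : ∀ z ∈ U, ∀ w ∈ U, z - w ∈ Vl) {d : ℝ} (hd : d < l)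
    (hS : ∀ z ∈ S, ∀ w ∈ S, |(z - w).re| ≤ d) : Pq NUP1.q U S Vl ph where
  oV := isOpen_Vl
  dif := hU
  an := (rf_q hU).pf.an
  even := (rf_q hU).pf.even
  bd := by
    obtain ⟨C, h0, h1⟩ := q_up hd
    refine ⟨C, h0, fun z hz w hw => (h1 _ (hS z hz w hw)).trans ?_⟩
    unfold ph
    rw [← Real.exp_add]
    refine mul_le_mul_of_nonneg_left (Real.exp_le_exp.2 ?_) h0
    have := abs_sub z.im w.im
    rw [Complex.sub_im]
    linarith

theorem sc_low {z : ℂ} (h : |z.re| ≤ l) : Real.exp |z.im| / (8 * (1 + |z.im|)) ≤ ‖sc z‖ := by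
  have hpi := Real.pi_pos
  have hpi4 := Real.pi_le_four
  have hl := l_eq
  have hy := abs_nonneg z.im
  by_cases h0 : z = 0
  · rw [h0, sc_zero, norm_one, Complex.zero_im, abs_zero, Real.exp_zero]
    norm_num
  have hz : 0 < ‖z‖ := norm_pos_iff.2 h0
  have e : ‖sc z‖ = ‖Complex.sin z‖ / ‖z‖ := by
    rw [sin_sc z, norm_mul, mul_comm, mul_div_assoc, div_self hz.ne', mul_one]
  have hn : ‖Complex.sin z‖ ^ 2 = Real.sin z.re ^ 2 + Real.sinh z.im ^ 2 := by
    rw [PHK.norm_sin_sq, Real.cosh_two_mul, Real.cos_two_mul]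
    have h1 := Real.sin_sq_add_cos_sq z.re
    have h2 := Real.cosh_sq z.im
    linarith
  have hzn : ‖z‖ ^ 2 = z.re ^ 2 + z.im ^ 2 := by
    rw [← Complex.normSq_eq_norm_sq, Complex.normSq_apply]
    ring
  rw [e]
  rcases le_total |z.im| 1 with h1 | h1
  · -- small height
    have hs : 2 / Real.pi * |z.re| ≤ |Real.sin z.re| := by
      have h2 := Real.mul_le_sin (abs_nonneg z.re) (by linarith)
      rcases le_total 0 z.re with h3 | h3
      · rw [abs_of_nonneg h3] at h2 ⊢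
        exact h2.trans (le_abs_self _)
      · rw [abs_of_nonpos h3] at h2 ⊢
        rw [Real.sin_neg] at h2
        exact h2.trans (neg_le_abs _)
    have hs1 : 1 / 2 * |z.re| ≤ |Real.sin z.re| := by
      refine le_trans ?_ hs
      refine mul_le_mul_of_nonneg_right ?_ (abs_nonneg _)
      rw [div_le_div_iff₀ (by norm_num) hpi]
      linarith
    have hs2 : 1 / 4 * z.re ^ 2 ≤ Real.sin z.re ^ 2 := by
      have h2 := mul_self_le_mul_self (by positivity) hs1
      rw [← sq_abs z.re, ← sq_abs (Real.sin z.re)]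
      nlinarith
    have hs3 : z.im ^ 2 ≤ Real.sinh z.im ^ 2 := by
      rw [← sq_abs z.im, ← sq_abs (Real.sinh z.im), Real.abs_sinh]
      exact pow_le_pow_left₀ hy (Real.self_le_sinh_iff.2 hy) 2
    have h4 : (‖z‖ / 2) ^ 2 ≤ ‖Complex.sin z‖ ^ 2 := by
      rw [hn, div_pow, hzn]
      nlinarith [sq_nonneg z.im]
    have h5 : ‖z‖ / 2 ≤ ‖Complex.sin z‖ := (abs_le_of_sq_le_sq' h4 (norm_nonneg _)).2
    have h6 : Real.exp |z.im| ≤ 3 := by
      have := Real.exp_le_exp.2 h1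
      have := Real.exp_one_lt_d9
      linarith
    calc Real.exp |z.im| / (8 * (1 + |z.im|)) ≤ 3 / (8 * (1 + 0)) := by gcongr
      _ ≤ 1 / 2 := by norm_num
      _ = (‖z‖ / 2) / ‖z‖ := by field_simp
      _ ≤ _ := by gcongr
  · have h2 : Real.exp |z.im| / 4 ≤ ‖Complex.sin z‖ := by
      have h3 : |Real.sinh z.im| ^ 2 ≤ ‖Complex.sin z‖ ^ 2 := by
        rw [hn, sq_abs]
        nlinarith [sq_nonneg (Real.sin z.re)]
      have h4 : |Real.sinh z.im| ≤ ‖Complex.sin z‖ := (abs_le_of_sq_le_sq' h3 (norm_nonneg _)).2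
      refine le_trans ?_ h4
      rw [Real.abs_sinh, Real.sinh_eq, Real.exp_neg]
      have h5 : (2:ℝ) ≤ Real.exp |z.im| := by
        have := Real.add_one_le_exp |z.im|
        linarith
      have h6 : (Real.exp |z.im|)⁻¹ ≤ 1 / 2 := by
        rw [inv_eq_one_div]
        exact one_div_le_one_div_of_le (by norm_num) h5
      linarith
    have h7 : ‖z‖ ≤ 2 * (1 + |z.im|) := by
      have := Complex.norm_le_abs_re_add_abs_im z
      linarith
    calc Real.exp |z.im| / (8 * (1 + |z.im|)) = (Real.exp |z.im| / 4) / (2 * (1 + |z.im|)) := by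
          field_simp
          ring
      _ ≤ ‖Complex.sin z‖ / ‖z‖ := by gcongr

/-- **lower bound of `qr`** -/
theorem qr_low : ∃ c : ℝ, 0 < c ∧ ∀ z ∈ Vl, c * (Real.exp (2 * |z.im|) / (1 + |z.im|) ^ 2) ≤ ‖qr z‖ := by
  have hpi := Real.pi_pos
  have hl := l_eq
  set s := Real.sin l with hs
  have s0 : 0 < s := Real.sin_pos_of_pos_of_lt_pi (by rw [hl]; positivity) (by rw [hl]; linarith)
  refine ⟨s ^ 2 / 256, by positivity, fun z hz => ?_⟩
  obtain ⟨h1, h2, h3, h4⟩ := pl_ne hz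
  have hz' : |z.re| < l := hz
  obtain ⟨a, b⟩ := abs_lt.1 hz'
  have i1 : (z + (l : ℂ)).im = z.im := by simp
  have i2 : (z - (l : ℂ)).im = z.im := by simp
  have i3 : (z + 2 * (l : ℂ)).im = z.im := by simp
  have i4 : (z - 2 * (l : ℂ)).im = z.im := by simp
  have r3 : (z + 2 * (l : ℂ)).re = z.re + 2 * l := by simp
  have r4 : (z - 2 * (l : ℂ)).re = z.re - 2 * l := by simp
  have u1 := sin_up (z + l)
  have u2 := sin_up (z - l)
  rw [i1] at u1
  rw [i2] at u2
  have l3 := sin_low (z + 2 * l)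
  have l4 := sin_low (z - 2 * l)
  rw [i3, r3] at l3
  rw [i4, r4] at l4
  have m3 : s ≤ |Real.sin (z.re + 2 * l)| := by
    have h1 := sin_mono (x := l) (y := z.re + 2 * l) (by linarith) (by linarith) (by linarith)
    exact h1.trans (le_abs_self _)
  have m4 : s ≤ |Real.sin (z.re - 2 * l)| := by
    have h1 := sin_mono (x := l) (y := 2 * l - z.re) (by linarith) (by linarith) (by linarith)
    rw [show z.re - 2 * l = -(2 * l - z.re) by ring, Real.sin_neg, abs_neg]
    exact h1.trans (le_abs_self _)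
  set E := Real.exp |z.im| with hE
  have E0 : 0 < E := Real.exp_pos _
  have l3' : s * (E / 2) ≤ ‖Complex.sin (z + 2 * l)‖ := (mul_le_mul_of_nonneg_right m3 (by positivity)).trans l3
  have l4' : s * (E / 2) ≤ ‖Complex.sin (z - 2 * l)‖ := (mul_le_mul_of_nonneg_right m4 (by positivity)).trans l4
  have hsc := sc_low (z := z) (hz : |z.re| < l).le
  have hEE : Real.exp (2 * |z.im|) = E ^ 2 := by
    rw [hE, ← Real.exp_nat_mul]
    norm_num
  have p1 : 0 < ‖Complex.sin (z + l)‖ := norm_pos_iff.2 h1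
  have p2 : 0 < ‖Complex.sin (z - l)‖ := norm_pos_iff.2 h2
  have hy : 0 < 1 + |z.im| := by positivity
  unfold qr
  rw [norm_div, norm_neg, norm_mul, norm_mul, norm_pow, norm_mul, hEE, le_div_iff₀ (mul_pos p1 p2)]
  calc s ^ 2 / 256 * (E ^ 2 / (1 + |z.im|) ^ 2) * (‖Complex.sin (z + l)‖ * ‖Complex.sin (z - l)‖)
      ≤ s ^ 2 / 256 * (E ^ 2 / (1 + |z.im|) ^ 2) * (E * E) := by gcongr
    _ = (E / (8 * (1 + |z.im|))) ^ 2 * (s * (E / 2)) * (s * (E / 2)) := by
        field_simp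
        ring
    _ ≤ ‖sc z‖ ^ 2 * ‖Complex.sin (z + 2 * l)‖ * ‖Complex.sin (z - 2 * l)‖ := by gcongr

/-! ### the localiser with distinct nodes -/

variable {ι : Type*} [Fintype ι]

/-- the factor of one node -/
def lt1 (z : ℂ) : ℂ := Complex.I * Complex.tan (3 * z)

/-- **the localiser** with one factor per node -/
def lcn (c : ι → ℂ) (z : ℂ) : ℂ := 1 - ∏ j, lt1 (z - c j)

theorem lt1_zero : lt1 0 = 0 := by simp [lt1]

theorem lt1_sq (z : ℂ) : lt1 z * lt1 z = PHK.tau z := by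
  unfold lt1 PHK.tau
  linear_combination Complex.tan (3 * z) ^ 2 * Complex.I_mul_I

theorem lcn_node (c : ι → ℂ) (i : ι) : lcn c (c i) = 1 := by
  unfold lcn
  rw [prod_eq_zero (mem_univ i) (by rw [sub_self, lt1_zero]), sub_zero]

/-- every node listed twice -/
theorem lcn_two {κ : Type*} [Fintype κ] (b : κ → ℂ) (z : ℂ) :
    lcn (fun p : κ × Bool => b p.1) z = PHK.loc b z := by
  unfold lcn PHK.loc
  rw [Fintype.prod_prod_type]
  congr 1
  refine prod_congr rfl fun i _ => ?_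
  rw [Fintype.prod_bool, lt1_sq]

theorem diff_lt1 : DifferentiableOn ℂ lt1 Vl := by
  have h : DifferentiableOn ℂ (fun z => Complex.tan (3 * z)) Vl := PHK.diff_tan3.mono fun z hz => by
    have h1 : |z.re| < l := hz
    have hl := l_pos'
    show |z.re| < 4 / 3 * NUMF.l
    rw [lK]
    linarith
  exact (differentiableOn_const _).mul h

theorem lcn_diff {U Ω : Set ℂ} (hU : ∀ z ∈ U, ∀ w ∈ Ω, z - w ∈ Vl) {c : ι → ℂ} (hc : ∀ i, c i ∈ Ω) :
    DifferentiableOn ℂ (lcn c) U := by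
  unfold lcn
  refine (differentiableOn_const _).sub (DifferentiableOn.fun_finsetProd fun j _ => ?_)
  exact diff_lt1.comp (f := fun z => z - c j) (by fun_prop) fun z hz => hU z hz _ (hc j)

theorem lcn_cont {U Ω : Set ℂ} (hU : ∀ z ∈ U, ∀ w ∈ Ω, z - w ∈ Vl) :
    ContinuousOn (fun p : (ι → ℂ) × ℂ => lcn p.1 p.2) ({c | ∀ i, c i ∈ Ω} ×ˢ U) := by
  unfold lcn
  refine continuousOn_const.sub (continuousOn_finsetProd _ fun j _ => ?_)
  exact diff_lt1.continuousOn.comp (f := fun p : (ι → ℂ) × ℂ => p.2 - p.1 j) (by fun_prop)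
    fun p hp => hU _ hp.2 _ (hp.1 j)

/-- lower bound of the cosine -/
theorem cos_low {d : ℝ} (hd0 : 0 ≤ d) (hd : d < l) : ∃ m : ℝ, 0 < m ∧ ∀ z : ℂ, |z.re| ≤ d →
    m * Real.exp (3 * |z.im|) ≤ ‖Complex.cos (3 * z)‖ := by
  have hpi := Real.pi_pos
  have hl := l_eq
  set κ := Real.cos (6 * d) with hκ
  have hκ1 : -1 < κ := by
    have h1 := Real.cos_lt_cos_of_nonneg_of_le_pi (x := 6 * d) (y := Real.pi) (by positivity) le_rfl (by linarith)
    rwa [Real.cos_pi] at h1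
  have hκ2 : κ ≤ 1 := Real.cos_le_one _
  have hm : 0 < (1 + κ) / 8 := by linarith
  refine ⟨Real.sqrt ((1 + κ) / 8), Real.sqrt_pos.2 hm, fun z hz => ?_⟩
  obtain ⟨a, b⟩ := abs_le.1 hz
  have e1 : (3 * z).re = 3 * z.re := by simp
  have e2 : (3 * z).im = 3 * z.im := by simp
  have h1 : κ ≤ Real.cos (2 * (3 * z).re) := by
    rw [e1, ← Real.cos_abs]
    refine Real.cos_le_cos_of_nonneg_of_le_pi (abs_nonneg _) (by linarith) ?_
    rw [show 2 * (3 * z.re) = 6 * z.re by ring, abs_mul, abs_of_pos (by norm_num : (0:ℝ) < 6)]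
    linarith
  have h2 : Real.exp (6 * |z.im|) / 2 ≤ Real.cosh (2 * (3 * z).im) := by
    have h3 := exp_le_cosh2 (2 * (3 * z).im)
    rw [e2] at h3 ⊢
    rw [show |2 * (3 * z.im)| = 6 * |z.im| by
      rw [show 2 * (3 * z.im) = 6 * z.im by ring, abs_mul]; norm_num] at h3
    exact h3
  have h3 := Real.one_le_cosh (2 * (3 * z).im)
  have h4 : (1 + κ) / 2 * Real.cosh (2 * (3 * z).im) ≤ Real.cosh (2 * (3 * z).im) + Real.cos (2 * (3 * z).re) := by
    have h5 : (1 - κ) / 2 * 1 ≤ (1 - κ) / 2 * Real.cosh (2 * (3 * z).im) :=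
      mul_le_mul_of_nonneg_left h3 (by linarith)
    linarith
  have h6 : (1 + κ) / 8 * Real.exp (6 * |z.im|) ≤ ‖Complex.cos (3 * z)‖ ^ 2 := by
    rw [PHK.norm_cos_sq]
    have h7 : (1 + κ) / 2 * (Real.exp (6 * |z.im|) / 2) ≤ (1 + κ) / 2 * Real.cosh (2 * (3 * z).im) :=
      mul_le_mul_of_nonneg_left h2 (by linarith)
    linarith
  have h8 : (Real.sqrt ((1 + κ) / 8) * Real.exp (3 * |z.im|)) ^ 2 ≤ ‖Complex.cos (3 * z)‖ ^ 2 := by
    rw [mul_pow, Real.sq_sqrt hm.le, ← Real.exp_nat_mul]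
    rw [show ((2:ℕ):ℝ) * (3 * |z.im|) = 6 * |z.im| by push_cast; ring]
    exact h6
  exact (abs_le_of_sq_le_sq' h8 (norm_nonneg _)).2

/-- the factor of a node far above or below -/
theorem lt1_far {d : ℝ} (hd0 : 0 ≤ d) (hd : d < l) : ∃ C : ℝ, 1 ≤ C ∧
    (∀ z : ℂ, |z.re| ≤ d → ‖lt1 z‖ ≤ C) ∧
    (∀ z : ℂ, |z.re| ≤ d → 0 ≤ z.im → ‖1 + lt1 z‖ ≤ C * Real.exp (-6 * |z.im|)) ∧
    ∀ z : ℂ, |z.re| ≤ d → z.im ≤ 0 → ‖1 - lt1 z‖ ≤ C * Real.exp (-6 * |z.im|) := by
  obtain ⟨m, hm, h⟩ := cos_low hd0 hd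
  have hE : ∀ y : ℝ, 0 ≤ y → Real.exp (-6 * y) ≤ 1 := fun y hy => Real.exp_le_one_iff.2 (by linarith)
  have hne : ∀ z : ℂ, |z.re| ≤ d → Complex.cos (3 * z) ≠ 0 := fun z hz =>
    norm_pos_iff.1 (lt_of_lt_of_le (by positivity) (h z hz))
  have n1 : ∀ z : ℂ, |z.re| ≤ d → 0 ≤ z.im → ‖1 + lt1 z‖ ≤ 1 / m * Real.exp (-6 * |z.im|) := by
    intro z hz hi
    have e : 1 + lt1 z = Complex.exp (3 * z * Complex.I) / Complex.cos (3 * z) := by
      rw [Complex.exp_mul_I, lt1, Complex.tan]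
      field_simp [hne z hz]
    have hexp : ‖Complex.exp (3 * z * Complex.I)‖ = Real.exp (-(3 * |z.im|)) := by
      rw [Complex.norm_exp, abs_of_nonneg hi]
      congr 1
      simp
    rw [e, norm_div, hexp]
    calc Real.exp (-(3 * |z.im|)) / ‖Complex.cos (3 * z)‖ ≤ Real.exp (-(3 * |z.im|)) / (m * Real.exp (3 * |z.im|)) := by
          have := h z hz
          gcongr
      _ = 1 / m * (Real.exp (-(3 * |z.im|)) / Real.exp (3 * |z.im|)) := by field_simp
      _ = 1 / m * Real.exp (-6 * |z.im|) := by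
          rw [← Real.exp_sub]
          congr 2
          ring
  have n2 : ∀ z : ℂ, |z.re| ≤ d → z.im ≤ 0 → ‖1 - lt1 z‖ ≤ 1 / m * Real.exp (-6 * |z.im|) := by
    intro z hz hi
    have h1 := n1 (-z) (by rwa [Complex.neg_re, abs_neg]) (by rw [Complex.neg_im]; linarith)
    have h2 : lt1 (-z) = -lt1 z := by
      unfold lt1
      rw [mul_neg, Complex.tan_neg, mul_neg]
    rw [h2, ← sub_eq_add_neg, Complex.neg_im, abs_neg] at h1
    exact h1
  have hC : 0 < 1 / m := by positivity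
  refine ⟨1 + 1 / m, by linarith, ?_, ?_, ?_⟩
  · intro z hz
    have h8 := hE |z.im| (abs_nonneg _)
    have h9 : 1 / m * Real.exp (-6 * |z.im|) ≤ 1 / m * 1 := mul_le_mul_of_nonneg_left h8 hC.le
    rcases le_total 0 z.im with hi | hi
    · have h1 := n1 z hz hi
      have h2 : ‖lt1 z‖ ≤ ‖1 + lt1 z‖ + 1 := by
        have := norm_sub_le (1 + lt1 z) 1
        rwa [add_sub_cancel_left, norm_one] at this
      linarith
    · have h1 := n2 z hz hi
      have h2 : ‖lt1 z‖ ≤ 1 + ‖1 - lt1 z‖ := by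
        have := norm_sub_le (1 : ℂ) (1 - lt1 z)
        rwa [sub_sub_cancel, norm_one] at this
      linarith
  · intro z hz hi
    refine (n1 z hz hi).trans (mul_le_mul_of_nonneg_right (by linarith) (Real.exp_pos _).le)
  · intro z hz hi
    refine (n2 z hz hi).trans (mul_le_mul_of_nonneg_right (by linarith) (Real.exp_pos _).le)

theorem one_sub_prod {α : Type*} (s : Finset α) (f : α → ℂ) {K : ℝ} (hK : 1 ≤ K) (h : ∀ i ∈ s, ‖f i‖ ≤ K) :
    ‖1 - ∏ i ∈ s, f i‖ ≤ K ^ s.card * ∑ i ∈ s, ‖1 - f i‖ := by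
  classical
  induction s using Finset.induction_on with
  | empty => simp
  | insert a s ha ih =>
    rw [prod_insert ha, sum_insert ha, card_insert_of_notMem ha]
    have h1 := h a (mem_insert_self a s)
    have h2 := ih fun i hi => h i (mem_insert_of_mem hi)
    have hK0 : 0 ≤ K := zero_le_one.trans hK
    have hS : 0 ≤ ∑ i ∈ s, ‖1 - f i‖ := sum_nonneg fun _ _ => norm_nonneg _
    have hp : 1 ≤ K ^ (s.card + 1) := one_le_pow₀ hK
    calc ‖1 - f a * ∏ i ∈ s, f i‖ = ‖(1 - f a) + f a * (1 - ∏ i ∈ s, f i)‖ := by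
          congr 1
          ring
      _ ≤ ‖1 - f a‖ + ‖f a * (1 - ∏ i ∈ s, f i)‖ := norm_add_le _ _
      _ ≤ ‖1 - f a‖ + K * (K ^ s.card * ∑ i ∈ s, ‖1 - f i‖) := by
          rw [norm_mul]
          have := mul_le_mul h1 h2 (norm_nonneg _) hK0
          linarith
      _ = 1 * ‖1 - f a‖ + K ^ (s.card + 1) * ∑ i ∈ s, ‖1 - f i‖ := by
          rw [pow_succ]
          ring
      _ ≤ K ^ (s.card + 1) * ‖1 - f a‖ + K ^ (s.card + 1) * ∑ i ∈ s, ‖1 - f i‖ := by
          gcongr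
      _ = _ := by ring

/-- **decay of the localiser**, an even number of nodes -/
theorem lcn_bd (hN : Even (Fintype.card ι)) {d X : ℝ} (hd0 : 0 ≤ d) (hd : d < l) : ∃ C : ℝ, 0 ≤ C ∧
    ∀ (c : ι → ℂ) (z : ℂ), (∀ j, |(z - c j).re| ≤ d) → (∀ j, |(c j).im| ≤ X) →
      ‖lcn c z‖ ≤ C * Real.exp (-6 * |z.im|) := by
  obtain ⟨K, hK, h0, h1, h2⟩ := lt1_far hd0 hd
  set n := Fintype.card ι with hn
  have hK0 : 0 < K := by linarith
  refine ⟨(1 + K ^ n) * Real.exp (6 * |X|) + K ^ n * (n * (K * Real.exp (6 * |X|))), by positivity,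
    fun c z hr hc => ?_⟩
  have hX : ∀ j, |(c j).im| ≤ |X| := fun j => (hc j).trans (le_abs_self X)
  have hp : ‖∏ j, lt1 (z - c j)‖ ≤ K ^ n := by
    rw [norm_prod]
    refine (prod_le_prod (fun _ _ => norm_nonneg _) fun j _ => h0 _ (hr j)).trans ?_
    rw [prod_const, card_univ]
  have hb : ∀ j, Real.exp (-6 * |(z - c j).im|) ≤ Real.exp (6 * |X|) * Real.exp (-6 * |z.im|) := by
    intro j
    rw [← Real.exp_add]
    refine Real.exp_le_exp.2 ?_
    have h3 := abs_sub_abs_le_abs_sub z.im (c j).im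
    have h4 := hX j
    rw [Complex.sub_im]
    linarith
  have hsum : ∀ f : ι → ℂ, (∀ j, ‖1 - f j‖ ≤ K * Real.exp (-6 * |(z - c j).im|)) →
      ∑ j, ‖1 - f j‖ ≤ n * (K * Real.exp (6 * |X|)) * Real.exp (-6 * |z.im|) := by
    intro f hf
    calc ∑ j, ‖1 - f j‖ ≤ ∑ _j : ι, K * (Real.exp (6 * |X|) * Real.exp (-6 * |z.im|)) :=
          sum_le_sum fun j _ => (hf j).trans (mul_le_mul_of_nonneg_left (hb j) hK0.le)
      _ = _ := by
          rw [sum_const, card_univ, nsmul_eq_mul]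
          ring
  have hE := Real.exp_pos (-6 * |z.im|)
  have hE8 := Real.exp_pos (6 * |X|)
  rcases lt_or_ge |z.im| |X| with hz | hz
  · -- in the window
    have h3 : ‖lcn c z‖ ≤ 1 + K ^ n := by
      unfold lcn
      refine (norm_sub_le _ _).trans ?_
      rw [norm_one]
      linarith
    have h4 : 1 ≤ Real.exp (6 * |X|) * Real.exp (-6 * |z.im|) := by
      rw [← Real.exp_add]
      exact Real.one_le_exp (by linarith)
    calc ‖lcn c z‖ ≤ (1 + K ^ n) * 1 := by rw [mul_one]; exact h3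
      _ ≤ (1 + K ^ n) * (Real.exp (6 * |X|) * Real.exp (-6 * |z.im|)) :=
          mul_le_mul_of_nonneg_left h4 (by positivity)
      _ = (1 + K ^ n) * Real.exp (6 * |X|) * Real.exp (-6 * |z.im|) := by ring
      _ ≤ _ := by
          refine mul_le_mul_of_nonneg_right ?_ hE.le
          have : 0 ≤ K ^ n * (n * (K * Real.exp (6 * |X|))) := by positivity
          linarith
  · have fin : ‖lcn c z‖ ≤ K ^ n * (n * (K * Real.exp (6 * |X|)) * Real.exp (-6 * |z.im|)) := by
      rcases le_total 0 z.im with hi | hi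
      · -- above
        have e : lcn c z = 1 - ∏ j, -lt1 (z - c j) := by
          unfold lcn
          rw [prod_neg, card_univ, ← hn, hN.neg_one_pow, one_mul]
        have hj : ∀ j, 0 ≤ (z - c j).im := by
          intro j
          have h3 := hX j
          have h4 := le_abs_self (c j).im
          rw [abs_of_nonneg hi] at hz
          rw [Complex.sub_im]
          linarith
        rw [e]
        refine (one_sub_prod univ (fun j => -lt1 (z - c j)) hK fun j _ => by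
          rw [norm_neg]; exact h0 _ (hr j)).trans ?_
        rw [card_univ, ← hn]
        refine mul_le_mul_of_nonneg_left (hsum _ fun j => ?_) (by positivity)
        rw [sub_neg_eq_add]
        exact h1 _ (hr j) (hj j)
      · have hj : ∀ j, (z - c j).im ≤ 0 := by
          intro j
          have h3 := hX j
          have h4 := neg_abs_le (c j).im
          rw [abs_of_nonpos hi] at hz
          rw [Complex.sub_im]
          linarith
        unfold lcn
        refine (one_sub_prod univ (fun j => lt1 (z - c j)) hK fun j _ => h0 _ (hr j)).trans ?_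
        rw [card_univ, ← hn]
        exact mul_le_mul_of_nonneg_left (hsum _ fun j => h2 _ (hr j) (hj j)) (by positivity)
    refine fin.trans ?_
    have h5 : 0 ≤ (1 + K ^ n) * Real.exp (6 * |X|) * Real.exp (-6 * |z.im|) := by positivity
    calc K ^ n * (n * (K * Real.exp (6 * |X|)) * Real.exp (-6 * |z.im|))
        = K ^ n * (n * (K * Real.exp (6 * |X|))) * Real.exp (-6 * |z.im|) := by ring
      _ ≤ _ := by
          rw [add_mul]
          linarith

/-! ### the holes -/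

/-- the inverse one body function of the particles: growth `a` -/
structure Gf (U S Ω : Set ℂ) (a : ℝ) (G : (ι → ℂ) → ℂ → ℂ) : Prop where
  an : ∀ c : ι → ℂ, (∀ i, c i ∈ Ω) → DifferentiableOn ℂ (G c) U
  ct : ContinuousOn (fun p : (ι → ℂ) × ℂ => G p.1 p.2) ({c | ∀ i, c i ∈ Ω} ×ˢ U)
  bd : ∀ c0 : ι → ℂ, (∀ i, c0 i ∈ Ω) → ∃ C : ℝ, 0 ≤ C ∧ ∀ᶠ c in 𝓝 c0, ∀ z ∈ S,
      ‖G c z‖ ≤ C * Real.exp (a * |z.im|)

omit [Fintype ι] in
/-- a function which does not see the nodes -/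
theorem Gf.const {U S Ω : Set ℂ} {a C : ℝ} {g : ℂ → ℂ} (h1 : DifferentiableOn ℂ g U) (hC : 0 ≤ C)
    (h2 : ∀ z ∈ S, ‖g z‖ ≤ C * Real.exp (a * |z.im|)) : Gf (ι := ι) U S Ω a fun _ => g where
  an := fun _ _ => h1
  ct := h1.continuousOn.comp continuousOn_snd fun _ hp => hp.2
  bd := fun _ _ => ⟨C, hC, Eventually.of_forall fun _ => h2⟩

/-- the one body function of the holes, `G = 1 / f` -/
def hol (G : (ι → ℂ) → ℂ → ℂ) (r : ℂ → ℂ) (c : ι → ℂ) (z : ℂ) : ℂ :=
  G c z * (r 0 / ∏ j, r (z - c j)) * lcn c z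

/-- the values at the nodes -/
theorem hol_node {G : (ι → ℂ) → ℂ → ℂ} {f r : ℂ → ℂ} {c : ι → ℂ} {i : ι} (h : G c (c i) = (f (c i))⁻¹) :
    hol G r c (c i) = fH f r c (c i) := by
  unfold hol fH
  rw [lcn_node, mul_one, h]
  field_simp

/-- `(1 + y) ^ n ≤ C exp (ε y)` -/
theorem poly_exp (n : ℕ) {ε : ℝ} (hε : 0 < ε) : ∃ C : ℝ, 0 < C ∧ ∀ y : ℝ, 0 ≤ y → (1 + y) ^ n ≤ C * Real.exp (ε * y) := by
  have hn : (0:ℝ) < (n : ℝ) + 1 := by positivity
  set η := min 1 (ε / ((n : ℝ) + 1)) with hη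
  have η0 : 0 < η := lt_min one_pos (by positivity)
  have η1 : η ≤ 1 := min_le_left _ _
  have η2 : (n : ℝ) * η ≤ ε := by
    have h1 : η ≤ ε / ((n : ℝ) + 1) := min_le_right _ _
    have h2 : (n : ℝ) * η ≤ (n : ℝ) * (ε / ((n : ℝ) + 1)) := mul_le_mul_of_nonneg_left h1 (Nat.cast_nonneg n)
    have h3 : (n : ℝ) * (ε / ((n : ℝ) + 1)) = (n : ℝ) / ((n : ℝ) + 1) * ε := by ring
    have h4 : (n : ℝ) / ((n : ℝ) + 1) ≤ 1 := by
      rw [div_le_one hn]
      linarith
    have h5 : (n : ℝ) / ((n : ℝ) + 1) * ε ≤ 1 * ε := mul_le_mul_of_nonneg_right h4 hε.le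
    linarith
  refine ⟨(1 / η) ^ n, by positivity, fun y hy => ?_⟩
  have h1 : 1 + y ≤ 1 / η * Real.exp (η * y) := by
    have h2 := Real.add_one_le_exp (η * y)
    have h3 : η * (1 + y) ≤ Real.exp (η * y) := by nlinarith
    rw [one_div, inv_mul_eq_div, le_div_iff₀ η0]
    linarith
  calc (1 + y) ^ n ≤ (1 / η * Real.exp (η * y)) ^ n := pow_le_pow_left₀ (by positivity) h1 n
    _ = (1 / η) ^ n * Real.exp (n * (η * y)) := by rw [mul_pow, ← Real.exp_nat_mul]
    _ ≤ _ := by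
        refine mul_le_mul_of_nonneg_left (Real.exp_le_exp.2 ?_) (by positivity)
        rw [← mul_assoc]
        exact mul_le_mul_of_nonneg_right η2 hy

/-- decay rate of the weight of the lines -/
def wl (δ : ℝ) (z : ℂ) : ℝ := Real.exp (-δ * |z.im|)

/-- **the holes are admissible** -/
theorem fa_hole (hN : Even (Fintype.card ι)) {U S Ω : Set ℂ} (hSU : S ⊆ U) (hΩ : IsOpen Ω)
    (hU : ∀ z ∈ U, ∀ w ∈ Ω, z - w ∈ Vl) {d : ℝ} (hd0 : 0 ≤ d) (hd : d < l)
    (hS : ∀ z ∈ S, ∀ w ∈ Ω, |(z - w).re| ≤ d) {a δ : ℝ} {m : ℕ}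
    (hδ : δ + a + 2 * ((m - 1 : ℕ) : ℝ) < 2 * Fintype.card ι + 6) {G : (ι → ℂ) → ℂ → ℂ} (hG : Gf U S Ω a G) :
    Fa U S Ω ph (wl δ) m (hol G qr) := by
  have hqr : ∀ c : ι → ℂ, (∀ i, c i ∈ Ω) → ∀ z ∈ U, ∏ j, qr (z - c j) ≠ 0 := fun c hc z hz =>
    prod_ne_zero_iff.2 fun j _ => qr_ne (hU z hz _ (hc j))
  refine ⟨?_, ?_, ?_⟩
  · intro c hc
    unfold hol
    refine ((hG.an c hc).mul ((differentiableOn_const _).div (DifferentiableOn.fun_finsetProd fun j _ => ?_)
      (hqr c hc))).mul (lcn_diff hU hc)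
    exact qr_diff.comp (f := fun z => z - c j) (by fun_prop) fun z hz => hU z hz _ (hc j)
  · unfold hol
    refine (hG.ct.mul (continuousOn_const.div (continuousOn_finsetProd _ fun j _ => ?_) ?_)).mul (lcn_cont hU)
    · exact qr_diff.continuousOn.comp (f := fun p : (ι → ℂ) × ℂ => p.2 - p.1 j) (by fun_prop)
        fun p hp => hU _ hp.2 _ (hp.1 j)
    · rintro ⟨c, z⟩ ⟨hc, hz⟩
      exact hqr c hc z hz
  · intro c0 hc0
    set n := Fintype.card ι with hn
    obtain ⟨C1, hC1, e1⟩ := hG.bd c0 hc0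
    obtain ⟨q0, hq0, hq⟩ := qr_low
    -- heights of the nodes
    set X : ℝ := ∑ j, |(c0 j).im| + 1 with hX
    have hX0 : 0 ≤ X := by
      have : 0 ≤ ∑ j, |(c0 j).im| := sum_nonneg fun _ _ => abs_nonneg _
      linarith
    have e2 : ∀ᶠ c in 𝓝 c0, ∀ j, |(c j).im| ≤ X := by
      filter_upwards [Metric.ball_mem_nhds c0 one_pos] with c hc j
      have h3 : ‖c j - c0 j‖ ≤ 1 := by
        have := (dist_le_pi_dist c c0 j).trans (Metric.mem_ball.1 hc).le
        rwa [dist_eq_norm] at this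
      have h4 : |(c j).im - (c0 j).im| ≤ 1 := by
        have := Complex.abs_im_le_norm (c j - c0 j)
        rw [Complex.sub_im] at this
        linarith
      have h5 : |(c0 j).im| ≤ ∑ j, |(c0 j).im| :=
        single_le_sum (f := fun j => |(c0 j).im|) (fun _ _ => abs_nonneg _) (mem_univ j)
      have h6 := abs_sub_abs_le_abs_sub (c j).im (c0 j).im
      linarith
    have e3 : ∀ᶠ c in 𝓝 c0, ∀ j, c j ∈ Ω := by
      have : IsOpen {c : ι → ℂ | ∀ i, c i ∈ Ω} := by
        have : {c : ι → ℂ | ∀ i, c i ∈ Ω} = Set.pi Set.univ fun _ => Ω := by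
          ext c
          simp
        rw [this]
        exact isOpen_set_pi Set.finite_univ fun _ _ => hΩ
      exact this.mem_nhds hc0
    obtain ⟨C2, hC2, h2⟩ := lcn_bd (ι := ι) hN (X := X) hd0 hd
    set ε : ℝ := (2 * n + 6 - (δ + a + 2 * ((m - 1 : ℕ) : ℝ))) with hε
    have hε0 : 0 < ε := by linarith
    obtain ⟨C3, hC3, h3⟩ := poly_exp (2 * n) hε0
    set B : ℝ := (q0⁻¹ * Real.exp (2 * X) * (1 + X) ^ 2) ^ n with hB
    have hB0 : 0 ≤ B := by positivity
    refine ⟨C1 * (‖qr 0‖ * (B * C3)) * C2, by positivity, ?_⟩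
    filter_upwards [e1, e2, e3] with c h4 h5 h6 z hz
    have hy := abs_nonneg z.im
    -- the product of the pair functions
    have b1 : ∀ j, ‖qr (z - c j)‖⁻¹ ≤ q0⁻¹ * Real.exp (2 * X) * (1 + X) ^ 2 *
        ((1 + |z.im|) ^ 2 * Real.exp (-(2 * |z.im|))) := by
      intro j
      have h7 := hq _ (hU z (hSU hz) _ (h6 j))
      have h8 : Real.exp (-(2 * X)) / (1 + X) ^ 2 * (Real.exp (2 * |z.im|) / (1 + |z.im|) ^ 2) ≤
          Real.exp (2 * |(z - c j).im|) / (1 + |(z - c j).im|) ^ 2 := by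
        have h9 : |z.im| - X ≤ |(z - c j).im| := by
          have := abs_sub_abs_le_abs_sub z.im (c j).im
          have := h5 j
          rw [Complex.sub_im]
          linarith
        have h10 : 1 + |(z - c j).im| ≤ (1 + X) * (1 + |z.im|) := by
          have h11 := abs_sub z.im (c j).im
          have h12 := h5 j
          rw [Complex.sub_im]
          nlinarith [mul_nonneg hX0 hy]
        rw [div_mul_div_comm, ← Real.exp_add, ← mul_pow]
        have h13 : Real.exp (-(2 * X) + 2 * |z.im|) ≤ Real.exp (2 * |(z - c j).im|) :=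
          Real.exp_le_exp.2 (by linarith)
        have h14 : (1 + |(z - c j).im|) ^ 2 ≤ ((1 + X) * (1 + |z.im|)) ^ 2 :=
          pow_le_pow_left₀ (by positivity) h10 2
        exact div_le_div₀ (by positivity) h13 (by positivity) h14
      have h9 : q0 * (Real.exp (-(2 * X)) / (1 + X) ^ 2 * (Real.exp (2 * |z.im|) / (1 + |z.im|) ^ 2)) ≤
          ‖qr (z - c j)‖ := (mul_le_mul_of_nonneg_left h8 hq0.le).trans h7
      have h10 : 0 < q0 * (Real.exp (-(2 * X)) / (1 + X) ^ 2 * (Real.exp (2 * |z.im|) / (1 + |z.im|) ^ 2)) := by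
        positivity
      refine (inv_anti₀ h10 h9).trans (le_of_eq ?_)
      rw [Real.exp_neg, Real.exp_neg]
      field_simp
    have b2 : ‖∏ j, qr (z - c j)‖⁻¹ ≤ B * ((1 + |z.im|) ^ (2 * n) * Real.exp (-(2 * n * |z.im|))) := by
      rw [norm_prod, ← prod_inv_distrib]
      refine (prod_le_prod (fun _ _ => inv_nonneg.2 (norm_nonneg _)) fun j _ => b1 j).trans (le_of_eq ?_)
      have b0 : ((1 + |z.im|) ^ 2 * Real.exp (-(2 * |z.im|))) ^ n =
          (1 + |z.im|) ^ (2 * n) * Real.exp (-(2 * n * |z.im|)) := by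
        rw [mul_pow, ← pow_mul, ← Real.exp_nat_mul]
        congr 2
        ring
      rw [prod_const, card_univ, ← hn, mul_pow _ ((1 + |z.im|) ^ 2 * Real.exp (-(2 * |z.im|))), b0, hB]
    have b3 := h4 z hz
    have b4 := h2 c z (fun j => hS z hz _ (h6 j)) h5
    have b5 := h3 |z.im| hy
    have b6 : ph z ^ (m - 1) = Real.exp (2 * ((m - 1 : ℕ) : ℝ) * |z.im|) := by
      unfold ph
      rw [← Real.exp_nat_mul]
      congr 1
      ring
    unfold hol
    rw [norm_mul, norm_mul, norm_div, b6, div_eq_mul_inv]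
    calc ‖G c z‖ * (‖qr 0‖ * ‖∏ j, qr (z - c j)‖⁻¹) * ‖lcn c z‖ * Real.exp (2 * ((m - 1 : ℕ) : ℝ) * |z.im|)
        ≤ (C1 * Real.exp (a * |z.im|)) * (‖qr 0‖ * (B * ((C3 * Real.exp (ε * |z.im|)) *
            Real.exp (-(2 * n * |z.im|))))) * (C2 * Real.exp (-6 * |z.im|)) *
            Real.exp (2 * ((m - 1 : ℕ) : ℝ) * |z.im|) := by
          have b7 : ‖∏ j, qr (z - c j)‖⁻¹ ≤ B * ((C3 * Real.exp (ε * |z.im|)) * Real.exp (-(2 * n * |z.im|))) := by
            refine b2.trans ?_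
            gcongr
          gcongr
      _ = C1 * (‖qr 0‖ * (B * C3)) * C2 * (Real.exp (a * |z.im|) * Real.exp (ε * |z.im|) *
            Real.exp (-(2 * n * |z.im|)) * Real.exp (-6 * |z.im|) * Real.exp (2 * ((m - 1 : ℕ) : ℝ) * |z.im|)) := by
          ring
      _ = C1 * (‖qr 0‖ * (B * C3)) * C2 * wl δ z := by
          unfold wl
          rw [← Real.exp_add, ← Real.exp_add, ← Real.exp_add, ← Real.exp_add]
          congr 2
          rw [hε]
          ring

end Pool.Agent.PHD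

end
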