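import Pool.Agent.PHD.Hol

/-!
# Particle-hole duality: growth of the one body function of the holes

* **`gf_hol`**: `Gf` of the hole function (growth `a - 2 card ι - 6 + ε`), the form used by `JJ2_sea`.
-/

set_option autoImplicit false

noncomputable section

open Finset MeasureTheory Filter Topology

namespace Pool.Agent.PHD

open NUP1 (l)

variable {ι : Type*} [Fintype ι]

/-- **growth of the holes**: every `b > a - 2 card ι - 6` -/
theorem gf_hol (hN : Even (Fintype.card ι)) {U S Ω : Set ℂ} (hSU : S ⊆ U) (hΩ : IsOpen Ω)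
    (hU : ∀ z ∈ U, ∀ w ∈ Ω, z - w ∈ Vl) {d : ℝ} (hd0 : 0 ≤ d) (hd : d < l)
    (hS : ∀ z ∈ S, ∀ w ∈ Ω, |(z - w).re| ≤ d) {a b : ℝ}
    (hab : a < b + 2 * Fintype.card ι + 6) {G : (ι → ℂ) → ℂ → ℂ} (hG : Gf U S Ω a G) :
    Gf U S Ω b (hol G qr) := by
  have h := fa_hole (δ := -b) (m := 1) hN hSU hΩ hU hd0 hd hS (by simp; linarith) hG
  refine ⟨h.an, h.ct, fun c0 hc0 => ?_⟩
  obtain ⟨C, hC, h1⟩ := h.bd c0 hc0
  refine ⟨C, hC, ?_⟩
  filter_upwards [h1] with c hc z hz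
  have h2 := hc z hz
  simpa only [wl, neg_neg, Nat.sub_self, pow_zero, mul_one] using h2

/-- the form of `JJ2_sea`: `δ + kap + …` against the number of nodes -/
theorem gf_hol' (hN : Even (Fintype.card ι)) {U S Ω : Set ℂ} (hSU : S ⊆ U) (hΩ : IsOpen Ω)
    (hU : ∀ z ∈ U, ∀ w ∈ Ω, z - w ∈ Vl) {d : ℝ} (hd0 : 0 ≤ d) (hd : d < l)
    (hS : ∀ z ∈ S, ∀ w ∈ Ω, |(z - w).re| ≤ d) {a α : ℝ}
    (hab : a + α < 2 * Fintype.card ι + 6) {G : (ι → ℂ) → ℂ → ℂ} (hG : Gf U S Ω a G) :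
    Gf U S Ω (-α) (hol G qr) :=
  gf_hol hN hSU hΩ hU hd0 hd hS (by linarith) hG

end Pool.Agent.PHD

end
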