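import Pool.Agent.PHD.Alg

/-!
# Particle-hole duality: the contour integral of `k` particles = sum over the sets of `k` nodes

A closed contour is a measure space `Ξ` with `γ : Ξ → ℂ` (the point) and `κ : Ξ → ℂ` (the tangent
divided by `2 π i`), `Ctr`: `∫ κ F(γ) / (γ - c) = F c` for `c` inside, `F` analytic.

* `Ctr.resid`: `∫ κ F(γ) / ∏ (γ - c i) = ∑ F (c i) / ∏ j ≠ i, (c i - c j)`;
* `QP`: the product over the pairs of particles; `JJ`: the integral of `k` particles;
* `JJ_succ`: one particle on the nodes;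
* **`JJ_eq`**: `JJ k = k! * ∑ S, wt S` over the sets of `k` nodes.
-/

set_option autoImplicit false

noncomputable section

open Finset MeasureTheory

namespace Pool.Agent.PHD

variable {Ξ : Type*} [MeasurableSpace Ξ]

/-- a closed contour -/
structure Ctr (μ : Measure Ξ) (γ κ : Ξ → ℂ) (U Ω : Set ℂ) : Prop where
  fin : IsFiniteMeasure μ
  mγ : Measurable γ
  mκ : Measurable κ
  bκ : ∃ C : ℝ, ∀ x, ‖κ x‖ ≤ C
  oU : IsOpen U
  oΩ : IsOpen Ω
  sub : Ω ⊆ U
  ne : Ω.Nonempty
  cpt : ∃ G : Set ℂ, IsCompact G ∧ G ⊆ U ∧ Disjoint G Ω ∧ ∀ x, γ x ∈ G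
  cf : ∀ F : ℂ → ℂ, DifferentiableOn ℂ F U → ∀ c ∈ Ω, ∫ x, κ x * (F (γ x) / (γ x - c)) ∂μ = F c

/-- product over the pairs of particles -/
def QP (q : ℂ → ℂ) {k : ℕ} (v : Fin k → ℂ) : ℂ := ∏ a, ∏ b ∈ Ioi a, q (v a - v b)

theorem QP_succ (q : ℂ → ℂ) {k : ℕ} (v : Fin (k + 1) → ℂ) :
    QP q v = (∏ b : Fin k, q (v 0 - v b.succ)) * QP q fun b => v b.succ := by
  unfold QP
  rw [Fin.prod_univ_succ, Fin.prod_Ioi_zero]
  congr 1
  exact prod_congr rfl fun a _ => Fin.prod_Ioi_succ _ a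

/-- one particle -/
def one {ι : Type*} [Fintype ι] (γ κ : Ξ → ℂ) (f : ℂ → ℂ) (c : ι → ℂ) (x : Ξ) : ℂ :=
  κ x * (f (γ x) / ∏ i, (γ x - c i))

/-- the integral of `k` particles -/
def JJ {ι : Type*} [Fintype ι] (μ : Measure Ξ) (γ κ : Ξ → ℂ) (f q : ℂ → ℂ) (c : ι → ℂ) (k : ℕ) : ℂ :=
  ∫ x : Fin k → Ξ, (∏ a, one γ κ f c (x a)) * QP q (fun a => γ (x a)) ∂(Measure.pi fun _ => μ)

/-- a pair function on the differences of `U` -/
structure Pf (q : ℂ → ℂ) (U V : Set ℂ) : Prop where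
  oV : IsOpen V
  dif : ∀ z ∈ U, ∀ w ∈ U, z - w ∈ V
  an : DifferentiableOn ℂ q V
  even : ∀ z, q (-z) = q z

namespace Ctr

variable {μ : Measure Ξ} {γ κ : Ξ → ℂ} {U Ω : Set ℂ} (h : Ctr μ γ κ U Ω)
include h

theorem mem (x : Ξ) : γ x ∈ U := by
  obtain ⟨G, _, h1, _, h2⟩ := h.cpt
  exact h1 (h2 x)

/-- the nodes are not on the contour -/
theorem ne_node {c : ℂ} (hc : c ∈ Ω) (x : Ξ) : γ x - c ≠ 0 := by
  obtain ⟨G, _, _, h1, h2⟩ := h.cpt
  intro e
  rw [sub_eq_zero] at e
  exact Set.disjoint_left.1 h1 (h2 x) (e ▸ hc)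

/-- Cauchy -/
theorem cauchy {F : ℂ → ℂ} (hF : DifferentiableOn ℂ F U) : ∫ x, κ x * F (γ x) ∂μ = 0 := by
  obtain ⟨c, hc⟩ := h.ne
  have h1 := h.cf (fun z => F z * (z - c)) (hF.mul (by fun_prop)) c hc
  simp only [sub_self, mul_zero] at h1
  rw [← h1]
  refine integral_congr_ae (Filter.Eventually.of_forall fun x => ?_)
  have := h.ne_node hc x
  simp only
  field_simp

omit h in
/-- partial fractions -/
theorem part {ι : Type*} [Fintype ι] [DecidableEq ι] [Nonempty ι] {c : ι → ℂ}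
    (hc : Function.Injective c) {z : ℂ} (hz : ∀ i, z - c i ≠ 0) :
    1 / ∏ i, (z - c i) = ∑ i, (1 / ∏ j ∈ univ.erase i, (c i - c j)) * (1 / (z - c i)) := by
  have h1 := Lagrange.sum_basis (s := (univ : Finset ι)) (v := c) hc.injOn univ_nonempty
  have h2 := congrArg (Polynomial.eval z) h1
  rw [Polynomial.eval_finset_sum, Polynomial.eval_one] at h2
  have h3 : ∀ i, Polynomial.eval z (Lagrange.basis univ c i) = (∏ j, (z - c j)) *
      ((1 / ∏ j ∈ univ.erase i, (c i - c j)) * (1 / (z - c i))) := by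
    intro i
    rw [Lagrange.eval_basis_not_at_node (mem_univ i) (sub_ne_zero.1 (hz i)), Lagrange.eval_nodal]
    congr 1
    unfold Lagrange.nodalWeight
    rw [prod_inv_distrib, one_div, one_div]
  simp only [h3, ← mul_sum] at h2
  have h4 : ∏ j, (z - c j) ≠ 0 := prod_ne_zero_iff.2 fun j _ => hz j
  rw [eq_comm, eq_div_iff h4, mul_comm]
  exact h2

/-- **the residue theorem for simple poles** -/
theorem resid {ι : Type*} [Fintype ι] [DecidableEq ι] {c : ι → ℂ} (hc : Function.Injective c)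
    (hΩ : ∀ i, c i ∈ Ω) {F : ℂ → ℂ} (hF : DifferentiableOn ℂ F U)
    (hi : ∀ i, Integrable (fun x => κ x * (F (γ x) / (γ x - c i))) μ) :
    ∫ x, κ x * (F (γ x) / ∏ i, (γ x - c i)) ∂μ =
      ∑ i, F (c i) / ∏ j ∈ univ.erase i, (c i - c j) := by
  rcases isEmpty_or_nonempty ι with e | e
  · simp only [univ_eq_empty, prod_empty, div_one, sum_empty]
    exact h.cauchy hF
  · have h1 : ∀ x, κ x * (F (γ x) / ∏ i, (γ x - c i)) =
        ∑ i, (1 / ∏ j ∈ univ.erase i, (c i - c j)) * (κ x * (F (γ x) / (γ x - c i))) := by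
      intro x
      rw [div_eq_mul_one_div (F (γ x)), part hc fun i => h.ne_node (hΩ i) x, mul_sum, mul_sum]
      refine sum_congr rfl fun i _ => ?_
      ring
    simp only [h1]
    rw [integral_finset_sum _ fun i _ => (hi i).const_mul _]
    refine sum_congr rfl fun i _ => ?_
    rw [integral_const_mul, h.cf F hF _ (hΩ i)]
    ring

omit h in
/-- measurability -/
theorem meas_cont {α : Type*} [MeasurableSpace α] {E : Type*} [TopologicalSpace E]
    [MeasurableSpace E] [BorelSpace E] {F : E → ℂ} {S : Set E} (hS : IsOpen S)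
    (hF : ContinuousOn F S) {g : α → E} (hg : Measurable g) (hm : ∀ x, g x ∈ S) :
    Measurable fun x => F (g x) := by
  classical
  have h1 : Measurable (S.piecewise F fun _ => 0) :=
    hF.measurable_piecewise continuousOn_const hS.measurableSet
  have e : (fun x => F (g x)) = fun x => (S.piecewise F fun _ => 0) (g x) := by
    funext x
    rw [Set.piecewise_eq_of_mem _ _ _ (hm x)]
  rw [e]
  exact h1.comp hg

/-- the one particle function is measurable -/
theorem meas_one {ι : Type*} [Fintype ι] {c : ι → ℂ} {f : ℂ → ℂ}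
    (hf : DifferentiableOn ℂ f U) : Measurable (one γ κ f c) := by
  unfold one
  refine h.mκ.mul ((meas_cont h.oU hf.continuousOn h.mγ h.mem).div ?_)
  exact Finset.measurable_prod _ fun i _ => h.mγ.sub_const _

/-- the one particle function is bounded -/
theorem bd_one {ι : Type*} [Fintype ι] {c : ι → ℂ} (hΩ : ∀ i, c i ∈ Ω) {f : ℂ → ℂ}
    (hf : DifferentiableOn ℂ f U) : ∃ C : ℝ, 0 ≤ C ∧ ∀ x, ‖one γ κ f c x‖ ≤ C := by
  obtain ⟨G, h1, h2, h3, h4⟩ := h.cpt
  obtain ⟨C0, h0⟩ := h.bκ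
  have hc : ContinuousOn (fun z => f z / ∏ i, (z - c i)) G := by
    refine (hf.continuousOn.mono h2).div (by fun_prop) fun z hz => ?_
    refine prod_ne_zero_iff.2 fun i _ e => ?_
    rw [sub_eq_zero] at e
    exact Set.disjoint_left.1 h3 hz (e ▸ hΩ i)
  obtain ⟨C1, h5⟩ := h1.exists_bound_of_continuousOn hc
  refine ⟨|C0| * |C1|, by positivity, fun x => ?_⟩
  unfold one
  rw [norm_mul]
  exact mul_le_mul ((h0 x).trans (le_abs_self _)) ((h5 _ (h4 x)).trans (le_abs_self _))
    (norm_nonneg _) (abs_nonneg _)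

/-- the pair function on the contour -/
theorem bd_q {q : ℂ → ℂ} {V : Set ℂ} (hq : Pf q U V) :
    ∃ C : ℝ, 0 ≤ C ∧ ∀ x y, ‖q (γ x - γ y)‖ ≤ C := by
  obtain ⟨G, h1, h2, h3, h4⟩ := h.cpt
  have hc : ContinuousOn (fun p : ℂ × ℂ => q (p.1 - p.2)) (G ×ˢ G) := by
    refine hq.an.continuousOn.comp (by fun_prop) ?_
    rintro ⟨z, w⟩ hz
    exact hq.dif z (h2 hz.1) w (h2 hz.2)
  obtain ⟨C1, h5⟩ := (h1.prod h1).exists_bound_of_continuousOn hc
  refine ⟨|C1|, abs_nonneg _, fun x y => (h5 (γ x, γ y) ⟨h4 x, h4 y⟩).trans (le_abs_self _)⟩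

theorem meas_q {q : ℂ → ℂ} {V : Set ℂ} (hq : Pf q U V) {α : Type*} [MeasurableSpace α]
    {a b : α → Ξ} (ha : Measurable a) (hb : Measurable b) :
    Measurable fun x => q (γ (a x) - γ (b x)) :=
  meas_cont hq.oV hq.an.continuousOn ((h.mγ.comp ha).sub (h.mγ.comp hb))
    fun x => hq.dif _ (h.mem _) _ (h.mem _)

theorem meas_QP {q : ℂ → ℂ} {V : Set ℂ} (hq : Pf q U V) {k : ℕ} :
    Measurable fun x : Fin k → Ξ => QP q fun a => γ (x a) := by
  unfold QP
  exact Finset.measurable_prod _ fun a _ => Finset.measurable_prod _ fun b _ =>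
    h.meas_q hq (measurable_pi_apply a) (measurable_pi_apply b)

theorem bd_QP {q : ℂ → ℂ} {V : Set ℂ} (hq : Pf q U V) (k : ℕ) :
    ∃ C : ℝ, 0 ≤ C ∧ ∀ x : Fin k → Ξ, ‖QP q fun a => γ (x a)‖ ≤ C := by
  obtain ⟨C, h0, h1⟩ := h.bd_q hq
  refine ⟨∏ a : Fin k, ∏ _b ∈ Ioi a, C, by positivity, fun x => ?_⟩
  unfold QP
  rw [norm_prod]
  refine prod_le_prod (fun _ _ => norm_nonneg _) fun a _ => ?_
  rw [norm_prod]
  exact prod_le_prod (fun _ _ => norm_nonneg _) fun b _ => h1 _ _

/-- the integrand of `k` particles is integrable -/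
theorem int_JJ {ι : Type*} [Fintype ι] {c : ι → ℂ} (hΩ : ∀ i, c i ∈ Ω) {f q : ℂ → ℂ} {V : Set ℂ}
    (hf : DifferentiableOn ℂ f U) (hq : Pf q U V) (k : ℕ) :
    Integrable (fun x : Fin k → Ξ => (∏ a, one γ κ f c (x a)) * QP q fun a => γ (x a))
      (Measure.pi fun _ => μ) := by
  haveI := h.fin
  obtain ⟨C, h0, h1⟩ := h.bd_one hΩ hf
  obtain ⟨C', h0', h1'⟩ := h.bd_QP hq k
  refine Integrable.of_bound (C := (∏ _a : Fin k, C) * C') ?_ ?_
  · exact ((Finset.measurable_prod _ fun a _ => (h.meas_one hf).comp (measurable_pi_apply a)).mul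
      (h.meas_QP hq)).aestronglyMeasurable
  · refine Filter.Eventually.of_forall fun x => ?_
    rw [norm_mul, norm_prod]
    exact mul_le_mul (prod_le_prod (fun _ _ => norm_nonneg _) fun a _ => h1 _) (h1' x)
      (norm_nonneg _) (by positivity)

/-- **one particle on the nodes** -/
theorem JJ_succ {ι : Type*} [Fintype ι] [DecidableEq ι] {c : ι → ℂ} (hc : Function.Injective c)
    (hΩ : ∀ i, c i ∈ Ω) {f q : ℂ → ℂ} {V : Set ℂ}
    (hf : DifferentiableOn ℂ f U) (hq : Pf q U V) (k : ℕ) :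
    JJ μ γ κ f q c (k + 1) = ∑ i, (f (c i) / ∏ j ∈ univ.erase i, (c i - c j)) *
      JJ μ γ κ (fun z => f z * q (c i - z)) q c k := by
  haveI := h.fin
  have hU : ∀ i, c i ∈ U := fun i => h.sub (hΩ i)
  have hqU : ∀ w ∈ U, DifferentiableOn ℂ (fun z => q (z - w)) U := fun w hw =>
    hq.an.comp (by fun_prop) fun z hz => hq.dif z hz w hw
  have hqU' : ∀ w ∈ U, DifferentiableOn ℂ (fun z => q (w - z)) U := fun w hw =>
    hq.an.comp (by fun_prop) fun z hz => hq.dif w hw z hz
  set g : Ξ × (Fin k → Ξ) → ℂ := fun y => (one γ κ f c y.1 * ∏ b, q (γ y.1 - γ (y.2 b))) *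
    ((∏ a, one γ κ f c (y.2 a)) * QP q fun a => γ (y.2 a)) with hg
  have e1 : JJ μ γ κ f q c (k + 1) = ∫ y, g y ∂(μ.prod (Measure.pi fun _ : Fin k => μ)) := by
    have := (measurePreserving_piFinSuccAbove (fun _ : Fin (k + 1) => μ) 0).integral_comp' g
    rw [← this]
    unfold JJ
    refine integral_congr_ae (Filter.Eventually.of_forall fun x => ?_)
    simp only [hg]
    rw [Fin.prod_univ_succ, QP_succ]
    have e : MeasurableEquiv.piFinSuccAbove (fun _ : Fin (k + 1) => Ξ) 0 x =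
        (x 0, fun b => x b.succ) := rfl
    rw [e]
    ring
  have hi : Integrable g (μ.prod (Measure.pi fun _ : Fin k => μ)) := by
    obtain ⟨C1, p1, h1⟩ := h.bd_one hΩ hf
    obtain ⟨C2, p2, h2⟩ := h.bd_q hq
    obtain ⟨C3, p3, h3⟩ := h.bd_QP hq k
    refine Integrable.of_bound (C := (C1 * ∏ _b : Fin k, C2) * ((∏ _a : Fin k, C1) * C3)) ?_ ?_
    · refine Measurable.aestronglyMeasurable ?_
      refine ((((h.meas_one hf).comp measurable_fst).mul
        (Finset.measurable_prod _ fun b _ => ?_)).mul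
        ((Finset.measurable_prod _ fun a _ => ?_).mul ?_))
      · exact h.meas_q hq measurable_fst ((measurable_pi_apply b).comp measurable_snd)
      · exact (h.meas_one hf).comp ((measurable_pi_apply a).comp measurable_snd)
      · exact (h.meas_QP hq).comp measurable_snd
    · refine Filter.Eventually.of_forall fun y => ?_
      simp only [hg]
      rw [norm_mul, norm_mul, norm_mul, norm_prod, norm_prod]
      refine mul_le_mul (mul_le_mul (h1 _) (prod_le_prod (fun _ _ => norm_nonneg _) fun a _ => h2 _ _)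
        (prod_nonneg fun _ _ => norm_nonneg _) p1) (mul_le_mul
        (prod_le_prod (fun _ _ => norm_nonneg _) fun a _ => h1 _) (h3 _) (norm_nonneg _)
        (by positivity)) (by positivity) (by positivity)
  have e2 : ∀ y : Fin k → Ξ, ∫ x, g (x, y) ∂μ = ∑ i, (f (c i) / ∏ j ∈ univ.erase i, (c i - c j)) *
      ((∏ a, one γ κ (fun z => f z * q (c i - z)) c (y a)) * QP q fun a => γ (y a)) := by
    intro y
    have hF : DifferentiableOn ℂ (fun z => f z * ∏ b, q (z - γ (y b))) U :=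
      hf.mul (DifferentiableOn.fun_finset_prod fun b _ => hqU _ (h.mem _))
    have hF1 : ∀ i, Integrable (fun x => κ x *
        ((f (γ x) * ∏ b, q (γ x - γ (y b))) / (γ x - c i))) μ := by
      intro i
      have hm := h.meas_one (c := fun _ : Unit => c i) hF
      obtain ⟨C, _, hC⟩ := h.bd_one (c := fun _ : Unit => c i) (fun _ => hΩ i) hF
      refine (Integrable.of_bound (C := C) hm.aestronglyMeasurable
        (Filter.Eventually.of_forall hC)).congr (Filter.Eventually.of_forall fun x => ?_)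
      unfold one
      simp
    have key := h.resid hc hΩ hF hF1
    have e3 : ∀ x, g (x, y) = (κ x * ((f (γ x) * ∏ b, q (γ x - γ (y b))) / ∏ i, (γ x - c i))) *
        ((∏ a, one γ κ f c (y a)) * QP q fun a => γ (y a)) := by
      intro x
      simp only [hg]
      unfold one
      ring
    simp only [e3]
    rw [integral_mul_const, key, sum_mul]
    refine sum_congr rfl fun i _ => ?_
    have e4 : ∏ a, one γ κ (fun z => f z * q (c i - z)) c (y a) =
        (∏ b, q (c i - γ (y b))) * ∏ a, one γ κ f c (y a) := by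
      rw [← prod_mul_distrib]
      refine prod_congr rfl fun a _ => ?_
      unfold one
      ring
    rw [e4]
    ring
  rw [e1, integral_prod_symm _ hi]
  simp only [e2]
  rw [integral_finset_sum]
  · refine sum_congr rfl fun i _ => ?_
    rw [integral_const_mul]
    rfl
  · intro i _
    exact (h.int_JJ hΩ (hf.mul (hqU' _ (hU i))) hq k).const_mul _

end Ctr

end Pool.Agent.PHD

end
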