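import Pool.Agent.PHD.Ener
import Pool.Agent.PHD.Hol

/-!
# Particle-hole duality for two species

Particles of both species on bounded contours = holes of both species on unbounded contours
(+ glued holes).

* `gN`: the holes in the field of the nodes of the other species; `hX`: and of its glued holes;
* **`JJ2_sea`**; `int_sea`: the integrand of the holes is integrable.
-/

set_option autoImplicit false
set_option linter.unusedVariables false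
set_option linter.unusedSectionVars false
set_option linter.style.haveILetI false

noncomputable section

open Finset MeasureTheory Filter Topology

namespace Pool.Agent.PHD

/-- the cross pair function: `𝒰` open region, `𝒮` closed region of all the contours -/
structure Gp (g : ℂ → ℂ) (𝒰 𝒮 V : Set ℂ) : Prop where
  oV : IsOpen V
  dif : ∀ z ∈ 𝒰, ∀ ζ ∈ 𝒰, z - ζ ∈ V
  an : DifferentiableOn ℂ g V
  even : ∀ z, g (-z) = g z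
  ne : ∀ z ∈ V, g z ≠ 0
  up : ∃ B : ℝ, 0 ≤ B ∧ ∀ z ∈ 𝒮, ∀ ζ ∈ 𝒮, ‖g (z - ζ)‖ ≤ B * Real.exp (-(2 * |(z - ζ).im|))
  lo : ∃ B : ℝ, 0 ≤ B ∧ ∀ z ∈ 𝒮, ∀ ζ ∈ 𝒮, ‖(g (z - ζ))⁻¹‖ ≤ B * Real.exp (2 * |(z - ζ).im|)

theorem im_sub_le (z ζ : ℂ) : |(z - ζ).im| ≤ |z.im| + |ζ.im| := by
  rw [Complex.sub_im]
  exact abs_sub _ _

theorem im_sub_ge (z ζ : ℂ) : |z.im| - |ζ.im| ≤ |(z - ζ).im| := by
  rw [Complex.sub_im]
  exact abs_sub_abs_le_abs_sub _ _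

namespace Gp

variable {g : ℂ → ℂ} {𝒰 𝒮 V : Set ℂ} (G : Gp g 𝒰 𝒮 V)
include G

/-- both variables in bounded regions -/
theorem x1 {U U₂ S S₂ : Set ℂ} (hU : U ⊆ 𝒰) (hU₂ : U₂ ⊆ 𝒰) (hS : S ⊆ 𝒮) (hS₂ : S₂ ⊆ 𝒮) :
    Xf g U U₂ S S₂ V (fun _ => 1) fun _ => 1 where
  oV := G.oV
  dif z hz ζ hζ := G.dif z (hU hz) ζ (hU₂ hζ)
  an := G.an
  ne := G.ne
  ψ1 _ := zero_le_one
  ψ2 _ := zero_le_one
  bd := by
    obtain ⟨B, b0, hB⟩ := G.up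
    refine ⟨B, b0, fun z hz ζ hζ => (hB z (hS hz) ζ (hS₂ hζ)).trans ?_⟩
    refine mul_le_mul_of_nonneg_left ?_ b0
    rw [one_mul]
    exact Real.exp_le_one_iff.2 (by have := abs_nonneg (z - ζ).im; linarith)

/-- the inverse, second variable bounded -/
theorem x2 {U U₂ S S₂ : Set ℂ} (hU : U ⊆ 𝒰) (hU₂ : U₂ ⊆ 𝒰) (hS : S ⊆ 𝒮) (hS₂ : S₂ ⊆ 𝒮) {R : ℝ}
    (hR : ∀ ζ ∈ S₂, |ζ.im| ≤ R) :
    Xf (fun z => (g z)⁻¹) U U₂ S S₂ V (fun z => Real.exp (2 * |z.im|)) fun _ => 1 where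
  oV := G.oV
  dif z hz ζ hζ := G.dif z (hU hz) ζ (hU₂ hζ)
  an := G.an.inv G.ne
  ne z hz := inv_ne_zero (G.ne z hz)
  ψ1 _ := (Real.exp_pos _).le
  ψ2 _ := zero_le_one
  bd := by
    obtain ⟨B, b0, hB⟩ := G.lo
    refine ⟨B * Real.exp (2 * R), by positivity, fun z hz ζ hζ =>
      (hB z (hS hz) ζ (hS₂ hζ)).trans ?_⟩
    rw [mul_assoc, mul_one, ← Real.exp_add]
    refine mul_le_mul_of_nonneg_left (Real.exp_le_exp.2 ?_) b0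
    have := im_sub_le z ζ
    have := hR ζ hζ
    linarith

/-- the inverse, first variable bounded -/
theorem x2' {U U₂ S S₂ : Set ℂ} (hU : U ⊆ 𝒰) (hU₂ : U₂ ⊆ 𝒰) (hS : S ⊆ 𝒮) (hS₂ : S₂ ⊆ 𝒮) {R : ℝ}
    (hR : ∀ ζ ∈ S, |ζ.im| ≤ R) :
    Xf (fun z => (g z)⁻¹) U U₂ S S₂ V (fun _ => 1) fun z => Real.exp (2 * |z.im|) where
  oV := G.oV
  dif z hz ζ hζ := G.dif z (hU hz) ζ (hU₂ hζ)
  an := G.an.inv G.ne
  ne z hz := inv_ne_zero (G.ne z hz)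
  ψ1 _ := zero_le_one
  ψ2 _ := (Real.exp_pos _).le
  bd := by
    obtain ⟨B, b0, hB⟩ := G.lo
    refine ⟨B * Real.exp (2 * R), by positivity, fun z hz ζ hζ =>
      (hB z (hS hz) ζ (hS₂ hζ)).trans ?_⟩
    rw [mul_assoc, one_mul, ← Real.exp_add]
    refine mul_le_mul_of_nonneg_left (Real.exp_le_exp.2 ?_) b0
    have := im_sub_le z ζ
    have := hR z hz
    linarith

/-- both variables unbounded, decay in the first one -/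
theorem x3 {U U₂ S S₂ : Set ℂ} (hU : U ⊆ 𝒰) (hU₂ : U₂ ⊆ 𝒰) (hS : S ⊆ 𝒮) (hS₂ : S₂ ⊆ 𝒮) :
    Xf g U U₂ S S₂ V (fun z => Real.exp (-(2 * |z.im|))) fun z => Real.exp (2 * |z.im|) where
  oV := G.oV
  dif z hz ζ hζ := G.dif z (hU hz) ζ (hU₂ hζ)
  an := G.an
  ne := G.ne
  ψ1 _ := (Real.exp_pos _).le
  ψ2 _ := (Real.exp_pos _).le
  bd := by
    obtain ⟨B, b0, hB⟩ := G.up
    refine ⟨B, b0, fun z hz ζ hζ => (hB z (hS hz) ζ (hS₂ hζ)).trans ?_⟩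
    rw [← Real.exp_add]
    refine mul_le_mul_of_nonneg_left (Real.exp_le_exp.2 ?_) b0
    have := im_sub_ge z ζ
    linarith

/-- bound in one variable, the other one fixed -/
theorem up1 {c : ℂ} (hc : c ∈ 𝒮) : ∃ B : ℝ, 0 ≤ B ∧ ∀ z ∈ 𝒮,
    ‖g (c - z)‖ ≤ B * Real.exp (-(2 * |z.im|)) := by
  obtain ⟨B, b0, hB⟩ := G.up
  refine ⟨B * Real.exp (2 * |c.im|), by positivity, fun z hz => (hB c hc z hz).trans ?_⟩
  rw [mul_assoc, ← Real.exp_add]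
  refine mul_le_mul_of_nonneg_left (Real.exp_le_exp.2 ?_) b0
  have h1 := im_sub_ge z c
  have h2 : |(c - z).im| = |(z - c).im| := by rw [← neg_sub, Complex.neg_im, abs_neg]
  rw [h2]
  linarith

theorem lo1 {c : ℂ} (hc : c ∈ 𝒮) : ∃ B : ℝ, 0 ≤ B ∧ ∀ z ∈ 𝒮,
    ‖(g (c - z))⁻¹‖ ≤ B * Real.exp (2 * |z.im|) := by
  obtain ⟨B, b0, hB⟩ := G.lo
  refine ⟨B * Real.exp (2 * |c.im|), by positivity, fun z hz => (hB c hc z hz).trans ?_⟩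
  rw [mul_assoc, ← Real.exp_add]
  refine mul_le_mul_of_nonneg_left (Real.exp_le_exp.2 ?_) b0
  have h1 := im_sub_le c z
  linarith

end Gp

/-- products of bounded factors -/
theorem prod_bd {α : Type*} (s : Finset α) {f : α → ℂ → ℂ} {S : Set ℂ} {a : ℝ}
    (h : ∀ i ∈ s, ∃ B : ℝ, 0 ≤ B ∧ ∀ z ∈ S, ‖f i z‖ ≤ B * Real.exp (a * |z.im|)) :
    ∃ B : ℝ, 0 ≤ B ∧ ∀ z ∈ S, ‖∏ i ∈ s, f i z‖ ≤ B * Real.exp (s.card * a * |z.im|) := by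
  classical
  induction s using Finset.induction_on with
  | empty => exact ⟨1, zero_le_one, fun z _ => by simp⟩
  | insert i s hi ih =>
    obtain ⟨B, b0, hB⟩ := h i (mem_insert_self _ _)
    obtain ⟨D, d0, hD⟩ := ih fun j hj => h j (mem_insert_of_mem hj)
    refine ⟨B * D, mul_nonneg b0 d0, fun z hz => ?_⟩
    rw [prod_insert hi, norm_mul, card_insert_of_notMem hi]
    refine (mul_le_mul (hB z hz) (hD z hz) (norm_nonneg _) (by positivity)).trans (le_of_eq ?_)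
    push_cast
    rw [show ((s.card : ℝ) + 1) * a * |z.im| = a * |z.im| + s.card * a * |z.im| by ring,
      Real.exp_add]
    ring

theorem bd_mul {f f' : ℂ → ℂ} {S : Set ℂ} {a b : ℝ}
    (h : ∃ B : ℝ, 0 ≤ B ∧ ∀ z ∈ S, ‖f z‖ ≤ B * Real.exp (a * |z.im|))
    (h' : ∃ B : ℝ, 0 ≤ B ∧ ∀ z ∈ S, ‖f' z‖ ≤ B * Real.exp (b * |z.im|)) :
    ∃ B : ℝ, 0 ≤ B ∧ ∀ z ∈ S, ‖f z * f' z‖ ≤ B * Real.exp ((a + b) * |z.im|) := by
  obtain ⟨B, b0, hB⟩ := h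
  obtain ⟨D, d0, hD⟩ := h'
  refine ⟨B * D, mul_nonneg b0 d0, fun z hz => ?_⟩
  rw [norm_mul]
  refine (mul_le_mul (hB z hz) (hD z hz) (norm_nonneg _) (by positivity)).trans (le_of_eq ?_)
  rw [add_mul, Real.exp_add]
  ring

/-- the holes in the field of the nodes of the other species -/
def gN {ι₂ : Type*} [Fintype ι₂] (G g : ℂ → ℂ) (c₂ : ι₂ → ℂ) (z : ℂ) : ℂ :=
  G z * ∏ i, (g (c₂ i - z))⁻¹

/-- the free holes: field of the nodes `c₂` and of the glued holes `D₂` of the other species, and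
of the glued holes `D` of the own species -/
def hX {ι₂ ν ν₂ : Type*} [Fintype ι₂] (G q g : ℂ → ℂ) (d : ν → ℂ) (D : Finset ν) (c₂ : ι₂ → ℂ)
    (d₂ : ν₂ → ℂ) (D₂ : Finset ν₂) (z : ℂ) : ℂ :=
  fG (gN G g c₂) q d D z * ∏ j ∈ D₂, g (d₂ j - z)

theorem wG_mul {ι ν : Type*} [Fintype ι] [LinearOrder ν] [Fintype ν] (G P q : ℂ → ℂ) (c : ι → ℂ)
    (d : ν → ℂ) (D : Finset ν) :
    wG (fun z => G z * P z) q c d D = wG G q c d D * ∏ j ∈ D, P (d j) := by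
  unfold wG
  have : ∀ j, G (d j) * P (d j) / ((∏ i, (d j - c i)) * ∏ j' ∈ univ.erase j, (d j - d j')) =
      G (d j) / ((∏ i, (d j - c i)) * ∏ j' ∈ univ.erase j, (d j - d j')) * P (d j) :=
    fun j => by ring
  simp only [this]
  rw [prod_mul_distrib]
  ring

theorem WW_mul {ι : Type*} [LinearOrder ι] [Fintype ι] (F P r : ℂ → ℂ) (c : ι → ℂ) :
    WW (fun z => F z * P z) r c = WW F r c * ∏ i, P (c i) := by
  unfold WW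
  rw [prod_mul_distrib]
  ring

/-- exponents -/
theorem ex_le {f : ℂ → ℂ} {S : Set ℂ} {a s δ : ℝ}
    (h : ∃ B : ℝ, 0 ≤ B ∧ ∀ z ∈ S, ‖f z‖ ≤ B * Real.exp (a * |z.im|)) {χ : ℂ → ℝ}
    (hχ : ∀ z, χ z = Real.exp (s * |z.im|)) (has : a + s ≤ -δ) :
    ∃ C : ℝ, 0 ≤ C ∧ ∀ z ∈ S, ‖f z‖ * χ z ≤ C * Real.exp (-(δ * |z.im|)) := by
  obtain ⟨B, b0, hB⟩ := h
  refine ⟨B, b0, fun z hz => ?_⟩
  rw [hχ]
  refine (mul_le_mul_of_nonneg_right (hB z hz) (Real.exp_pos _).le).trans ?_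
  rw [mul_assoc, ← Real.exp_add]
  refine mul_le_mul_of_nonneg_left (Real.exp_le_exp.2 ?_) b0
  have := mul_le_mul_of_nonneg_right has (abs_nonneg z.im)
  linarith

section sea

variable {Ξ Ξ' Ξ₂ Ξ₂' : Type*} [MeasurableSpace Ξ] [MeasurableSpace Ξ'] [MeasurableSpace Ξ₂]
  [MeasurableSpace Ξ₂']
  {μ : Measure Ξ} {γ κ : Ξ → ℂ} {U S Ω V : Set ℂ} {φ w : ℂ → ℝ}
  {μ' : Measure Ξ'} {γ' κ' : Ξ' → ℂ} {U' S' Ω' V' : Set ℂ}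
  {μ₂ : Measure Ξ₂} {γ₂ κ₂ : Ξ₂ → ℂ} {U₂ S₂ Ω₂ V₂ : Set ℂ} {φ₂ w₂ : ℂ → ℝ}
  {μ₂' : Measure Ξ₂'} {γ₂' κ₂' : Ξ₂' → ℂ} {U₂' S₂' Ω₂' V₂' : Set ℂ}
  {ι ν ι₂ ν₂ : Type*} {δ R : ℝ} {q r g : ℂ → ℂ} {𝒰 𝒮 Vg : Set ℂ}

/-- the glued holes, exponents -/
theorem fG_bd {G : ℂ → ℂ} {a : ℝ} (hG : ∃ B : ℝ, 0 ≤ B ∧ ∀ z ∈ S, ‖G z‖ ≤ B * Real.exp (a * |z.im|))
    (hqe : ∃ B : ℝ, 0 ≤ B ∧ ∀ z ∈ 𝒮, ∀ ζ ∈ 𝒮, ‖q (z - ζ)‖ ≤ B * Real.exp (2 * |(z - ζ).im|))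
    (sS : S ⊆ 𝒮) {d : ν → ℂ} (hd : ∀ j, d j ∈ 𝒮) (D : Finset ν) :
    ∃ B : ℝ, 0 ≤ B ∧ ∀ z ∈ S, ‖fG G q d D z‖ ≤ B * Real.exp ((a + D.card * 2) * |z.im|) := by
  unfold fG
  refine bd_mul hG (prod_bd D (f := fun j z => q (z - d j)) fun j _ => ?_)
  obtain ⟨B, b0, hB⟩ := hqe
  refine ⟨B * Real.exp (2 * |(d j).im|), by positivity, fun z hz => (hB z (sS hz) _ (hd j)).trans ?_⟩
  rw [mul_assoc, ← Real.exp_add]
  refine mul_le_mul_of_nonneg_left (Real.exp_le_exp.2 ?_) b0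
  have := im_sub_le z (d j)
  linarith

/-- the field of the other species, exponents -/
theorem fQ_bd [Fintype ι] (hg : Gp g 𝒰 𝒮 Vg) (sS : S ⊆ 𝒮) {c : ι → ℂ} {d : ν → ℂ}
    (hc : ∀ i, c i ∈ 𝒮) (hd : ∀ j, d j ∈ 𝒮) (D : Finset ν) :
    ∃ B : ℝ, 0 ≤ B ∧ ∀ z ∈ S, ‖(∏ i, (g (c i - z))⁻¹) * ∏ j ∈ D, g (d j - z)‖ ≤
      B * Real.exp (((Fintype.card ι : ℝ) * 2 + D.card * (-2)) * |z.im|) := by
  refine bd_mul (f := fun z => ∏ i, (g (c i - z))⁻¹) (f' := fun z => ∏ j ∈ D, g (d j - z)) ?_ ?_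
  · refine prod_bd univ (f := fun i z => (g (c i - z))⁻¹) fun i _ => ?_
    obtain ⟨B, b0, hB⟩ := hg.lo1 (hc i)
    exact ⟨B, b0, fun z hz => hB z (sS hz)⟩
  · refine prod_bd D (f := fun j z => g (d j - z)) fun j _ => ?_
    obtain ⟨B, b0, hB⟩ := hg.up1 (hd j)
    refine ⟨B, b0, fun z hz => (hB z (sS hz)).trans (le_of_eq ?_)⟩
    rw [neg_mul]

/-- the field of the other species on a bounded contour -/
theorem fX_bd [Fintype ι] (hg : Gp g 𝒰 𝒮 Vg) (sS : S ⊆ 𝒮) {c : ι → ℂ} {d : ν → ℂ}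
    (hc : ∀ i, c i ∈ 𝒮) (hd : ∀ j, d j ∈ 𝒮) (hR : ∀ z ∈ S, |z.im| ≤ R) (D : Finset ν) :
    ∃ B : ℝ, 0 ≤ B ∧ ∀ z ∈ S, ‖fX g c d D z‖ ≤ B := by
  have h1 : ∃ B : ℝ, 0 ≤ B ∧ ∀ z ∈ S, ‖fX g c d D z‖ ≤
      B * Real.exp (((Fintype.card ι : ℝ) * (-2) + D.card * 2) * |z.im|) := by
    unfold fX
    refine bd_mul (f := fun z => ∏ i, g (c i - z)) (f' := fun z => ∏ j ∈ D, (g (d j - z))⁻¹) ?_ ?_
    · refine prod_bd univ (f := fun i z => g (c i - z)) fun i _ => ?_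
      obtain ⟨B, b0, hB⟩ := hg.up1 (hc i)
      refine ⟨B, b0, fun z hz => (hB z (sS hz)).trans (le_of_eq ?_)⟩
      rw [neg_mul]
    · refine prod_bd D (f := fun j z => (g (d j - z))⁻¹) fun j _ => ?_
      obtain ⟨B, b0, hB⟩ := hg.lo1 (hd j)
      exact ⟨B, b0, fun z hz => hB z (sS hz)⟩
  obtain ⟨B, b0, hB⟩ := h1
  refine ⟨B * Real.exp (D.card * 2 * R), by positivity, fun z hz => (hB z hz).trans ?_⟩
  refine mul_le_mul_of_nonneg_left (Real.exp_le_exp.2 ?_) b0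
  have h2 := abs_nonneg z.im
  have h3 : (0:ℝ) ≤ (Fintype.card ι : ℝ) * 2 * |z.im| := by positivity
  have h4 := mul_le_mul_of_nonneg_left (hR z hz) (show (0:ℝ) ≤ D.card * 2 by positivity)
  linarith

/-- both species on bounded contours -/
theorem int_11 [Fintype ι] [Fintype ι₂] (h : Cg μ γ κ U S Ω φ w) (h₂ : Cg μ₂ γ₂ κ₂ U₂ S₂ Ω₂ φ₂ w₂)
    (hq : Pq q U S V φ) (hq₂ : Pq q U₂ S₂ V₂ φ₂)
    (hg : Gp g 𝒰 𝒮 Vg) (sU : U ⊆ 𝒰) (sU₂ : U₂ ⊆ 𝒰) (sS : S ⊆ 𝒮) (sS₂ : S₂ ⊆ 𝒮) {k k₂ : ℕ}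
    {f f₂ : ℂ → ℂ} (hf : Adm U S φ w (k - 1) f) (hf₂ : Adm U₂ S₂ φ₂ w₂ (k₂ - 1) f₂)
    {c : ι → ℂ} {c₂ : ι₂ → ℂ} (hc : ∀ i, c i ∈ Ω) (hc₂ : ∀ i, c₂ i ∈ Ω₂) :
    Integrable (fun p : (Fin k → Ξ) × (Fin k₂ → Ξ₂) => I2 γ κ γ₂ κ₂ f f₂ q g c c₂ p)
      ((Measure.pi fun _ => μ).prod (Measure.pi fun _ => μ₂)) := by
  refine int_JJ2 h h₂ hq hq₂ (hg.x1 sU sU₂ sS sS₂) hf.1.continuousOn hf₂.1.continuousOn ?_ ?_
  · refine h.BJ_of hc hq (fun _ => zero_le_one) ?_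
    obtain ⟨C, a, b⟩ := hf.2
    exact ⟨C, a, fun z hz => by simpa using b z hz⟩
  · refine h₂.BJ_of hc₂ hq₂ (fun _ => zero_le_one) ?_
    obtain ⟨C, a, b⟩ := hf₂.2
    exact ⟨C, a, fun z hz => by simpa using b z hz⟩

/-- holes of one species (unbounded), particles of the other one (bounded) -/
theorem int_21 [Fintype ι] [Fintype ι₂]
    (h' : Cg μ' γ' κ' U' S' Ω' (fun z => Real.exp (2 * |z.im|)) (fun z => Real.exp (-(δ * |z.im|))))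
    (h₂ : Cg μ₂ γ₂ κ₂ U₂ S₂ Ω₂ φ₂ w₂)
    (hq' : Pq q U' S' V' (fun z => Real.exp (2 * |z.im|))) (hq₂ : Pq q U₂ S₂ V₂ φ₂)
    (hg : Gp g 𝒰 𝒮 Vg) (sU' : U' ⊆ 𝒰) (sU₂ : U₂ ⊆ 𝒰) (sS' : S' ⊆ 𝒮) (sS₂ : S₂ ⊆ 𝒮)
    (hR : ∀ z ∈ S₂, |z.im| ≤ R) {n k₂ : ℕ} {f f₂ : ℂ → ℂ} (hf : ContinuousOn f U') {a : ℝ}
    (bf : ∃ B : ℝ, 0 ≤ B ∧ ∀ z ∈ S', ‖f z‖ ≤ B * Real.exp (a * |z.im|))
    (ha : a + (2 * ((n - 1 : ℕ) : ℝ) + 2 * k₂) ≤ -δ) (hf₂ : Adm U₂ S₂ φ₂ w₂ (k₂ - 1) f₂)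
    {c : ι → ℂ} {c₂ : ι₂ → ℂ} (hc : ∀ i, c i ∈ Ω') (hc₂ : ∀ i, c₂ i ∈ Ω₂) :
    Integrable (fun p : (Fin n → Ξ') × (Fin k₂ → Ξ₂) =>
      I2 γ' κ' γ₂ κ₂ f f₂ q (fun z => (g z)⁻¹) c c₂ p)
      ((Measure.pi fun _ => μ').prod (Measure.pi fun _ => μ₂)) := by
  refine int_JJ2 h' h₂ hq' hq₂ (hg.x2 sU' sU₂ sS' sS₂ hR) hf hf₂.1.continuousOn ?_ ?_
  · refine h'.BJ_of hc hq' (fun _ => (Real.exp_pos _).le) ?_
    obtain ⟨C, a0, b⟩ := ex_le (χ := fun z => Real.exp (2 * |z.im|) ^ (n - 1) *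
      Real.exp (2 * |z.im|) ^ k₂) bf (fun z => by
        rw [← Real.exp_nat_mul, ← Real.exp_nat_mul, ← Real.exp_add]
        congr 1
        rw [show (2 * ((n - 1 : ℕ) : ℝ) + 2 * k₂) * |z.im| =
          ((n - 1 : ℕ) : ℝ) * (2 * |z.im|) + k₂ * (2 * |z.im|) by ring]) ha
    exact ⟨C, a0, fun z hz => by rw [mul_assoc]; exact b z hz⟩
  · refine h₂.BJ_of hc₂ hq₂ (fun _ => zero_le_one) ?_
    obtain ⟨C, a0, b⟩ := hf₂.2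
    exact ⟨C, a0, fun z hz => by simpa using b z hz⟩

theorem gN_an [Fintype ι₂] (hg : Gp g 𝒰 𝒮 Vg) (sU : U ⊆ 𝒰) {G : ℂ → ℂ} (hG : ContinuousOn G U)
    {c₂ : ι₂ → ℂ} (hc₂ : ∀ i, c₂ i ∈ 𝒰) : ContinuousOn (gN G g c₂) U := by
  unfold gN
  refine hG.mul (continuousOn_finsetProd _ fun i _ => ?_)
  exact (hg.an.inv hg.ne).continuousOn.comp (f := fun z => c₂ i - z) (by fun_prop)
    fun z hz => hg.dif _ (hc₂ i) z (sU hz)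

theorem hX_cont [Fintype ι₂] (hg : Gp g 𝒰 𝒮 Vg) (sU : U ⊆ 𝒰) (hq : Pq q U S V φ) {G : ℂ → ℂ}
    (hG : ContinuousOn G U) {d : ν → ℂ} (hd : ∀ j, d j ∈ U) (D : Finset ν) {c₂ : ι₂ → ℂ}
    (hc₂ : ∀ i, c₂ i ∈ 𝒰) {d₂ : ν₂ → ℂ} (hd₂ : ∀ j, d₂ j ∈ 𝒰) (D₂ : Finset ν₂) :
    ContinuousOn (hX G q g d D c₂ d₂ D₂) U := by
  unfold hX fG
  refine ((gN_an hg sU hG hc₂).mul (continuousOn_finsetProd _ fun j _ => ?_)).mul
    (continuousOn_finsetProd _ fun j _ => ?_)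
  · exact hq.an.continuousOn.comp (by fun_prop) fun z hz => hq.dif z hz _ (hd j)
  · exact hg.an.continuousOn.comp (f := fun z => d₂ j - z) (by fun_prop)
      fun z hz => hg.dif _ (hd₂ j) z (sU hz)

/-- exponents of the free holes -/
theorem hX_bd [Fintype ι₂] (hg : Gp g 𝒰 𝒮 Vg) (sS : S ⊆ 𝒮)
    (hqe : ∃ B : ℝ, 0 ≤ B ∧ ∀ z ∈ 𝒮, ∀ ζ ∈ 𝒮, ‖q (z - ζ)‖ ≤ B * Real.exp (2 * |(z - ζ).im|))
    {G : ℂ → ℂ} {a : ℝ} (hG : ∃ B : ℝ, 0 ≤ B ∧ ∀ z ∈ S, ‖G z‖ ≤ B * Real.exp (a * |z.im|))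
    {d : ν → ℂ} (hd : ∀ j, d j ∈ 𝒮) (D : Finset ν) {c₂ : ι₂ → ℂ} (hc₂ : ∀ i, c₂ i ∈ 𝒮)
    {d₂ : ν₂ → ℂ} (hd₂ : ∀ j, d₂ j ∈ 𝒮) (D₂ : Finset ν₂) :
    ∃ B : ℝ, 0 ≤ B ∧ ∀ z ∈ S, ‖hX G q g d D c₂ d₂ D₂ z‖ ≤ B * Real.exp
      ((a + D.card * 2 + ((Fintype.card ι₂ : ℝ) * 2 + D₂.card * (-2))) * |z.im|) := by
  have h1 := bd_mul (fG_bd hG hqe sS hd D) (fQ_bd hg sS hc₂ hd₂ D₂)
  obtain ⟨B, b0, hB⟩ := h1
  refine ⟨B, b0, fun z hz => ?_⟩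
  have e : hX G q g d D c₂ d₂ D₂ z = fG G q d D z *
      ((∏ i, (g (c₂ i - z))⁻¹) * ∏ j ∈ D₂, g (d₂ j - z)) := by
    unfold hX gN fG
    ring
  rw [e]
  exact hB z hz

/-- **the integrand of the holes of both species is integrable** -/
theorem int_sea [Fintype ι] [Fintype ν] [Fintype ι₂] [Fintype ν₂]
    (h' : Cg μ' γ' κ' U' S' Ω' (fun z => Real.exp (2 * |z.im|)) (fun z => Real.exp (-(δ * |z.im|))))
    (h₂' : Cg μ₂' γ₂' κ₂' U₂' S₂' Ω₂' (fun z => Real.exp (2 * |z.im|))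
      (fun z => Real.exp (-(δ * |z.im|))))
    (hq' : Pq q U' S' V' (fun z => Real.exp (2 * |z.im|)))
    (hq₂' : Pq q U₂' S₂' V₂' (fun z => Real.exp (2 * |z.im|)))
    (hg : Gp g 𝒰 𝒮 Vg) (sU' : U' ⊆ 𝒰) (sU₂' : U₂' ⊆ 𝒰) (sS' : S' ⊆ 𝒮) (sS₂' : S₂' ⊆ 𝒮)
    (hqe : ∃ B : ℝ, 0 ≤ B ∧ ∀ z ∈ 𝒮, ∀ ζ ∈ 𝒮, ‖q (z - ζ)‖ ≤ B * Real.exp (2 * |(z - ζ).im|))
    {k m k₂ m₂ : ℕ} (hk : k + m = Fintype.card ι) (hk₂ : k₂ + m₂ = Fintype.card ι₂)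
    {G G₂ : ℂ → ℂ} {α α₂ : ℝ} (hα : δ + 2 * m + 2 * k₂ ≤ α) (hα₂ : δ + 2 * m₂ + 2 * k ≤ α₂)
    (cG : ContinuousOn G U') (bG : ∃ B : ℝ, 0 ≤ B ∧ ∀ z ∈ S', ‖G z‖ ≤ B * Real.exp (-α * |z.im|))
    (cG₂ : ContinuousOn G₂ U₂')
    (bG₂ : ∃ B : ℝ, 0 ≤ B ∧ ∀ z ∈ S₂', ‖G₂ z‖ ≤ B * Real.exp (-α₂ * |z.im|))
    {d : ν → ℂ} (hdΩ : ∀ j, d j ∈ Ω') {d₂ : ν₂ → ℂ} (hdΩ₂ : ∀ j, d₂ j ∈ Ω₂')
    {c : ι → ℂ} (hc' : ∀ i, c i ∈ Ω') {c₂ : ι₂ → ℂ} (hc₂' : ∀ i, c₂ i ∈ Ω₂')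
    {D : Finset ν} (hD : D.card ≤ m) {D₂ : Finset ν₂} (hD₂ : D₂.card ≤ m₂) :
    Integrable (fun p : (Fin (m - D.card) → Ξ') × (Fin (m₂ - D₂.card) → Ξ₂') =>
      I2 γ' κ' γ₂' κ₂' (hX G q g d D c₂ d₂ D₂) (hX G₂ q g d₂ D₂ c d D) q g
        (Sum.elim c d) (Sum.elim c₂ d₂) p)
      ((Measure.pi fun _ => μ').prod (Measure.pi fun _ => μ₂')) := by
  have mS : ∀ z ∈ Ω', z ∈ 𝒮 := fun z hz => sS' (h'.sub hz)
  have mS₂ : ∀ z ∈ Ω₂', z ∈ 𝒮 := fun z hz => sS₂' (h₂'.sub hz)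
  have mU : ∀ z ∈ Ω', z ∈ U' := fun z hz => h'.sub' (h'.sub hz)
  have mU₂ : ∀ z ∈ Ω₂', z ∈ U₂' := fun z hz => h₂'.sub' (h₂'.sub hz)
  have bX := hX_bd hg sS' hqe bG (fun j => mS _ (hdΩ j)) D (fun i => mS₂ _ (hc₂' i))
    (fun j => mS₂ _ (hdΩ₂ j)) D₂
  have bY := hX_bd hg sS₂' hqe bG₂ (fun j => mS₂ _ (hdΩ₂ j)) D₂ (fun i => mS _ (hc' i))
    (fun j => mS _ (hdΩ j)) D
  have n1 : (Fintype.card ι : ℝ) = k + m := by rw [← hk]; push_cast; ring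
  have n2 : (Fintype.card ι₂ : ℝ) = k₂ + m₂ := by rw [← hk₂]; push_cast; ring
  have n3 : ((m - D.card : ℕ) : ℝ) = m - D.card := by push_cast [hD]; ring
  have n4 : ((m₂ - D₂.card : ℕ) : ℝ) = m₂ - D₂.card := by push_cast [hD₂]; ring
  refine int_neu h' h₂' hq' hq₂' (hg.x3 sU' sU₂' sS' sS₂') ?_ ?_ ?_
    (hX_cont hg sU' hq' cG (fun j => mU _ (hdΩ j)) D (fun i => sU₂' (mU₂ _ (hc₂' i)))
      (fun j => sU₂' (mU₂ _ (hdΩ₂ j))) D₂)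
    (hX_cont hg sU₂' hq₂' cG₂ (fun j => mU₂ _ (hdΩ₂ j)) D₂ (fun i => sU' (mU _ (hc' i)))
      (fun j => sU' (mU _ (hdΩ j))) D) ?_ ?_ ?_ ?_
  · obtain ⟨B, b0, hB⟩ := hqe
    exact ⟨B, b0, fun z hz ζ hζ => hB z (sS' hz) ζ (sS' hζ)⟩
  · obtain ⟨B, b0, hB⟩ := hqe
    exact ⟨B, b0, fun z hz ζ hζ => hB z (sS₂' hz) ζ (sS₂' hζ)⟩
  · obtain ⟨B, b0, hB⟩ := hg.up
    exact ⟨B, b0, fun z hz ζ hζ => hB z (sS' hz) ζ (sS₂' hζ)⟩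
  · rintro (i | j)
    · exact hc' i
    · exact hdΩ j
  · rintro (i | j)
    · exact hc₂' i
    · exact hdΩ₂ j
  · refine ex_le bX (fun z => rfl) ?_
    rw [n2, n3, n4]
    linarith
  · refine ex_le bY (fun z => rfl) ?_
    rw [n1, n3, n4]
    linarith

theorem Gf.fg {G : (ι → ℂ) → ℂ → ℂ} {α : ℝ} {m n : ℕ} (hG : Gf U S Ω (-α) G)
    (ha : -α + (2 * ((m - 1 : ℕ) : ℝ) + 2 * n) ≤ -δ) :
    Fg U S Ω (fun z => Real.exp (2 * |z.im|)) (fun z => Real.exp (-(δ * |z.im|))) m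
      (fun z => Real.exp (2 * |z.im|) ^ n) G where
  an := hG.an
  ct := hG.ct
  bd c0 hc0 := by
    obtain ⟨C, C0, h1⟩ := hG.bd c0 hc0
    refine ⟨C, C0, ?_⟩
    filter_upwards [h1] with c hc z hz
    have h2 := hc z hz
    have e : Real.exp (2 * |z.im|) ^ (m - 1) * Real.exp (2 * |z.im|) ^ n =
        Real.exp ((2 * ((m - 1 : ℕ) : ℝ) + 2 * n) * |z.im|) := by
      rw [← Real.exp_nat_mul, ← Real.exp_nat_mul, ← Real.exp_add]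
      congr 1
      ring
    rw [mul_assoc, e]
    refine (mul_le_mul_of_nonneg_right h2 (Real.exp_pos _).le).trans ?_
    rw [mul_assoc, ← Real.exp_add]
    refine mul_le_mul_of_nonneg_left (Real.exp_le_exp.2 ?_) C0
    have := mul_le_mul_of_nonneg_right ha (abs_nonneg z.im)
    linarith

/-- **particle-hole duality for two species** -/
theorem JJ2_sea [LinearOrder ι] [Fintype ι] [LinearOrder ν] [Fintype ν] [LinearOrder ι₂]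
    [Fintype ι₂] [LinearOrder ν₂] [Fintype ν₂]
    (h : Cg μ γ κ U S Ω φ w)
    (h' : Cg μ' γ' κ' U' S' Ω' (fun z => Real.exp (2 * |z.im|)) (fun z => Real.exp (-(δ * |z.im|))))
    (h₂ : Cg μ₂ γ₂ κ₂ U₂ S₂ Ω₂ φ₂ w₂)
    (h₂' : Cg μ₂' γ₂' κ₂' U₂' S₂' Ω₂' (fun z => Real.exp (2 * |z.im|))
      (fun z => Real.exp (-(δ * |z.im|))))
    (hq : Pq q U S V φ) (hq' : Pq q U' S' V' (fun z => Real.exp (2 * |z.im|)))
    (hq₂ : Pq q U₂ S₂ V₂ φ₂) (hq₂' : Pq q U₂' S₂' V₂' (fun z => Real.exp (2 * |z.im|)))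
    (hr : Rf q r U V) (hr₂ : Rf q r U₂ V₂)
    (hg : Gp g 𝒰 𝒮 Vg) (sU : U ⊆ 𝒰) (sU' : U' ⊆ 𝒰) (sU₂ : U₂ ⊆ 𝒰) (sU₂' : U₂' ⊆ 𝒰)
    (sS : S ⊆ 𝒮) (sS' : S' ⊆ 𝒮) (sS₂ : S₂ ⊆ 𝒮) (sS₂' : S₂' ⊆ 𝒮)
    (hqe : ∃ B : ℝ, 0 ≤ B ∧ ∀ z ∈ 𝒮, ∀ ζ ∈ 𝒮, ‖q (z - ζ)‖ ≤ B * Real.exp (2 * |(z - ζ).im|))
    (hR : ∀ z ∈ S₂, |z.im| ≤ R)
    {k m k₂ m₂ : ℕ} (hk : k + m = Fintype.card ι) (hk₂ : k₂ + m₂ = Fintype.card ι₂)
    {F G : (ι → ℂ) → ℂ → ℂ} {F₂ G₂ : (ι₂ → ℂ) → ℂ → ℂ} {α α₂ : ℝ}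
    (hα : δ + 2 * m + 2 * k₂ ≤ α) (hα₂ : δ + 2 * m₂ + 2 * k ≤ α₂)
    (hF : Fa U S Ω φ w k F) (hG : Gf U' S' Ω' (-α) G)
    (hF₂ : Fa U₂ S₂ Ω₂ φ₂ w₂ k₂ F₂) (hG₂ : Gf U₂' S₂' Ω₂' (-α₂) G₂)
    (h0 : ∀ c : ι → ℂ, (∀ i, c i ∈ Ω) → ∀ i, F c (c i) ≠ 0)
    (h0₂ : ∀ c : ι₂ → ℂ, (∀ i, c i ∈ Ω₂) → ∀ i, F₂ c (c i) ≠ 0)
    {d : ν → ℂ} (hd : Function.Injective d) (hdΩ : ∀ j, d j ∈ Ω')
    {d₂ : ν₂ → ℂ} (hd₂ : Function.Injective d₂) (hdΩ₂ : ∀ j, d₂ j ∈ Ω₂')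
    (he : ∀ c : ι → ℂ, (∀ i, c i ∈ Ω) → (∀ i, c i ∈ Ω') → Function.Injective c →
      (∀ i j, c i ≠ d j) → ∀ i, G c (c i) / ∏ j, (c i - d j) = fH (F c) r c (c i))
    (he₂ : ∀ c : ι₂ → ℂ, (∀ i, c i ∈ Ω₂) → (∀ i, c i ∈ Ω₂') → Function.Injective c →
      (∀ i j, c i ≠ d₂ j) → ∀ i, G₂ c (c i) / ∏ j, (c i - d₂ j) = fH (F₂ c) r c (c i))
    {c : ι → ℂ} (hc : ∀ i, c i ∈ Ω) (hc' : ∀ i, c i ∈ Ω') (hcd : ∀ i j, c i ≠ d j)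
    {c₂ : ι₂ → ℂ} (hc₂ : ∀ i, c₂ i ∈ Ω₂) (hc₂' : ∀ i, c₂ i ∈ Ω₂') (hcd₂ : ∀ i j, c₂ i ≠ d₂ j) :
    JJ2 μ γ κ μ₂ γ₂ κ₂ (F c) (F₂ c₂) q g c c₂ k k₂ / (k.factorial * k₂.factorial) =
      WW (F c) r c * WW (F₂ c₂) r c₂ * (∏ i, ∏ i', g (c i - c₂ i')) *
        ∑ D ∈ (univ : Finset ν).powerset, ∑ D₂ ∈ (univ : Finset ν₂).powerset,
          if D.card ≤ m ∧ D₂.card ≤ m₂ then (-1 : ℂ) ^ (D.card + D₂.card) *
            (wG (gN (G c) g c₂) q c d D * wG (gN (G₂ c₂) g c) q c₂ d₂ D₂ *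
              ∏ j ∈ D, ∏ j' ∈ D₂, g (d j - d₂ j')) *
            (JJ2 μ' γ' κ' μ₂' γ₂' κ₂' (hX (G c) q g d D c₂ d₂ D₂) (hX (G₂ c₂) q g d₂ D₂ c d D) q g
              (Sum.elim c d) (Sum.elim c₂ d₂) (m - D.card) (m₂ - D₂.card) /
              ((m - D.card).factorial * (m₂ - D₂.card).factorial)) else 0 := by
  haveI := h.sf
  haveI := h'.sf
  haveI := h₂.sf
  haveI := h₂'.sf
  have mS : ∀ z ∈ Ω', z ∈ 𝒮 := fun z hz => sS' (h'.sub hz)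
  have mS₂ : ∀ z ∈ Ω₂', z ∈ 𝒮 := fun z hz => sS₂' (h₂'.sub hz)
  have mU : ∀ z ∈ Ω', z ∈ 𝒰 := fun z hz => sU' (h'.sub' (h'.sub hz))
  have mU₂ : ∀ z ∈ Ω₂', z ∈ 𝒰 := fun z hz => sU₂' (h₂'.sub' (h₂'.sub hz))
  have nU₂ : ∀ z ∈ Ω₂, z ∈ 𝒰 := fun z hz => sU₂ (h₂.sub' (h₂.sub hz))
  have cS : ∀ i, c i ∈ 𝒮 := fun i => mS _ (hc' i)
  have cU : ∀ i, c i ∈ 𝒰 := fun i => mU _ (hc' i)
  have dS : ∀ j, d j ∈ 𝒮 := fun j => mS _ (hdΩ j)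
  have dU : ∀ j, d j ∈ 𝒰 := fun j => mU _ (hdΩ j)
  have n1 : (Fintype.card ι : ℝ) = k + m := by rw [← hk]; push_cast; ring
  have n2 : (Fintype.card ι₂ : ℝ) = k₂ + m₂ := by rw [← hk₂]; push_cast; ring
  have n0 : ∀ n : ℕ, ((n - 1 : ℕ) : ℝ) ≤ n := fun n => by exact_mod_cast Nat.sub_le n 1
  have gie : ∀ z, (g (-z))⁻¹ = (g z)⁻¹ := fun z => by rw [hg.even]
  -- bounds
  have bG : ∃ B : ℝ, 0 ≤ B ∧ ∀ z ∈ S', ‖G c z‖ ≤ B * Real.exp (-α * |z.im|) := by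
    obtain ⟨C, C0, hC⟩ := hG.bd c hc'
    exact ⟨C, C0, hC.self_of_nhds⟩
  have bG₂ : ∃ B : ℝ, 0 ≤ B ∧ ∀ z ∈ S₂', ‖G₂ c₂ z‖ ≤ B * Real.exp (-α₂ * |z.im|) := by
    obtain ⟨C, C0, hC⟩ := hG₂.bd c₂ hc₂'
    exact ⟨C, C0, hC.self_of_nhds⟩
  -- the field of the nodes on the bounded contour of the other species
  have Pan : ∀ D : Finset ν, DifferentiableOn ℂ (fX g c d D) U₂ := by
    intro D
    unfold fX
    refine (DifferentiableOn.fun_finsetProd fun i _ => ?_).mul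
      (DifferentiableOn.fun_finsetProd fun j _ => ?_)
    · exact hg.an.comp (by fun_prop) fun z hz => hg.dif _ (cU i) z (sU₂ hz)
    · exact (hg.an.inv hg.ne).comp (f := fun z => d j - z) (by fun_prop)
        fun z hz => hg.dif _ (dU j) z (sU₂ hz)
  have Pne : ∀ (D : Finset ν) (z : ℂ), z ∈ U₂ → fX g c d D z ≠ 0 := by
    intro D z hz
    unfold fX
    refine mul_ne_zero (prod_ne_zero_iff.2 fun i _ => ?_) (prod_ne_zero_iff.2 fun j _ => ?_)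
    · exact hg.ne _ (hg.dif _ (cU i) z (sU₂ hz))
    · exact inv_ne_zero (hg.ne _ (hg.dif _ (dU j) z (sU₂ hz)))
  -- step 1
  have F1 : Fg U S Ω φ w k (fun z => (1 : ℝ) ^ k₂) F := by
    refine ⟨hF.an, hF.ct, fun c0 hc0 => ?_⟩
    simpa using hF.bd c0 hc0
  have G1 : Fg U' S' Ω' (fun z => Real.exp (2 * |z.im|)) (fun z => Real.exp (-(δ * |z.im|))) m
      (fun z => Real.exp (2 * |z.im|) ^ k₂) G := hG.fg (by have := n0 m; linarith)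
  have A2 : Adm U₂ S₂ φ₂ w₂ (k₂ - 1) (F₂ c₂) := hF₂.adm hc₂
  have A2P : ∀ D : Finset ν, Adm U₂ S₂ φ₂ w₂ (k₂ - 1) fun z => F₂ c₂ z * fX g c d D z := by
    intro D
    obtain ⟨a1, C, a2, a3⟩ := A2
    obtain ⟨B, b0, hB⟩ := fX_bd hg sS₂ cS dS hR D
    refine ⟨a1.mul (Pan D), C * B, mul_nonneg a2 b0, fun z hz => ?_⟩
    have p : 0 ≤ φ₂ z := zero_le_one.trans (h₂.φ1 z)
    have := a3 z hz
    have := hB z hz
    have := h₂.w0 z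
    rw [norm_mul]
    calc ‖F₂ c₂ z‖ * ‖fX g c d D z‖ * φ₂ z ^ (k₂ - 1) = (‖F₂ c₂ z‖ * φ₂ z ^ (k₂ - 1)) *
          ‖fX g c d D z‖ := by ring
      _ ≤ (C * w₂ z) * B := by gcongr
      _ = C * B * w₂ z := by ring
  have I21 : ∀ D : Finset ν, D.card ≤ m → Integrable (fun p : (Fin (m - D.card) → Ξ') ×
      (Fin k₂ → Ξ₂) => I2 γ' κ' γ₂ κ₂ (fG (G c) q d D) (fun z => F₂ c₂ z * fX g c d D z) q
        (fun z => (g z)⁻¹) (Sum.elim c d) c₂ p)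
      ((Measure.pi fun _ => μ').prod (Measure.pi fun _ => μ₂)) := by
    intro D hD
    have n3 : ((m - D.card : ℕ) : ℝ) = m - D.card := by push_cast [hD]; ring
    refine int_21 h' h₂ hq' hq₂ hg sU' sU₂ sS' sS₂ hR ?_ (fG_bd bG hqe sS' dS D) ?_ (A2P D) ?_ hc₂
    · unfold fG
      refine (hG.an c hc').continuousOn.mul (continuousOn_finsetProd _ fun j _ => ?_)
      exact hq'.an.continuousOn.comp (by fun_prop)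
        fun z hz => hq'.dif z hz _ (h'.sub' (h'.sub (hdΩ j)))
    · have := n0 (m - D.card)
      rw [n3] at this
      linarith
    · rintro (i | j)
      · exact hc' i
      · exact hdΩ j
  have s1 := JJ2_stepI h h' h₂ hq hq' hr (hg.x1 sU sU₂ sS sS₂) (hg.x2 sU' sU₂ sS' sS₂ hR) hk F1 G1
    h0 hd hdΩ he hc hc' hcd (f₂ := F₂ c₂) (int_11 h h₂ hq hq₂ hg sU sU₂ sS sS₂ (hF.adm hc) A2 hc hc₂)
    I21
  -- step 2
  have s2 : ∀ D : Finset ν, D.card ≤ m →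
      JJ2 μ' γ' κ' μ₂ γ₂ κ₂ (fG (G c) q d D) (fun z => F₂ c₂ z * fX g c d D z) q
        (fun z => (g z)⁻¹) (Sum.elim c d) c₂ (m - D.card) k₂ / k₂.factorial =
      WW (fun z => F₂ c₂ z * fX g c d D z) r c₂ *
        ∑ D₂ ∈ (univ : Finset ν₂).powerset, if D₂.card ≤ m₂ then (-1 : ℂ) ^ D₂.card *
          (wG (fun z => G₂ c₂ z * ((∏ i, (g (c i - z))⁻¹) * ∏ j ∈ D, g (d j - z))) q c₂ d₂ D₂ *
            (JJ2 μ' γ' κ' μ₂' γ₂' κ₂' (hX (G c) q g d D c₂ d₂ D₂) (hX (G₂ c₂) q g d₂ D₂ c d D) q g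
              (Sum.elim c d) (Sum.elim c₂ d₂) (m - D.card) (m₂ - D₂.card) /
              (m₂ - D₂.card).factorial)) else 0 := by
    intro D hD
    have n3 : ((m - D.card : ℕ) : ℝ) = m - D.card := by push_cast [hD]; ring
    set Q : ℂ → ℂ := fun z => (∏ i, (g (c i - z))⁻¹) * ∏ j ∈ D, g (d j - z) with hQ
    have PQ : ∀ z, (fX g c d D z)⁻¹ = Q z := by
      intro z
      unfold fX
      rw [hQ, mul_inv, ← prod_inv_distrib, ← prod_inv_distrib]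
      simp only [inv_inv]
    have Qan : DifferentiableOn ℂ Q U₂' := by
      refine (DifferentiableOn.fun_finsetProd fun i _ => ?_).mul
        (DifferentiableOn.fun_finsetProd fun j _ => ?_)
      · exact (hg.an.inv hg.ne).comp (f := fun z => c i - z) (by fun_prop)
          fun z hz => hg.dif _ (cU i) z (sU₂' hz)
      · exact hg.an.comp (f := fun z => d j - z) (by fun_prop)
          fun z hz => hg.dif _ (dU j) z (sU₂' hz)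
    have F2 : Fg U₂ S₂ Ω₂ φ₂ w₂ k₂ (fun z => (1 : ℝ) ^ (m - D.card))
        fun c₂ z => F₂ c₂ z * fX g c d D z := by
      refine ⟨fun c hc => (hF₂.an c hc).mul (Pan D), hF₂.ct.mul ((Pan D).continuousOn.comp
        (f := fun p : (ι₂ → ℂ) × ℂ => p.2) continuous_snd.continuousOn fun p hp => hp.2),
        fun c0 hc0 => ?_⟩
      obtain ⟨C, a2, a3⟩ := hF₂.bd c0 hc0
      obtain ⟨B, b0, hB⟩ := fX_bd hg sS₂ cS dS hR D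
      refine ⟨C * B, mul_nonneg a2 b0, ?_⟩
      filter_upwards [a3] with c1 a3 z hz
      have p : 0 ≤ φ₂ z := zero_le_one.trans (h₂.φ1 z)
      have := a3 z hz
      have := hB z hz
      have := h₂.w0 z
      rw [norm_mul, one_pow, mul_one]
      calc ‖F₂ c1 z‖ * ‖fX g c d D z‖ * φ₂ z ^ (k₂ - 1) = (‖F₂ c1 z‖ * φ₂ z ^ (k₂ - 1)) *
            ‖fX g c d D z‖ := by ring
        _ ≤ (C * w₂ z) * B := by gcongr
        _ = C * B * w₂ z := by ring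
    have G2 : Fg U₂' S₂' Ω₂' (fun z => Real.exp (2 * |z.im|)) (fun z => Real.exp (-(δ * |z.im|))) m₂
        (fun z => Real.exp (-(2 * |z.im|)) ^ (m - D.card)) fun c₂ z => G₂ c₂ z * Q z := by
      refine ⟨fun c hc => (hG₂.an c hc).mul Qan, hG₂.ct.mul (Qan.continuousOn.comp
        (f := fun p : (ι₂ → ℂ) × ℂ => p.2) continuous_snd.continuousOn fun p hp => hp.2),
        fun c0 hc0 => ?_⟩
      obtain ⟨C, a2, a3⟩ := hG₂.bd c0 hc0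
      obtain ⟨B, b0, hB⟩ := fQ_bd hg sS₂' cS dS D
      refine ⟨C * B, mul_nonneg a2 b0, ?_⟩
      filter_upwards [a3] with c1 a3 z hz
      have a4 := a3 z hz
      have a5 := hB z hz
      have e : Real.exp (2 * |z.im|) ^ (m₂ - 1) * Real.exp (-(2 * |z.im|)) ^ (m - D.card) =
          Real.exp ((2 * ((m₂ - 1 : ℕ) : ℝ) - 2 * (m - D.card)) * |z.im|) := by
        rw [← Real.exp_nat_mul, ← Real.exp_nat_mul, ← Real.exp_add, n3]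
        congr 1
        ring
      rw [norm_mul, mul_assoc, e]
      calc ‖G₂ c1 z‖ * ‖Q z‖ * Real.exp ((2 * ((m₂ - 1 : ℕ) : ℝ) - 2 * (m - D.card)) * |z.im|)
          ≤ (C * Real.exp (-α₂ * |z.im|)) *
            (B * Real.exp (((Fintype.card ι : ℝ) * 2 + D.card * (-2)) * |z.im|)) *
            Real.exp ((2 * ((m₂ - 1 : ℕ) : ℝ) - 2 * (m - D.card)) * |z.im|) := by
            refine mul_le_mul_of_nonneg_right (mul_le_mul a4 a5 (norm_nonneg _) ?_)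
              (Real.exp_pos _).le
            positivity
        _ = C * B * Real.exp ((-α₂ + ((Fintype.card ι : ℝ) * 2 + D.card * (-2)) +
            (2 * ((m₂ - 1 : ℕ) : ℝ) - 2 * (m - D.card))) * |z.im|) := by
            rw [show (-α₂ + ((Fintype.card ι : ℝ) * 2 + D.card * (-2)) +
              (2 * ((m₂ - 1 : ℕ) : ℝ) - 2 * (m - D.card))) * |z.im| = -α₂ * |z.im| +
              ((Fintype.card ι : ℝ) * 2 + D.card * (-2)) * |z.im| +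
              (2 * ((m₂ - 1 : ℕ) : ℝ) - 2 * (m - D.card)) * |z.im| by ring, Real.exp_add,
              Real.exp_add]
            ring
        _ ≤ C * B * Real.exp (-(δ * |z.im|)) := by
            refine mul_le_mul_of_nonneg_left (Real.exp_le_exp.2 ?_) (mul_nonneg a2 b0)
            have h1 := n0 m₂
            have h2 : -α₂ + ((Fintype.card ι : ℝ) * 2 + D.card * (-2)) +
                (2 * ((m₂ - 1 : ℕ) : ℝ) - 2 * (m - D.card)) ≤ -δ := by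
              rw [n1]
              linarith
            have := mul_le_mul_of_nonneg_right h2 (abs_nonneg z.im)
            linarith
    have eY : ∀ D₂ : Finset ν₂, fG (fun z => G₂ c₂ z * Q z) q d₂ D₂ =
        hX (G₂ c₂) q g d₂ D₂ c d D := by
      intro D₂
      funext z
      unfold hX gN fG
      simp only [hQ]
      ring
    have eX : ∀ D₂ : Finset ν₂, (fun z => fG (G c) q d D z * fX (fun z => (g z)⁻¹) c₂ d₂ D₂ z) =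
        hX (G c) q g d D c₂ d₂ D₂ := by
      intro D₂
      funext z
      unfold hX gN fG fX
      simp only [inv_inv]
      ring
    have t := JJ2_stepI h₂ h₂' h' hq₂ hq₂' hr₂ (hg.x2' sU₂ sU' sS₂ sS' hR)
      (Vg' := Vg) (ψ' := fun z => Real.exp (-(2 * |z.im|))) (ψ₂' := fun z => Real.exp (2 * |z.im|))
      (by simpa only [inv_inv] using hg.x3 sU₂' sU' sS₂' sS') hk₂ F2 G2 ?_ hd₂ hdΩ₂ ?_ hc₂ hc₂' hcd₂
      (f₂ := fG (G c) q d D) (I2_swap gie (I21 D hD)) ?_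
    · rw [JJ2_symm γ' κ' γ₂ κ₂ (fG (G c) q d D) (fun z => F₂ c₂ z * fX g c d D z) q gie
        (Sum.elim c d) c₂ (m - D.card) k₂, t]
      congr 1
      refine sum_congr rfl fun D₂ _ => ?_
      simp only [inv_inv, eX, eY]
      rw [JJ2_symm γ' κ' γ₂' κ₂' (hX (G c) q g d D c₂ d₂ D₂) (hX (G₂ c₂) q g d₂ D₂ c d D) q hg.even
        (Sum.elim c d) (Sum.elim c₂ d₂) (m - D.card) (m₂ - D₂.card)]
    · intro c1 hc1 i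
      exact mul_ne_zero (h0₂ c1 hc1 i) (Pne D _ (h₂.sub' (h₂.sub (hc1 i))))
    · intro c1 h1 h2 h3 h4 i
      have e := he₂ c1 h1 h2 h3 h4 i
      unfold fH at e ⊢
      simp only
      rw [mul_div_right_comm, e, ← PQ, div_eq_mul_inv, div_eq_mul_inv, mul_assoc, ← mul_inv]
      congr 2
      ring
    · intro D₂ hD₂
      simp only [inv_inv, eX, eY]
      exact I2_swap hg.even (int_sea h' h₂' hq' hq₂' hg sU' sU₂' sS' sS₂' hqe hk hk₂ hα hα₂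
        (hG.an c hc').continuousOn bG (hG₂.an c₂ hc₂').continuousOn bG₂ hdΩ hdΩ₂ hc' hc₂' hD hD₂)
  -- the constants
  rw [← div_div, s1, mul_div_assoc, sum_div, mul_assoc, mul_assoc]
  congr 1
  rw [mul_sum, mul_sum]
  refine sum_congr rfl fun D _ => ?_
  by_cases hD : D.card ≤ m
  swap
  · simp only [hD, if_false, false_and, sum_const_zero, mul_zero, zero_div]
  have e1 : ∏ i, fX g c d D (c₂ i) = (∏ i, ∏ i', g (c i - c₂ i')) *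
      ∏ j ∈ D, ∏ i, (g (c₂ i - d j))⁻¹ := by
    unfold fX
    rw [prod_mul_distrib, Finset.prod_comm]
    congr 1
    rw [Finset.prod_comm]
    refine prod_congr rfl fun j _ => prod_congr rfl fun i _ => ?_
    rw [← hg.even, neg_sub]
  have e2 : wG (gN (G c) g c₂) q c d D = wG (G c) q c d D * ∏ j ∈ D, ∏ i, (g (c₂ i - d j))⁻¹ :=
    wG_mul (G c) (fun z => ∏ i, (g (c₂ i - z))⁻¹) q c d D
  have e3 : ∀ D₂ : Finset ν₂, wG (fun z => G₂ c₂ z * ((∏ i, (g (c i - z))⁻¹) *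
      ∏ j ∈ D, g (d j - z))) q c₂ d₂ D₂ = wG (gN (G₂ c₂) g c) q c₂ d₂ D₂ *
        ∏ j ∈ D, ∏ j' ∈ D₂, g (d j - d₂ j') := by
    intro D₂
    rw [wG_mul (G₂ c₂), prod_mul_distrib, ← mul_assoc,
      ← wG_mul (G₂ c₂) (fun z => ∏ i, (g (c i - z))⁻¹) q c₂ d₂ D₂]
    rw [Finset.prod_comm (s := D₂) (t := D)]
    rfl
  have e4 := s2 D hD
  rw [WW_mul, e1] at e4
  rw [if_pos hD]
  have e5 : ∀ A B J K L : ℂ, A * (B * (J / K)) / L = A * B / K * (J / L) := fun A B J K L => by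
    ring
  rw [e5, e4, mul_sum, mul_sum, mul_sum, mul_sum]
  refine sum_congr rfl fun D₂ _ => ?_
  by_cases hD₂ : D₂.card ≤ m₂
  · rw [if_pos hD₂, if_pos ⟨hD, hD₂⟩, e3, e2, pow_add]
    ring
  · rw [if_neg hD₂, if_neg (fun hh => hD₂ hh.2)]
    ring

end sea

end Pool.Agent.PHD

end
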