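import Pool.Agent.PHD.SeaL
import Pool.Agent.PHD.HolG
import Pool.Agent.PHD.Dbl

/-!
# Particle-hole duality for two species: the concrete holes, doubled nodes

`sea_lines` with the hole functions `hol G qr` (localiser), the particles analytic only near the rectangle.

* **`sea_hol`**: any nodes (even numbers), zeros `d`, `d₂`; `G` = inverse of the particles without the zeros;
  condition `g + 2 m + 2 k₂ < 2 card ι + 6`, `g` = growth of `G`;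
* `lcn_db`, **`hol_db`**: `hol / ∏ (z - c) = qr 0 * (F / ∏ (z - c))⁻¹ * (∏ q (z - b) ^ 2)⁻¹ * loc b z`;
* **`sea_db`**: doubled nodes, no zeros, the constants spelled out; `int_db`: integrability.
-/

set_option autoImplicit false
set_option linter.unusedVariables false
set_option linter.unusedSectionVars false

noncomputable section

open Finset MeasureTheory Filter Topology

namespace Pool.Agent.PHD

open NUP1 (l)

/-! ### the hole function at doubled nodes -/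

theorem lcn_db {κ : Type*} [Fintype κ] (b : κ → ℂ) (z : ℂ) : lcn (db b) z = PHK.loc b z := by
  unfold lcn PHK.loc
  rw [prod_db b fun w => lt1 (z - w)]
  congr 1
  refine prod_congr rfl fun i _ => ?_
  rw [pow_two, lt1_sq]

/-- **the one body factor of a hole** -/
theorem hol_db {κ : Type*} [Fintype κ] {G : (κ ×ₗ Bool → ℂ) → ℂ → ℂ} {F : ℂ → ℂ} {b : κ → ℂ} {z : ℂ}
    (hG : G (db b) z = (F z)⁻¹) :
    hol G qr (db b) z / ∏ x, (z - db b x) = qr 0 * (F z / ∏ x, (z - db b x))⁻¹ *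
      (∏ i, NUP1.q (z - b i) ^ 2)⁻¹ * PHK.loc b z := by
  have h1 : ∏ i, NUP1.q (z - b i) ^ 2 = (∏ x, (z - db b x)) ^ 2 * ∏ x, qr (z - db b x) := by
    rw [prod_db b fun w => z - w, prod_db b fun w => qr (z - w), ← prod_pow, ← prod_mul_distrib]
    refine prod_congr rfl fun i _ => ?_
    rw [q_qr]
    ring
  unfold hol
  rw [lcn_db, hG, h1]
  by_cases h0 : ∏ x, (z - db b x) = 0
  · rw [h0]
    simp
  by_cases h2 : ∏ x, qr (z - db b x) = 0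
  · rw [h2]
    simp
  by_cases h3 : F z = 0
  · rw [h3]
    simp
  field_simp

section hol

variable {ι ν ι₂ ν₂ : Type*} [LinearOrder ι] [Fintype ι] [LinearOrder ν] [Fintype ν]
  [LinearOrder ι₂] [Fintype ι₂] [LinearOrder ν₂] [Fintype ν₂]
  {a b x y R : ℝ} {xl : Bool → ℝ}

theorem he_hol {F G : (ι → ℂ) → ℂ → ℂ} {c : ι → ℂ} {d : ν → ℂ} (hcd : ∀ i j, c i ≠ d j) {i : ι}
    (h : G c (c i) = (∏ j, (c i - d j)) * (F c (c i))⁻¹) :
    hol G qr c (c i) / ∏ j, (c i - d j) = fH (F c) qr c (c i) := by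
  have h1 : ∏ j, (c i - d j) ≠ 0 := prod_ne_zero_iff.2 fun j _ => sub_ne_zero.2 (hcd i j)
  unfold hol fH
  rw [lcn_node, mul_one, h]
  generalize (∏ j, (c i - d j)) = P at h1
  have e : P * (F c (c i))⁻¹ * (qr 0 / ∏ j, qr (c i - c j)) / P =
      P / P * ((F c (c i))⁻¹ * (qr 0 / ∏ j, qr (c i - c j))) := by ring
  rw [e, div_self h1, one_mul]
  ring

/-- **particle-hole duality for two species with the concrete hole functions** -/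
theorem sea_hol (ha : a < xl false) (hx : xl false ≤ x) (hxy : x < y) (hy : y ≤ xl true)
    (hb : xl true < b) (hab : b - a ≤ l) (hR : 0 < R) {U : Set ℂ} (oU : IsOpen U)
    (hU : PHK.rK x y R ⊆ U) (sU : U ⊆ NUP1.OS a b)
    {k m k₂ m₂ : ℕ} (hk : k + m = Fintype.card ι) (hk₂ : k₂ + m₂ = Fintype.card ι₂)
    (hN : Even (Fintype.card ι)) (hN₂ : Even (Fintype.card ι₂))
    {F G : (ι → ℂ) → ℂ → ℂ} {F₂ G₂ : (ι₂ → ℂ) → ℂ → ℂ} {g g₂ : ℝ}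
    (hg : g + 2 * m + 2 * k₂ < 2 * Fintype.card ι + 6)
    (hg₂ : g₂ + 2 * m₂ + 2 * k < 2 * Fintype.card ι₂ + 6)
    (hF : Fa U (PHK.rK x y R) (PHK.rI x y R) (fun _ => 1) (fun _ => 1) k F)
    (hG : Gf (NUP1.OS a b) (NUP1.CS (xl false) (xl true)) (NUP1.OS (xl false) (xl true)) g G)
    (hF₂ : Fa U (PHK.rK x y R) (PHK.rI x y R) (fun _ => 1) (fun _ => 1) k₂ F₂)
    (hG₂ : Gf (NUP1.OS a b) (NUP1.CS (xl false) (xl true)) (NUP1.OS (xl false) (xl true)) g₂ G₂)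
    (h0 : ∀ c : ι → ℂ, (∀ i, c i ∈ PHK.rI x y R) → ∀ i, F c (c i) ≠ 0)
    (h0₂ : ∀ c : ι₂ → ℂ, (∀ i, c i ∈ PHK.rI x y R) → ∀ i, F₂ c (c i) ≠ 0)
    {d : ν → ℂ} (hd : Function.Injective d) (hdΩ : ∀ j, d j ∈ NUP1.OS (xl false) (xl true))
    {d₂ : ν₂ → ℂ} (hd₂ : Function.Injective d₂) (hdΩ₂ : ∀ j, d₂ j ∈ NUP1.OS (xl false) (xl true))
    (he : ∀ c : ι → ℂ, (∀ i, c i ∈ PHK.rI x y R) → (∀ i j, c i ≠ d j) → ∀ i,
      G c (c i) = (∏ j, (c i - d j)) * (F c (c i))⁻¹)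
    (he₂ : ∀ c : ι₂ → ℂ, (∀ i, c i ∈ PHK.rI x y R) → (∀ i j, c i ≠ d₂ j) → ∀ i,
      G₂ c (c i) = (∏ j, (c i - d₂ j)) * (F₂ c (c i))⁻¹)
    {c : ι → ℂ} (hc : ∀ i, c i ∈ PHK.rI x y R) (hcd : ∀ i j, c i ≠ d j)
    {c₂ : ι₂ → ℂ} (hc₂ : ∀ i, c₂ i ∈ PHK.rI x y R) (hcd₂ : ∀ i j, c₂ i ≠ d₂ j) :
    JJ2 PHK.rM (NUP1S.rP x y R) (fun t => -NUP1S.rO x y R t) PHK.rM (NUP1S.rP x y R)
        (fun t => -NUP1S.rO x y R t) (F c) (F₂ c₂) NUP1.q NUP1.Bd.qg c c₂ k k₂ /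
          (k.factorial * k₂.factorial) =
      WW (F c) qr c * WW (F₂ c₂) qr c₂ * (∏ i, ∏ i', NUP1.Bd.qg (c i - c₂ i')) *
        ∑ D ∈ (univ : Finset ν).powerset, ∑ D₂ ∈ (univ : Finset ν₂).powerset,
          if D.card ≤ m ∧ D₂.card ≤ m₂ then (-1 : ℂ) ^ (D.card + D₂.card) *
            (wG (gN (hol G qr c) NUP1.Bd.qg c₂) NUP1.q c d D *
              wG (gN (hol G₂ qr c₂) NUP1.Bd.qg c) NUP1.q c₂ d₂ D₂ *
              ∏ j ∈ D, ∏ j' ∈ D₂, NUP1.Bd.qg (d j - d₂ j')) *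
            (JJ2 PHK.lM (PHK.lG xl) PHK.lK PHK.lM (PHK.lG xl) PHK.lK
              (hX (hol G qr c) NUP1.q NUP1.Bd.qg d D c₂ d₂ D₂)
              (hX (hol G₂ qr c₂) NUP1.q NUP1.Bd.qg d₂ D₂ c d D)
              NUP1.q NUP1.Bd.qg (Sum.elim c d) (Sum.elim c₂ d₂) (m - D.card) (m₂ - D₂.card) /
              ((m - D.card).factorial * (m₂ - D₂.card).factorial)) else 0 := by
  have hl : l < Real.pi := by
    rw [l_eq]
    linarith [Real.pi_pos]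
  have hxl : xl false < xl true := by linarith
  have sub2 : PHK.rK x y R ⊆ NUP1.CS (xl false) (xl true) := fun z hz =>
    ⟨by linarith [hz.1], by linarith [hz.2.1]⟩
  have sub3 : NUP1.CS (xl false) (xl true) ⊆ NUP1.OS a b := fun z hz =>
    ⟨ha.trans_le hz.1, hz.2.trans_lt hb⟩
  have sub4 : ∀ z ∈ PHK.rI x y R, z ∈ NUP1.OS (xl false) (xl true) := fun z hz =>
    ⟨by linarith [hz.1], by linarith [hz.2.1]⟩
  obtain ⟨δ, hδ, e1, e2⟩ : ∃ δ : ℝ, 0 < δ ∧ g + (δ + 2 * m + 2 * k₂) < 2 * Fintype.card ι + 6 ∧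
      g₂ + (δ + 2 * m₂ + 2 * k) < 2 * Fintype.card ι₂ + 6 := by
    refine ⟨min ((2 * Fintype.card ι + 6 - (g + 2 * m + 2 * k₂)) / 2)
      ((2 * Fintype.card ι₂ + 6 - (g₂ + 2 * m₂ + 2 * k)) / 2), lt_min (by linarith) (by linarith), ?_, ?_⟩
    · have := min_le_left ((2 * Fintype.card ι + 6 - (g + 2 * m + 2 * k₂)) / 2)
        ((2 * Fintype.card ι₂ + 6 - (g₂ + 2 * m₂ + 2 * k)) / 2)
      linarith
    · have := min_le_right ((2 * Fintype.card ι + 6 - (g + 2 * m + 2 * k₂)) / 2)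
        ((2 * Fintype.card ι₂ + 6 - (g₂ + 2 * m₂ + 2 * k)) / 2)
      linarith
  have hdl : ∀ z ∈ NUP1.CS (xl false) (xl true), ∀ w ∈ NUP1.OS (xl false) (xl true),
      |(z - w).re| ≤ xl true - xl false := fun z hz w hw => sub_dl z hz w ⟨hw.1.le, hw.2.le⟩
  have hGh := gf_hol' (α := δ + 2 * m + 2 * k₂) hN sub3 (NUP1.isOpen_OS _ _)
    (sub_Vl (by linarith) (by linarith)) (d := xl true - xl false) (by linarith) (by linarith) hdl e1 hG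
  have hGh₂ := gf_hol' (α := δ + 2 * m₂ + 2 * k) hN₂ sub3 (NUP1.isOpen_OS _ _)
    (sub_Vl (by linarith) (by linarith)) (d := xl true - xl false) (by linarith) (by linarith) hdl e2 hG₂
  have hA := PHK.rect_cg (R := R) hxy (by linarith) hR oU hU
  have hA' := PHK.lines_cg hxl (by linarith) ha hb (p := 2) (by norm_num) hδ
  have hr : Rf NUP1.q qr U Vl := rf_q fun z hz w hw =>
    sub_Vl (a := a) (b := b) (x := a) (y := b) (by linarith) (by linarith) z (sU hz) w (sU hw)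
  have hqA := PHK.pq_cpt (S := PHK.rK x y R) PHK.isCompact_rK hU hr.pf
  have hqA' := pq_lines hab (show xl true - xl false < l by linarith)
  exact JJ2_sea hA hA' hA hA' hqA hqA' hqA hqA' hr hr
    (gp_qg (𝒰 := NUP1.OS a b) (𝒮 := NUP1.CS (xl false) (xl true))
      (sub_Vl (by linarith) (by linarith)) sub3)
    sU subset_rfl sU subset_rfl sub2 subset_rfl sub2 subset_rfl
    (q_exp (by linarith)) (fun z hz => hz.2.2) hk hk₂ le_rfl le_rfl hF hGh hF₂ hGh₂ h0 h0₂ hd hdΩ hd₂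
    hdΩ₂ (fun c h1 _ h3 h4 i => he_hol h4 (he c h1 h4 i)) (fun c h1 _ h3 h4 i => he_hol h4 (he₂ c h1 h4 i))
    hc (fun i => sub4 _ (hc i)) hcd hc₂ (fun i => sub4 _ (hc₂ i)) hcd₂

end hol

/-! ### no zeros -/

theorem one_elim0 {Ξ ι : Type*} [Fintype ι] (γ κ : Ξ → ℂ) (f : ℂ → ℂ) (c : ι → ℂ) (d : Fin 0 → ℂ) (x : Ξ) :
    one γ κ f (Sum.elim c d) x = one γ κ f c x := by
  unfold one
  rw [Fintype.prod_sum_type]
  simp

theorem wG_empty {ι ν : Type*} [Fintype ι] [LinearOrder ν] [Fintype ν] (G q : ℂ → ℂ) (c : ι → ℂ) (d : ν → ℂ) :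
    wG G q c d ∅ = 1 := by
  unfold wG
  rw [prod_empty, PP_empty, one_mul]

theorem JJ2_elim0 {Ξ Ξ₂ ι ι₂ : Type*} [MeasurableSpace Ξ] [MeasurableSpace Ξ₂] [Fintype ι] [Fintype ι₂]
    (μ : Measure Ξ) (γ κ : Ξ → ℂ) (μ₂ : Measure Ξ₂) (γ₂ κ₂ : Ξ₂ → ℂ) (f₁ f₂ q g : ℂ → ℂ) (c : ι → ℂ)
    (c₂ : ι₂ → ℂ) (d d₂ : Fin 0 → ℂ) (k n : ℕ) :
    JJ2 μ γ κ μ₂ γ₂ κ₂ f₁ f₂ q g (Sum.elim c d) (Sum.elim c₂ d₂) k n =
      JJ2 μ γ κ μ₂ γ₂ κ₂ f₁ f₂ q g c c₂ k n := by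
  unfold JJ2 oP
  simp only [one_elim0]

section db

variable {κ κ₂ : Type*} [LinearOrder κ] [Fintype κ] [LinearOrder κ₂] [Fintype κ₂]
  {a b x y R : ℝ} {xl : Bool → ℝ}

/-- **doubled nodes, no zeros** -/
theorem sea_db (ha : a < xl false) (hx : xl false ≤ x) (hxy : x < y) (hy : y ≤ xl true)
    (hb : xl true < b) (hab : b - a ≤ l) (hR : 0 < R) {U : Set ℂ} (oU : IsOpen U)
    (hU : PHK.rK x y R ⊆ U) (sU : U ⊆ NUP1.OS a b)
    {k m k₂ m₂ : ℕ} (hk : k + m = 2 * Fintype.card κ) (hk₂ : k₂ + m₂ = 2 * Fintype.card κ₂)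
    {F G : (κ ×ₗ Bool → ℂ) → ℂ → ℂ} {F₂ G₂ : (κ₂ ×ₗ Bool → ℂ) → ℂ → ℂ} {g g₂ : ℝ}
    (hg : g + 2 * m + 2 * k₂ < 4 * Fintype.card κ + 6)
    (hg₂ : g₂ + 2 * m₂ + 2 * k < 4 * Fintype.card κ₂ + 6)
    (hF : Fa U (PHK.rK x y R) (PHK.rI x y R) (fun _ => 1) (fun _ => 1) k F)
    (hG : Gf (NUP1.OS a b) (NUP1.CS (xl false) (xl true)) (NUP1.OS (xl false) (xl true)) g G)
    (hF₂ : Fa U (PHK.rK x y R) (PHK.rI x y R) (fun _ => 1) (fun _ => 1) k₂ F₂)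
    (hG₂ : Gf (NUP1.OS a b) (NUP1.CS (xl false) (xl true)) (NUP1.OS (xl false) (xl true)) g₂ G₂)
    (h0 : ∀ c : κ ×ₗ Bool → ℂ, (∀ i, c i ∈ PHK.rI x y R) → ∀ i, F c (c i) ≠ 0)
    (h0₂ : ∀ c : κ₂ ×ₗ Bool → ℂ, (∀ i, c i ∈ PHK.rI x y R) → ∀ i, F₂ c (c i) ≠ 0)
    (he : ∀ c : κ ×ₗ Bool → ℂ, (∀ i, c i ∈ PHK.rI x y R) → ∀ i, G c (c i) = (F c (c i))⁻¹)
    (he₂ : ∀ c : κ₂ ×ₗ Bool → ℂ, (∀ i, c i ∈ PHK.rI x y R) → ∀ i, G₂ c (c i) = (F₂ c (c i))⁻¹)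
    {w : κ → ℂ} (hw : ∀ i, w i ∈ PHK.rI x y R) {w₂ : κ₂ → ℂ} (hw₂ : ∀ i, w₂ i ∈ PHK.rI x y R) :
    JJ2 PHK.rM (NUP1S.rP x y R) (fun t => -NUP1S.rO x y R t) PHK.rM (NUP1S.rP x y R)
        (fun t => -NUP1S.rO x y R t) (F (db w)) (F₂ (db w₂)) NUP1.q NUP1.Bd.qg (db w) (db w₂) k k₂ /
          (k.factorial * k₂.factorial) =
      ((∏ i, (F (db w) (w i) ^ 2 * -qr 0)) * PP (fun i j => qr (w i - w j) ^ 4) univ) *
        ((∏ i, (F₂ (db w₂) (w₂ i) ^ 2 * -qr 0)) * PP (fun i j => qr (w₂ i - w₂ j) ^ 4) univ) *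
        (∏ i, ∏ j, NUP1.Bd.qg (w i - w₂ j) ^ 4) *
        (JJ2 PHK.lM (PHK.lG xl) PHK.lK PHK.lM (PHK.lG xl) PHK.lK
          (fun z => hol G qr (db w) z * (∏ i, NUP1.Bd.qg (w₂ i - z) ^ 2)⁻¹)
          (fun z => hol G₂ qr (db w₂) z * (∏ i, NUP1.Bd.qg (w i - z) ^ 2)⁻¹)
          NUP1.q NUP1.Bd.qg (db w) (db w₂) m m₂ / (m.factorial * m₂.factorial)) := by
  have n1 : (Fintype.card (κ ×ₗ Bool) : ℝ) = 2 * Fintype.card κ := by
    rw [card_db]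
    push_cast
    ring
  have n2 : (Fintype.card (κ₂ ×ₗ Bool) : ℝ) = 2 * Fintype.card κ₂ := by
    rw [card_db]
    push_cast
    ring
  have h := sea_hol (ν := Fin 0) (ν₂ := Fin 0) ha hx hxy hy hb hab hR oU hU sU (ι := κ ×ₗ Bool)
    (ι₂ := κ₂ ×ₗ Bool) (hk.trans card_db.symm) (hk₂.trans card_db.symm) even_db even_db
    (g := g) (g₂ := g₂) (by rw [n1]; linarith) (by rw [n2]; linarith) hF hG hF₂ hG₂ h0 h0₂
    (d := Fin.elim0) (fun i => i.elim0) (fun j => j.elim0) (d₂ := Fin.elim0) (fun i => i.elim0)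
    (fun j => j.elim0) (fun c h1 _ i => by simpa using he c h1 i)
    (fun c h1 _ i => by simpa using he₂ c h1 i) (c := db w) (db_mem hw) (fun _ j => j.elim0)
    (c₂ := db w₂) (db_mem hw₂) fun _ j => j.elim0
  rw [h, WW_db, WW_db, prod_db2]
  congr 1
  have u0 : (univ : Finset (Fin 0)).powerset = {∅} := by simp
  rw [u0, sum_singleton, sum_singleton]
  simp only [card_empty, Nat.zero_le, and_self, if_true, add_zero, pow_zero, one_mul, Nat.sub_zero,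
    prod_empty, mul_one, JJ2_elim0]
  rw [wG_empty, wG_empty, one_mul, one_mul]
  have e1 : hX (hol G qr (db w)) NUP1.q NUP1.Bd.qg (Fin.elim0 : Fin 0 → ℂ) ∅ (db w₂)
      (Fin.elim0 : Fin 0 → ℂ) ∅ =
      fun z => hol G qr (db w) z * (∏ i, NUP1.Bd.qg (w₂ i - z) ^ 2)⁻¹ := by
    funext z
    unfold hX fG
    rw [gN_db, prod_empty, prod_empty, mul_one, mul_one]
  have e2 : hX (hol G₂ qr (db w₂)) NUP1.q NUP1.Bd.qg (Fin.elim0 : Fin 0 → ℂ) ∅ (db w)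
      (Fin.elim0 : Fin 0 → ℂ) ∅ =
      fun z => hol G₂ qr (db w₂) z * (∏ i, NUP1.Bd.qg (w i - z) ^ 2)⁻¹ := by
    funext z
    unfold hX fG
    rw [gN_db, prod_empty, prod_empty, mul_one, mul_one]
  rw [e1, e2]

end db

end Pool.Agent.PHD

end
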