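import Pool.Agent.PHD.Res

/-!
# Particle-hole duality for simple poles

* **`JJ_eq`**: `JJ k = k! * ∑ S, wt S` over the sets of `k` nodes; `JJ_zero`: `JJ k = 0` for
  `k` larger than the number of nodes;
* `Rf`: `q z = z ^ 2 * r z`; `fH`: the one body function of the holes;
* **`JJ_dual`**: `JJ k f / k! = wt univ * JJ (N - k) fH / (N - k)!` (distinct nodes);
* **`JJ_chi`**: the integral only sees `f` modulo `∏ (z - c j)`.
-/

set_option autoImplicit false

noncomputable section

open Finset MeasureTheory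

namespace Pool.Agent.PHD

/-- sum over a node and a set without it = sum over the sets with one more element -/
theorem sum_insert_card {ι M : Type*} [Fintype ι] [DecidableEq ι] [AddCommMonoid M] (k : ℕ)
    (g : Finset ι → M) : (∑ i, ∑ S ∈ powersetCard k (univ : Finset ι),
      if i ∈ S then 0 else g (insert i S)) =
      (k + 1) • ∑ T ∈ powersetCard (k + 1) (univ : Finset ι), g T := by
  have e1 : (k + 1) • ∑ T ∈ powersetCard (k + 1) (univ : Finset ι), g T =
      ∑ T ∈ powersetCard (k + 1) (univ : Finset ι), ∑ _i ∈ T, g T := by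
    rw [smul_sum]
    refine sum_congr rfl fun T hT => ?_
    rw [sum_const, (mem_powersetCard.1 hT).2]
  rw [e1, ← sum_product', sum_sigma']
  have e2 : ∑ x ∈ (univ : Finset ι) ×ˢ powersetCard k (univ : Finset ι),
      (if x.1 ∈ x.2 then 0 else g (insert x.1 x.2)) =
      ∑ x ∈ ((univ : Finset ι) ×ˢ powersetCard k (univ : Finset ι)).filter (fun x => x.1 ∉ x.2),
        g (insert x.1 x.2) := by
    rw [sum_filter]
    refine sum_congr rfl fun x _ => ?_
    by_cases h : x.1 ∈ x.2 <;> simp [h]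
  rw [e2]
  refine sum_nbij' (fun x => ⟨insert x.1 x.2, x.1⟩) (fun y => (y.2, y.1.erase y.2)) ?_ ?_ ?_ ?_ ?_
  · rintro ⟨i, S⟩ hx
    simp only [mem_filter, mem_product, mem_univ, true_and, mem_powersetCard, subset_univ] at hx
    simp only [mem_sigma, mem_powersetCard, subset_univ, true_and, mem_insert, true_or, and_true]
    rw [card_insert_of_notMem hx.2, hx.1]
  · rintro ⟨T, i⟩ hx
    simp only [mem_sigma, mem_powersetCard, subset_univ, true_and] at hx
    simp only [mem_filter, mem_product, mem_univ, true_and, mem_powersetCard, subset_univ,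
      mem_erase, ne_eq, not_true_eq_false, false_and, not_false_eq_true, and_true]
    rw [card_erase_of_mem hx.2, hx.1, Nat.add_sub_cancel]
  · rintro ⟨i, S⟩ hx
    simp only [mem_filter, mem_product, mem_univ, true_and, mem_powersetCard, subset_univ] at hx
    simp only [Prod.mk.injEq, true_and]
    exact erase_insert hx.2
  · rintro ⟨T, i⟩ hx
    simp only [mem_sigma, mem_powersetCard, subset_univ, true_and] at hx
    simp only [insert_erase hx.2]
  · rintro ⟨i, S⟩ _
    rfl

variable {Ξ : Type*} [MeasurableSpace Ξ]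

/-- weight of the nodes `S` -/
def wS {ι : Type*} [LinearOrder ι] [Fintype ι] (f q : ℂ → ℂ) (c : ι → ℂ) (S : Finset ι) : ℂ :=
  wt (fun i => f (c i)) (fun i j => c i - c j) (fun i j => q (c i - c j)) S

theorem wS_mul {ι : Type*} [LinearOrder ι] [Fintype ι] (f g q : ℂ → ℂ) (c : ι → ℂ) (S : Finset ι) :
    wS (fun z => f z * g z) q c S = (∏ s ∈ S, g (c s)) * wS f q c S := by
  unfold wS wt
  rw [← mul_assoc, ← prod_mul_distrib]
  congr 1
  refine prod_congr rfl fun s _ => ?_
  ring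

namespace Ctr

variable {μ : Measure Ξ} {γ κ : Ξ → ℂ} {U Ω : Set ℂ} (h : Ctr μ γ κ U Ω)
include h

/-- **the integral of `k` particles = sum over the sets of `k` nodes** -/
theorem JJ_eq {ι : Type*} [LinearOrder ι] [Fintype ι] {c : ι → ℂ} (hc : Function.Injective c)
    (hΩ : ∀ i, c i ∈ Ω) {q : ℂ → ℂ} {V : Set ℂ} (hq : Pf q U V) (q0 : q 0 = 0) (k : ℕ) :
    ∀ {f : ℂ → ℂ}, DifferentiableOn ℂ f U →
      JJ μ γ κ f q c k = (k.factorial : ℂ) * ∑ S ∈ powersetCard k (univ : Finset ι), wS f q c S := by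
  haveI := h.fin
  induction k with
  | zero =>
    intro f _
    unfold JJ
    simp only [univ_eq_empty, prod_empty, one_mul, QP, integral_const, smul_eq_mul, mul_one,
      Nat.factorial_zero, Nat.cast_one, powersetCard_zero, sum_singleton]
    rw [Measure.pi_of_empty]
    simp [wS, wt_empty, Measure.real]
  | succ k ih =>
    intro f hf
    have hU : ∀ i, c i ∈ U := fun i => h.sub (hΩ i)
    have hqU' : ∀ w ∈ U, DifferentiableOn ℂ (fun z => q (w - z)) U := fun w hw =>
      hq.an.comp (by fun_prop) fun z hz => hq.dif w hw z hz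
    rw [h.JJ_succ hc hΩ hf hq k]
    have e1 : ∀ i, (f (c i) / ∏ j ∈ univ.erase i, (c i - c j)) *
        JJ μ γ κ (fun z => f z * q (c i - z)) q c k =
        ∑ S ∈ powersetCard k (univ : Finset ι), (k.factorial : ℂ) *
          if i ∈ S then 0 else wS f q c (insert i S) := by
      intro i
      have hfi : DifferentiableOn ℂ (fun z => f z * q (c i - z)) U := hf.mul (hqU' _ (hU i))
      rw [ih hfi, mul_sum, mul_sum]
      refine sum_congr rfl fun S _ => ?_
      rw [wS_mul]
      split_ifs with hi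
      · have : ∏ s ∈ S, q (c i - c s) = 0 := prod_eq_zero hi (by rw [sub_self, q0])
        rw [this]
        ring
      · unfold wS
        rw [wt_insert (fun i j => by rw [← hq.even, neg_sub]) hi]
        ring
    simp only [e1, ← mul_sum]
    rw [sum_insert_card k (wS f q c), Nat.factorial_succ, nsmul_eq_mul]
    push_cast
    ring

/-- more particles than nodes -/
theorem JJ_zero {ι : Type*} [LinearOrder ι] [Fintype ι] {c : ι → ℂ} (hc : Function.Injective c)
    (hΩ : ∀ i, c i ∈ Ω) {f q : ℂ → ℂ} {V : Set ℂ} (hq : Pf q U V) (q0 : q 0 = 0) {k : ℕ}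
    (hf : DifferentiableOn ℂ f U) (hk : Fintype.card ι < k) : JJ μ γ κ f q c k = 0 := by
  rw [h.JJ_eq hc hΩ hq q0 k hf, powersetCard_eq_empty.2 (by rwa [card_univ]), sum_empty, mul_zero]

end Ctr

/-- the pair function `q z = z ^ 2 * r z` -/
structure Rf (q r : ℂ → ℂ) (U V : Set ℂ) : Prop where
  oV : IsOpen V
  dif : ∀ z ∈ U, ∀ w ∈ U, z - w ∈ V
  an : DifferentiableOn ℂ r V
  even : ∀ z, r (-z) = r z
  eq : ∀ z, q z = z ^ 2 * r z
  ne0 : ∀ z ∈ V, r z ≠ 0

theorem Rf.pf {q r : ℂ → ℂ} {U V : Set ℂ} (h : Rf q r U V) : Pf q U V where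
  oV := h.oV
  dif := h.dif
  an := ((by fun_prop : DifferentiableOn ℂ (fun z : ℂ => z ^ 2) V).mul h.an).congr
    fun z _ => h.eq z
  even := fun z => by rw [h.eq, h.eq, h.even, neg_sq]

theorem Rf.q0 {q r : ℂ → ℂ} {U V : Set ℂ} (h : Rf q r U V) : q 0 = 0 := by
  rw [h.eq, zero_pow two_ne_zero, zero_mul]

/-- the one body function of the holes -/
def fH {ι : Type*} [Fintype ι] (f r : ℂ → ℂ) (c : ι → ℂ) (z : ℂ) : ℂ :=
  r 0 / (f z * ∏ j, r (z - c j))

theorem wS_ne {ι : Type*} [LinearOrder ι] [Fintype ι] {f q : ℂ → ℂ} {c : ι → ℂ}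
    (hf : ∀ i, f (c i) ≠ 0) (hc : Function.Injective c) (hq : ∀ i j, i ≠ j → q (c i - c j) ≠ 0)
    (S : Finset ι) : wS f q c S ≠ 0 := by
  unfold wS wt PP
  refine mul_ne_zero (prod_ne_zero_iff.2 fun s _ => div_ne_zero (hf s)
    (prod_ne_zero_iff.2 fun j hj => ?_)) (prod_ne_zero_iff.2 fun p hp => ?_)
  · exact sub_ne_zero.2 fun e => (ne_of_mem_erase hj) (hc e).symm
  · exact hq _ _ (mem_filter.1 hp).2.ne

/-- **the finite duality** -/
theorem wS_dual' {ι : Type*} [LinearOrder ι] [Fintype ι] {f q r : ℂ → ℂ} {U V : Set ℂ}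
    (hr : Rf q r U V) {c : ι → ℂ} (hc : Function.Injective c) (hU : ∀ i, c i ∈ U)
    (hf : ∀ i, f (c i) ≠ 0) (S : Finset ι) :
    wS f q c Sᶜ = wS f q c univ * wS (fH f r c) q c S := by
  have hne : ∀ i j, i ≠ j → c i - c j ≠ 0 := fun i j hij => sub_ne_zero.2 fun e => hij (hc e)
  have hrn : ∀ i j, r (c i - c j) ≠ 0 := fun i j => hr.ne0 _ (hr.dif _ (hU i) _ (hU j))
  unfold wS
  rw [wt_compl (fun i j => by rw [← hr.pf.even, neg_sub]) hf hne
    (fun i j hij => by
      rw [hr.eq]
      exact mul_ne_zero (pow_ne_zero 2 (hne i j hij)) (hrn i j))]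
  congr 1
  unfold wh wt
  congr 1
  refine prod_congr rfl fun t _ => ?_
  have r0 : r 0 ≠ 0 := by
    have := hrn t t
    rwa [sub_self] at this
  unfold hN fH
  simp only
  have e1 : ∏ j ∈ univ.erase t, q (c t - c j) = (∏ j ∈ univ.erase t, (c t - c j)) ^ 2 *
      ∏ j ∈ univ.erase t, r (c t - c j) := by
    rw [← prod_pow, ← prod_mul_distrib]
    exact prod_congr rfl fun j _ => hr.eq _
  have e2 : ∏ j, r (c t - c j) = r 0 * ∏ j ∈ univ.erase t, r (c t - c j) := by
    rw [← mul_prod_erase univ _ (mem_univ t), sub_self]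
  rw [e1, e2]
  have n1 : ∏ j ∈ univ.erase t, (c t - c j) ≠ 0 :=
    prod_ne_zero_iff.2 fun j hj => hne _ _ (ne_of_mem_erase hj).symm
  have n2 : ∏ j ∈ univ.erase t, r (c t - c j) ≠ 0 := prod_ne_zero_iff.2 fun j _ => hrn _ _
  have n3 := hf t
  field_simp

/-- the finite duality -/
theorem wS_dual {ι : Type*} [LinearOrder ι] [Fintype ι] {f q r : ℂ → ℂ} {U V : Set ℂ}
    (hr : Rf q r U V) {c : ι → ℂ} (hc : Function.Injective c) (hU : ∀ i, c i ∈ U)
    (hf : ∀ z ∈ U, f z ≠ 0) (S : Finset ι) :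
    wS f q c Sᶜ = wS f q c univ * wS (fH f r c) q c S :=
  wS_dual' hr hc hU (fun i => hf _ (hU i)) S

end Pool.Agent.PHD

end
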