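import Pool.Agent.PHD.Glue

/-!
# Particle-hole duality in the field of the other species

`JJ2`: `k` particles on a contour `A`, `l` particles of the other species on a contour `B`, pair
function `q` inside a species, `g` between the species.

* `BJ`, `BJ_of`: bounds; `int_JJ2`: integrable; `I2`: integrand; `JJ2_fubI`, `JJ2_fub`: Fubini;
  `JJ2_symm`;
* **`JJ2_stepI`** (from integrability), **`JJ2_step`** (product bounds): the particles on `A` become holes on `A'` (+ glued holes), the other species sees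
  all the nodes (`g (c i - ·)`), the glued holes (`(g (d j - ·))⁻¹`) and the free holes (`g⁻¹`).
-/

set_option autoImplicit false
set_option linter.unusedVariables false
set_option linter.unusedSectionVars false
set_option linter.style.haveILetI false

noncomputable section

open Finset MeasureTheory Filter Topology

namespace Pool.Agent.PHD

variable {Ξ Ξ' Ξ₂ : Type*} [MeasurableSpace Ξ] [MeasurableSpace Ξ'] [MeasurableSpace Ξ₂]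

/-- the part of one species -/
def oP {ι : Type*} [Fintype ι] (γ κ : Ξ → ℂ) (f q : ℂ → ℂ) (c : ι → ℂ) {k : ℕ} (x : Fin k → Ξ) : ℂ :=
  (∏ a, one γ κ f c (x a)) * QP q fun a => γ (x a)

/-- the cross part -/
def xP (γ : Ξ → ℂ) (γ₂ : Ξ₂ → ℂ) (g : ℂ → ℂ) {k l : ℕ} (x : Fin k → Ξ) (y : Fin l → Ξ₂) : ℂ :=
  ∏ a, ∏ b, g (γ (x a) - γ₂ (y b))

/-- two species -/
def JJ2 {ι₁ ι₂ : Type*} [Fintype ι₁] [Fintype ι₂] (μ : Measure Ξ) (γ κ : Ξ → ℂ)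
    (μ₂ : Measure Ξ₂) (γ₂ κ₂ : Ξ₂ → ℂ) (f₁ f₂ q g : ℂ → ℂ) (c₁ : ι₁ → ℂ) (c₂ : ι₂ → ℂ)
    (k l : ℕ) : ℂ :=
  ∫ p : (Fin k → Ξ) × (Fin l → Ξ₂), oP γ κ f₁ q c₁ p.1 * oP γ₂ κ₂ f₂ q c₂ p.2 * xP γ γ₂ g p.1 p.2
    ∂((Measure.pi fun _ => μ).prod (Measure.pi fun _ => μ₂))

/-- a cross pair function on two regions -/
structure Xf (g : ℂ → ℂ) (U U₂ S S₂ V : Set ℂ) (ψ ψ₂ : ℂ → ℝ) : Prop where
  oV : IsOpen V
  dif : ∀ z ∈ U, ∀ ζ ∈ U₂, z - ζ ∈ V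
  an : DifferentiableOn ℂ g V
  ne : ∀ z ∈ V, g z ≠ 0
  ψ1 : ∀ z, 0 ≤ ψ z
  ψ2 : ∀ z, 0 ≤ ψ₂ z
  bd : ∃ B : ℝ, 0 ≤ B ∧ ∀ z ∈ S, ∀ ζ ∈ S₂, ‖g (z - ζ)‖ ≤ B * (ψ z * ψ₂ ζ)

/-- bound of the part of one species with the growth of the cross part -/
def BJ {ι : Type*} [Fintype ι] (γ κ : Ξ → ℂ) (f q : ℂ → ℂ) (c : ι → ℂ) (k : ℕ) (ψ w : ℂ → ℝ)
    (l : ℕ) : Prop :=
  ∃ C : ℝ, 0 ≤ C ∧ ∀ x : Fin k → Ξ, ‖oP γ κ f q c x‖ * ∏ a, ψ (γ (x a)) ^ l ≤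
    C * ∏ a, w (γ (x a))

namespace Cg

variable {μ : Measure Ξ} {γ κ : Ξ → ℂ} {U S Ω V : Set ℂ} {φ w : ℂ → ℝ}
  (h : Cg μ γ κ U S Ω φ w)
include h

theorem BJ_zero {ι : Type*} [Fintype ι] (c : ι → ℂ) (f q : ℂ → ℂ) (ψ : ℂ → ℝ) (l : ℕ) :
    BJ γ κ f q c 0 ψ w l := ⟨1, zero_le_one, fun x => by simp [oP, QP]⟩

theorem BJ_of {ι : Type*} [Fintype ι] {c : ι → ℂ} (hΩ : ∀ i, c i ∈ Ω) {f q : ℂ → ℂ}
    (hq : Pq q U S V φ) {k l : ℕ} {ψ : ℂ → ℝ} (hψ : ∀ z, 0 ≤ ψ z)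
    (hf : ∃ C : ℝ, 0 ≤ C ∧ ∀ z ∈ S, ‖f z‖ * φ z ^ (k - 1) * ψ z ^ l ≤ C * w z) :
    BJ γ κ f q c k ψ w l := by
  obtain ⟨C, h2, h3⟩ := hf
  obtain ⟨C0, h0⟩ := h.bκ
  obtain ⟨D, h4, h5⟩ := h.off_all hΩ
  obtain ⟨C', h0', h1'⟩ := h.bd_QP hq k
  have p : ∀ z, 0 ≤ φ z := fun z => zero_le_one.trans (h.φ1 z)
  have p' : ∀ z, 0 ≤ ψ z := hψ
  have b1 : ∀ x, ‖one γ κ f c x‖ * φ (γ x) ^ (k - 1) * ψ (γ x) ^ l ≤ (|C0| * C * D) * w (γ x) := by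
    intro x
    have a2 := h3 _ (h.mem x)
    have a3 := (h0 x).trans (le_abs_self C0)
    have a4 := h5 x
    have a5 := h.w0 (γ x)
    have a6 : 0 ≤ φ (γ x) ^ (k - 1) := pow_nonneg (p _) _
    have a7 : 0 ≤ ψ (γ x) ^ l := pow_nonneg (p' _) _
    unfold one
    rw [norm_mul, norm_div, div_eq_mul_inv]
    calc ‖κ x‖ * (‖f (γ x)‖ * ‖∏ i, (γ x - c i)‖⁻¹) * φ (γ x) ^ (k - 1) * ψ (γ x) ^ l
        = ‖κ x‖ * (‖f (γ x)‖ * φ (γ x) ^ (k - 1) * ψ (γ x) ^ l) *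
          ‖∏ i, (γ x - c i)‖⁻¹ := by ring
      _ ≤ |C0| * (C * w (γ x)) * D := by gcongr
      _ = |C0| * C * D * w (γ x) := by ring
  refine ⟨(|C0| * C * D) ^ k * C', by positivity, fun x => ?_⟩
  have e1 : 0 ≤ ∏ a, ψ (γ (x a)) ^ l := prod_nonneg fun a _ => pow_nonneg (p' _) _
  have e2 : 0 ≤ ∏ a, ‖one γ κ f c (x a)‖ := prod_nonneg fun _ _ => norm_nonneg _
  unfold oP
  rw [norm_mul, norm_prod]
  calc (∏ a, ‖one γ κ f c (x a)‖) * ‖QP q fun a => γ (x a)‖ * ∏ a, ψ (γ (x a)) ^ l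
      ≤ (∏ a, ‖one γ κ f c (x a)‖) * (C' * ∏ a, φ (γ (x a)) ^ (k - 1)) *
        ∏ a, ψ (γ (x a)) ^ l := by
        refine mul_le_mul_of_nonneg_right (mul_le_mul_of_nonneg_left (h1' x) e2) e1
    _ = C' * ∏ a, (‖one γ κ f c (x a)‖ * φ (γ (x a)) ^ (k - 1) * ψ (γ (x a)) ^ l) := by
        rw [prod_mul_distrib, prod_mul_distrib]
        ring
    _ ≤ C' * ∏ a, ((|C0| * C * D) * w (γ (x a))) := by
        refine mul_le_mul_of_nonneg_left (prod_le_prod (fun a _ => ?_) fun a _ => b1 _) h0'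
        have := p (γ (x a))
        have := p' (γ (x a))
        positivity
    _ = (|C0| * C * D) ^ k * C' * ∏ a, w (γ (x a)) := by
        rw [prod_mul_distrib, prod_const, card_univ, Fintype.card_fin]
        ring

theorem meas_oP {ι : Type*} [Fintype ι] {c : ι → ℂ} {f q : ℂ → ℂ} (hq : Pq q U S V φ)
    (hf : ContinuousOn f U) (k : ℕ) : Measurable fun x : Fin k → Ξ => oP γ κ f q c x := by
  unfold oP
  exact (Finset.measurable_prod _ fun a _ => (h.meas_one hf).comp (measurable_pi_apply a)).mul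
    (h.meas_QP hq)

end Cg

section two

variable {μ : Measure Ξ} {γ κ : Ξ → ℂ} {U S Ω V : Set ℂ} {φ w : ℂ → ℝ}
  {μ' : Measure Ξ'} {γ' κ' : Ξ' → ℂ} {U' S' Ω' V' : Set ℂ} {φ' w' : ℂ → ℝ}
  {μ₂ : Measure Ξ₂} {γ₂ κ₂ : Ξ₂ → ℂ} {U₂ S₂ Ω₂ V₂ : Set ℂ} {φ₂ w₂ : ℂ → ℝ}

theorem meas_xP (h : Cg μ γ κ U S Ω φ w) (h₂ : Cg μ₂ γ₂ κ₂ U₂ S₂ Ω₂ φ₂ w₂) {g : ℂ → ℂ}
    {Vg : Set ℂ} {ψ ψ₂ : ℂ → ℝ} (hg : Xf g U U₂ S S₂ Vg ψ ψ₂) (k l : ℕ) :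
    Measurable fun p : (Fin k → Ξ) × (Fin l → Ξ₂) => xP γ γ₂ g p.1 p.2 := by
  unfold xP
  refine Finset.measurable_prod _ fun a _ => Finset.measurable_prod _ fun b _ => ?_
  exact Ctr.meas_cont hg.oV hg.an.continuousOn
    ((h.mγ.comp ((measurable_pi_apply a).comp measurable_fst)).sub
      (h₂.mγ.comp ((measurable_pi_apply b).comp measurable_snd)))
    fun x => hg.dif _ (h.sub' (h.mem _)) _ (h₂.sub' (h₂.mem _))

theorem bd_xP (h : Cg μ γ κ U S Ω φ w) (h₂ : Cg μ₂ γ₂ κ₂ U₂ S₂ Ω₂ φ₂ w₂) {g : ℂ → ℂ}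
    {Vg : Set ℂ} {ψ ψ₂ : ℂ → ℝ} (hg : Xf g U U₂ S S₂ Vg ψ ψ₂) (k l : ℕ) :
    ∃ B : ℝ, 0 ≤ B ∧ ∀ (x : Fin k → Ξ) (y : Fin l → Ξ₂),
      ‖xP γ γ₂ g x y‖ ≤ B * ((∏ a, ψ (γ (x a)) ^ l) * ∏ b, ψ₂ (γ₂ (y b)) ^ k) := by
  obtain ⟨B, b0, hB⟩ := hg.bd
  refine ⟨∏ _a : Fin k, ∏ _b : Fin l, B, by positivity, fun x y => ?_⟩
  unfold xP
  rw [norm_prod]
  simp only [norm_prod]
  calc ∏ a, ∏ b, ‖g (γ (x a) - γ₂ (y b))‖
      ≤ ∏ a, ∏ b, (B * (ψ (γ (x a)) * ψ₂ (γ₂ (y b)))) :=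
        prod_le_prod (fun _ _ => prod_nonneg fun _ _ => norm_nonneg _) fun a _ =>
          prod_le_prod (fun _ _ => norm_nonneg _) fun b _ => hB _ (h.mem _) _ (h₂.mem _)
    _ = _ := by
        simp only [prod_mul_distrib, prod_const, card_univ, Fintype.card_fin, prod_pow]

variable {ι ι₂ : Type*} [Fintype ι] [Fintype ι₂] {c : ι → ℂ} {c₂ : ι₂ → ℂ} {f f₂ q g : ℂ → ℂ}

/-- the integrand of two species is integrable -/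
theorem int_JJ2 (h : Cg μ γ κ U S Ω φ w) (h₂ : Cg μ₂ γ₂ κ₂ U₂ S₂ Ω₂ φ₂ w₂)
    (hq : Pq q U S V φ) (hq₂ : Pq q U₂ S₂ V₂ φ₂)
    {Vg : Set ℂ} {ψ ψ₂ : ℂ → ℝ} (hg : Xf g U U₂ S S₂ Vg ψ ψ₂) {k l : ℕ}
    (hf : ContinuousOn f U) (hf₂ : ContinuousOn f₂ U₂)
    (h1 : BJ γ κ f q c k ψ w l) (h2 : BJ γ₂ κ₂ f₂ q c₂ l ψ₂ w₂ k) :
    Integrable (fun p : (Fin k → Ξ) × (Fin l → Ξ₂) => oP γ κ f q c p.1 * oP γ₂ κ₂ f₂ q c₂ p.2 *
      xP γ γ₂ g p.1 p.2) ((Measure.pi fun _ => μ).prod (Measure.pi fun _ => μ₂)) := by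
  haveI := h.sf
  haveI := h₂.sf
  obtain ⟨C, c0, hC⟩ := h1
  obtain ⟨D, d0, hD⟩ := h2
  obtain ⟨B, b0, hB⟩ := bd_xP h h₂ hg k l
  have i1 : Integrable (fun p : (Fin k → Ξ) × (Fin l → Ξ₂) =>
      (∏ a, w (γ (p.1 a))) * ∏ b, w₂ (γ₂ (p.2 b)))
      ((Measure.pi fun _ => μ).prod (Measure.pi fun _ => μ₂)) :=
    (Integrable.fintype_prod (f := fun _ x => w (γ x)) fun _ => h.iw).mul_prod
      (Integrable.fintype_prod (f := fun _ x => w₂ (γ₂ x)) fun _ => h₂.iw)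
  refine (i1.const_mul (B * C * D)).mono' ?_ (Eventually.of_forall fun p => ?_)
  · exact ((((h.meas_oP hq hf k).comp measurable_fst).mul
      ((h₂.meas_oP hq₂ hf₂ l).comp measurable_snd)).mul (meas_xP h h₂ hg k l)).aestronglyMeasurable
  · rw [norm_mul, norm_mul]
    have a1 := hC p.1
    have a2 := hD p.2
    have a3 := hB p.1 p.2
    have a4 : 0 ≤ ∏ a, ψ (γ (p.1 a)) ^ l :=
      prod_nonneg fun a _ => pow_nonneg (hg.ψ1 _) _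
    have a5 : 0 ≤ ∏ b, ψ₂ (γ₂ (p.2 b)) ^ k :=
      prod_nonneg fun a _ => pow_nonneg (hg.ψ2 _) _
    have a6 : 0 ≤ ∏ a, w (γ (p.1 a)) := prod_nonneg fun a _ => h.w0 _
    calc ‖oP γ κ f q c p.1‖ * ‖oP γ₂ κ₂ f₂ q c₂ p.2‖ * ‖xP γ γ₂ g p.1 p.2‖
        ≤ ‖oP γ κ f q c p.1‖ * ‖oP γ₂ κ₂ f₂ q c₂ p.2‖ *
          (B * ((∏ a, ψ (γ (p.1 a)) ^ l) * ∏ b, ψ₂ (γ₂ (p.2 b)) ^ k)) := by gcongr
      _ = B * ((‖oP γ κ f q c p.1‖ * ∏ a, ψ (γ (p.1 a)) ^ l) *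
          (‖oP γ₂ κ₂ f₂ q c₂ p.2‖ * ∏ b, ψ₂ (γ₂ (p.2 b)) ^ k)) := by ring
      _ ≤ B * ((C * ∏ a, w (γ (p.1 a))) * (D * ∏ b, w₂ (γ₂ (p.2 b)))) := by
          refine mul_le_mul_of_nonneg_left (mul_le_mul a1 a2 (by positivity) (by positivity)) b0
      _ = B * C * D * ((∏ a, w (γ (p.1 a))) * ∏ b, w₂ (γ₂ (p.2 b))) := by ring

/-- the field of the other species -/
def fY (γ₂ : Ξ₂ → ℂ) (g : ℂ → ℂ) {l : ℕ} (y : Fin l → Ξ₂) (z : ℂ) : ℂ := ∏ b, g (z - γ₂ (y b))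

theorem oP_mul (γ κ : Ξ → ℂ) (f P q : ℂ → ℂ) (c : ι → ℂ) {k : ℕ} (x : Fin k → Ξ) :
    oP γ κ (fun z => f z * P z) q c x = oP γ κ f q c x * ∏ a, P (γ (x a)) := by
  unfold oP
  have : ∏ a, one γ κ (fun z => f z * P z) c (x a) =
      (∏ a, one γ κ f c (x a)) * ∏ a, P (γ (x a)) := by
    rw [← prod_mul_distrib]
    refine prod_congr rfl fun a _ => ?_
    unfold one
    ring
  rw [this]
  ring

/-- the integrand -/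
def I2 {ι ι₂ : Type*} [Fintype ι] [Fintype ι₂] (γ κ : Ξ → ℂ) (γ₂ κ₂ : Ξ₂ → ℂ)
    (f f₂ q g : ℂ → ℂ) (c : ι → ℂ) (c₂ : ι₂ → ℂ) {k l : ℕ} (p : (Fin k → Ξ) × (Fin l → Ξ₂)) : ℂ :=
  oP γ κ f q c p.1 * oP γ₂ κ₂ f₂ q c₂ p.2 * xP γ γ₂ g p.1 p.2

theorem I2_eq (γ κ : Ξ → ℂ) (γ₂ κ₂ : Ξ₂ → ℂ) (f f₂ q g : ℂ → ℂ) (c : ι → ℂ) (c₂ : ι₂ → ℂ) {k l : ℕ}
    (x : Fin k → Ξ) (y : Fin l → Ξ₂) : I2 γ κ γ₂ κ₂ f f₂ q g c c₂ (x, y) =
      oP γ₂ κ₂ f₂ q c₂ y * ((∏ a, one γ κ (fun z => f z * fY γ₂ g y z) c (x a)) *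
        QP q fun a => γ (x a)) := by
  have e := oP_mul γ κ f (fY γ₂ g y) q c x
  unfold I2
  simp only
  unfold oP at e ⊢
  rw [e]
  unfold xP fY
  ring

/-- **Fubini** -/
theorem JJ2_fubI {μ : Measure Ξ} {μ₂ : Measure Ξ₂} [SigmaFinite μ] [SigmaFinite μ₂] {k l : ℕ}
    (hI : Integrable (fun p : (Fin k → Ξ) × (Fin l → Ξ₂) => I2 γ κ γ₂ κ₂ f f₂ q g c c₂ p)
      ((Measure.pi fun _ => μ).prod (Measure.pi fun _ => μ₂))) :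
    JJ2 μ γ κ μ₂ γ₂ κ₂ f f₂ q g c c₂ k l = ∫ y : Fin l → Ξ₂, oP γ₂ κ₂ f₂ q c₂ y *
      JJ μ γ κ (fun z => f z * fY γ₂ g y z) q c k ∂(Measure.pi fun _ => μ₂) := by
  have e : JJ2 μ γ κ μ₂ γ₂ κ₂ f f₂ q g c c₂ k l = ∫ p : (Fin k → Ξ) × (Fin l → Ξ₂),
      I2 γ κ γ₂ κ₂ f f₂ q g c c₂ p ∂((Measure.pi fun _ => μ).prod (Measure.pi fun _ => μ₂)) := rfl
  rw [e, integral_prod_symm _ hI]
  refine integral_congr_ae (Eventually.of_forall fun y => ?_)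
  simp only [I2_eq]
  rw [integral_const_mul]
  rfl

/-- the outer integrand of Fubini is integrable -/
theorem intI_fub {μ : Measure Ξ} {μ₂ : Measure Ξ₂} [SigmaFinite μ] [SigmaFinite μ₂] {k l : ℕ}
    (hI : Integrable (fun p : (Fin k → Ξ) × (Fin l → Ξ₂) => I2 γ κ γ₂ κ₂ f f₂ q g c c₂ p)
      ((Measure.pi fun _ => μ).prod (Measure.pi fun _ => μ₂))) :
    Integrable (fun y : Fin l → Ξ₂ => oP γ₂ κ₂ f₂ q c₂ y *
      JJ μ γ κ (fun z => f z * fY γ₂ g y z) q c k) (Measure.pi fun _ => μ₂) := by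
  refine hI.integral_prod_right.congr (Eventually.of_forall fun y => ?_)
  simp only [I2_eq]
  rw [integral_const_mul]
  rfl

/-- Fubini, product bounds -/
theorem JJ2_fub (h : Cg μ γ κ U S Ω φ w) (h₂ : Cg μ₂ γ₂ κ₂ U₂ S₂ Ω₂ φ₂ w₂)
    (hq : Pq q U S V φ) (hq₂ : Pq q U₂ S₂ V₂ φ₂)
    {Vg : Set ℂ} {ψ ψ₂ : ℂ → ℝ} (hg : Xf g U U₂ S S₂ Vg ψ ψ₂) {k l : ℕ}
    (hf : ContinuousOn f U) (hf₂ : ContinuousOn f₂ U₂)
    (h1 : BJ γ κ f q c k ψ w l) (h2 : BJ γ₂ κ₂ f₂ q c₂ l ψ₂ w₂ k) :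
    JJ2 μ γ κ μ₂ γ₂ κ₂ f f₂ q g c c₂ k l = ∫ y : Fin l → Ξ₂, oP γ₂ κ₂ f₂ q c₂ y *
      JJ μ γ κ (fun z => f z * fY γ₂ g y z) q c k ∂(Measure.pi fun _ => μ₂) := by
  haveI := h.sf
  haveI := h₂.sf
  exact JJ2_fubI (int_JJ2 h h₂ hq hq₂ hg hf hf₂ h1 h2)

/-- the order of the two species -/
theorem JJ2_symm {μ : Measure Ξ} {μ₂ : Measure Ξ₂} [SigmaFinite μ] [SigmaFinite μ₂]
    (γ κ : Ξ → ℂ) (γ₂ κ₂ : Ξ₂ → ℂ) (f f₂ q : ℂ → ℂ) {g : ℂ → ℂ} (hg : ∀ z, g (-z) = g z)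
    (c : ι → ℂ) (c₂ : ι₂ → ℂ) (k l : ℕ) :
    JJ2 μ γ κ μ₂ γ₂ κ₂ f f₂ q g c c₂ k l = JJ2 μ₂ γ₂ κ₂ μ γ κ f₂ f q g c₂ c l k := by
  unfold JJ2
  rw [← integral_prod_swap]
  refine integral_congr_ae (Eventually.of_forall fun p => ?_)
  simp only [Prod.fst_swap, Prod.snd_swap]
  have : xP γ γ₂ g p.2 p.1 = xP γ₂ γ g p.1 p.2 := by
    unfold xP
    rw [Finset.prod_comm]
    refine prod_congr rfl fun a _ => prod_congr rfl fun b _ => ?_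
    rw [← hg, neg_sub]
  rw [this]
  ring

theorem I2_symm (γ κ : Ξ → ℂ) (γ₂ κ₂ : Ξ₂ → ℂ) (f f₂ q : ℂ → ℂ) {g : ℂ → ℂ}
    (hg : ∀ z, g (-z) = g z) (c : ι → ℂ) (c₂ : ι₂ → ℂ) {k l : ℕ}
    (p : (Fin l → Ξ₂) × (Fin k → Ξ)) :
    I2 γ₂ κ₂ γ κ f₂ f q g c₂ c p = I2 γ κ γ₂ κ₂ f f₂ q g c c₂ p.swap := by
  unfold I2
  simp only [Prod.fst_swap, Prod.snd_swap]
  have : xP γ γ₂ g p.2 p.1 = xP γ₂ γ g p.1 p.2 := by
    unfold xP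
    rw [Finset.prod_comm]
    refine prod_congr rfl fun a _ => prod_congr rfl fun b _ => ?_
    rw [← hg, neg_sub]
  rw [this]
  ring

theorem I2_swap {μ : Measure Ξ} {μ₂ : Measure Ξ₂} [SigmaFinite μ] [SigmaFinite μ₂]
    (hg : ∀ z, g (-z) = g z) {k l : ℕ}
    (hI : Integrable (fun p : (Fin k → Ξ) × (Fin l → Ξ₂) => I2 γ κ γ₂ κ₂ f f₂ q g c c₂ p)
      ((Measure.pi fun _ => μ).prod (Measure.pi fun _ => μ₂))) :
    Integrable (fun p : (Fin l → Ξ₂) × (Fin k → Ξ) => I2 γ₂ κ₂ γ κ f₂ f q g c₂ c p)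
      ((Measure.pi fun _ => μ₂).prod (Measure.pi fun _ => μ)) := by
  refine hI.swap.congr (Eventually.of_forall fun p => ?_)
  exact (I2_symm γ κ γ₂ κ₂ f f₂ q hg c c₂ p).symm

end two

/-! ### the step -/

/-- a family of one body functions with extra growth `χ` -/
structure Fg {ι : Type*} (U S Ω : Set ℂ) (φ w : ℂ → ℝ) (k : ℕ) (χ : ℂ → ℝ)
    (F : (ι → ℂ) → ℂ → ℂ) : Prop where
  an : ∀ c : ι → ℂ, (∀ i, c i ∈ Ω) → DifferentiableOn ℂ (F c) U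
  ct : ContinuousOn (fun p : (ι → ℂ) × ℂ => F p.1 p.2) ({c | ∀ i, c i ∈ Ω} ×ˢ U)
  bd : ∀ c0 : ι → ℂ, (∀ i, c0 i ∈ Ω) → ∃ C : ℝ, 0 ≤ C ∧ ∀ᶠ c in 𝓝 c0, ∀ z ∈ S,
      ‖F c z‖ * φ z ^ (k - 1) * χ z ≤ C * w z

section step

variable {μ : Measure Ξ} {γ κ : Ξ → ℂ} {U S Ω V : Set ℂ} {φ w : ℂ → ℝ}
  {μ' : Measure Ξ'} {γ' κ' : Ξ' → ℂ} {U' S' Ω' V' : Set ℂ} {φ' w' : ℂ → ℝ}
  {μ₂ : Measure Ξ₂} {γ₂ κ₂ : Ξ₂ → ℂ} {U₂ S₂ Ω₂ V₂ : Set ℂ} {φ₂ w₂ : ℂ → ℝ}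
  {ι ν : Type*}

/-- one more analytic factor, bounded by the extra growth -/
theorem Fg.mul {k : ℕ} {χ : ℂ → ℝ} {F : (ι → ℂ) → ℂ → ℂ} (h : Fg U S Ω φ w k χ F) (hSU : S ⊆ U)
    (hφ : ∀ z, 0 ≤ φ z) {P : ℂ → ℂ} (hP : DifferentiableOn ℂ P U)
    (hb : ∃ B : ℝ, 0 ≤ B ∧ ∀ z ∈ S, ‖P z‖ ≤ B * χ z) :
    Fa U S Ω φ w k fun c z => F c z * P z where
  an c hc := (h.an c hc).mul hP
  ct := h.ct.mul (hP.continuousOn.comp (f := fun p : (ι → ℂ) × ℂ => p.2)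
    continuous_snd.continuousOn fun p hp => hp.2)
  bd c0 hc0 := by
    obtain ⟨C, a1, a2⟩ := h.bd c0 hc0
    obtain ⟨B, b1, b2⟩ := hb
    refine ⟨C * B, mul_nonneg a1 b1, ?_⟩
    filter_upwards [a2] with c hc z hz
    have h1 := hc z hz
    have h2 := b2 z hz
    have h3 := pow_nonneg (hφ z) (k - 1)
    rw [norm_mul]
    calc ‖F c z‖ * ‖P z‖ * φ z ^ (k - 1) ≤ ‖F c z‖ * (B * χ z) * φ z ^ (k - 1) := by gcongr
      _ = (‖F c z‖ * φ z ^ (k - 1) * χ z) * B := by ring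
      _ ≤ (C * w z) * B := by gcongr
      _ = C * B * w z := by ring

variable {g : ℂ → ℂ} {Vg : Set ℂ} {ψ ψ₂ : ℂ → ℝ}

theorem Xf.fY_an (hg : Xf g U U₂ S S₂ Vg ψ ψ₂) {l : ℕ} {y : Fin l → Ξ₂}
    (hy : ∀ b, γ₂ (y b) ∈ U₂) : DifferentiableOn ℂ (fY γ₂ g y) U := by
  unfold fY
  refine DifferentiableOn.fun_finsetProd fun b _ => ?_
  exact hg.an.comp (by fun_prop) fun z hz => hg.dif z hz _ (hy b)

theorem Xf.fY_ne (hg : Xf g U U₂ S S₂ Vg ψ ψ₂) {l : ℕ} {y : Fin l → Ξ₂}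
    (hy : ∀ b, γ₂ (y b) ∈ U₂) {z : ℂ} (hz : z ∈ U) : fY γ₂ g y z ≠ 0 :=
  prod_ne_zero_iff.2 fun b _ => hg.ne _ (hg.dif z hz _ (hy b))

theorem Xf.fY_bd (hg : Xf g U U₂ S S₂ Vg ψ ψ₂) {l : ℕ} {y : Fin l → Ξ₂}
    (hy : ∀ b, γ₂ (y b) ∈ S₂) : ∃ B : ℝ, 0 ≤ B ∧ ∀ z ∈ S, ‖fY γ₂ g y z‖ ≤ B * ψ z ^ l := by
  obtain ⟨B, b0, hB⟩ := hg.bd
  have p : ∀ z, 0 ≤ ψ₂ z := hg.ψ2
  refine ⟨∏ b, (B * ψ₂ (γ₂ (y b))), prod_nonneg fun b _ => mul_nonneg b0 (p _), fun z hz => ?_⟩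
  unfold fY
  rw [norm_prod]
  calc ∏ b, ‖g (z - γ₂ (y b))‖ ≤ ∏ b, ((B * ψ₂ (γ₂ (y b))) * ψ z) :=
        prod_le_prod (fun _ _ => norm_nonneg _) fun b _ => (hB z hz _ (hy b)).trans
          (le_of_eq (by ring))
    _ = _ := by rw [prod_mul_distrib, prod_const, card_univ, Fintype.card_fin]

theorem fY_inv (γ₂ : Ξ₂ → ℂ) (g : ℂ → ℂ) {l : ℕ} (y : Fin l → Ξ₂) (z : ℂ) :
    fY γ₂ (fun z => (g z)⁻¹) y z = (fY γ₂ g y z)⁻¹ := by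
  unfold fY
  rw [← prod_inv_distrib]

/-- the field of the nodes and of the glued holes on the other species -/
def fX {ι : Type*} [Fintype ι] (g : ℂ → ℂ) (c : ι → ℂ) (d : ν → ℂ) (D : Finset ν) (z : ℂ) : ℂ :=
  (∏ i, g (c i - z)) * ∏ j ∈ D, (g (d j - z))⁻¹

theorem prod_fX [Fintype ι] (γ₂ : Ξ₂ → ℂ) (g : ℂ → ℂ) (c : ι → ℂ) (d : ν → ℂ) (D : Finset ν)
    {l : ℕ} (y : Fin l → Ξ₂) : ∏ b, fX g c d D (γ₂ (y b)) =
      (∏ i, fY γ₂ g y (c i)) * ∏ j ∈ D, (fY γ₂ g y (d j))⁻¹ := by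
  unfold fX
  rw [prod_mul_distrib, Finset.prod_comm]
  congr 1
  rw [Finset.prod_comm]
  refine prod_congr rfl fun j _ => ?_
  unfold fY
  rw [← prod_inv_distrib]

/-- **one species: particles on `A` = holes on `A'` + glued holes, in the field of the other species
on `B`** -/
theorem JJ2_stepI [LinearOrder ι] [Fintype ι] [LinearOrder ν] [Fintype ν] {ι₂ : Type*} [Fintype ι₂]
    (h : Cg μ γ κ U S Ω φ w) (h' : Cg μ' γ' κ' U' S' Ω' φ' w') (h₂ : Cg μ₂ γ₂ κ₂ U₂ S₂ Ω₂ φ₂ w₂)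
    {q r : ℂ → ℂ} (hq : Pq q U S V φ) (hq' : Pq q U' S' V' φ')
    (hr : Rf q r U V) {Vg' : Set ℂ} {ψ' ψ₂' : ℂ → ℝ}
    (hg : Xf g U U₂ S S₂ Vg ψ ψ₂) (hg' : Xf (fun z => (g z)⁻¹) U' U₂ S' S₂ Vg' ψ' ψ₂')
    {k m l : ℕ} (hk : k + m = Fintype.card ι) {F G : (ι → ℂ) → ℂ → ℂ}
    (hF : Fg U S Ω φ w k (fun z => ψ z ^ l) F) (hG : Fg U' S' Ω' φ' w' m (fun z => ψ' z ^ l) G)
    (h0 : ∀ c : ι → ℂ, (∀ i, c i ∈ Ω) → ∀ i, F c (c i) ≠ 0)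
    {d : ν → ℂ} (hd : Function.Injective d) (hdΩ : ∀ j, d j ∈ Ω')
    (he : ∀ c : ι → ℂ, (∀ i, c i ∈ Ω) → (∀ i, c i ∈ Ω') → Function.Injective c →
      (∀ i j, c i ≠ d j) → ∀ i, G c (c i) / ∏ j, (c i - d j) = fH (F c) r c (c i))
    {c : ι → ℂ} (hc : ∀ i, c i ∈ Ω) (hc' : ∀ i, c i ∈ Ω') (hcd : ∀ i j, c i ≠ d j)
    {c₂ : ι₂ → ℂ} {f₂ : ℂ → ℂ}
    (i1 : Integrable (fun p : (Fin k → Ξ) × (Fin l → Ξ₂) => I2 γ κ γ₂ κ₂ (F c) f₂ q g c c₂ p)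
      ((Measure.pi fun _ => μ).prod (Measure.pi fun _ => μ₂)))
    (i2 : ∀ D : Finset ν, D.card ≤ m → Integrable (fun p : (Fin (m - D.card) → Ξ') ×
      (Fin l → Ξ₂) => I2 γ' κ' γ₂ κ₂ (fG (G c) q d D) (fun z => f₂ z * fX g c d D z) q
        (fun z => (g z)⁻¹) (Sum.elim c d) c₂ p)
      ((Measure.pi fun _ => μ').prod (Measure.pi fun _ => μ₂))) :
    JJ2 μ γ κ μ₂ γ₂ κ₂ (F c) f₂ q g c c₂ k l / k.factorial = WW (F c) r c *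
      ∑ D ∈ (univ : Finset ν).powerset, if D.card ≤ m then (-1 : ℂ) ^ D.card *
        (wG (G c) q c d D * (JJ2 μ' γ' κ' μ₂ γ₂ κ₂ (fG (G c) q d D) (fun z => f₂ z * fX g c d D z)
          q (fun z => (g z)⁻¹) (Sum.elim c d) c₂ (m - D.card) l / (m - D.card).factorial)) else 0 := by
  haveI := h.sf
  haveI := h'.sf
  haveI := h₂.sf
  have hcU : ∀ i, c i ∈ U := fun i => h.sub' (h.sub (hc i))
  have hcU' : ∀ i, c i ∈ U' := fun i => h'.sub' (h'.sub (hc' i))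
  have hdU : ∀ j, d j ∈ U' := fun j => h'.sub' (h'.sub (hdΩ j))
  have hyS : ∀ (y : Fin l → Ξ₂) b, γ₂ (y b) ∈ S₂ := fun y b => h₂.mem _
  have hyU : ∀ (y : Fin l → Ξ₂) b, γ₂ (y b) ∈ U₂ := fun y b => h₂.sub' (h₂.mem _)
  have pφ : ∀ z, 0 ≤ φ z := fun z => zero_le_one.trans (h.φ1 z)
  have pφ' : ∀ z, 0 ≤ φ' z := fun z => zero_le_one.trans (h'.φ1 z)
  -- the families in the field of `y`
  have FA : ∀ y : Fin l → Ξ₂, Fa U S Ω φ w k fun c z => F c z * fY γ₂ g y z := fun y =>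
    hF.mul h.sub' pφ (hg.fY_an (hyU y)) (hg.fY_bd (hyS y))
  have GA : ∀ y : Fin l → Ξ₂, Fa U' S' Ω' φ' w' m
      fun c z => G c z * fY γ₂ (fun z => (g z)⁻¹) y z := fun y =>
    hG.mul h'.sub' pφ' (hg'.fY_an (hyU y)) (hg'.fY_bd (hyS y))
  have key : ∀ y : Fin l → Ξ₂, JJ μ γ κ (fun z => F c z * fY γ₂ g y z) q c k / k.factorial =
      WW (fun z => F c z * fY γ₂ g y z) r c *
        SG μ' γ' κ' (fun z => G c z * fY γ₂ (fun z => (g z)⁻¹) y z) q c d m := by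
    intro y
    refine JJ_pG h h' hq hq' hr hk (F := fun c z => F c z * fY γ₂ g y z)
      (G := fun c z => G c z * fY γ₂ (fun z => (g z)⁻¹) y z) (FA y) (GA y) ?_ hd hdΩ ?_ hc hc' hcd
    · intro c hc i
      exact mul_ne_zero (h0 c hc i) (hg.fY_ne (hyU y) (h.sub' (h.sub (hc i))))
    · intro c h1 h2 h3 h4 i
      have e := he c h1 h2 h3 h4 i
      simp only [fY_inv]
      unfold fH at e ⊢
      rw [mul_div_right_comm, e]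
      have n1 := hg.fY_ne (hyU y) (h.sub' (h.sub (h1 i)))
      rw [div_eq_mul_inv, div_eq_mul_inv, mul_assoc, ← mul_inv]
      congr 2
      ring
  -- the integrand of the right side
  have eR : ∀ y : Fin l → Ξ₂, oP γ₂ κ₂ f₂ q c₂ y * JJ μ γ κ (fun z => F c z * fY γ₂ g y z) q c k =
      (k.factorial : ℂ) * (WW (F c) r c * ∑ D ∈ (univ : Finset ν).powerset, if D.card ≤ m then
        (-1 : ℂ) ^ D.card * (wG (G c) q c d D / (m - D.card).factorial *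
          (oP γ₂ κ₂ (fun z => f₂ z * fX g c d D z) q c₂ y *
            JJ μ' γ' κ' (fun z => fG (G c) q d D z * fY γ₂ (fun z => (g z)⁻¹) y z) q
              (Sum.elim c d) (m - D.card))) else 0) := by
    intro y
    have f1 : (k.factorial : ℂ) ≠ 0 := by exact_mod_cast k.factorial_ne_zero
    have e1 := key y
    rw [div_eq_iff f1] at e1
    rw [e1]
    have e2 : WW (fun z => F c z * fY γ₂ g y z) r c = WW (F c) r c * ∏ i, fY γ₂ g y (c i) := by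
      unfold WW
      rw [prod_mul_distrib]
      ring
    rw [e2]
    unfold SG
    rw [mul_sum, sum_mul, mul_sum, mul_sum, mul_sum]
    refine sum_congr rfl fun D _ => ?_
    split_ifs with hD
    · have e3 : wG (fun z => G c z * fY γ₂ (fun z => (g z)⁻¹) y z) q c d D =
          wG (G c) q c d D * ∏ j ∈ D, (fY γ₂ g y (d j))⁻¹ := by
        unfold wG
        simp only [fY_inv]
        have : ∀ j, G c (d j) * (fY γ₂ g y (d j))⁻¹ /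
            ((∏ i, (d j - c i)) * ∏ j' ∈ univ.erase j, (d j - d j')) =
            G c (d j) / ((∏ i, (d j - c i)) * ∏ j' ∈ univ.erase j, (d j - d j')) *
              (fY γ₂ g y (d j))⁻¹ := fun j => by ring
        simp only [this]
        rw [prod_mul_distrib]
        ring
      have e4 : fG (fun z => G c z * fY γ₂ (fun z => (g z)⁻¹) y z) q d D =
          fun z => fG (G c) q d D z * fY γ₂ (fun z => (g z)⁻¹) y z := by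
        funext z
        unfold fG
        ring
      rw [e3, e4, oP_mul γ₂ κ₂ f₂ (fX g c d D), prod_fX]
      ring
    · ring
  rw [JJ2_fubI i1]
  simp only [eR]
  have f1 : (k.factorial : ℂ) ≠ 0 := by exact_mod_cast k.factorial_ne_zero
  rw [integral_const_mul, integral_const_mul, integral_finsetSum, mul_div_cancel_left₀ _ f1]
  · congr 1
    refine sum_congr rfl fun D _ => ?_
    split_ifs with hD
    · rw [integral_const_mul, integral_const_mul, ← JJ2_fubI (i2 D hD)]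
      ring
    · simp
  · intro D _
    split_ifs with hD
    · exact ((intI_fub (i2 D hD)).const_mul _).const_mul _
    · exact integrable_zero _ _ _

/-- the step, product bounds -/
theorem JJ2_step [LinearOrder ι] [Fintype ι] [LinearOrder ν] [Fintype ν] {ι₂ : Type*} [Fintype ι₂]
    (h : Cg μ γ κ U S Ω φ w) (h' : Cg μ' γ' κ' U' S' Ω' φ' w') (h₂ : Cg μ₂ γ₂ κ₂ U₂ S₂ Ω₂ φ₂ w₂)
    {q r : ℂ → ℂ} (hq : Pq q U S V φ) (hq' : Pq q U' S' V' φ') (hq₂ : Pq q U₂ S₂ V₂ φ₂)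
    (hr : Rf q r U V) {Vg' : Set ℂ} {ψ' ψ₂' : ℂ → ℝ}
    (hg : Xf g U U₂ S S₂ Vg ψ ψ₂) (hg' : Xf (fun z => (g z)⁻¹) U' U₂ S' S₂ Vg' ψ' ψ₂')
    {k m l : ℕ} (hk : k + m = Fintype.card ι) {F G : (ι → ℂ) → ℂ → ℂ}
    (hF : Fg U S Ω φ w k (fun z => ψ z ^ l) F) (hG : Fg U' S' Ω' φ' w' m (fun z => ψ' z ^ l) G)
    (h0 : ∀ c : ι → ℂ, (∀ i, c i ∈ Ω) → ∀ i, F c (c i) ≠ 0)
    {d : ν → ℂ} (hd : Function.Injective d) (hdΩ : ∀ j, d j ∈ Ω')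
    (he : ∀ c : ι → ℂ, (∀ i, c i ∈ Ω) → (∀ i, c i ∈ Ω') → Function.Injective c →
      (∀ i j, c i ≠ d j) → ∀ i, G c (c i) / ∏ j, (c i - d j) = fH (F c) r c (c i))
    {c : ι → ℂ} (hc : ∀ i, c i ∈ Ω) (hc' : ∀ i, c i ∈ Ω') (hcd : ∀ i j, c i ≠ d j)
    {c₂ : ι₂ → ℂ} {f₂ : ℂ → ℂ} (hf₂ : ContinuousOn f₂ U₂)
    (b1 : BJ γ₂ κ₂ f₂ q c₂ l ψ₂ w₂ k)
    (b2 : ∀ D : Finset ν, D.card ≤ m →
      BJ γ₂ κ₂ (fun z => f₂ z * fX g c d D z) q c₂ l ψ₂' w₂ (m - D.card)) :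
    JJ2 μ γ κ μ₂ γ₂ κ₂ (F c) f₂ q g c c₂ k l / k.factorial = WW (F c) r c *
      ∑ D ∈ (univ : Finset ν).powerset, if D.card ≤ m then (-1 : ℂ) ^ D.card *
        (wG (G c) q c d D * (JJ2 μ' γ' κ' μ₂ γ₂ κ₂ (fG (G c) q d D) (fun z => f₂ z * fX g c d D z)
          q (fun z => (g z)⁻¹) (Sum.elim c d) c₂ (m - D.card) l / (m - D.card).factorial)) else 0 := by
  have hcU : ∀ i, c i ∈ U := fun i => h.sub' (h.sub (hc i))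
  have hdU : ∀ j, d j ∈ U' := fun j => h'.sub' (h'.sub (hdΩ j))
  have pφ' : ∀ z, 0 ≤ φ' z := fun z => zero_le_one.trans (h'.φ1 z)
  have FB : ∀ D : Finset ν, D.card ≤ m → BJ γ' κ' (fG (G c) q d D) q (Sum.elim c d) (m - D.card)
      ψ' w' l := by
    intro D hD
    rcases Nat.eq_zero_or_pos (m - D.card) with h1 | h1
    · rw [h1]
      exact h'.BJ_zero _ _ _ _ _
    · refine h'.BJ_of (V := V') ?_ hq' hg'.ψ1 ?_
      · intro x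
        rcases x with i | j
        · exact hc' i
        · exact hdΩ j
      · obtain ⟨C, p0, hC⟩ := hG.bd c hc'
        obtain ⟨B, b0, hB⟩ := hq'.bd
        have hS : ∀ j, d j ∈ S' := fun j => h'.sub (hdΩ j)
        refine ⟨C * ∏ j ∈ D, (B * φ' (d j)), ?_, fun z hz => ?_⟩
        · exact mul_nonneg p0 (prod_nonneg fun j _ => mul_nonneg b0 (pφ' _))
        have a1 : ∏ j ∈ D, ‖q (z - d j)‖ ≤ ∏ j ∈ D, ((B * φ' (d j)) * φ' z) :=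
          prod_le_prod (fun _ _ => norm_nonneg _) fun j _ => (hB z hz _ (hS j)).trans
            (le_of_eq (by ring))
        rw [prod_mul_distrib, prod_const] at a1
        have a2 := hC.self_of_nhds z hz
        have a3 : φ' z ^ D.card * φ' z ^ (m - D.card - 1) = φ' z ^ (m - 1) := by
          rw [← pow_add]
          congr 1
          omega
        have a4 := pφ' z
        have a5 : 0 ≤ ∏ j ∈ D, (B * φ' (d j)) := prod_nonneg fun j _ => mul_nonneg b0 (pφ' _)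
        have a6 : 0 ≤ ψ' z ^ l := pow_nonneg (hg'.ψ1 z) l
        unfold fG
        rw [norm_mul, norm_prod]
        calc ‖G c z‖ * (∏ j ∈ D, ‖q (z - d j)‖) * φ' z ^ (m - D.card - 1) * ψ' z ^ l
            ≤ ‖G c z‖ * ((∏ j ∈ D, (B * φ' (d j))) * φ' z ^ D.card) *
              φ' z ^ (m - D.card - 1) * ψ' z ^ l := by gcongr
          _ = (‖G c z‖ * (φ' z ^ D.card * φ' z ^ (m - D.card - 1)) * ψ' z ^ l) *
              ∏ j ∈ D, (B * φ' (d j)) := by ring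
          _ ≤ (C * w' z) * ∏ j ∈ D, (B * φ' (d j)) := by
              rw [a3]
              gcongr
          _ = C * (∏ j ∈ D, (B * φ' (d j))) * w' z := by ring
  have hcF : ContinuousOn (F c) U := (hF.an c hc).continuousOn
  have hcG : ∀ D : Finset ν, ContinuousOn (fG (G c) q d D) U' := by
    intro D
    unfold fG
    refine (hG.an c hc').continuousOn.mul (continuousOn_finsetProd _ fun j _ => ?_)
    exact hq'.an.continuousOn.comp (by fun_prop) fun z hz => hq'.dif z hz _ (hdU j)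
  have hcX : ∀ D : Finset ν, ContinuousOn (fun z => f₂ z * fX g c d D z) U₂ := by
    intro D
    unfold fX
    refine hf₂.mul ((continuousOn_finsetProd _ fun i _ => ?_).mul
      (continuousOn_finsetProd _ fun j _ => ?_))
    · exact hg.an.continuousOn.comp (by fun_prop) fun z hz => hg.dif _ (hcU i) z hz
    · exact hg'.an.continuousOn.comp (f := fun z => d j - z) (by fun_prop)
        fun z hz => hg'.dif _ (hdU j) z hz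
  have bF : BJ γ κ (F c) q c k ψ w l := by
    refine h.BJ_of hc hq hg.ψ1 ?_
    obtain ⟨C, p0, hC⟩ := hF.bd c hc
    exact ⟨C, p0, fun z hz => hC.self_of_nhds z hz⟩
  exact JJ2_stepI h h' h₂ hq hq' hr hg hg' hk hF hG h0 hd hdΩ he hc hc' hcd
    (int_JJ2 h h₂ hq hq₂ hg hcF hf₂ bF b1)
    fun D hD => int_JJ2 h' h₂ hq' hq₂ hg' (hcG D) (hcX D) (FB D hD) (b2 D hD)

end step

end Pool.Agent.PHD

end
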